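import Pool.Agent.N276.MB.Jump

set_option autoImplicit false

open MeasureTheory Set Filter Topology
open scoped ENNReal Classical

namespace Pool.Agent.N276.MB

theorem root_mem {D : ℕ → ℕ} (h3 : ∀ k, 3 ≤ D k) (ω : List ℕ → ℕ) : root ∈ (tree D ω).arc.D := by
  refine ⟨⟨trivial, ?_⟩, Nat.zero_le _, fun _ => rfl⟩
  exact lt_of_lt_of_le (by norm_num [root, rt]) (h3 _)

theorem vd_replicate {D : ℕ → ℕ} (h3 : ∀ k, 3 ≤ D k) (ω : List ℕ → ℕ) {w : List ℕ}
    (hw : Vd D ω w) (k : ℕ) : Vd D ω (List.replicate k 1 ++ w) := by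
  induction k with
  | zero => simpa using hw
  | succ k ih =>
    rw [List.replicate_succ, List.cons_append]
    exact ⟨ih, lt_of_lt_of_le (by norm_num) (h3 _), fun _ => le_refl 1⟩

theorem replicate_append_inj (w : List ℕ) :
    Function.Injective fun k : ℕ =>
      (((List.replicate k 1 ++ w, 0), 0, true) : (List ℕ × ℕ) × ℕ × Bool) := by
  intro k k' h
  simp only [Prod.mk.injEq, and_true] at h
  have := congrArg List.length h
  simpa using this

theorem side_infinite {D : ℕ → ℕ} (h3 : ∀ k, 3 ≤ D k) (ω : List ℕ → ℕ) :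
    ((tree D ω).arc.D ∩ side).Infinite := by
  refine Set.infinite_of_injective_forall_mem (replicate_append_inj [0]) fun k => ⟨⟨⟨?_, ?_⟩, ?_⟩, ?_⟩
  · have h0 : Vd D ω [0] :=
      ⟨trivial, lt_of_lt_of_le (by norm_num) (h3 _), fun h => absurd rfl h⟩
    exact vd_replicate h3 ω h0 k
  · exact lt_of_lt_of_le (by norm_num) (h3 _)
  · exact ⟨Nat.zero_le _, fun _ => rfl⟩
  · exact ⟨_, rfl⟩

theorem compl_infinite {D : ℕ → ℕ} (h3 : ∀ k, 3 ≤ D k) (ω : List ℕ → ℕ) :
    ((tree D ω).arc.D \ side).Infinite := by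
  refine Set.infinite_of_injective_forall_mem (replicate_append_inj []) fun k => ⟨⟨⟨?_, ?_⟩, ?_⟩, ?_⟩
  · have h0 : Vd D ω [] := trivial
    exact vd_replicate h3 ω h0 k
  · exact lt_of_lt_of_le (by norm_num) (h3 _)
  · exact ⟨Nat.zero_le _, fun _ => rfl⟩
  · rintro ⟨w, hw⟩
    have h0 : (0 : ℕ) ∈ List.replicate k 1 := by
      simp only [List.append_nil] at hw
      rw [hw]; simp
    exact absurd (List.eq_of_mem_replicate h0) (by norm_num)

theorem dens_ne (ω : List ℕ → ℕ) : (2 * (ω [] : ℝ≥0∞) + 1) / 3 ≠ 0 := by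
  refine ENNReal.div_ne_zero.2 ⟨?_, by norm_num⟩
  positivity

theorem dens_meas : Measurable fun ω : List ℕ → ℕ => (2 * (ω [] : ℝ≥0∞) + 1) / 3 := by
  have : Measurable fun ω : List ℕ → ℕ => ω [] := measurable_pi_apply _
  have h : Measurable fun k : ℕ => (2 * (k : ℝ≥0∞) + 1) / 3 := measurable_from_top
  exact h.comp this

theorem law_ac : law ≪ mu := withDensity_absolutelyContinuous _ _

theorem mu_ac : mu ≪ law :=
  withDensity_absolutelyContinuous' dens_meas.aemeasurable (Eventually.of_forall dens_ne)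

theorem mu_zero_pos (h : StmProb) : 0 < mu {ω | ω [] = 0} := by
  have := h.1
  have h1 : MeasurePreserving (Function.eval ([] : List ℕ)) mu geo :=
    measurePreserving_eval_infinitePi (fun _ : List ℕ => geo) []
  have h2 : mu (Function.eval ([] : List ℕ) ⁻¹' {0}) = geo {0} :=
    h1.measure_preimage (MeasurableSet.of_discrete).nullMeasurableSet
  have h3 : {ω : List ℕ → ℕ | ω [] = 0} = Function.eval ([] : List ℕ) ⁻¹' {0} := rfl
  rw [h3, h2, geo, Measure.sum_apply _ MeasurableSet.of_discrete]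
  refine lt_of_lt_of_le ?_ (ENNReal.le_tsum 0)
  simp

/-- the random map -/
noncomputable def theMap (D : ℕ → ℕ) (h3 : ∀ k, 3 ≤ D k) (hGA : StmGoodAE) (hM : StmMeas)
    (hPl : StmPlane) : RandomMap ((List ℕ × ℕ) × ℕ × Bool) (List ℕ → ℕ) law where
  M ω := (tree D ω).arc
  r _ := root
  plane := by
    have h : ∀ᵐ ω ∂law, (tree D ω).Good := law_ac.ae_le (hGA D h3)
    exact h.mono fun ω hω => hPl D ω h3 hω
  meas_D := (hM D h3).1
  meas_s := (hM D h3).2.1
  meas_a := (hM D h3).2.2.1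
  meas_r _ := MeasurableSet.const _

theorem final (hAV : StmArcValid) (hV : StmArcVertex) (hT : StmTree) (hG : StmGreen)
    (hC : StmCross) (hL : StmCrossList) (hP : StmPath) (hPr : StmProb) (hGA : StmGoodAE)
    (hE : StmEvent) (hM : StmMeas) (hR : StmReversible) (hPl : StmPlane) (hO : StmOneEnded)
    (hN : StmNonAmenable) (hI : StmIso0) (hTop : StmTop) : StmFinal := by
  obtain ⟨n, hn⟩ := hE
  obtain ⟨D, hD⟩ := growth n
  have h3 := hD.three
  have : IsProbabilityMeasure law := hPr.2.2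
  have hfin : ∀ ω, (tree D ω).Good → ∀ x ∈ (tree D ω).arc.D, ∀ y ∈ (tree D ω).arc.D,
      (tree D ω).arc.green x y ≠ ⊤ := by
    intro ω hω x hx y hy
    refine ne_top_of_le_ne_top ?_ (hG D ω h3 hω x hx y hy)
    exact ENNReal.mul_ne_top (by norm_num)
      (ENNReal.add_ne_top.2 ⟨ENNReal.mul_ne_top (by norm_num) (by simp), by norm_num⟩)
  have hgood : ∀ᵐ ω ∂law, (tree D ω).Good := law_ac.ae_le (hGA D h3)
  refine ⟨(List ℕ × ℕ) × ℕ × Bool, List ℕ → ℕ, inferInstance, inferInstance, law, hPr.2.2,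
    theMap D h3 hGA hM hPl, hR D h3, ?_, ?_, ?_⟩
  · exact hgood.mono fun ω hω => ⟨hO D ω h3 hω, hfin ω hω⟩
  · refine hN _ _ law (theMap D h3 hGA hM hPl) (D 0) ?_ ?_
    · exact hgood.mono fun ω hω => hI D ω hD.four (fun k => hD.1 (Nat.zero_le k)) hω
    · refine lt_of_lt_of_le (?_ : 0 < law ({ω | ω [] = 0} \ {ω | ¬ (tree D ω).Good})) (measure_mono ?_)
      · rw [measure_sdiff_null (ae_iff.1 hgood)]
        refine pos_iff_ne_zero.2 fun h => ?_
        exact (mu_zero_pos hPr).ne' (mu_ac h)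
      · rintro ω ⟨h0, h1⟩
        have h0' : ω [] = 0 := h0
        have hg : (tree D ω).Good := by
          by_contra h; exact h1 h
        show (tree D ω).arc.deg root = D 0
        rw [(hV _ _ hg root (root_mem h3 ω)).1, (hT D ω h3).2.2.2.2.1 _ (root_mem h3 ω).1]
        show (2 * ω [] + 1) * D (ω []) = D 0
        rw [h0']; simp
  · refine ⟨{ω | Ev D n ω} \ toMeasurable law {ω | ¬ (tree D ω).Good},
      ((hM D h3).2.2.2 n).diff (measurableSet_toMeasurable _ _), ?_, ?_⟩
    · rw [measure_sdiff_null (by rw [measure_toMeasurable]; exact ae_iff.1 hgood)]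
      refine pos_iff_ne_zero.2 fun h => ?_
      exact (hn D h3).ne' (mu_ac h)
    · rintro ω ⟨hev, h1⟩
      have hg : (tree D ω).Good := by
        by_contra h; exact h1 (subset_toMeasurable _ _ h)
      have hj := jump hAV hV hT hG hC hL hP n D ω hD hg hev
      exact hTop _ (tree D ω).arc (hPl D ω h3 hg).1 root (root_mem h3 ω) ((tree D ω).arc.a root)
        ((hAV _ _ hg).a_mem _ (root_mem h3 ω)) (hfin ω hg) side (side_infinite h3 ω)
        (compl_infinite h3 ω) hj.1 hj.2

end Pool.Agent.N276.MB
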