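import Pool.Agent.N276.MB.Stm

/-!
# The law of the labels is invariant under rotation and reversal of the root dart
-/

set_option autoImplicit false

open MeasureTheory Set Filter Topology
open scoped ENNReal Classical

namespace Pool.Agent.N276.MB

namespace Pres

lemma lintegral_geo (f : ℕ → ℝ≥0∞) : ∫⁻ k, f k ∂geo = ∑' k : ℕ, (2:ℝ≥0∞)⁻¹ ^ (k + 1) * f k := by
  unfold geo
  rw [lintegral_sum_measure]
  refine tsum_congr fun k => ?_
  rw [lintegral_smul_measure, lintegral_dirac, smul_eq_mul]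

lemma half_pow (n : ℕ) : (2:ℝ≥0∞)⁻¹ ^ n = ENNReal.ofReal ((1 / 2 : ℝ) ^ n) := by
  rw [ENNReal.ofReal_pow (by norm_num), one_div, ENNReal.ofReal_inv_of_pos (by norm_num), ENNReal.ofReal_ofNat]

lemma sum_one : ∑' k : ℕ, (2:ℝ≥0∞)⁻¹ ^ (k + 1) * 1 = 1 := by
  have h : HasSum (fun k : ℕ => (1 / 2 : ℝ) ^ (k + 1)) 1 := by
    have h1 := (hasSum_geometric_of_lt_one (r := (1 / 2 : ℝ)) (by norm_num) (by norm_num)).mul_left (1 / 2 : ℝ)
    have e1 : (fun k : ℕ => (1 / 2 : ℝ) ^ (k + 1)) = fun k : ℕ => (1 / 2 : ℝ) * (1 / 2) ^ k := by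
      funext k; ring
    have e2 : (1 / 2 : ℝ) * (1 - 1 / 2)⁻¹ = 1 := by norm_num
    rw [e2] at h1
    rw [e1]
    exact h1
  have h2 := ENNReal.ofReal_tsum_of_nonneg (f := fun k : ℕ => (1 / 2 : ℝ) ^ (k + 1)) (fun k => by positivity) h.summable
  rw [h.tsum_eq, ENNReal.ofReal_one] at h2
  refine Eq.trans (tsum_congr fun k => ?_) h2.symm
  rw [half_pow, mul_one]

lemma sum_law : ∑' k : ℕ, (2:ℝ≥0∞)⁻¹ ^ (k + 1) * ((2 * (k : ℝ≥0∞) + 1) / 3) = 1 := by
  have h : HasSum (fun k : ℕ => (1 / 2 : ℝ) ^ (k + 1) * ((2 * (k : ℝ) + 1) / 3)) 1 := by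
    have h1 := (hasSum_geometric_of_lt_one (r := (1 / 2 : ℝ)) (by norm_num) (by norm_num)).mul_left (1 / 6 : ℝ)
    have h2 := (hasSum_coe_mul_geometric_of_norm_lt_one (r := (1 / 2 : ℝ)) (by norm_num)).mul_left (1 / 3 : ℝ)
    have h3 := h1.add h2
    have e1 : (fun k : ℕ => (1 / 2 : ℝ) ^ (k + 1) * ((2 * (k : ℝ) + 1) / 3)) =
        fun k : ℕ => (1 / 6 : ℝ) * (1 / 2) ^ k + 1 / 3 * ((k : ℝ) * (1 / 2) ^ k) := by
      funext k; ring
    have e2 : (1 / 6 : ℝ) * (1 - 1 / 2)⁻¹ + 1 / 3 * (1 / 2 / (1 - 1 / 2) ^ 2) = 1 := by norm_num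
    rw [e2] at h3
    rw [e1]
    exact h3
  have h2 := ENNReal.ofReal_tsum_of_nonneg (f := fun k : ℕ => (1 / 2 : ℝ) ^ (k + 1) * ((2 * (k : ℝ) + 1) / 3))
    (fun k => by positivity) h.summable
  rw [h.tsum_eq, ENNReal.ofReal_one] at h2
  refine Eq.trans (tsum_congr fun k => ?_) h2.symm
  rw [half_pow, ENNReal.ofReal_mul (by positivity), ENNReal.ofReal_div_of_pos (by norm_num),
    ENNReal.ofReal_add (by positivity) (by norm_num), ENNReal.ofReal_mul (by norm_num), ENNReal.ofReal_natCast,
    ENNReal.ofReal_ofNat, ENNReal.ofReal_ofNat, ENNReal.ofReal_one]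

lemma geo_prob : IsProbabilityMeasure geo := by
  refine ⟨?_⟩
  have h := lintegral_geo fun _ => 1
  rw [lintegral_one, sum_one] at h
  exact h

instance : IsProbabilityMeasure geo := geo_prob

lemma mu_prob : IsProbabilityMeasure mu := by
  unfold mu
  infer_instance

instance : IsProbabilityMeasure mu := mu_prob

lemma law_prob : IsProbabilityMeasure law := by
  refine ⟨?_⟩
  unfold law
  rw [withDensity_apply _ MeasurableSet.univ, Measure.restrict_univ]
  have h1 : MeasurePreserving (fun ω : List ℕ → ℕ => ω []) mu geo := measurePreserving_eval_infinitePi (fun _ => geo) []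
  have h2 := h1.lintegral_comp (f := fun k : ℕ => (2 * (k : ℝ≥0∞) + 1) / 3) (measurable_from_top)
  rw [h2, lintegral_geo]
  exact sum_law

/-! ### the permutations of the words -/

lemma flipW_cons {i : ℕ} {w : List ℕ} (h : ¬ (i = 0 ∧ (w = [] ∨ w = [0]))) : flipW (i :: w) = i :: flipW w := by
  match i, w with
  | 0, [] => exact absurd ⟨rfl, Or.inl rfl⟩ h
  | 0, [0] => exact absurd ⟨rfl, Or.inr rfl⟩ h
  | i + 1, [] => rfl
  | i + 1, j :: w => rfl
  | 0, (j + 1) :: w => rfl
  | 0, 0 :: j :: w => rfl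

lemma flipW_inv : Function.Involutive flipW := by
  intro w
  induction w with
  | nil => rfl
  | cons i w ih =>
    by_cases h : i = 0 ∧ (w = [] ∨ w = [0])
    · obtain ⟨rfl, rfl | rfl⟩ := h
      · rfl
      · rfl
    · rw [flipW_cons h, flipW_cons, ih]
      rintro ⟨h1, h2 | h2⟩
      · apply h
        refine ⟨h1, Or.inr ?_⟩
        rw [h2] at ih
        exact ih.symm
      · apply h
        refine ⟨h1, Or.inl ?_⟩
        rw [h2] at ih
        exact ih.symm

/-- the rotation of the first step -/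
def ro (n i : ℕ) : ℕ := if i < n then (i + 1) % n else i

lemma ro_lt {n i : ℕ} (hi : i < n) : ro n i < n := by
  unfold ro; rw [if_pos hi]; exact Nat.mod_lt _ (by omega)

lemma ro_inj (n : ℕ) : Function.Injective (ro n) := by
  intro i j hij
  by_cases hi : i < n
  · by_cases hj : j < n
    · unfold ro at hij
      rw [if_pos hi, if_pos hj] at hij
      rcases Nat.lt_or_ge (i + 1) n with h1 | h1 <;> rcases Nat.lt_or_ge (j + 1) n with h2 | h2
      · rw [Nat.mod_eq_of_lt h1, Nat.mod_eq_of_lt h2] at hij; omega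
      · have : j + 1 = n := by omega
        rw [Nat.mod_eq_of_lt h1, this, Nat.mod_self] at hij; omega
      · have : i + 1 = n := by omega
        rw [Nat.mod_eq_of_lt h2, this, Nat.mod_self] at hij; omega
      · omega
    · have h1 := ro_lt hi
      rw [hij] at h1
      unfold ro at h1
      rw [if_neg hj] at h1
      exact absurd h1 hj
  · by_cases hj : j < n
    · have h1 := ro_lt hj
      rw [← hij] at h1
      unfold ro at h1
      rw [if_neg hi] at h1
      exact absurd h1 hi
    · unfold ro at hij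
      rwa [if_neg hi, if_neg hj] at hij

lemma ro_surj (n : ℕ) : Function.Surjective (ro n) := by
  intro j
  by_cases hj : j < n
  · by_cases h0 : j = 0
    · refine ⟨n - 1, ?_⟩
      unfold ro
      rw [if_pos (by omega), Nat.sub_add_cancel (by omega), Nat.mod_self, h0]
    · refine ⟨j - 1, ?_⟩
      unfold ro
      rw [if_pos (by omega), Nat.sub_add_cancel (by omega), Nat.mod_eq_of_lt hj]
  · exact ⟨j, by unfold ro; rw [if_neg hj]⟩

lemma rotW_one (n i : ℕ) : rotW n [i] = [ro n i] := rfl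

lemma rotW_cons (n i j : ℕ) (w : List ℕ) : rotW n (i :: j :: w) = i :: rotW n (j :: w) := rfl

lemma rotW_len (n : ℕ) (w : List ℕ) : (rotW n w).length = w.length := by
  induction w with
  | nil => rfl
  | cons i w ih =>
    cases w with
    | nil => rfl
    | cons j w =>
      rw [rotW_cons, List.length_cons, ih]
      rfl

lemma rotW_inj (n : ℕ) : Function.Injective (rotW n) := by
  intro w
  induction w with
  | nil =>
    intro v h
    have := congrArg List.length h
    rw [rotW_len, rotW_len] at this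
    exact (List.length_eq_zero_iff.mp this.symm).symm
  | cons i w ih =>
    intro v h
    have hl := congrArg List.length h
    rw [rotW_len, rotW_len] at hl
    match w, v, hl with
    | [], [k], _ =>
      rw [rotW_one, rotW_one] at h
      rw [ro_inj n (List.cons.inj h).1]
    | j :: w, k :: l :: v, _ =>
      rw [rotW_cons, rotW_cons] at h
      obtain ⟨h1, h2⟩ := List.cons.inj h
      rw [h1, ih h2]
    | [], k :: l :: v, hl => simp at hl
    | j :: w, [k], hl => simp at hl

lemma rotW_surj (n : ℕ) : Function.Surjective (rotW n) := by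
  intro v
  induction v with
  | nil => exact ⟨[], rfl⟩
  | cons i v ih =>
    obtain ⟨w, hw⟩ := ih
    cases v with
    | nil =>
      obtain ⟨k, hk⟩ := ro_surj n i
      exact ⟨[k], by rw [rotW_one, hk]⟩
    | cons j v =>
      cases w with
      | nil => exact absurd hw (by simp [rotW])
      | cons k w => exact ⟨i :: k :: w, by rw [rotW_cons, hw]⟩

/-- the permutation of the words -/
noncomputable def rotE (n : ℕ) : List ℕ ≃ List ℕ := Equiv.ofBijective (rotW n) ⟨rotW_inj n, rotW_surj n⟩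

/-! ### invariance -/

lemma comp_pres (e : List ℕ ≃ List ℕ) : MeasurePreserving (fun ω : List ℕ → ℕ => fun w => ω (e w)) mu mu := by
  have h := Measure.infinitePi_map_piCongrLeft (X := fun _ : List ℕ => ℕ) (μ := fun _ => geo) e.symm
  have e1 : ⇑(MeasurableEquiv.piCongrLeft (fun _ : List ℕ => ℕ) e.symm) = fun ω => fun w => ω (e w) := by
    funext ω w
    have h2 := MeasurableEquiv.piCongrLeft_apply_apply (β := fun _ : List ℕ => ℕ) e.symm ω (e w)
    rw [Equiv.symm_apply_apply] at h2
    exact h2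
  refine ⟨measurable_pi_iff.mpr fun w => measurable_pi_apply _, ?_⟩
  rw [← e1]
  exact h

lemma ev_meas : Measurable fun ω : List ℕ → ℕ => ω [] := measurable_pi_apply _

lemma rot_meas (D : ℕ → ℕ) : Measurable (rot D) := by
  rw [measurable_pi_iff]
  intro w
  have h1 : Measurable fun p : ℕ × (List ℕ → ℕ) => p.2 (rotW (D p.1) w) :=
    measurable_from_prod_countable_right fun k => measurable_pi_apply (rotW (D k) w)
  exact h1.comp (ev_meas.prodMk measurable_id)

lemma fib_meas (k : ℕ) : MeasurableSet {ω : List ℕ → ℕ | ω [] = k} := ev_meas (measurableSet_singleton k)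

lemma split {E : Set (List ℕ → ℕ)} (hE : MeasurableSet E) : mu E = ∑' k : ℕ, mu (E ∩ {ω | ω [] = k}) := by
  rw [← measure_iUnion]
  · congr 1
    ext ω
    simp
  · intro i j hij
    rw [Function.onFun, Set.disjoint_left]
    rintro ω ⟨_, h1⟩ ⟨_, h2⟩
    exact hij (h1.symm.trans h2)
  · intro k
    exact hE.inter (fib_meas k)

lemma rot_pres (D : ℕ → ℕ) : MeasurePreserving (rot D) mu mu := by
  refine ⟨rot_meas D, ?_⟩
  ext E hE
  rw [Measure.map_apply (rot_meas D) hE, split (rot_meas D hE), split hE]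
  refine tsum_congr fun k => ?_
  have hk : MeasurableSet (E ∩ {ω : List ℕ → ℕ | ω [] = k}) := hE.inter (fib_meas k)
  rw [← (comp_pres (rotE (D k))).measure_preimage hk.nullMeasurableSet]
  congr 1
  ext ω
  constructor
  · rintro ⟨h1, h2⟩
    have h2' : ω [] = k := h2
    have h1' : (fun w => ω (rotW (D (ω [])) w)) ∈ E := h1
    rw [h2'] at h1'
    exact ⟨h1', h2'⟩
  · rintro ⟨h1, h2⟩
    have h2' : ω [] = k := h2
    have h1' : (fun w => ω (rotW (D k) w)) ∈ E := h1
    refine ⟨?_, h2'⟩
    show (fun w => ω (rotW (D (ω [])) w)) ∈ E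
    rw [h2']
    exact h1'

end Pres

open Pres

theorem prob : StmProb := ⟨geo_prob, mu_prob, law_prob⟩

theorem pres : StmPres := fun D _ => ⟨rot_pres D, comp_pres (Function.Involutive.toPerm flipW flipW_inv)⟩

end Pool.Agent.N276.MB
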