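import Pool.Agent.N276.MB.GreenAll
import Pool.Agent.N276.MB.Pres
import Pool.Agent.N276.MB.Final

/-!
# Almost surely there is an edge with a jump
-/

set_option autoImplicit false

open MeasureTheory Set Filter Topology
open scoped ENNReal Classical

namespace Pool.Agent.N276.MB

/-- the four half-lines at the edge of the corner `c` -/
def halfc (D : ℕ → ℕ) (ω : List ℕ → ℕ) (c : List ℕ × ℕ) : Fin 4 → ℕ → List ℕ × ℕ :=
  ![fun j => (tree D ω).tau'^[j] c, fun j => (tree D ω).tau^[j + 1] c,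
    fun j => (tree D ω).tau^[j] ((tree D ω).si c),
    fun j => (tree D ω).tau'^[j + 1] ((tree D ω).si c)]

/-- the event `Ev` at the corner `c` -/
def Evc (D n : ℕ → ℕ) (ω : List ℕ → ℕ) (c : List ℕ × ℕ) : Prop :=
  ∀ (a : Fin 4) (i : ℕ), ∃ j < n i, i + 1 ≤ ω (halfc D ω c a j).1

/-- almost surely there is an edge with the event -/
def StmAS : Prop := ∀ D n : ℕ → ℕ, (∀ k, 5 ≤ D k) → 0 < mu {ω | Ev D n ω} →
  ∀ᵐ ω ∂mu, ∃ c ∈ (tree D ω).D, Evc D n ω c

namespace AS

theorem ev_iff (D n : ℕ → ℕ) (ω : List ℕ → ℕ) : Ev D n ω ↔ Evc D n ω rt := Iff.rfl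

/-! ### transport by isomorphisms -/

theorem rt_mem {D : ℕ → ℕ} (hD : ∀ k, 3 ≤ D k) (ω : List ℕ → ℕ) : rt ∈ (tree D ω).D :=
  ⟨trivial, lt_of_lt_of_le (show rt.2 < 3 by simp [rt]) (hD _)⟩

theorem halfc_iso (hT : StmTree) {D : ℕ → ℕ} (hD : ∀ k, 3 ≤ D k) {ω ω' : List ℕ → ℕ}
    {e : List ℕ × ℕ → List ℕ × ℕ} (h : LIso (tree D ω') (tree D ω) e) {c : List ℕ × ℕ}
    (hc : c ∈ (tree D ω').D) (a : Fin 4) (j : ℕ) :
    halfc D ω' c a j ∈ (tree D ω').D ∧ e (halfc D ω' c a j) = halfc D ω (e c) a j := by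
  obtain ⟨hV, h1, h2, h3, -⟩ := hT D ω' hD
  obtain ⟨-, -, g2, -, -⟩ := hT D ω hD
  have hmem : ∀ c ∈ (tree D ω').D, e c ∈ (tree D ω).D := fun c hc => h.bij.mapsTo hc
  have hsi : ∀ c ∈ (tree D ω').D, e ((tree D ω').si c) = (tree D ω).si (e c) := by
    intro c hc
    have h4 := h.s_comm _ (h1 c hc)
    rw [h3 c hc] at h4
    rw [h4, g2 _ (hmem _ (h1 c hc))]
  have ht : ∀ c ∈ (tree D ω').D, (tree D ω').tau c ∈ (tree D ω').D ∧
      e ((tree D ω').tau c) = (tree D ω).tau (e c) := by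
    intro c hc
    refine ⟨h1 _ (hV.a_mem c hc), ?_⟩
    unfold LMap.tau
    rw [hsi _ (hV.a_mem c hc), h.a_comm c hc]
  have ht' : ∀ c ∈ (tree D ω').D, (tree D ω').tau' c ∈ (tree D ω').D ∧
      e ((tree D ω').tau' c) = (tree D ω).tau' (e c) := by
    intro c hc
    refine ⟨hV.a_mem _ (hV.s_mem c hc), ?_⟩
    unfold LMap.tau'
    rw [h.a_comm _ (hV.s_mem c hc), h.s_comm c hc]
  have htn : ∀ (n : ℕ), ∀ c ∈ (tree D ω').D, (tree D ω').tau^[n] c ∈ (tree D ω').D ∧
      e ((tree D ω').tau^[n] c) = (tree D ω).tau^[n] (e c) := by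
    intro n
    induction n with
    | zero => exact fun c hc => ⟨hc, rfl⟩
    | succ n ih =>
      intro c hc
      rw [Function.iterate_succ_apply', Function.iterate_succ_apply']
      obtain ⟨h5, h6⟩ := ih c hc
      exact ⟨(ht _ h5).1, by rw [(ht _ h5).2, h6]⟩
  have htn' : ∀ (n : ℕ), ∀ c ∈ (tree D ω').D, (tree D ω').tau'^[n] c ∈ (tree D ω').D ∧
      e ((tree D ω').tau'^[n] c) = (tree D ω).tau'^[n] (e c) := by
    intro n
    induction n with
    | zero => exact fun c hc => ⟨hc, rfl⟩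
    | succ n ih =>
      intro c hc
      rw [Function.iterate_succ_apply', Function.iterate_succ_apply']
      obtain ⟨h5, h6⟩ := ih c hc
      exact ⟨(ht' _ h5).1, by rw [(ht' _ h5).2, h6]⟩
  fin_cases a
  · exact htn' j c hc
  · exact htn (j + 1) c hc
  · have := htn j _ (h1 c hc)
    rw [hsi c hc] at this
    exact this
  · have := htn' (j + 1) _ (h1 c hc)
    rw [hsi c hc] at this
    exact this

theorem evc_iso (hT : StmTree) {D : ℕ → ℕ} (n : ℕ → ℕ) (hD : ∀ k, 3 ≤ D k) {ω ω' : List ℕ → ℕ}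
    {e : List ℕ × ℕ → List ℕ × ℕ} (h : LIso (tree D ω') (tree D ω) e) {c : List ℕ × ℕ}
    (hc : c ∈ (tree D ω').D) : Evc D n ω' c ↔ Evc D n ω (e c) := by
  have key : ∀ a j, ω' (halfc D ω' c a j).1 = ω (halfc D ω (e c) a j).1 := by
    intro a j
    obtain ⟨h1, h2⟩ := halfc_iso hT hD h hc a j
    have h3 : ω (e (halfc D ω' c a j)).1 = ω' (halfc D ω' c a j).1 := h.l_comm _ h1
    rw [← h3, h2]
  unfold Evc
  simp only [key]

theorem evc_rot (hT : StmTree) (hR : StmRotIso) {D : ℕ → ℕ} (n : ℕ → ℕ) (hD : ∀ k, 3 ≤ D k)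
    (k : ℕ) : ∀ ω : List ℕ → ℕ,
    Evc D n ((rot D)^[k] ω) rt ↔ Evc D n ω ((tree D ω).s^[k] rt) := by
  induction k with
  | zero => exact fun ω => Iff.rfl
  | succ k ih =>
    intro ω
    rw [Function.iterate_succ_apply, ih]
    obtain ⟨h1, h2⟩ := hR D ω hD
    have hV := (hT D (rot D ω) hD).1
    have hmem : ∀ k, (tree D (rot D ω)).s^[k] rt ∈ (tree D (rot D ω)).D := by
      intro k
      induction k with
      | zero => exact rt_mem hD _
      | succ k ih => rw [Function.iterate_succ_apply']; exact hV.s_mem _ ih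
    have hcomm : ∀ k, rotD (D (ω [])) ((tree D (rot D ω)).s^[k] rt) =
        (tree D ω).s^[k] (rotD (D (ω [])) rt) := by
      intro k
      induction k with
      | zero => rfl
      | succ k ih =>
        rw [Function.iterate_succ_apply', Function.iterate_succ_apply', h1.s_comm _ (hmem k), ih]
    rw [evc_iso hT n hD h1 (hmem k), hcomm, h2, ← Function.iterate_succ_apply]

/-! ### the half-lines at an edge from a vertex to its third child -/

/-- the line along the left side: always the last child -/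
def line1 (D : ℕ → ℕ) (ω : List ℕ → ℕ) (u : List ℕ) : ℕ → List ℕ
  | 0 => u
  | j + 1 => (D (ω (line1 D ω u j)) - 1) :: line1 D ω u j

/-- the words on the four half-lines at the edge from `w` to `3 :: w` -/
def W (D : ℕ → ℕ) (ω : List ℕ → ℕ) (w : List ℕ) : Fin 4 → ℕ → List ℕ :=
  ![fun j => if j = 0 then w else List.replicate (j - 1) 1 ++ (4 :: w),
    fun j => line1 D ω (3 :: w) j,
    fun j => if j = 0 then w else line1 D ω (2 :: w) (j - 1),
    fun j => List.replicate j 1 ++ (3 :: w)]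

theorem opp_pos (w : List ℕ) {i : ℕ} (hi : 1 ≤ i) : opp (w, i) = (i :: w, 0) := by
  obtain ⟨k, rfl⟩ : ∃ k, i = k + 1 := ⟨i - 1, by omega⟩
  cases w with
  | nil => rfl
  | cons j w => rfl

variable {D : ℕ → ℕ} (hD : ∀ k, 5 ≤ D k) (ω : List ℕ → ℕ)

include hD

theorem tau'_eq (u : List ℕ) {i : ℕ} (hi : i ≤ 3) :
    (tree D ω).tau' (u, i) = ((i + 1) :: u, 0) := by
  show opp (u, (i + 1) % D (ω u)) = _
  rw [Nat.mod_eq_of_lt (lt_of_le_of_lt (Nat.succ_le_succ hi) (lt_of_lt_of_le (by norm_num) (hD _)))]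
  exact opp_pos u (by omega)

theorem tau_eq (u : List ℕ) {i : ℕ} (hi : 1 ≤ i) :
    (tree D ω).tau (u, i) = (i :: u, D (ω (i :: u)) - 1) := by
  show (tree D ω).si (opp (u, i)) = _
  rw [opp_pos u hi]
  show (i :: u, (0 + (D (ω (i :: u)) - 1)) % D (ω (i :: u))) = _
  have := hD (ω (i :: u))
  rw [Nat.mod_eq_of_lt (by omega), zero_add]

theorem tau'_iter (u : List ℕ) {i : ℕ} (hi : i ≤ 3) (j : ℕ) :
    (tree D ω).tau'^[j + 1] (u, i) = (List.replicate j 1 ++ ((i + 1) :: u), 0) := by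
  induction j with
  | zero => rw [zero_add, Function.iterate_one, tau'_eq hD ω u hi]; rfl
  | succ j ih =>
    rw [Function.iterate_succ_apply', ih, tau'_eq hD ω _ (by norm_num), List.replicate_succ]
    rfl

theorem tau_iter (u : List ℕ) {i : ℕ} (hi : 1 ≤ i) (j : ℕ) :
    (tree D ω).tau^[j + 1] (u, i) =
      (line1 D ω (i :: u) j, D (ω (line1 D ω (i :: u) j)) - 1) := by
  induction j with
  | zero => rw [zero_add, Function.iterate_one, tau_eq hD ω u hi]; rfl
  | succ j ih =>
    rw [Function.iterate_succ_apply', ih]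
    have := hD (ω (line1 D ω (i :: u) j))
    rw [tau_eq hD ω _ (by omega)]
    rfl

theorem si_eq (w : List ℕ) : (tree D ω).si (w, 3) = (w, 2) := by
  show (w, (3 + (D (ω w) - 1)) % D (ω w)) = (w, 2)
  have := hD (ω w)
  have h : 3 + (D (ω w) - 1) = 2 + D (ω w) := by omega
  rw [h, Nat.add_mod_right, Nat.mod_eq_of_lt (by omega)]

theorem halfc_word (w : List ℕ) (a : Fin 4) (j : ℕ) :
    (halfc D ω (w, 3) a j).1 = W D ω w a j := by
  fin_cases a
  · show ((tree D ω).tau'^[j] (w, 3)).1 = if j = 0 then w else List.replicate (j - 1) 1 ++ (4 :: w)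
    cases j with
    | zero => rfl
    | succ j => rw [tau'_iter hD ω w (le_refl 3) j]; simp
  · show ((tree D ω).tau^[j + 1] (w, 3)).1 = line1 D ω (3 :: w) j
    rw [tau_iter hD ω w (by norm_num) j]
  · show ((tree D ω).tau^[j] ((tree D ω).si (w, 3))).1 = if j = 0 then w else line1 D ω (2 :: w) (j - 1)
    rw [si_eq hD ω w]
    cases j with
    | zero => rfl
    | succ j => rw [tau_iter hD ω w (by norm_num) j]; simp
  · show ((tree D ω).tau'^[j + 1] ((tree D ω).si (w, 3))).1 = List.replicate j 1 ++ (3 :: w)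
    rw [si_eq hD ω w, tau'_iter hD ω w (by norm_num) j]

omit hD in
/-- the event at the edge from `w` to `3 :: w` -/
def Ex (D n : ℕ → ℕ) (ω : List ℕ → ℕ) (w : List ℕ) : Prop :=
  ∀ (a : Fin 4) (i : ℕ), ∃ j < n i, i + 1 ≤ ω (W D ω w a j)

theorem ex_iff (n : ℕ → ℕ) (w : List ℕ) : Ex D n ω w ↔ Evc D n ω (w, 3) := by
  unfold Ex Evc
  simp only [halfc_word hD ω w]

omit hD

/-- the labels in the subtree at `w` -/
def sh (w : List ℕ) (ω : List ℕ → ℕ) : List ℕ → ℕ := fun u => ω (u ++ w)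

theorem line1_sh (D : ℕ → ℕ) (w u : List ℕ) (j : ℕ) :
    line1 D ω (u ++ w) j = line1 D (sh w ω) u j ++ w := by
  induction j with
  | zero => rfl
  | succ j ih =>
    show (D (ω (line1 D ω (u ++ w) j)) - 1) :: line1 D ω (u ++ w) j = _
    rw [ih]
    rfl

theorem W_sh (D : ℕ → ℕ) (w : List ℕ) (a : Fin 4) (j : ℕ) :
    W D ω w a j = W D (sh w ω) [] a j ++ w := by
  fin_cases a
  · show (if j = 0 then w else List.replicate (j - 1) 1 ++ (4 :: w)) =
      (if j = 0 then [] else List.replicate (j - 1) 1 ++ [4]) ++ w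
    split_ifs
    · rfl
    · simp
  · exact line1_sh ω D w [3] j
  · show (if j = 0 then w else line1 D ω (2 :: w) (j - 1)) =
      (if j = 0 then [] else line1 D (sh w ω) [2] (j - 1)) ++ w
    split_ifs
    · rfl
    · exact line1_sh ω D w [2] (j - 1)
  · show List.replicate j 1 ++ (3 :: w) = (List.replicate j 1 ++ [3]) ++ w
    simp

theorem ex_sh (D n : ℕ → ℕ) (w : List ℕ) : Ex D n ω w ↔ Ex D n (sh w ω) [] := by
  unfold Ex
  have : ∀ a j, ω (W D ω w a j) = sh w ω (W D (sh w ω) [] a j) := by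
    intro a j
    rw [W_sh]
    rfl
  simp only [this]

/-! ### gluing independent labels -/

/-- the labels `ω₂` in the subtree at `[1]`, the labels `ω₁` elsewhere -/
def glue (p : (List ℕ → ℕ) × (List ℕ → ℕ)) : List ℕ → ℕ :=
  fun w => if w.getLast? = some 1 then p.2 w.dropLast else p.1 w

theorem glue_sh (p : (List ℕ → ℕ) × (List ℕ → ℕ)) : sh [1] (glue p) = p.2 := by
  funext w
  simp [sh, glue]

theorem glue_of_ne (p : (List ℕ → ℕ) × (List ℕ → ℕ)) {w : List ℕ} (h : w.getLast? ≠ some 1) :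
    glue p w = p.1 w := if_neg h

theorem line1_last (D : ℕ → ℕ) (ω : List ℕ → ℕ) (c j : ℕ) :
    (line1 D ω [c] j).getLast? = some c := by
  induction j with
  | zero => rfl
  | succ j ih =>
    show ((D (ω (line1 D ω [c] j)) - 1) :: line1 D ω [c] j).getLast? = some c
    rw [List.getLast?_cons, ih]
    rfl

theorem line1_glue (D : ℕ → ℕ) (p : (List ℕ → ℕ) × (List ℕ → ℕ)) {c : ℕ} (hc : c ≠ 1) (j : ℕ) :
    line1 D (glue p) [c] j = line1 D p.1 [c] j := by
  induction j with
  | zero => rfl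
  | succ j ih =>
    show (D (glue p (line1 D (glue p) [c] j)) - 1) :: line1 D (glue p) [c] j = _
    rw [ih, glue_of_ne]
    · rfl
    · rw [line1_last]; simpa using hc

theorem W_glue (D : ℕ → ℕ) (p : (List ℕ → ℕ) × (List ℕ → ℕ)) (a : Fin 4) (j : ℕ) :
    W D (glue p) [] a j = W D p.1 [] a j ∧ (W D p.1 [] a j).getLast? ≠ some 1 := by
  fin_cases a
  · refine ⟨rfl, ?_⟩
    show (if j = 0 then [] else List.replicate (j - 1) 1 ++ [4]).getLast? ≠ some 1
    split_ifs
    · simp
    · simp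
  · refine ⟨line1_glue D p (by norm_num) j, ?_⟩
    show (line1 D p.1 [3] j).getLast? ≠ some 1
    rw [line1_last]; simp
  · show (if j = 0 then [] else line1 D (glue p) [2] (j - 1)) =
      (if j = 0 then [] else line1 D p.1 [2] (j - 1)) ∧
      (if j = 0 then [] else line1 D p.1 [2] (j - 1)).getLast? ≠ some 1
    split_ifs
    · simp
    · refine ⟨line1_glue D p (by norm_num) _, ?_⟩
      rw [line1_last]; simp
  · refine ⟨rfl, ?_⟩
    show (List.replicate j 1 ++ [3]).getLast? ≠ some 1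
    simp

theorem ex_glue (D n : ℕ → ℕ) (p : (List ℕ → ℕ) × (List ℕ → ℕ)) :
    Ex D n (glue p) [] ↔ Ex D n p.1 [] := by
  unfold Ex
  have : ∀ a j, glue p (W D (glue p) [] a j) = p.1 (W D p.1 [] a j) := by
    intro a j
    obtain ⟨h1, h2⟩ := W_glue D p a j
    rw [h1, glue_of_ne p h2]
  simp only [this]

theorem glue_meas : Measurable glue := by
  rw [measurable_pi_iff]
  intro w
  unfold glue
  by_cases h : w.getLast? = some 1
  · simp only [if_pos h]
    exact (measurable_pi_apply _).comp measurable_snd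
  · simp only [if_neg h]
    exact (measurable_pi_apply _).comp measurable_fst

theorem dropLast_append_one {w : List ℕ} (h : w.getLast? = some 1) : w.dropLast ++ [1] = w := by
  have := List.dropLast_append_getLast? 1 (by rw [h]; rfl)
  exact this

theorem glue_pres : MeasurePreserving glue (mu.prod mu) mu := by
  have hgeo : IsProbabilityMeasure geo := Pres.geo_prob
  have hmu : IsProbabilityMeasure mu := Pres.mu_prob
  refine ⟨glue_meas, ?_⟩
  refine Measure.eq_infinitePi (fun _ : List ℕ => geo) fun s t ht => ?_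
  rw [Measure.map_apply glue_meas (MeasurableSet.pi s.countable_toSet fun i _ => ht i)]
  set s0 : Finset (List ℕ) := s.filter fun w => ¬ w.getLast? = some 1 with hs0
  set s1 : Finset (List ℕ) := s.filter fun w => w.getLast? = some 1 with hs1
  have hpre : glue ⁻¹' ((s : Set (List ℕ)).pi t) =
      ((s0 : Set (List ℕ)).pi t) ×ˢ
        (((s1.image List.dropLast : Finset (List ℕ)) : Set (List ℕ)).pi fun u => t (u ++ [1])) := by
    ext p
    simp only [mem_preimage, mem_prod, Set.mem_pi, Finset.mem_coe, Finset.mem_image]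
    constructor
    · intro h
      refine ⟨fun w hw => ?_, ?_⟩
      · obtain ⟨hw1, hw2⟩ := Finset.mem_filter.1 hw
        have := h w hw1
        rwa [glue_of_ne p hw2] at this
      · rintro u ⟨w, hw, rfl⟩
        obtain ⟨hw1, hw2⟩ := Finset.mem_filter.1 hw
        have := h w hw1
        unfold glue at this
        rw [if_pos hw2] at this
        rwa [dropLast_append_one hw2]
    · rintro ⟨h0, h1⟩ w hw
      by_cases hw2 : w.getLast? = some 1
      · have := h1 w.dropLast ⟨w, Finset.mem_filter.2 ⟨hw, hw2⟩, rfl⟩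
        rw [dropLast_append_one hw2] at this
        unfold glue
        rwa [if_pos hw2]
      · rw [glue_of_ne p hw2]
        exact h0 w (Finset.mem_filter.2 ⟨hw, hw2⟩)
  rw [hpre, Measure.prod_prod]
  unfold mu
  rw [Measure.infinitePi_pi (fun _ : List ℕ => geo) (fun i _ => ht i),
    Measure.infinitePi_pi (fun _ : List ℕ => geo) (fun i _ => ht (i ++ [1]))]
  rw [Finset.prod_image]
  · rw [← Finset.prod_filter_mul_prod_filter_not s (fun w => w.getLast? = some 1), mul_comm]
    congr 1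
    refine Finset.prod_congr rfl fun w hw => ?_
    rw [dropLast_append_one (Finset.mem_filter.1 hw).2]
  · intro w hw w' hw' h
    rw [← dropLast_append_one (Finset.mem_filter.1 hw).2,
      ← dropLast_append_one (Finset.mem_filter.1 hw').2, h]

/-! ### the recursion -/

theorem sh_meas (w : List ℕ) : Measurable (sh w) :=
  measurable_pi_iff.2 fun u => measurable_pi_apply (u ++ w)

theorem sh_replicate (j : ℕ) : sh (List.replicate (j + 1) 1) ω = sh (List.replicate j 1) (sh [1] ω) := by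
  funext u
  show ω (u ++ List.replicate (j + 1) 1) = ω ((u ++ List.replicate j 1) ++ [1])
  rw [List.replicate_succ', List.append_assoc]

theorem ex_nil (hT : StmTree) (hR : StmRotIso) {D : ℕ → ℕ} (hD : ∀ k, 5 ≤ D k) (n : ℕ → ℕ) :
    {ω | Ex D n ω []} = (rot D)^[3] ⁻¹' {ω | Ev D n ω} := by
  have h3 : ∀ k, 3 ≤ D k := fun k => le_trans (by norm_num) (hD k)
  ext ω
  show Ex D n ω [] ↔ Ev D n ((rot D)^[3] ω)
  rw [ev_iff, evc_rot hT hR n h3 3 ω, ex_iff hD]
  have : (tree D ω).s^[3] rt = ([], 3) := by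
    show (([] : List ℕ), (((0 + 1) % D (ω []) + 1) % D (ω []) + 1) % D (ω [])) = ([], 3)
    have := hD (ω [])
    rw [Nat.mod_eq_of_lt (a := 0 + 1) (by omega), Nat.mod_eq_of_lt (a := 0 + 1 + 1) (by omega),
      Nat.mod_eq_of_lt (by omega)]
  rw [this]

end AS

open AS

theorem almost_sure (hT : StmTree) (hP : StmPres) (hR : StmRotIso) (hM : StmMeas) : StmAS := by
  intro D n hD hpos
  have hmu : IsProbabilityMeasure mu := Pres.mu_prob
  have h3 : ∀ k, 3 ≤ D k := fun k => le_trans (by norm_num) (hD k)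
  have hrot : MeasurePreserving (rot D)^[3] mu mu := (hP D h3).1.iterate 3
  have hmeas0 : MeasurableSet {ω | Ex D n ω []} := by
    rw [ex_nil hT hR hD n]
    exact hrot.measurable ((hM D h3).2.2.2 n)
  have hpos0 : 0 < mu {ω | Ex D n ω []} := by
    rw [ex_nil hT hR hD n, hrot.measure_preimage ((hM D h3).2.2.2 n).nullMeasurableSet]
    exact hpos
  set N : Set (List ℕ → ℕ) := {ω | ∀ j, ¬ Ex D n ω (List.replicate j 1)} with hN
  have hmeasN : MeasurableSet N := by
    have : N = ⋂ j : ℕ, (sh (List.replicate j 1) ⁻¹' {ω | Ex D n ω []})ᶜ := by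
      ext ω
      simp only [hN, mem_iInter, mem_compl_iff, mem_preimage, mem_setOf_eq, ← ex_sh]
    rw [this]
    exact MeasurableSet.iInter fun j => (sh_meas _ hmeas0).compl
  have hpre : glue ⁻¹' N = {ω | Ex D n ω []}ᶜ ×ˢ N := by
    ext p
    simp only [hN, mem_preimage, mem_prod, mem_compl_iff, mem_setOf_eq]
    have h1 : ∀ j, Ex D n (glue p) (List.replicate (j + 1) 1) ↔ Ex D n p.2 (List.replicate j 1) := by
      intro j
      rw [ex_sh, sh_replicate, glue_sh, ← ex_sh]
    constructor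
    · intro h
      refine ⟨fun h0 => h 0 ((ex_glue D n p).2 h0), fun j hj => h (j + 1) ((h1 j).2 hj)⟩
    · rintro ⟨h0, h2⟩ j
      cases j with
      | zero => exact fun h => h0 ((ex_glue D n p).1 h)
      | succ j => exact fun h => h2 j ((h1 j).1 h)
  have hrec : mu N = mu {ω | Ex D n ω []}ᶜ * mu N := by
    rw [← Measure.prod_prod, ← hpre, glue_pres.measure_preimage hmeasN.nullMeasurableSet]
  have hlt : mu {ω | Ex D n ω []}ᶜ < 1 := by
    rw [prob_compl_eq_one_sub hmeas0]
    exact ENNReal.sub_lt_self ENNReal.one_ne_top one_ne_zero hpos0.ne'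
  have hzero : mu N = 0 := by
    by_contra hne
    have h4 : mu {ω | Ex D n ω []}ᶜ * mu N < 1 * mu N :=
      ENNReal.mul_lt_mul_left hne (measure_ne_top _ _) hlt
    rw [← hrec, one_mul] at h4
    exact lt_irrefl _ h4
  have hae : ∀ᵐ ω ∂mu, ω ∉ N := measure_eq_zero_iff_ae_notMem.1 hzero
  filter_upwards [hae] with ω hω
  simp only [hN, mem_setOf_eq, not_forall, not_not] at hω
  obtain ⟨j, hj⟩ := hω
  refine ⟨(List.replicate j 1, 3), ⟨?_, ?_⟩, (ex_iff hD ω n _).1 hj⟩
  · have h0 : Vd D ω [] := trivial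
    have := vd_replicate h3 ω h0 j
    simpa using this
  · exact lt_of_lt_of_le (by norm_num) (hD _)

end Pool.Agent.N276.MB
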