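import Pool.Agent.N276.MB.Stm

/-!
# The map with arcs: validity and vertices
-/

set_option autoImplicit false

open MeasureTheory Set Filter Topology
open scoped ENNReal Classical

namespace Pool.Agent.N276.MB

namespace Arc

variable {X : Type}

/-- the position number `i` in a corner with label `k` -/
def slot (k i : ℕ) : ℕ × Bool := if i ≤ k then (i, true) else (2 * k + 1 - i, false)

lemma slot_zero (k : ℕ) : slot k 0 = (0, true) := by
  unfold slot
  rw [if_pos (Nat.zero_le k)]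

lemma slot_eq_zero {k i : ℕ} (_ : i < 2 * k + 1) (h : slot k i = (0, true)) : i = 0 := by
  unfold slot at h
  split_ifs at h with h1
  · exact (Prod.mk.inj h).1
  · exact absurd (Prod.mk.inj h).2 (by decide)

lemma mem_slots {k : ℕ} {q : ℕ × Bool} : q ∈ slots k ↔ q.1 ≤ k ∧ (q.1 = 0 → q.2 = true) := by
  unfold slots
  rw [Finset.mem_filter, Finset.mem_product, Finset.mem_range]
  constructor
  · rintro ⟨⟨h1, _⟩, h2⟩
    exact ⟨by omega, h2⟩
  · rintro ⟨h1, h2⟩
    refine ⟨⟨by omega, ?_⟩, h2⟩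
    rcases q.2 with _ | _ <;> simp

lemma slot_mem {k i : ℕ} (hi : i < 2 * k + 1) : slot k i ∈ slots k := by
  rw [mem_slots]
  unfold slot
  split_ifs with h1
  · exact ⟨h1, fun _ => rfl⟩
  · exact ⟨by simp only; omega, fun h => by simp only at h; omega⟩

/-- the inverse of `slot` -/
def unslot (k : ℕ) (q : ℕ × Bool) : ℕ := if q.2 = true then q.1 else 2 * k + 1 - q.1

lemma unslot_lt {k : ℕ} {q : ℕ × Bool} (hq : q ∈ slots k) : unslot k q < 2 * k + 1 := by
  rw [mem_slots] at hq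
  unfold unslot
  split_ifs with h
  · omega
  · have : q.1 ≠ 0 := fun h0 => h (hq.2 h0)
    omega

lemma slot_unslot {k : ℕ} {q : ℕ × Bool} (hq : q ∈ slots k) : slot k (unslot k q) = q := by
  rw [mem_slots] at hq
  obtain ⟨m, b⟩ := q
  unfold unslot slot
  simp only at hq ⊢
  cases b with
  | true =>
    simp only [if_true]
    rw [if_pos hq.1]
  | false =>
    have : m ≠ 0 := fun h0 => absurd (hq.2 h0) (by decide)
    simp only [Bool.false_eq_true, if_false]
    rw [if_neg (by omega)]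
    congr 1
    omega

lemma unslot_slot {k i : ℕ} (hi : i < 2 * k + 1) : unslot k (slot k i) = i := by
  unfold unslot slot
  split_ifs with h1 h2 h2
  · rfl
  · exact absurd rfl h2
  · exact absurd h2 (by decide)
  · simp only; omega

/-! ### the darts -/

lemma tau_mem {L : LMap X} (hG : L.Good) {c : X} (hc : c ∈ L.D) : L.tau c ∈ L.D :=
  hG.si_mem _ (hG.valid.a_mem c hc)

lemma tau'_mem {L : LMap X} (hG : L.Good) {c : X} (hc : c ∈ L.D) : L.tau' c ∈ L.D :=
  hG.valid.a_mem _ (hG.valid.s_mem c hc)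

lemma tau'_tau {L : LMap X} (hG : L.Good) {c : X} (hc : c ∈ L.D) : L.tau' (L.tau c) = c := by
  unfold LMap.tau LMap.tau'
  rw [hG.s_si _ (hG.valid.a_mem c hc), hG.valid.a_a c hc]

lemma tau_tau' {L : LMap X} (hG : L.Good) {c : X} (hc : c ∈ L.D) : L.tau (L.tau' c) = c := by
  unfold LMap.tau LMap.tau'
  rw [hG.valid.a_a _ (hG.valid.s_mem c hc), hG.si_s c hc]

lemma iter_mem {D : Set X} {f : X → X} (hf : ∀ c ∈ D, f c ∈ D) {c : X} (hc : c ∈ D) (n : ℕ) :
    f^[n] c ∈ D := by
  induction n with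
  | zero => exact hc
  | succ n ih =>
    rw [Function.iterate_succ_apply']
    exact hf _ ih

lemma iter_inv {D : Set X} {f f' : X → X} (hf : ∀ c ∈ D, f c ∈ D) (h : ∀ c ∈ D, f' (f c) = c)
    {c : X} (hc : c ∈ D) (n j : ℕ) (hj : j ≤ n) : f'^[j] (f^[n] c) = f^[n - j] c := by
  induction j with
  | zero => rfl
  | succ j ih =>
    rw [Function.iterate_succ_apply', ih (by omega)]
    have h1 : n - j = (n - (j + 1)) + 1 := by omega
    rw [h1, Function.iterate_succ_apply', h _ (iter_mem hf hc _)]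

/-- the first return forward and backward -/
lemma first {D : Set X} {f f' : X → X} (hf : ∀ c ∈ D, f c ∈ D) (h : ∀ c ∈ D, f' (f c) = c)
    (l : X → ℕ) {c : X} (hc : c ∈ D) {m : ℕ} (hm : m ≤ l c)
    (hne : ∃ n, 1 ≤ n ∧ m ≤ l (f^[n] c)) :
    sInf {n | 1 ≤ n ∧ m ≤ l (f'^[n] (f^[sInf {n | 1 ≤ n ∧ m ≤ l (f^[n] c)}] c))} =
      sInf {n | 1 ≤ n ∧ m ≤ l (f^[n] c)} := by
  obtain ⟨n, hn⟩ : ∃ n, n = sInf {n | 1 ≤ n ∧ m ≤ l (f^[n] c)} := ⟨_, rfl⟩
  have hmem : 1 ≤ n ∧ m ≤ l (f^[n] c) := by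
    rw [hn]
    exact Nat.sInf_mem (s := {n | 1 ≤ n ∧ m ≤ l (f^[n] c)}) hne
  rw [← hn]
  have hmem' : n ∈ {j | 1 ≤ j ∧ m ≤ l (f'^[j] (f^[n] c))} := by
    refine ⟨hmem.1, ?_⟩
    rw [iter_inv hf h hc n n le_rfl, Nat.sub_self]
    exact hm
  refine le_antisymm (Nat.sInf_le hmem') ?_
  by_contra hcon
  push Not at hcon
  have h1 := Nat.sInf_mem (s := {j | 1 ≤ j ∧ m ≤ l (f'^[j] (f^[n] c))}) ⟨n, hmem'⟩
  obtain ⟨h2, h3⟩ := h1
  rw [iter_inv hf h hc n _ hcon.le] at h3
  have h4 : n - sInf {j | 1 ≤ j ∧ m ≤ l (f'^[j] (f^[n] c))} < n := by omega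
  have h5 := Nat.notMem_of_lt_sInf (hn ▸ h4 : n - sInf {j | 1 ≤ j ∧ m ≤ l (f'^[j] (f^[n] c))} <
    sInf {n | 1 ≤ n ∧ m ≤ l (f^[n] c)})
  apply h5
  exact ⟨by omega, h3⟩

lemma mem_D {L : LMap X} {p : X × ℕ × Bool} :
    p ∈ L.arc.D ↔ p.1 ∈ L.D ∧ p.2 ∈ slots (L.l p.1) := by
  rw [mem_slots]
  rfl

/-- one step around a vertex -/
lemma step (L : LMap X) (c : X) (i : ℕ) (hi : i < 2 * L.l c + 1) :
    L.arc.s (c, slot (L.l c) i) =
      if i + 1 < 2 * L.l c + 1 then (c, slot (L.l c) (i + 1)) else (L.s c, slot (L.l c) 0) := by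
  rw [slot_zero]
  obtain ⟨k, hk⟩ : ∃ k, k = L.l c := ⟨_, rfl⟩
  rw [← hk] at hi ⊢
  unfold LMap.arc
  simp only
  unfold slot
  rcases lt_trichotomy i k with h | h | h
  · rw [if_pos h.le, if_pos (by omega : i + 1 < 2 * k + 1), if_pos (by omega : i + 1 ≤ k)]
    simp only [if_true]
    rw [← hk, if_pos h]
  · rw [if_pos h.le]
    simp only [if_true]
    rw [← hk, if_neg (by omega : ¬ i < k)]
    by_cases h0 : i = 0
    · rw [if_pos h0, if_neg (by omega)]
    · rw [if_neg h0, if_pos (by omega : i + 1 < 2 * k + 1), if_neg (by omega : ¬ i + 1 ≤ k)]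
      congr 2
      omega
  · rw [if_neg (by omega : ¬ i ≤ k)]
    simp only [Bool.false_eq_true, if_false]
    by_cases h0 : 2 * k + 1 - i ≤ 1
    · rw [if_pos h0, if_neg (by omega)]
    · rw [if_neg h0, if_pos (by omega), if_neg (by omega : ¬ i + 1 ≤ k)]
      congr 2

lemma iter_low (L : LMap X) (c : X) (i : ℕ) (hi : i < 2 * L.l c + 1) :
    L.arc.s^[i] (c, 0, true) = (c, slot (L.l c) i) := by
  induction i with
  | zero => rw [slot_zero]; rfl
  | succ i ih =>
    rw [Function.iterate_succ_apply', ih (by omega), step L c i (by omega), if_pos hi]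

lemma iter_round (L : LMap X) (c : X) :
    L.arc.s^[2 * L.l c + 1] (c, 0, true) = (L.s c, 0, true) := by
  rw [Function.iterate_succ_apply', iter_low L c _ (by omega), step L c _ (by omega),
    if_neg (by omega), slot_zero]

lemma l_iter {L : LMap X} (hG : L.Good) {c : X} (hc : c ∈ L.D) (j : ℕ) :
    L.l (L.s^[j] c) = L.l c := by
  induction j with
  | zero => rfl
  | succ j ih =>
    rw [Function.iterate_succ_apply', hG.l_s _ (iter_mem hG.valid.s_mem hc j), ih]

lemma iter_rounds {L : LMap X} (hG : L.Good) {c : X} (hc : c ∈ L.D) (j : ℕ) :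
    L.arc.s^[(2 * L.l c + 1) * j] (c, 0, true) = (L.s^[j] c, 0, true) := by
  induction j with
  | zero => rfl
  | succ j ih =>
    have h1 : (2 * L.l c + 1) * (j + 1) = (2 * L.l c + 1) + (2 * L.l c + 1) * j := by ring
    rw [h1, Function.iterate_add_apply, ih]
    have h2 := iter_round L (L.s^[j] c)
    rw [l_iter hG hc j] at h2
    rw [h2, Function.iterate_succ_apply']

lemma iter_all {L : LMap X} (hG : L.Good) {c : X} (hc : c ∈ L.D) (j i : ℕ)
    (hi : i < 2 * L.l c + 1) :
    L.arc.s^[(2 * L.l c + 1) * j + i] (c, 0, true) = (L.s^[j] c, slot (L.l c) i) := by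
  rw [add_comm, Function.iterate_add_apply, iter_rounds hG hc j]
  have h2 := iter_low L (L.s^[j] c) i (by rw [l_iter hG hc j]; exact hi)
  rw [l_iter hG hc j] at h2
  exact h2

lemma deg_pos {L : LMap X} (hG : L.Good) {c : X} (hc : c ∈ L.D) : 0 < L.deg c := by
  obtain ⟨n, hn, h⟩ := hG.valid.per c hc
  exact Function.IsPeriodicPt.minimalPeriod_pos hn h

lemma iter_deg (L : LMap X) (c : X) : L.s^[L.deg c] c = c := Function.iterate_minimalPeriod

lemma iter_full {L : LMap X} (hG : L.Good) {c : X} (hc : c ∈ L.D) :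
    L.arc.s^[(2 * L.l c + 1) * L.deg c] (c, 0, true) = (c, 0, true) := by
  rw [iter_rounds hG hc, iter_deg]

lemma exists_start {L : LMap X} {p : X × ℕ × Bool} (hp : p ∈ L.arc.D) :
    ∃ i, i < 2 * L.l p.1 + 1 ∧ p = L.arc.s^[i] (p.1, 0, true) := by
  rw [mem_D] at hp
  refine ⟨unslot (L.l p.1) p.2, unslot_lt hp.2, ?_⟩
  rw [iter_low L p.1 _ (unslot_lt hp.2), slot_unslot hp.2]

lemma deg_zero {L : LMap X} (hG : L.Good) {c : X} (hc : c ∈ L.D) :
    L.arc.deg (c, 0, true) = (2 * L.l c + 1) * L.deg c := by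
  unfold CMap.deg
  apply Nat.dvd_antisymm
  · exact Function.IsPeriodicPt.minimalPeriod_dvd (iter_full hG hc)
  · obtain ⟨N, hN⟩ : ∃ N, N = Function.minimalPeriod L.arc.s (c, 0, true) := ⟨_, rfl⟩
    have h1 : L.arc.s^[N] (c, 0, true) = (c, 0, true) := by
      rw [hN]
      exact Function.iterate_minimalPeriod
    rw [← hN]
    have h2 : N = (2 * L.l c + 1) * (N / (2 * L.l c + 1)) + N % (2 * L.l c + 1) :=
      (Nat.div_add_mod _ _).symm
    have h3 : N % (2 * L.l c + 1) < 2 * L.l c + 1 := Nat.mod_lt _ (by omega)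
    rw [h2, iter_all hG hc _ _ h3] at h1
    have h4 := (Prod.mk.inj h1).1
    have h5 := slot_eq_zero h3 (Prod.mk.inj h1).2
    have h6 : Function.minimalPeriod L.s c ∣ N / (2 * L.l c + 1) :=
      Function.IsPeriodicPt.minimalPeriod_dvd h4
    rw [h2, h5, add_zero]
    exact Nat.mul_dvd_mul_left _ h6

lemma sum_shift (g : ℕ → ℝ≥0∞) (N : ℕ) (hN : 0 < N) (hg : ∀ i, g (i + N) = g i) (t : ℕ) :
    ∑ i ∈ Finset.range N, g (i + t) = ∑ i ∈ Finset.range N, g i := by
  obtain ⟨M, rfl⟩ : ∃ M, N = M + 1 := ⟨N - 1, by omega⟩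
  induction t with
  | zero => rfl
  | succ t ih =>
    rw [← ih, Finset.sum_range_succ, Finset.sum_range_succ' (fun i => g (i + t))]
    congr 1
    · refine Finset.sum_congr rfl fun i _ => ?_
      congr 1
      omega
    · have h1 := hg t
      rw [zero_add, ← h1]
      congr 1
      omega

lemma sum_blocks (g : ℕ → ℝ≥0∞) (a n : ℕ) :
    ∑ i ∈ Finset.range (a * n), g i =
      ∑ j ∈ Finset.range n, ∑ i ∈ Finset.range a, g (a * j + i) := by
  induction n with
  | zero => simp
  | succ n ih =>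
    rw [Nat.mul_succ, Finset.sum_range_add, ih, Finset.sum_range_succ]

lemma sum_slots (k : ℕ) (g : ℕ × Bool → ℝ≥0∞) :
    ∑ i ∈ Finset.range (2 * k + 1), g (slot k i) = ∑ q ∈ slots k, g q := by
  refine Finset.sum_nbij' (slot k) (unslot k) ?_ ?_ ?_ ?_ ?_
  · intro i hi
    exact slot_mem (Finset.mem_range.1 hi)
  · intro q hq
    exact Finset.mem_range.2 (unslot_lt hq)
  · intro i hi
    exact unslot_slot (Finset.mem_range.1 hi)
  · intro q hq
    exact slot_unslot hq
  · intro i _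
    rfl

lemma s_mem {L : LMap X} (hG : L.Good) {p : X × ℕ × Bool} (hp : p ∈ L.arc.D) :
    L.arc.s p ∈ L.arc.D := by
  have hp' := hp
  rw [mem_D] at hp'
  have h1 := step L p.1 (unslot (L.l p.1) p.2) (unslot_lt hp'.2)
  rw [slot_unslot hp'.2] at h1
  have h2 : ((p.1, p.2) : X × ℕ × Bool) = p := rfl
  rw [h2] at h1
  rw [h1]
  split_ifs with h
  · rw [mem_D]
    exact ⟨hp'.1, slot_mem h⟩
  · rw [mem_D]
    simp only
    rw [hG.l_s _ hp'.1]
    exact ⟨hG.valid.s_mem _ hp'.1, slot_mem (by omega)⟩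

end Arc

open Arc

theorem arc_valid : StmArcValid := by
  intro X L hG
  refine ⟨fun p hp => s_mem hG hp, ?_, ?_, ?_, ?_⟩
  · rintro ⟨c, m, b⟩ ⟨hc, hm, hb⟩
    simp only at hc hm hb
    unfold LMap.arc
    simp only
    by_cases h0 : m = 0
    · rw [if_pos h0]
      exact ⟨hG.valid.a_mem c hc, Nat.zero_le _, fun _ => rfl⟩
    · rw [if_neg h0]
      cases b with
      | true =>
        simp only [if_true]
        refine ⟨iter_mem (fun c hc => tau_mem hG hc) hc _, ?_, fun h => absurd h h0⟩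
        exact (Nat.sInf_mem (s := {n | 1 ≤ n ∧ m ≤ L.l (L.tau^[n] c)}) (hG.fwd c hc m)).2
      | false =>
        simp only [Bool.false_eq_true, if_false]
        refine ⟨iter_mem (fun c hc => tau'_mem hG hc) hc _, ?_, fun h => absurd h h0⟩
        exact (Nat.sInf_mem (s := {n | 1 ≤ n ∧ m ≤ L.l (L.tau'^[n] c)}) (hG.bwd c hc m)).2
  · rintro ⟨c, m, b⟩ ⟨hc, hm, hb⟩
    simp only at hc hm hb
    unfold LMap.arc
    simp only
    by_cases h0 : m = 0
    · have hbt := hb h0
      subst h0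
      subst hbt
      simp only [if_true]
      rw [hG.valid.a_a c hc]
    · rw [if_neg h0]
      cases b with
      | true =>
        simp only [if_true, Bool.false_eq_true, if_false]
        rw [if_neg h0]
        have h1 : L.pv m (L.tau^[L.nx m c] c) = L.nx m c :=
          first (fun c hc => tau_mem hG hc) (fun c hc => tau'_tau hG hc) L.l hc hm (hG.fwd c hc m)
        rw [h1, iter_inv (fun c hc => tau_mem hG hc) (fun c hc => tau'_tau hG hc) hc _ _ le_rfl,
          Nat.sub_self]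
        rfl
      | false =>
        simp only [if_true, Bool.false_eq_true, if_false]
        rw [if_neg h0]
        have h1 : L.nx m (L.tau'^[L.pv m c] c) = L.pv m c :=
          first (fun c hc => tau'_mem hG hc) (fun c hc => tau_tau' hG hc) L.l hc hm (hG.bwd c hc m)
        rw [h1, iter_inv (fun c hc => tau'_mem hG hc) (fun c hc => tau_tau' hG hc) hc _ _ le_rfl,
          Nat.sub_self]
        rfl
  · rintro ⟨c, m, b⟩ ⟨hc, hm, hb⟩
    simp only at hc hm hb
    unfold LMap.arc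
    simp only
    by_cases h0 : m = 0
    · rw [if_pos h0]
      intro h
      exact hG.valid.a_ne c hc (Prod.mk.inj h).1
    · rw [if_neg h0]
      cases b with
      | true =>
        simp only [if_true]
        intro h
        exact absurd (Prod.mk.inj (Prod.mk.inj h).2).2 (by decide)
      | false =>
        simp only [Bool.false_eq_true, if_false]
        intro h
        exact absurd (Prod.mk.inj (Prod.mk.inj h).2).2 (by decide)
  · intro p hp
    obtain ⟨i, _, hi⟩ := exists_start hp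
    have hc : p.1 ∈ L.D := (mem_D.1 hp).1
    refine ⟨(2 * L.l p.1 + 1) * L.deg p.1, Nat.mul_pos (by omega) (deg_pos hG hc), ?_⟩
    rw [hi]
    have h1 : (L.arc.s^[i] (p.1, 0, true)).1 = p.1 := by rw [← hi]
    rw [← Function.iterate_add_apply, add_comm, Function.iterate_add_apply, h1, iter_full hG hc]

theorem arc_vertex : StmArcVertex := by
  intro X L hG p hp
  obtain ⟨i0, hi0, hpi⟩ := exists_start hp
  have hc : p.1 ∈ L.D := (mem_D.1 hp).1
  obtain ⟨c, hcc⟩ : ∃ c, c = p.1 := ⟨_, rfl⟩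
  rw [← hcc] at hi0 hpi hc ⊢
  obtain ⟨N, hN⟩ : ∃ N, N = (2 * L.l c + 1) * L.deg c := ⟨_, rfl⟩
  have hN0 : 0 < N := by rw [hN]; exact Nat.mul_pos (by omega) (deg_pos hG hc)
  have hfull : L.arc.s^[N] (c, 0, true) = (c, 0, true) := by rw [hN]; exact iter_full hG hc
  have hdeg : L.arc.deg p = N := by
    rw [hN, ← deg_zero hG hc]
    unfold CMap.deg
    rw [hpi]
    exact Function.minimalPeriod_apply_iterate
      (Function.mk_mem_periodicPts hN0 hfull) i0
  refine ⟨by rw [hdeg, hN], ?_, ?_⟩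
  · intro q
    constructor
    · rintro ⟨n, hn⟩
      refine ⟨?_, ?_⟩
      · rw [← hn]
        exact iter_mem (fun p hp => s_mem hG hp) hp n
      · rw [hpi, ← Function.iterate_add_apply,
          ← Nat.div_add_mod (n + i0) (2 * L.l c + 1),
          iter_all hG hc _ _ (Nat.mod_lt _ (by omega))] at hn
        exact ⟨_, by rw [← hn]⟩
    · rintro ⟨hq, j, hj⟩
      rw [mem_D] at hq
      have hl : L.l q.1 = L.l c := by rw [← hj, l_iter hG hc j]
      rw [hl] at hq
      refine ⟨(2 * L.l c + 1) * (j + L.deg c) + unslot (L.l c) q.2 - i0, ?_⟩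
      have h1 : i0 ≤ (2 * L.l c + 1) * (j + L.deg c) + unslot (L.l c) q.2 := by
        have h2 := deg_pos hG hc
        nlinarith
      rw [hpi, ← Function.iterate_add_apply, Nat.sub_add_cancel h1,
        iter_all hG hc _ _ (unslot_lt hq.2), slot_unslot hq.2, Function.iterate_add_apply, iter_deg,
        hj]
  · intro h
    rw [hdeg, hpi]
    have h1 := sum_shift (fun i => h (L.arc.s^[i] (c, 0, true))) N hN0 (fun i => by
      rw [Function.iterate_add_apply, hfull]) i0
    simp only [Function.iterate_add_apply] at h1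
    rw [h1, hN, sum_blocks]
    refine Finset.sum_congr rfl fun j _ => ?_
    rw [← sum_slots]
    refine Finset.sum_congr rfl fun i hi => ?_
    rw [iter_all hG hc j i (Finset.mem_range.1 hi)]

end Pool.Agent.N276.MB
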