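import Pool.Agent.N276.MB.Stm

/-!
Project MB, part ArcIso: isomorphisms of labelled maps induce isomorphisms of the maps with arcs.
-/

set_option autoImplicit false

open MeasureTheory Set Filter Topology
open scoped ENNReal Classical

namespace Pool.Agent.N276.MB

namespace ArcIso

variable {X : Type} {L L' : LMap X} {e : X → X}

theorem tau_mem (hL : L.Good) {c : X} (hc : c ∈ L.D) : L.tau c ∈ L.D :=
  hL.si_mem _ (hL.valid.a_mem c hc)

theorem tau'_mem (hL : L.Good) {c : X} (hc : c ∈ L.D) : L.tau' c ∈ L.D :=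
  hL.valid.a_mem _ (hL.valid.s_mem c hc)

theorem e_si (hL : L.Good) (hL' : L'.Good) (h : LIso L L' e) {c : X} (hc : c ∈ L.D) :
    e (L.si c) = L'.si (e c) := by
  have h1 := hL.si_mem c hc
  have h2 := h.s_comm _ h1
  rw [hL.s_si c hc] at h2
  rw [h2, hL'.si_s _ (h.bij.mapsTo h1)]

theorem e_tau (hL : L.Good) (hL' : L'.Good) (h : LIso L L' e) {c : X} (hc : c ∈ L.D) :
    e (L.tau c) = L'.tau (e c) := by
  unfold LMap.tau
  rw [e_si hL hL' h (hL.valid.a_mem c hc), h.a_comm c hc]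

theorem e_tau' (hL : L.Good) (h : LIso L L' e) {c : X} (hc : c ∈ L.D) :
    e (L.tau' c) = L'.tau' (e c) := by
  unfold LMap.tau'
  rw [h.a_comm _ (hL.valid.s_mem c hc), h.s_comm c hc]

theorem iter_tau (hL : L.Good) (hL' : L'.Good) (h : LIso L L' e) (n : ℕ) : ∀ {c : X}, c ∈ L.D →
    L.tau^[n] c ∈ L.D ∧ e (L.tau^[n] c) = L'.tau^[n] (e c) := by
  induction n with
  | zero => intro c hc; exact ⟨hc, rfl⟩
  | succ n ih =>
    intro c hc
    rw [Function.iterate_succ_apply, Function.iterate_succ_apply, ← e_tau hL hL' h hc]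
    exact ih (tau_mem hL hc)

theorem iter_tau' (hL : L.Good) (h : LIso L L' e) (n : ℕ) : ∀ {c : X}, c ∈ L.D →
    L.tau'^[n] c ∈ L.D ∧ e (L.tau'^[n] c) = L'.tau'^[n] (e c) := by
  induction n with
  | zero => intro c hc; exact ⟨hc, rfl⟩
  | succ n ih =>
    intro c hc
    rw [Function.iterate_succ_apply, Function.iterate_succ_apply, ← e_tau' hL h hc]
    exact ih (tau'_mem hL hc)

theorem nx_eq (hL : L.Good) (hL' : L'.Good) (h : LIso L L' e) (m : ℕ) {c : X} (hc : c ∈ L.D) :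
    L'.nx m (e c) = L.nx m c := by
  unfold LMap.nx
  congr 1
  ext n
  obtain ⟨h1, h2⟩ := iter_tau hL hL' h n hc
  show (1 ≤ n ∧ m ≤ L'.l (L'.tau^[n] (e c))) ↔ (1 ≤ n ∧ m ≤ L.l (L.tau^[n] c))
  rw [← h2, h.l_comm _ h1]

theorem pv_eq (hL : L.Good) (h : LIso L L' e) (m : ℕ) {c : X} (hc : c ∈ L.D) :
    L'.pv m (e c) = L.pv m c := by
  unfold LMap.pv
  congr 1
  ext n
  obtain ⟨h1, h2⟩ := iter_tau' hL h n hc
  show (1 ≤ n ∧ m ≤ L'.l (L'.tau'^[n] (e c))) ↔ (1 ≤ n ∧ m ≤ L.l (L.tau'^[n] c))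
  rw [← h2, h.l_comm _ h1]

end ArcIso

open ArcIso in
theorem arc_iso : StmArcIso := by
  intro X L L' e hL hL' h
  have hD : ∀ (M : LMap X) (p : X × ℕ × Bool), p ∈ M.arc.D ↔
    (p.1 ∈ M.D ∧ p.2.1 ≤ M.l p.1 ∧ (p.2.1 = 0 → p.2.2 = true)) := fun M p => Iff.rfl
  refine ⟨⟨?_, ?_, ?_⟩, ?_, ?_, ?_⟩
  · rintro ⟨c, m, b⟩ hp
    rw [hD] at hp ⊢
    obtain ⟨h1, h2, h3⟩ := hp
    refine ⟨h.bij.mapsTo h1, ?_, h3⟩
    show m ≤ L'.l (e c)
    rw [h.l_comm c h1]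
    exact h2
  · rintro ⟨c, m, b⟩ hp ⟨c', m', b'⟩ hp' heq
    rw [hD] at hp hp'
    simp only [Prod.mk.injEq] at heq
    obtain ⟨h1, h2, h3⟩ := heq
    have h4 : c = c' := h.bij.injOn hp.1 hp'.1 h1
    rw [h4, h2, h3]
  · rintro ⟨c, m, b⟩ hp
    rw [hD] at hp
    obtain ⟨h1, h2, h3⟩ := hp
    obtain ⟨c₀, hc₀, rfl⟩ := h.bij.surjOn h1
    refine ⟨(c₀, m, b), ?_, rfl⟩
    rw [hD]
    refine ⟨hc₀, ?_, h3⟩
    show m ≤ L.l c₀
    rw [← h.l_comm c₀ hc₀]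
    exact h2
  · rintro ⟨c, m, b⟩ hp
    rw [hD] at hp
    have hc : c ∈ L.D := hp.1
    simp only [LMap.arc, h.l_comm c hc]
    split_ifs <;> simp only [h.s_comm c hc]
  · rintro ⟨c, m, b⟩ hp
    rw [hD] at hp
    have hc : c ∈ L.D := hp.1
    simp only [LMap.arc]
    split_ifs
    · simp only [h.a_comm c hc]
    · simp only [nx_eq hL hL' h m hc, (iter_tau hL hL' h (L.nx m c) hc).2]
    · simp only [pv_eq hL h m hc, (iter_tau' hL h (L.pv m c) hc).2]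
  · intro p _
    simp

end Pool.Agent.N276.MB
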