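import Pool.Agent.N276.MB.Stm

/-!
# The edges across the root edge
-/

set_option autoImplicit false

open MeasureTheory Set Filter Topology
open scoped ENNReal Classical

namespace Pool.Agent.N276.MB

namespace CrossList

/-- Crossing of the boundary of a set `S` by the orbit of `f`; `g` is the inverse of `f`. -/
theorem cross {X : Type} {f g : X → X} {S Dm : Set X} (hf : ∀ c ∈ Dm, f c ∈ Dm)
    (hgf : ∀ c ∈ Dm, g (f c) = c) {r : X} (hcr : ∀ c ∈ Dm, c ∉ S → f c ∈ S → c = r)
    {l : X → ℕ} {m : ℕ} {c : X} (hc : c ∈ Dm) (hcS : c ∉ S)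
    (hne : ∃ n, 1 ≤ n ∧ m ≤ l (f^[n] c))
    (hS : f^[sInf {n | 1 ≤ n ∧ m ≤ l (f^[n] c)}] c ∈ S) (hm : m ≤ l c) :
    c = g^[sInf {j | m ≤ l (g^[j] r)}] r ∧
      f^[sInf {n | 1 ≤ n ∧ m ≤ l (f^[n] c)}] c = f^[sInf {j | m ≤ l (f^[j + 1] r)} + 1] r := by
  set n := sInf {n | 1 ≤ n ∧ m ≤ l (f^[n] c)} with hn
  have hnm : 1 ≤ n ∧ m ≤ l (f^[n] c) := Nat.sInf_mem (s := {n | 1 ≤ n ∧ m ≤ l (f^[n] c)}) hne
  have hlt : ∀ j, 1 ≤ j → j < n → l (f^[j] c) < m := by
    intro j h1 h2
    by_contra h3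
    exact Nat.notMem_of_lt_sInf (s := {n | 1 ≤ n ∧ m ≤ l (f^[n] c)}) h2 ⟨h1, not_lt.1 h3⟩
  have hD : ∀ j, f^[j] c ∈ Dm := by
    intro j
    induction j with
    | zero => exact hc
    | succ j ih =>
      rw [Function.iterate_succ_apply']
      exact hf _ ih
  -- the first crossing
  have hex : ∃ i, f^[i] c ∈ S := ⟨n, hS⟩
  set i := Nat.find hex with hi
  have hiS : f^[i] c ∈ S := Nat.find_spec hex
  have hin : i ≤ n := Nat.find_min' hex hS
  have hi0 : i ≠ 0 := by
    intro h0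
    rw [h0] at hiS
    exact hcS hiS
  obtain ⟨k, hk⟩ := Nat.exists_eq_succ_of_ne_zero hi0
  have hkS : f^[k] c ∉ S := Nat.find_min hex (by omega)
  have hkr : f^[k] c = r := by
    refine hcr _ (hD k) hkS ?_
    have h7 : f^[k + 1] c = f (f^[k] c) := Function.iterate_succ_apply' f k c
    rw [← h7, ← Nat.succ_eq_add_one, ← hk]
    exact hiS
  -- going back
  have hback : ∀ j, j ≤ k → g^[j] r = f^[k - j] c := by
    intro j
    induction j with
    | zero => intro _; exact hkr.symm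
    | succ j ih =>
      intro hj
      rw [Function.iterate_succ_apply', ih (by omega)]
      have h1 : k - j = (k - (j + 1)) + 1 := by omega
      rw [h1, Function.iterate_succ_apply']
      exact hgf _ (hD _)
  have hforw : ∀ j, f^[j + 1] r = f^[j + 1 + k] c := by
    intro j
    rw [← hkr, ← Function.iterate_add_apply]
  constructor
  · have h1 : sInf {j | m ≤ l (g^[j] r)} = k := by
      refine le_antisymm (Nat.sInf_le ?_) ?_
      · show m ≤ l (g^[k] r)
        rw [hback k le_rfl, Nat.sub_self]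
        exact hm
      · by_contra hlt'
        rw [not_le] at hlt'
        have h2 : sInf {j | m ≤ l (g^[j] r)} ∈ {j | m ≤ l (g^[j] r)} := by
          refine Nat.sInf_mem ⟨k, ?_⟩
          show m ≤ l (g^[k] r)
          rw [hback k le_rfl, Nat.sub_self]
          exact hm
        have h3 : m ≤ l (g^[sInf {j | m ≤ l (g^[j] r)}] r) := h2
        rw [hback _ hlt'.le] at h3
        have h4 := hlt (k - sInf {j | m ≤ l (g^[j] r)}) (by omega) (by omega)
        omega
    rw [h1, hback k le_rfl, Nat.sub_self]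
    rfl
  · have h1 : sInf {j | m ≤ l (f^[j + 1] r)} = n - i := by
      have h5 : n - i + 1 + k = n := by omega
      refine le_antisymm (Nat.sInf_le ?_) ?_
      · show m ≤ l (f^[n - i + 1] r)
        rw [hforw, h5]
        exact hnm.2
      · by_contra hlt'
        rw [not_le] at hlt'
        have h2 : sInf {j | m ≤ l (f^[j + 1] r)} ∈ {j | m ≤ l (f^[j + 1] r)} := by
          refine Nat.sInf_mem ⟨n - i, ?_⟩
          show m ≤ l (f^[n - i + 1] r)
          rw [hforw, h5]
          exact hnm.2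
        have h3 : m ≤ l (f^[sInf {j | m ≤ l (f^[j + 1] r)} + 1] r) := h2
        rw [hforw] at h3
        have h4 := hlt (sInf {j | m ≤ l (f^[j + 1] r)} + 1 + k) (by omega) (by omega)
        omega
    rw [h1, hforw]
    congr 1
    omega

/-- the side of the root edge, for corners -/
def sc : Set (List ℕ × ℕ) := {c | ∃ w, c.1 = w ++ [0]}

theorem nil_sc (i : ℕ) : (([], i) : List ℕ × ℕ) ∉ sc := by
  rintro ⟨w, hw⟩
  simp at hw

theorem cons_sc (j : ℕ) (w : List ℕ) (i i' : ℕ) (h : ((w, i) : List ℕ × ℕ) ∈ sc) :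
    ((j :: w, i') : List ℕ × ℕ) ∈ sc := by
  obtain ⟨w', hw⟩ := h
  exact ⟨j :: w', by simpa using hw⟩

theorem sc_word {w : List ℕ} {i i' : ℕ} (h : ((w, i) : List ℕ × ℕ) ∈ sc) :
    ((w, i') : List ℕ × ℕ) ∈ sc := h

theorem sc_cons {j : ℕ} {w : List ℕ} {i : ℕ} (i' : ℕ) (h : ((j :: w, i) : List ℕ × ℕ) ∈ sc) :
    ((w, i') : List ℕ × ℕ) ∈ sc ∨ (j = 0 ∧ w = []) := by
  obtain ⟨w', hw⟩ := h
  rcases w' with _ | ⟨a, w'⟩
  · right
    simpa using hw
  · left
    simp only [List.cons_append, List.cons.injEq] at hw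
    exact ⟨w', hw.2⟩

theorem opp_in {c : List ℕ × ℕ} (h1 : c ∉ sc) (h2 : opp c ∈ sc) : c = rt := by
  obtain ⟨w, i⟩ := c
  rcases w with _ | ⟨j, w⟩
  · have h3 : (([i], 0) : List ℕ × ℕ) ∈ sc := h2
    rcases sc_cons 0 h3 with h4 | ⟨h4, _⟩
    · exact absurd h4 (nil_sc 0)
    · rw [h4]
      rfl
  · rcases i with _ | i
    · have h3 : ((w, j) : List ℕ × ℕ) ∈ sc := h2
      exact absurd (cons_sc j w j 0 h3) h1
    · have h3 : (((i + 1) :: j :: w, 0) : List ℕ × ℕ) ∈ sc := h2
      rcases sc_cons (i + 1) h3 with h4 | ⟨h4, _⟩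
      · exact absurd h4 h1
      · omega

theorem tau_word (D : ℕ → ℕ) (ω : List ℕ → ℕ) (c : List ℕ × ℕ) :
    ((tree D ω).tau c).1 = (opp c).1 := rfl

theorem sc_iff {c c' : List ℕ × ℕ} (h : c.1 = c'.1) : c ∈ sc ↔ c' ∈ sc := by
  unfold sc
  simp only [mem_ofPred_eq, h]

section tr

variable {D : ℕ → ℕ} {ω : List ℕ → ℕ}

theorem tau_cross {c : List ℕ × ℕ} (h1 : c ∉ sc) (h2 : (tree D ω).tau c ∈ sc) : c = rt :=
  opp_in h1 ((sc_iff (tau_word D ω c)).1 h2)

variable (hG : (tree D ω).Good)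
include hG

theorem tau_mem : ∀ c ∈ (tree D ω).D, (tree D ω).tau c ∈ (tree D ω).D := fun c hc =>
  hG.si_mem _ (hG.valid.a_mem c hc)

theorem tau'_mem : ∀ c ∈ (tree D ω).D, (tree D ω).tau' c ∈ (tree D ω).D := fun c hc =>
  hG.valid.a_mem _ (hG.valid.s_mem c hc)

theorem tau'_tau : ∀ c ∈ (tree D ω).D, (tree D ω).tau' ((tree D ω).tau c) = c := fun c hc => by
  show (tree D ω).a ((tree D ω).s ((tree D ω).si ((tree D ω).a c))) = c
  rw [hG.s_si _ (hG.valid.a_mem c hc), hG.valid.a_a c hc]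

theorem tau_tau' : ∀ c ∈ (tree D ω).D, (tree D ω).tau ((tree D ω).tau' c) = c := fun c hc => by
  show (tree D ω).si ((tree D ω).a ((tree D ω).a ((tree D ω).s c))) = c
  rw [hG.valid.a_a _ (hG.valid.s_mem c hc), hG.si_s c hc]

theorem tau'_cross {c : List ℕ × ℕ} (hc : c ∈ (tree D ω).D) (h1 : c ∉ sc)
    (h2 : (tree D ω).tau' c ∈ sc) : c = (tree D ω).si rt := by
  have h3 : (tree D ω).s c = rt := by
    exact opp_in ((sc_iff (c := (tree D ω).s c) (c' := c) rfl).not.2 h1) h2
  rw [← h3, hG.si_s c hc]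

end tr

end CrossList

open CrossList

/-- The edges between the two sides of the root edge. -/
theorem cross_list : StmArcValid → StmTree → StmCrossList := by
  intro hAV _ D ω hD hG
  have hV := hAV _ _ hG
  have hrt : rt ∈ (tree D ω).D := ⟨trivial, by
    show 0 < D (ω [])
    have := hD (ω [])
    omega⟩
  have hsi : (tree D ω).si rt ∈ (tree D ω).D := hG.si_mem _ hrt
  have htau : ∀ (c : List ℕ × ℕ), c ∈ (tree D ω).D → ∀ j, (tree D ω).tau^[j] c ∈ (tree D ω).D := by
    intro c hc j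
    induction j with
    | zero => exact hc
    | succ j ih =>
      rw [Function.iterate_succ_apply']
      exact tau_mem hG _ ih
  have htau' : ∀ (c : List ℕ × ℕ), c ∈ (tree D ω).D → ∀ j,
      (tree D ω).tau'^[j] c ∈ (tree D ω).D := by
    intro c hc j
    induction j with
    | zero => exact hc
    | succ j ih =>
      rw [Function.iterate_succ_apply']
      exact tau'_mem hG _ ih
  have hhalf : ∀ (a : Fin 4) j, half D ω a j ∈ (tree D ω).D := by
    intro a j
    fin_cases a
    · exact htau' _ hrt j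
    · exact htau _ hrt (j + 1)
    · exact htau _ hsi j
    · exact htau' _ hsi (j + 1)
  have hlab : ∀ (a : Fin 4) (m : ℕ), m ≤ ω (fst D ω a m).1 := by
    intro a m
    have hne : {j | m ≤ ω (half D ω a j).1}.Nonempty := by
      fin_cases a
      · obtain ⟨n, -, h2⟩ := hG.bwd _ hrt m
        exact ⟨n, h2⟩
      · obtain ⟨n, h1, h2⟩ := hG.fwd _ hrt m
        refine ⟨n - 1, ?_⟩
        show m ≤ ω ((tree D ω).tau^[n - 1 + 1] rt).1
        rw [Nat.sub_add_cancel h1]
        exact h2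
      · obtain ⟨n, -, h2⟩ := hG.fwd _ hsi m
        exact ⟨n, h2⟩
      · obtain ⟨n, h1, h2⟩ := hG.bwd _ hsi m
        refine ⟨n - 1, ?_⟩
        show m ≤ ω ((tree D ω).tau'^[n - 1 + 1] ((tree D ω).si rt)).1
        rw [Nat.sub_add_cancel h1]
        exact h2
    exact Nat.sInf_mem hne
  have hmain : ∀ d ∈ (tree D ω).arc.D, d ∉ side → (tree D ω).arc.a d ∈ side →
    (d = root) ∨ ∃ m, 1 ≤ m ∧
      ((d = (fst D ω 0 m, m, true) ∧ (tree D ω).arc.a d = (fst D ω 1 m, m, false)) ∨
        (d = (fst D ω 2 m, m, false) ∧ (tree D ω).arc.a d = (fst D ω 3 m, m, true))) := by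
    rintro ⟨c, m, b⟩ ⟨hc, hm, hb⟩ h1 h2
    have h1' : c ∉ sc := h1
    by_cases hm0 : m = 0
    · subst hm0
      have hb' : b = true := hb rfl
      subst hb'
      left
      have h3 : opp c ∈ sc := h2
      rw [opp_in h1' h3]
      rfl
    · right
      refine ⟨m, Nat.one_le_iff_ne_zero.2 hm0, ?_⟩
      rcases b with _ | _
      · right
        have e : (tree D ω).arc.a (c, m, false) =
            ((tree D ω).tau'^[(tree D ω).pv m c] c, m, true) := by
          show (if m = 0 then _ else if false = true then _ else _) = _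
          rw [if_neg hm0, if_neg (by decide)]
        rw [e] at h2 ⊢
        have h3 : (tree D ω).tau'^[(tree D ω).pv m c] c ∈ sc := h2
        obtain ⟨h4, h5⟩ := cross (tau'_mem hG) (g := (tree D ω).tau) (tau_tau' hG) (S := sc)
          (r := (tree D ω).si rt) (fun c hc h h' => tau'_cross hG hc h h')
          (l := (tree D ω).l) (m := m) hc h1' (hG.bwd c hc m) h3 hm
        exact ⟨congrArg (fun x => (x, m, false)) h4, congrArg (fun x => (x, m, true)) h5⟩
      · left
        have e : (tree D ω).arc.a (c, m, true) =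
            ((tree D ω).tau^[(tree D ω).nx m c] c, m, false) := by
          show (if m = 0 then _ else if true = true then _ else _) = _
          rw [if_neg hm0, if_pos rfl]
        rw [e] at h2 ⊢
        have h3 : (tree D ω).tau^[(tree D ω).nx m c] c ∈ sc := h2
        obtain ⟨h4, h5⟩ := cross (tau_mem hG) (g := (tree D ω).tau') (tau'_tau hG) (S := sc)
          (r := rt) (fun c _ h h' => tau_cross h h')
          (l := (tree D ω).l) (m := m) hc h1' (hG.fwd c hc m) h3 hm
        exact ⟨congrArg (fun x => (x, m, true)) h4, congrArg (fun x => (x, m, false)) h5⟩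
  refine ⟨?_, hlab, hmain, ?_⟩
  · intro a m
    by_cases hm0 : m = 0
    · right
      exact hm0
    · left
      exact ⟨hhalf a _, hlab a m, fun h => absurd h hm0⟩
  · intro d hd h1 h2
    have h3 : (tree D ω).arc.a ((tree D ω).arc.a d) = d := hV.a_a d hd
    rcases hmain _ (hV.a_mem d hd) h2 (by rw [h3]; exact h1) with h4 | ⟨m, hm, h4 | h4⟩
    · left
      rw [← h4, h3]
    · right
      rw [h3] at h4
      exact ⟨m, hm, Or.inl ⟨h4.2, h4.1⟩⟩
    · right
      rw [h3] at h4
      exact ⟨m, hm, Or.inr ⟨h4.2, h4.1⟩⟩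

end Pool.Agent.N276.MB
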