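import Pool.Agent.N276.MB.Def

/-!
# The construction

A labelled plane tree; arcs of all types in its faces.
-/

set_option autoImplicit false

open MeasureTheory Set Filter Topology
open scoped ENNReal Classical

namespace Pool.Agent.N276.MB

/-- a map with labels: `l d` is the label of the initial vertex of `d`, `si` the inverse rotation -/
structure LMap (X : Type) extends CMap X where
  si : X → X
  l : X → ℕ

namespace LMap

variable {X : Type} (L : LMap X)

/-- The next dart (or corner) along the face to the left of `c`. A dart `c` also stands for the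
corner between `c` and `s c`. -/
def tau (c : X) : X := L.si (L.a c)

/-- the previous corner along the same face -/
def tau' (c : X) : X := L.a (L.s c)

/-- the number of steps along the face to the next corner with label at least `m` -/
noncomputable def nx (m : ℕ) (c : X) : ℕ := sInf {n | 1 ≤ n ∧ m ≤ L.l (L.tau^[n] c)}

/-- the number of steps back along the face to the previous corner with label at least `m` -/
noncomputable def pv (m : ℕ) (c : X) : ℕ := sInf {n | 1 ≤ n ∧ m ≤ L.l (L.tau'^[n] c)}

/-- the standing assumptions on a labelled map -/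
structure Good : Prop where
  valid : L.Valid
  si_mem : ∀ c ∈ L.D, L.si c ∈ L.D
  si_s : ∀ c ∈ L.D, L.si (L.s c) = c
  s_si : ∀ c ∈ L.D, L.s (L.si c) = c
  l_s : ∀ c ∈ L.D, L.l (L.s c) = L.l c
  fwd : ∀ c ∈ L.D, ∀ m, ∃ n, 1 ≤ n ∧ m ≤ L.l (L.tau^[n] c)
  bwd : ∀ c ∈ L.D, ∀ m, ∃ n, 1 ≤ n ∧ m ≤ L.l (L.tau'^[n] c)

/-- The map with arcs: in the face at the corner `c` with label `k` there are, in this order, the
dart `c = (c, 0, true)` of the given map, the arcs `(c, m, true)`, `m = 1, …, k`, to the next
corner along the face with label at least `m`, and the arcs `(c, m, false)`, `m = k, …, 1`, to the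
previous corner with label at least `m`. -/
noncomputable def arc : CMap (X × ℕ × Bool) where
  D := {p | p.1 ∈ L.D ∧ p.2.1 ≤ L.l p.1 ∧ (p.2.1 = 0 → p.2.2 = true)}
  s p := if p.2.2 = true then
      (if p.2.1 < L.l p.1 then (p.1, p.2.1 + 1, true)
        else if p.2.1 = 0 then (L.s p.1, 0, true) else (p.1, p.2.1, false))
    else (if p.2.1 ≤ 1 then (L.s p.1, 0, true) else (p.1, p.2.1 - 1, false))
  a p := if p.2.1 = 0 then (L.a p.1, 0, true)
    else if p.2.2 = true then (L.tau^[L.nx p.2.1 p.1] p.1, p.2.1, false)
    else (L.tau'^[L.pv p.2.1 p.1] p.1, p.2.1, true)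

end LMap

/-- isomorphism of labelled maps -/
structure LIso {X : Type} (L L' : LMap X) (e : X → X) : Prop where
  bij : BijOn e L.D L'.D
  s_comm : ∀ c ∈ L.D, e (L.s c) = L'.s (e c)
  a_comm : ∀ c ∈ L.D, e (L.a c) = L'.a (e c)
  l_comm : ∀ c ∈ L.D, L'.l (e c) = L.l c

/-- The words which are vertices of the tree with labels `ω` (`ω w` is the label of `w`) in which
a vertex with label `k` has `D k` darts `(w, 0), …, (w, D k - 1)`. The empty word is the root. For
the other vertices the dart `(w, 0)` leads to the parent `w.tail`; the other darts `(w, i)` (for the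
root: all darts) lead to the children `i :: w`. -/
def Vd (D : ℕ → ℕ) (ω : List ℕ → ℕ) : List ℕ → Prop
  | [] => True
  | i :: w => Vd D ω w ∧ i < D (ω w) ∧ (w ≠ [] → 1 ≤ i)

/-- the opposite dart in the tree -/
def opp : List ℕ × ℕ → List ℕ × ℕ
  | ([], i) => ([i], 0)
  | (j :: w, 0) => (w, j)
  | (j :: w, i + 1) => ((i + 1) :: j :: w, 0)

/-- the labelled plane tree with labels `ω` and degree function `D` -/
def tree (D : ℕ → ℕ) (ω : List ℕ → ℕ) : LMap (List ℕ × ℕ) where
  D := {c | Vd D ω c.1 ∧ c.2 < D (ω c.1)}
  s c := (c.1, (c.2 + 1) % D (ω c.1))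
  a := opp
  si c := (c.1, (c.2 + (D (ω c.1) - 1)) % D (ω c.1))
  l c := ω c.1

/-- the root corner of the tree -/
def rt : List ℕ × ℕ := ([], 0)

/-- the root dart of the map with arcs -/
def root : (List ℕ × ℕ) × ℕ × Bool := (rt, 0, true)

/-! ### moving the root -/

/-- relabelling of the words when the root dart is rotated: the first step (the last entry) `i < n`
becomes `(i + 1) % n` -/
def rotW (n : ℕ) : List ℕ → List ℕ
  | [] => []
  | [i] => [if i < n then (i + 1) % n else i]
  | i :: j :: w => i :: rotW n (j :: w)

/-- relabelling of the words when the root dart is reversed -/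
def flipW : List ℕ → List ℕ
  | [] => [0]
  | [0] => []
  | [0, 0] => [0, 0]
  | i :: w => i :: flipW w

/-- the labels seen from the next dart around the root -/
def rot (D : ℕ → ℕ) (ω : List ℕ → ℕ) : List ℕ → ℕ := fun w => ω (rotW (D (ω [])) w)

/-- the labels seen from the opposite dart -/
def flip (ω : List ℕ → ℕ) : List ℕ → ℕ := fun w => ω (flipW w)

/-- the dart map from the tree of `rot D ω` to the tree of `ω`, `n = D (ω [])` -/
def rotD (n : ℕ) (c : List ℕ × ℕ) : List ℕ × ℕ :=
  (rotW n c.1, if c.1 = [] then (c.2 + 1) % n else c.2)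

/-- the dart map from the tree of `flip ω` to the tree of `ω` -/
def flipD (c : List ℕ × ℕ) : List ℕ × ℕ := (flipW c.1, c.2)

/-- the geometric law of one label: `k` has the probability `2 ^ (- (k + 1))` -/
noncomputable def geo : Measure ℕ :=
  Measure.sum fun k : ℕ => ((2 : ℝ≥0∞)⁻¹ ^ (k + 1)) • Measure.dirac k

/-- independent geometric labels -/
noncomputable def mu : Measure (List ℕ → ℕ) := Measure.infinitePi fun _ => geo

/-- the law of the labels for the reversible map: density `(2 k + 1) / 3`, `k` the label of the
root -/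
noncomputable def law : Measure (List ℕ → ℕ) :=
  mu.withDensity fun ω => (2 * (ω [] : ℝ≥0∞) + 1) / 3

end Pool.Agent.N276.MB
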