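import Mathlib

/-!
# Random plane maps: definitions

Combinatorial maps, simple random walk, Green function, Martin boundary, ends, random rooted maps,
reversibility, invariant percolations and invariant amenability.
-/

set_option autoImplicit false

open MeasureTheory Set Filter Topology
open scoped ENNReal Classical

namespace Pool.Agent.N276.MB

/-- A combinatorial map with (some) elements of `V` as darts (oriented edges): `D` is the set of the
darts, `s d` is the next dart around the initial vertex of `d` (the rotation), and `a d` is the same
edge with the opposite orientation. The vertices are the cycles of `s`. Loops and multiple edges are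
possible. -/
structure CMap (V : Type) where
  D : Set V
  s : V → V
  a : V → V

namespace CMap

variable {V : Type} (M : CMap V)

/-- the axioms of a locally finite combinatorial map: `a` is an involution without fixed points of
the set of darts and all cycles of the rotation `s` are finite -/
structure Valid : Prop where
  s_mem : ∀ d ∈ M.D, M.s d ∈ M.D
  a_mem : ∀ d ∈ M.D, M.a d ∈ M.D
  a_a : ∀ d ∈ M.D, M.a (M.a d) = d
  a_ne : ∀ d ∈ M.D, M.a d ≠ d
  per : ∀ d ∈ M.D, ∃ n : ℕ, 0 < n ∧ M.s^[n] d = d

/-- the number of the darts with the same initial vertex as `d` (the length of the cycle) -/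
noncomputable def deg (d : V) : ℕ := Function.minimalPeriod M.s d

/-- the darts `d` and `d'` have the same initial vertex -/
def SameV (d d' : V) : Prop := ∃ n : ℕ, M.s^[n] d = d'

/-- the mean of `h` over the darts with the same initial vertex as `d` -/
noncomputable def avg (h : V → ℝ≥0∞) (d : V) : ℝ≥0∞ :=
  (∑ i ∈ Finset.range (M.deg d), h (M.s^[i] d)) / M.deg d

/-- The transition operator of simple random walk. Functions of the vertices are functions of the
darts (through their initial vertices), and the step from the initial vertex of `d` leads to the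
initial vertex of `a d'`, `d'` a random dart with the same initial vertex as `d`. -/
noncomputable def P (h : V → ℝ≥0∞) (d : V) : ℝ≥0∞ := M.avg (fun d' => h (M.a d')) d

/-- Green's function of simple random walk: the expected number of visits to the initial vertex of
`y` of the walk started at the initial vertex of `x` -/
noncomputable def green (x y : V) : ℝ≥0∞ :=
  ∑' n : ℕ, M.P^[n] (fun d => if M.SameV y d then 1 else 0) x

/-- the Martin kernel `x ↦ G(x, y) / G(r, y)` (as a function on the darts) -/
noncomputable def kernel (r y : V) : V → ℝ :=
  fun x => if x ∈ M.D then (M.green x y / M.green r y).toReal else 0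

/-- The Martin boundary of a transient map: the limit points, for pointwise convergence, of the
Martin kernels `G(·, y) / G(r, y)` when `y` leaves all finite sets. The smallest compactification of
the set of vertices to which the functions `y ↦ G(x, y) / G(r, y)` extend continuously adds to the
set of vertices this set, with this topology. -/
def martinBoundary (r : V) : Set (V → ℝ) :=
  {ξ | ∀ S : Set V, S.Finite → ξ ∈ closure {κ | ∃ y ∈ M.D, y ∉ S ∧ κ = M.kernel r y}}

/-- `d` and `d'` are connected outside `S`: by steps to the next dart around the initial vertex and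
to the opposite dart that do not meet `S` -/
def Conn (S : Set V) (d d' : V) : Prop :=
  Relation.ReflTransGen (fun x y => (y = M.s x ∨ y = M.a x) ∧ y ∉ S) d d'

/-- the product of the values of `c` along a boundary path of a face (from right to left) -/
def faceProd {Γ : Type} [Group Γ] (c : V → Γ) (d : V) : ℕ → Γ
  | 0 => 1
  | n + 1 => c ((fun x => M.a (M.s x))^[n] d) * faceProd c d n

/-- The surface of the map (a disc is glued to each face with finitely many sides, a half plane to
each face with infinitely many sides) is simply connected: every assignment `c` of elements of a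
group `Γ` to the darts which is compatible with orientation reversal and has product one around each
finite face is of the form `c d = (g of the initial vertex)⁻¹ * (g of the terminal vertex)`. The
boundary walks of the faces are the cycles of `x ↦ a (s x)`. -/
def SimplyConnected : Prop :=
  ∀ (Γ : Type) [Group Γ] (c : V → Γ), (∀ d ∈ M.D, c (M.a d) = (c d)⁻¹) →
    (∀ d ∈ M.D, ∀ n : ℕ, 0 < n → (fun x => M.a (M.s x))^[n] d = d → M.faceProd c d n = 1) →
    ∃ g : V → Γ, (∀ d ∈ M.D, g (M.s d) = g d) ∧ ∀ d ∈ M.D, c d = (g d)⁻¹ * g (M.a d)

/-- Infinite, connected, locally finite maps whose surface is simply connected, i.e. is the plane: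
these are the infinite connected locally finite graphs with a proper embedding in the plane, up to
orientation preserving homeomorphisms. -/
structure PlaneMap : Prop where
  valid : M.Valid
  infinite : M.D.Infinite
  connected : ∀ d ∈ M.D, ∀ d' ∈ M.D, M.Conn ∅ d d'
  simply : M.SimplyConnected

/-- For each finite set `S` of vertices (a finite set of darts closed under rotation) exactly one of
the components of the complement of `S` is infinite. -/
def OneEnded : Prop :=
  ∀ S : Set V, S.Finite → S ⊆ M.D → (∀ d ∈ S, M.s d ∈ S) →
    ∃ d ∈ M.D, d ∉ S ∧ {d' | M.Conn S d d'}.Infinite ∧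
      ∀ d' ∈ M.D, d' ∉ S → {d'' | M.Conn S d' d''}.Infinite → M.Conn S d d'

/-- the cluster of (the initial vertex of) `d` in the percolation with the open edges `W`, as a set
of darts: all darts whose initial vertex is in the cluster -/
def cluster (W : Set V) (d : V) : Set V :=
  {d' | Relation.ReflTransGen (fun x y => y = M.s x ∨ (x ∈ W ∧ y = M.a x)) d d'}

/-- `|∂K| / ∑_{v ∈ K} deg v` for the cluster `K` of `d`: the number of the edges with exactly one
end in `K` divided by the number of the darts of `K` -/
noncomputable def ratio (W : Set V) (d : V) : ℝ≥0∞ :=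
  ({d' ∈ M.cluster W d | M.a d' ∉ M.cluster W d}.encard : ℝ≥0∞) / (M.cluster W d).encard

end CMap

/-- `e` is an isomorphism from the map `M` with the set of darts `W` marked to the map `M'` with the
set `W'` marked -/
structure IsIso {V : Type} (M : CMap V) (W : Set V) (M' : CMap V) (W' : Set V) (e : V → V) :
    Prop where
  bij : BijOn e M.D M'.D
  s_comm : ∀ d ∈ M.D, e (M.s d) = M'.s (e d)
  a_comm : ∀ d ∈ M.D, e (M.a d) = M'.a (e d)
  mark : ∀ d ∈ M.D, d ∈ W ↔ e d ∈ W'

/-- `f (M, W, d)` depends only on the isomorphism class of the map `M` with the marked set of darts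
`W` and the root dart `d` -/
def Invariant {V : Type} (f : CMap V → Set V → V → ℝ≥0∞) : Prop :=
  ∀ (M M' : CMap V) (W W' : Set V) (e : V → V) (d : V), M.Valid → M'.Valid →
    IsIso M W M' W' e → d ∈ M.D → f M' W' (e d) = f M W d

/-- Reversibility of a random map `M` with a random set of darts `W` (for instance the open edges of
a percolation) and a random root, the initial vertex of the dart `r`: if `X₀` is the root and `X₁` the
first step of simple random walk, along a random dart `d` at the root, then `(M, W, X₀, X₁)` and
`(M, W, X₁, X₀)` have the same law. -/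
def Reversible {V Ω : Type} [MeasurableSpace Ω] (P : Measure Ω) (M : Ω → CMap V)
    (W : Ω → Set V) (r : Ω → V) : Prop :=
  ∀ f : CMap V → Set V → V → ℝ≥0∞, Invariant f →
    (∀ d, Measurable fun ω => f (M ω) (W ω) d) →
    ∫⁻ ω, (M ω).avg (fun d => f (M ω) (W ω) d) (r ω) ∂P =
      ∫⁻ ω, (M ω).avg (fun d => f (M ω) (W ω) ((M ω).a d)) (r ω) ∂P

/-- a random rooted plane map (the root is the initial vertex of `r`) -/
structure RandomMap (V Ω : Type) [MeasurableSpace Ω] (P : Measure Ω) where
  M : Ω → CMap V
  r : Ω → V
  plane : ∀ᵐ ω ∂P, (M ω).PlaneMap ∧ r ω ∈ (M ω).D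
  meas_D : ∀ d, MeasurableSet {ω | d ∈ (M ω).D}
  meas_s : ∀ d d', MeasurableSet {ω | (M ω).s d = d'}
  meas_a : ∀ d d', MeasurableSet {ω | (M ω).a d = d'}
  meas_r : ∀ d, MeasurableSet {ω | r ω = d}

/-- Invariant amenability: for every `ε > 0` there is an invariant percolation (a random set `W` of
open edges, defined on an extension `π : Ω' → Ω` of the probability space, such that the map with
the percolation and the root is reversible) whose clusters are finite and with
`E [|∂K(root)| / ∑_{v ∈ K(root)} deg v] < ε`. -/
def InvariantlyAmenable {V Ω : Type} [MeasurableSpace Ω] {P : Measure Ω}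
    (X : RandomMap V Ω P) : Prop :=
  ∀ ε : ℝ≥0∞, 0 < ε → ∃ (Ω' : Type) (_ : MeasurableSpace Ω') (P' : Measure Ω') (π : Ω' → Ω)
    (W : Ω' → Set V), MeasurePreserving π P' P ∧ (∀ d, MeasurableSet {ω | d ∈ W ω}) ∧
    (∀ᵐ ω ∂P', ∀ d ∈ (X.M (π ω)).D, (d ∈ W ω ↔ (X.M (π ω)).a d ∈ W ω)) ∧
    Reversible P' (fun ω => X.M (π ω)) W (fun ω => X.r (π ω)) ∧
    (∀ᵐ ω ∂P', ∀ d ∈ (X.M (π ω)).D, ((X.M (π ω)).cluster (W ω) d).Finite) ∧
    ∫⁻ ω, (X.M (π ω)).ratio (W ω) (X.r (π ω)) ∂P' < ε

end Pool.Agent.N276.MB
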