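import Pool.Agent.N276.MB.Stm

/-!
# The ergodic theorem on a finite cluster
-/

set_option autoImplicit false

open MeasureTheory Set Filter Topology
open scoped ENNReal Classical InnerProductSpace

namespace Pool.Agent.N276.MB

namespace Erg

/-! ### averages of isometries -/

section avg

variable {E : Type} [NormedAddCommGroup E] [InnerProductSpace ℝ E]

/-- a vector which is the mean of its images under isometries is fixed by all of them -/
theorem fixed_of_avg {N : ℕ} (hN : 0 < N) (U : ℕ → E → E) (hU : ∀ i u, ‖U i u‖ = ‖u‖) (u : E)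
    (h : (N : ℝ)⁻¹ • ∑ i ∈ Finset.range N, U i u = u) : ∀ i < N, U i u = u := by
  have hN' : (N : ℝ) ≠ 0 := by exact_mod_cast hN.ne'
  have h1 : ∑ i ∈ Finset.range N, U i u = (N : ℝ) • u := by
    rw [← h, smul_smul, mul_inv_cancel₀ hN', one_smul, h]
  have h2 : ∑ i ∈ Finset.range N, ⟪u, U i u⟫_ℝ = ∑ _i ∈ Finset.range N, ‖u‖ ^ 2 := by
    rw [← inner_sum, h1, real_inner_smul_right, real_inner_self_eq_norm_sq, Finset.sum_const,
      Finset.card_range, nsmul_eq_mul]
  have hle : ∀ i ∈ Finset.range N, ⟪u, U i u⟫_ℝ ≤ ‖u‖ ^ 2 := by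
    intro i _
    have h3 := real_inner_le_norm u (U i u)
    rw [hU] at h3
    nlinarith
  have h3 := (Finset.sum_eq_sum_iff_of_le hle).mp h2
  intro i hi
  have h4 := h3 i (Finset.mem_range.2 hi)
  have h5 : ‖U i u - u‖ ^ 2 = 0 := by
    rw [norm_sub_sq_real, hU, real_inner_comm, h4]
    ring
  have h6 : ‖U i u - u‖ = 0 := by
    rcases pow_eq_zero_iff (two_ne_zero) |>.mp h5 with h
    exact h
  exact sub_eq_zero.mp (norm_eq_zero.mp h6)

end avg

/-! ### permutations of a finite set -/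

section perm

variable {K : Type} [Fintype K]

/-- composition with a permutation -/
noncomputable def Up (e : Equiv.Perm K) : EuclideanSpace ℝ K →L[ℝ] EuclideanSpace ℝ K :=
  (LinearIsometryEquiv.piLpCongrLeft 2 ℝ ℝ e.symm).toLinearIsometry.toContinuousLinearMap

theorem Up_apply (e : Equiv.Perm K) (u : EuclideanSpace ℝ K) (x : K) : Up e u x = u (e x) := by
  simp [Up, LinearIsometryEquiv.piLpCongrLeft_apply, Equiv.piCongrLeft'_apply]

theorem Up_norm (e : Equiv.Perm K) (u : EuclideanSpace ℝ K) : ‖Up e u‖ = ‖u‖ :=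
  (LinearIsometryEquiv.piLpCongrLeft 2 ℝ ℝ e.symm).norm_map u

/-- the mean over the rotations, after the reversal of the edges -/
noncomputable def T (N : ℕ) (s σ : Equiv.Perm K) : EuclideanSpace ℝ K →L[ℝ] EuclideanSpace ℝ K :=
  (N : ℝ)⁻¹ • ∑ i ∈ Finset.range N, Up (σ * s ^ i)

theorem T_apply' (N : ℕ) (s σ : Equiv.Perm K) (u : EuclideanSpace ℝ K) :
    T N s σ u = (N : ℝ)⁻¹ • ∑ i ∈ Finset.range N, Up (σ * s ^ i) u := by
  unfold T
  rw [smul_apply, sum_apply]

theorem T_apply (N : ℕ) (s σ : Equiv.Perm K) (u : EuclideanSpace ℝ K) (x : K) :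
    T N s σ u x = (N : ℝ)⁻¹ * ∑ i ∈ Finset.range N, u (σ ((s ^ i) x)) := by
  rw [T_apply']
  simp only [PiLp.smul_apply, smul_eq_mul, WithLp.ofLp_sum, Finset.sum_apply, Up_apply]
  rfl

theorem T_norm {N : ℕ} (hN : 0 < N) (s σ : Equiv.Perm K) : ‖T N s σ‖ ≤ 1 := by
  refine ContinuousLinearMap.opNorm_le_bound _ zero_le_one fun u => ?_
  have hN' : (0 : ℝ) < N := by exact_mod_cast hN
  rw [T_apply', norm_smul, norm_inv, Real.norm_of_nonneg hN'.le, one_mul]
  have h1 : ‖∑ i ∈ Finset.range N, Up (σ * s ^ i) u‖ ≤ N * ‖u‖ := by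
    refine (norm_sum_le _ _).trans ?_
    rw [Finset.sum_congr rfl fun i _ => Up_norm (σ * s ^ i) u, Finset.sum_const,
      Finset.card_range, nsmul_eq_mul]
  calc (N : ℝ)⁻¹ * ‖∑ i ∈ Finset.range N, Up (σ * s ^ i) u‖ ≤ (N : ℝ)⁻¹ * (N * ‖u‖) := by gcongr
    _ = ‖u‖ := by field_simp

/-- the fixed vectors -/
theorem T_fixed {N : ℕ} (hN : 2 ≤ N) {s σ : Equiv.Perm K}
    {u : EuclideanSpace ℝ K} (h : T N s σ u = u) : (∀ x, u (σ x) = u x) ∧ ∀ x, u (s x) = u x := by
  rw [T_apply'] at h
  have h1 := fixed_of_avg (by omega) (fun i u => Up (σ * s ^ i) u) (fun i u => Up_norm _ u) u h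
  have h2 : ∀ x, u (σ x) = u x := by
    intro x
    have h3 := congrArg (fun v : EuclideanSpace ℝ K => v x) (h1 0 (by omega))
    simp only [Up_apply] at h3
    simpa using h3
  refine ⟨h2, fun x => ?_⟩
  have h3 := congrArg (fun v : EuclideanSpace ℝ K => v x) (h1 1 (by omega))
  simp only [Up_apply] at h3
  rw [← h3]
  simp only [pow_one, Equiv.Perm.mul_apply]
  rw [h2]

theorem T_const {N : ℕ} (hN : 0 < N) (s σ : Equiv.Perm K) (c : ℝ) :
    T N s σ (WithLp.toLp 2 fun _ => c) = WithLp.toLp 2 fun _ => c := by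
  ext x
  rw [T_apply]
  have hN' : (N : ℝ) ≠ 0 := by exact_mod_cast hN.ne'
  simp only [Finset.sum_const, Finset.card_range, nsmul_eq_mul]
  field_simp

/-- the mean ergodic theorem -/
theorem tendsto_avg {N : ℕ} (hN : 2 ≤ N) (s σ : Equiv.Perm K)
    (hc : ∀ u : EuclideanSpace ℝ K, (∀ x, u (σ x) = u x) → (∀ x, u (s x) = u x) →
      ∀ x y, u x = u y) (v : EuclideanSpace ℝ K) (d : K) :
    Tendsto (fun n : ℕ => (n : ℝ)⁻¹ * ∑ k ∈ Finset.range n, ((T N s σ)^[k] v) d) atTop
      (𝓝 ((∑ x, v x) / Fintype.card K)) := by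
  have h1 := (T N s σ).tendsto_birkhoffAverage_orthogonalProjection (T_norm (by omega) s σ) v
  set F := (T N s σ).eqLocus (1 : EuclideanSpace ℝ K →L[ℝ] EuclideanSpace ℝ K) with hF
  set w : EuclideanSpace ℝ K := (F.orthogonalProjectionOnto v : EuclideanSpace ℝ K) with hw
  have hwF : T N s σ w = w := (F.orthogonalProjectionOnto v).2
  obtain ⟨h2, h3⟩ := T_fixed hN hwF
  have h4 := hc w h2 h3
  -- the mean
  have h5 : ∑ x, v x = Fintype.card K * w d := by
    have h6 : (WithLp.toLp 2 fun _ => (1 : ℝ) : EuclideanSpace ℝ K) ∈ F :=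
      T_const (by omega) s σ 1
    have h7 : ⟪v - w, (WithLp.toLp 2 fun _ => (1 : ℝ) : EuclideanSpace ℝ K)⟫_ℝ = 0 :=
      F.starProjection_inner_eq_zero v _ h6
    have h8 : ⟪v - w, (WithLp.toLp 2 fun _ => (1 : ℝ) : EuclideanSpace ℝ K)⟫_ℝ =
        ∑ x, (v x - w x) := by
      rw [PiLp.inner_apply]
      refine Finset.sum_congr rfl fun x _ => ?_
      simp
    rw [h8, Finset.sum_sub_distrib] at h7
    have h9 : ∑ x, w x = Fintype.card K * w d := by
      rw [Finset.sum_congr rfl fun x _ => h4 x d, Finset.sum_const, Finset.card_univ,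
        nsmul_eq_mul]
    linarith
  have hK : (Fintype.card K : ℝ) ≠ 0 := by
    have : 0 < Fintype.card K := Fintype.card_pos_iff.2 ⟨d⟩
    exact_mod_cast this.ne'
  have h6 : (∑ x, v x) / Fintype.card K = w d := by
    rw [h5]
    field_simp
  rw [h6]
  have h7 : Tendsto (fun n : ℕ => (birkhoffAverage ℝ (T N s σ) _root_.id n v) d) atTop
      (𝓝 (w d)) :=
    ((EuclideanSpace.proj d : EuclideanSpace ℝ K →L[ℝ] ℝ).continuous.tendsto w).comp h1
  refine h7.congr fun n => ?_
  simp only [birkhoffAverage, birkhoffSum, PiLp.smul_apply, smul_eq_mul, WithLp.ofLp_sum,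
    Finset.sum_apply, _root_.id]

end perm

theorem sum_mul_period {A : Type} [AddCommMonoid A] (f : ℕ → A) (p : ℕ)
    (hf : ∀ i, f (i + p) = f i) (q : ℕ) :
    ∑ i ∈ Finset.range (q * p), f i = q • ∑ i ∈ Finset.range p, f i := by
  have hf' : ∀ q i, f (q * p + i) = f i := by
    intro q
    induction q with
    | zero => intro i; simp
    | succ q ih =>
      intro i
      have : (q + 1) * p + i = (q * p + i) + p := by ring
      rw [this, hf, ih]
  induction q with
  | zero => simp
  | succ q ih =>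
    rw [Nat.succ_mul, Finset.sum_range_add, ih, succ_nsmul]
    congr 1
    exact Finset.sum_congr rfl fun i _ => hf' q i

end Erg

open Erg

theorem ergodic : StmErgodic := by
  intro V M W d h C hM hW hd hfin hC hhC _
  set K : Set V := M.cluster W d with hK
  have hKD : K ⊆ M.D := by
    intro x hx
    induction hx with
    | refl => exact hd
    | tail _ hstep ih =>
      rcases hstep with h1 | ⟨_, h1⟩
      · rw [h1]; exact hM.s_mem _ ih
      · rw [h1]; exact hM.a_mem _ ih
  have hs : ∀ x ∈ K, M.s x ∈ K := fun x hx => Relation.ReflTransGen.tail hx (Or.inl rfl)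
  have ha : ∀ x ∈ K, x ∈ W → M.a x ∈ K := fun x hx hw =>
    Relation.ReflTransGen.tail hx (Or.inr ⟨hw, rfl⟩)
  have hdK : d ∈ K := Relation.ReflTransGen.refl
  have : Fintype K := hfin.fintype
  -- the rotation
  have hsinj : Function.Injective (fun x : K => (⟨M.s x, hs x x.2⟩ : K)) := by
    intro x y hxy
    have hxy' : M.s x = M.s y := congrArg Subtype.val hxy
    obtain ⟨n, hn, hn'⟩ := hM.per x (hKD x.2)
    obtain ⟨m, hm, hm'⟩ := hM.per y (hKD y.2)
    have e1 : M.s^[n * m] x = x := by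
      rw [Function.iterate_mul]
      exact Function.iterate_fixed hn' m
    have e2 : M.s^[n * m] y = y := by
      rw [mul_comm, Function.iterate_mul]
      exact Function.iterate_fixed hm' n
    obtain ⟨k, hk⟩ : ∃ k, n * m = k + 1 := ⟨n * m - 1, by
      have := Nat.mul_pos hn hm
      omega⟩
    apply Subtype.ext
    rw [← e1, ← e2, hk, Function.iterate_succ_apply, Function.iterate_succ_apply, hxy']
  let s : Equiv.Perm K := Equiv.ofBijective _ (Finite.injective_iff_bijective.mp hsinj)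
  have s_val : ∀ x : K, ((s x : K) : V) = M.s x := fun x => rfl
  have spow_val : ∀ (i : ℕ) (x : K), (((s ^ i) x : K) : V) = M.s^[i] x := by
    intro i
    induction i with
    | zero => intro x; rfl
    | succ i ih =>
      intro x
      rw [pow_succ, Equiv.Perm.mul_apply, ih, s_val, Function.iterate_succ_apply]
  -- the reversal
  let σf : K → K := fun x => if hx : (x : V) ∈ W then ⟨M.a x, ha x x.2 hx⟩ else x
  have σf_val : ∀ x : K, ((σf x : K) : V) = if (x : V) ∈ W then M.a x else x := by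
    intro x
    by_cases hx : (x : V) ∈ W
    · simp only [σf, dif_pos hx, if_pos hx]
    · simp only [σf, dif_neg hx, if_neg hx]
  have σσ : ∀ x, σf (σf x) = x := by
    intro x
    apply Subtype.ext
    rw [σf_val, σf_val]
    by_cases hx : (x : V) ∈ W
    · rw [if_pos hx, if_pos ((hW x (hKD x.2)).mp hx)]
      exact hM.a_a x (hKD x.2)
    · rw [if_neg hx, if_neg hx]
  let σ : Equiv.Perm K := ⟨σf, σf, σσ, σσ⟩
  have σ_val : ∀ x : K, ((σ x : K) : V) = if (x : V) ∈ W then M.a x else x := σf_val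
  -- the period
  set N : ℕ := 2 * orderOf s with hN
  have ho : 0 < orderOf s := orderOf_pos s
  have hN2 : 2 ≤ N := by omega
  have hdeg : ∀ x : K, 0 < M.deg x ∧ ∃ q, N = q * M.deg x := by
    intro x
    obtain ⟨n, hn, hn'⟩ := hM.per x (hKD x.2)
    refine ⟨Function.minimalPeriod_pos_of_mem_periodicPts ⟨n, hn, hn'⟩, ?_⟩
    have h1 : Function.IsPeriodicPt M.s N (x : V) := by
      show M.s^[N] x = x
      rw [← spow_val, hN, mul_comm, pow_mul, pow_orderOf_eq_one, one_pow]
      rfl
    obtain ⟨q, hq⟩ := h1.minimalPeriod_dvd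
    exact ⟨q, by rw [hq, mul_comm]; rfl⟩
  -- boundedness
  have hbd : ∀ g : V → ℝ≥0∞, (∀ x, g x ≤ C) → ∀ x, M.Q W g x ≤ C := by
    intro g hg x
    unfold CMap.Q CMap.avg
    refine ENNReal.div_le_of_le_mul ?_
    refine (Finset.sum_le_card_nsmul _ _ C fun i _ => ?_).trans ?_
    · dsimp only
      split_ifs
      · exact hg _
      · exact hg _
    · rw [Finset.card_range, nsmul_eq_mul, mul_comm]
  have hbd' : ∀ (k : ℕ) (x : V), (M.Q W)^[k] h x ≤ C := by
    intro k
    induction k with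
    | zero => exact hhC
    | succ k ih =>
      rw [Function.iterate_succ_apply']
      exact hbd _ ih
  -- one step
  have hstep : ∀ (g : V → ℝ≥0∞) (u : EuclideanSpace ℝ K), (∀ x, g x ≤ C) →
      (∀ x : K, (g x).toReal = u x) → ∀ x : K, (M.Q W g x).toReal = T N s σ u x := by
    intro g u hg hu x
    obtain ⟨hp, q, hq⟩ := hdeg x
    have hfin' : ∀ y, g y ≠ ⊤ := fun y => ne_top_of_le_ne_top hC (hg y)
    rw [T_apply]
    have e1 : M.Q W g x = (∑ i ∈ Finset.range (M.deg x), g (σ ((s ^ i) x))) / M.deg x := by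
      unfold CMap.Q CMap.avg
      congr 1
      refine Finset.sum_congr rfl fun i _ => ?_
      rw [σ_val, spow_val]
      dsimp only
      split_ifs <;> rfl
    rw [e1, ENNReal.toReal_div, ENNReal.toReal_sum fun i _ => hfin' _, ENNReal.toReal_natCast]
    have e2 : ∑ i ∈ Finset.range (M.deg x), (g (σ ((s ^ i) x))).toReal =
        ∑ i ∈ Finset.range (M.deg x), u (σ ((s ^ i) x)) :=
      Finset.sum_congr rfl fun i _ => hu _
    have e3 : ∀ i, u (σ ((s ^ (i + M.deg x)) x)) = u (σ ((s ^ i) x)) := by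
      intro i
      have : (s ^ (i + M.deg x)) x = (s ^ i) x := by
        apply Subtype.ext
        rw [spow_val, spow_val, Function.iterate_add_apply]
        congr 1
        exact Function.iterate_minimalPeriod
      rw [this]
    rw [e2, hq, sum_mul_period (fun i => u (σ ((s ^ i) x))) (M.deg x) e3 q, nsmul_eq_mul]
    have hq0 : (q : ℝ) ≠ 0 := by
      have : q ≠ 0 := by
        rintro rfl
        omega
      exact_mod_cast this
    have hp0 : (M.deg x : ℝ) ≠ 0 := by exact_mod_cast hp.ne'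
    push_cast
    field_simp
  -- all steps
  set v : EuclideanSpace ℝ K := WithLp.toLp 2 fun x : K => (h x).toReal with hv
  have hall : ∀ (k : ℕ) (x : K), ((M.Q W)^[k] h x).toReal = ((T N s σ)^[k] v) x := by
    intro k
    induction k with
    | zero => intro x; rfl
    | succ k ih =>
      intro x
      rw [Function.iterate_succ_apply', Function.iterate_succ_apply']
      exact hstep _ _ (hbd' k) ih x
  -- connectedness
  have hconn : ∀ u : EuclideanSpace ℝ K, (∀ x, u (σ x) = u x) → (∀ x, u (s x) = u x) →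
      ∀ x y, u x = u y := by
    intro u h1 h2
    have h3 : ∀ (x : V) (hx : x ∈ K), u ⟨x, hx⟩ = u ⟨d, hdK⟩ := by
      intro x hx
      have hx' : Relation.ReflTransGen (fun x y => y = M.s x ∨ (x ∈ W ∧ y = M.a x)) d x := hx
      induction hx' with
      | refl => rfl
      | @tail b c hb hstep ih =>
        have hbK : b ∈ K := hb
        rw [← ih hbK]
        rcases hstep with rfl | ⟨hbW, rfl⟩
        · exact h2 ⟨b, hbK⟩
        · rw [← h1 ⟨b, hbK⟩]
          have e : (⟨M.a b, hx⟩ : K) = σ ⟨b, hbK⟩ := by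
            apply Subtype.ext
            rw [σ_val, if_pos hbW]
          rw [e]
    intro x y
    exact (h3 x x.2).trans (h3 y y.2).symm
  have hlim := tendsto_avg hN2 s σ hconn v ⟨d, hdK⟩
  have hlim2 := ENNReal.tendsto_ofReal hlim
  have hfinh : ∀ y, h y ≠ ⊤ := fun y => ne_top_of_le_ne_top hC (hhC y)
  have hcard : 0 < Fintype.card K := Fintype.card_pos_iff.2 ⟨⟨d, hdK⟩⟩
  -- the limit
  have e1 : ENNReal.ofReal ((∑ x, v x) / Fintype.card K) =
      (∑' x : K, h x) / (M.cluster W d).encard := by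
    have h2 : (∑ x, v x) = (∑' x : K, h x).toReal := by
      rw [tsum_fintype, ENNReal.toReal_sum fun x _ => hfinh _]
    have h3 : ((M.cluster W d).encard : ℝ≥0∞) = (Fintype.card K : ℝ≥0∞) := by
      have h4 : (M.cluster W d).encard = (Fintype.card K : ℕ∞) := by
        rw [← Set.coe_fintypeCard]
      rw [h4]
      rfl
    rw [h2, h3, ENNReal.ofReal_div_of_pos (by exact_mod_cast hcard), ENNReal.ofReal_toReal,
      ENNReal.ofReal_natCast]
    rw [tsum_fintype]
    exact (ENNReal.sum_lt_top.2 fun x _ => (hfinh _).lt_top).ne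
  rw [← e1]
  refine hlim2.congr' ?_
  filter_upwards [eventually_gt_atTop 0] with n hn
  have h2 : ∑ k ∈ Finset.range n, ((T N s σ)^[k] v) ⟨d, hdK⟩ =
      (∑ k ∈ Finset.range n, (M.Q W)^[k] h d).toReal := by
    rw [ENNReal.toReal_sum fun k _ => ne_top_of_le_ne_top hC (hbd' k d)]
    exact Finset.sum_congr rfl fun k _ => (hall k ⟨d, hdK⟩).symm
  rw [h2, mul_comm, ← div_eq_mul_inv, ENNReal.ofReal_div_of_pos (by exact_mod_cast hn),
    ENNReal.ofReal_natCast, ENNReal.ofReal_toReal]
  exact (ENNReal.sum_lt_top.2 fun k _ =>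
    (ne_top_of_le_ne_top hC (hbd' k d)).lt_top).ne

end Pool.Agent.N276.MB
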