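import Pool.Agent.N276.MB.Top

/-!
# A jump of the Martin kernel across any edge disconnects the Martin boundary

The same as `top` (helper438) for a jump between two vertices which may be different from the base
vertex.
-/

set_option autoImplicit false

open MeasureTheory Set Filter Topology
open scoped ENNReal Classical

namespace Pool.Agent.N276.MB

/-- a jump of the Martin kernel between `u` and `x` disconnects the Martin boundary with base `r` -/
def StmTopB : Prop := ∀ (V : Type) [Countable V] (M : CMap V), M.PlaneMap → ∀ r ∈ M.D, ∀ u ∈ M.D,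
  ∀ x ∈ M.D,
  (∀ u ∈ M.D, ∀ y ∈ M.D, M.green u y ≠ ⊤) → ∀ B : Set V, (M.D ∩ B).Infinite →
  (M.D \ B).Infinite →
  (∀ y ∈ M.D, y ∈ B → 100 * M.green u y ≤ M.green x y) →
  (∀ y ∈ M.D, y ∉ B → 100 * M.green x y ≤ M.green u y) →
  ¬ IsPreconnected (M.martinBoundary r) ∧ ¬ Nonempty (M.martinBoundary r ≃ₜ Circle)

namespace Top

variable {V : Type} {M : CMap V}

/-- Limit points of the Martin kernels. -/
theorem exists_limit' {r : V} {K : Set (V → ℝ)} (hK : IsCompact K)
    (hmem : ∀ y ∈ M.D, M.kernel r y ∈ K) {Y : Set V} (hY : Y ⊆ M.D) (hinf : Y.Infinite)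
    {F : Set (V → ℝ)} (hF : IsClosed F) (hYF : ∀ y ∈ Y, M.kernel r y ∈ F) :
    ∃ ξ ∈ M.martinBoundary r, ξ ∈ F := by
  have hne : (cofinite ⊓ 𝓟 Y : Filter V).NeBot := by
    rw [neBot_iff, ne_eq, inf_principal_eq_bot, mem_cofinite, compl_compl]
    exact hinf
  have hle : map (M.kernel r) (cofinite ⊓ 𝓟 Y) ≤ 𝓟 K := by
    rw [le_principal_iff, mem_map]
    refine mem_inf_of_right ?_
    intro y hy
    exact hmem y (hY hy)
  obtain ⟨ξ, -, hξ⟩ := hK (f := map (M.kernel r) (cofinite ⊓ 𝓟 Y)) hle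
  have key : ∀ S : Set V, S.Finite → ξ ∈ closure {κ | ∃ y ∈ Y, y ∉ S ∧ κ = M.kernel r y} := by
    intro S hS
    rw [mem_closure_iff_clusterPt]
    refine hξ.mono ?_
    rw [le_principal_iff, mem_map]
    refine mem_of_superset (inter_mem_inf (hS.compl_mem_cofinite) (mem_principal_self Y)) ?_
    rintro y ⟨hy1, hy2⟩
    exact ⟨y, hy2, hy1, rfl⟩
  refine ⟨ξ, fun S hS => ?_, ?_⟩
  · refine closure_mono ?_ (key S hS)
    rintro κ ⟨y, hy, hyS, rfl⟩
    exact ⟨y, hY hy, hyS, rfl⟩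
  · refine closure_minimal ?_ hF (key ∅ finite_empty)
    rintro κ ⟨y, hy, -, rfl⟩
    exact hYF y hy

end Top

open Pool.Agent.N276.MB.Top in
/-- A jump of the kernel disconnects the Martin boundary. -/
theorem topB : StmStep → StmTopB := by
  intro hs V _ M hM r hr u hu x hx hfin B hB hB' h1 h2
  have hv := hM.valid
  have hpos : ∀ u ∈ M.D, ∀ y ∈ M.D, 0 < M.green u y := fun u hu y hy =>
    green_pos hs hv hy (hM.connected u hu y hy) hu u hu (sameV_refl u)
  -- the kernels are bounded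
  have hbd : ∀ u : V, ∃ C : ℝ, ∀ y ∈ M.D, M.kernel r y u ∈ Icc 0 C := by
    intro u
    by_cases hu : u ∈ M.D
    · obtain ⟨-, C, hC, h3⟩ := green_le hs hv hr (hM.connected r hr u hu)
      refine ⟨C.toReal, fun y hy => ?_⟩
      unfold CMap.kernel
      rw [if_pos hu]
      refine ⟨ENNReal.toReal_nonneg, ENNReal.toReal_mono hC ?_⟩
      exact ENNReal.div_le_of_le_mul (h3 y hy)
    · refine ⟨0, fun y _ => ?_⟩
      unfold CMap.kernel
      rw [if_neg hu]
      exact ⟨le_rfl, le_rfl⟩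
  choose C hC using hbd
  have hK : IsCompact (Set.pi univ fun u => Icc 0 (C u)) := isCompact_univ_pi fun u => isCompact_Icc
  have hmem : ∀ y ∈ M.D, M.kernel r y ∈ Set.pi univ fun u => Icc 0 (C u) :=
    fun y hy u _ => hC u y hy
  -- the kernel at `u` is bounded below
  obtain ⟨c, hc, hcu⟩ : ∃ c : ℝ, 0 < c ∧ ∀ y ∈ M.D, c ≤ M.kernel r y u := by
    obtain ⟨-, C', hC', h3⟩ := green_le hs hv hu (hM.connected u hu r hr)
    have hC0 : C' ≠ 0 := by
      rintro rfl
      have := h3 r hr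
      rw [zero_mul] at this
      exact absurd (lt_of_lt_of_le (hpos r hr r hr) this) (lt_irrefl _)
    refine ⟨(C'⁻¹).toReal, ENNReal.toReal_pos (ENNReal.inv_ne_zero.2 hC') (ENNReal.inv_ne_top.2 hC0),
      fun y hy => ?_⟩
    unfold CMap.kernel
    rw [if_pos hu]
    refine ENNReal.toReal_mono (ENNReal.div_ne_top (hfin u hu y hy) (hpos r hr y hy).ne') ?_
    rw [ENNReal.le_div_iff_mul_le (Or.inl (hpos r hr y hy).ne') (Or.inl (hfin r hr y hy)),
      mul_comm, ← div_eq_mul_inv]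
    exact ENNReal.div_le_of_le_mul (by rw [mul_comm]; exact h3 y hy)
  -- the jump for the kernels
  have hdiv : ∀ z ∈ M.D, ∀ y ∈ M.D, M.green z y / M.green r y ≠ ⊤ := fun z hz y hy =>
    ENNReal.div_ne_top (hfin z hz y hy) (hpos r hr y hy).ne'
  have hker : ∀ v ∈ M.D, ∀ w ∈ M.D, ∀ y ∈ M.D, 100 * M.green v y ≤ M.green w y →
      100 * M.kernel r y v ≤ M.kernel r y w := by
    intro v hv' w hw y hy h
    unfold CMap.kernel
    rw [if_pos hv', if_pos hw]
    have h3 : 100 * (M.green v y / M.green r y) ≤ M.green w y / M.green r y := by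
      rw [← mul_div_assoc]
      exact ENNReal.div_le_div_right h _
    have h4 := ENNReal.toReal_mono (hdiv w hw y hy) h3
    rw [ENNReal.toReal_mul] at h4
    simpa using h4
  set A₁ : Set (V → ℝ) := {κ | 100 * κ u ≤ κ x} with hA₁
  set A₂ : Set (V → ℝ) := {κ | 100 * κ x ≤ κ u} with hA₂
  have hA₁c : IsClosed A₁ := isClosed_le (continuous_const.mul (continuous_apply u))
    (continuous_apply x)
  have hA₂c : IsClosed A₂ := isClosed_le (continuous_const.mul (continuous_apply x))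
    (continuous_apply u)
  have hlarge : ∀ y ∈ M.D ∩ B, M.kernel r y ∈ A₁ := by
    rintro y ⟨hy, hyB⟩
    exact hker u hu x hx y hy (h1 y hy hyB)
  have hsmall : ∀ y ∈ M.D \ B, M.kernel r y ∈ A₂ := by
    rintro y ⟨hy, hyB⟩
    exact hker x hx u hu y hy (h2 y hy hyB)
  obtain ⟨ξ₁, hξ₁, hx₁⟩ := exists_limit' hK hmem inter_subset_left hB hA₁c hlarge
  obtain ⟨ξ₂, hξ₂, hx₂⟩ := exists_limit' hK hmem sdiff_subset hB' hA₂c hsmall
  have hall : M.martinBoundary r ⊆ A₁ ∪ A₂ := by
    intro ξ hξ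
    refine closure_minimal ?_ (hA₁c.union hA₂c) (hξ ∅ finite_empty)
    rintro κ ⟨y, hy, -, rfl⟩
    by_cases hyB : y ∈ B
    · exact Or.inl (hlarge y ⟨hy, hyB⟩)
    · exact Or.inr (hsmall y ⟨hy, hyB⟩)
  have hlow : ∀ ξ ∈ M.martinBoundary r, c ≤ ξ u := by
    intro ξ hξ
    have h3 : IsClosed {κ : V → ℝ | c ≤ κ u} := isClosed_le continuous_const (continuous_apply u)
    refine closure_minimal ?_ h3 (hξ ∅ finite_empty)
    rintro κ ⟨y, hy, -, rfl⟩
    exact hcu y hy
  have hnot : ¬ IsPreconnected (M.martinBoundary r) := by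
    intro hpre
    obtain ⟨ξ, hξ, h3, h4⟩ := isPreconnected_closed_iff.1 hpre A₁ A₂ hA₁c hA₂c hall
      ⟨ξ₁, hξ₁, hx₁⟩ ⟨ξ₂, hξ₂, hx₂⟩
    have h5 := hlow ξ hξ
    have h6 : 100 * ξ u ≤ ξ x := h3
    have h7 : 100 * ξ x ≤ ξ u := h4
    linarith
  refine ⟨hnot, ?_⟩
  rintro ⟨e⟩
  apply hnot
  have h3 : PreconnectedSpace Circle := by
    refine ⟨?_⟩
    have h4 : Set.range Circle.exp = univ := by
      rw [eq_univ_iff_forall]
      intro z
      exact ⟨Complex.arg z, Circle.exp_arg z⟩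
    rw [← h4]
    exact isPreconnected_range Circle.exp.continuous
  have h4 : PreconnectedSpace (M.martinBoundary r) := by
    refine ⟨?_⟩
    rw [← e.symm.surjective.range_eq]
    exact isPreconnected_range e.symm.continuous
  exact isPreconnected_iff_preconnectedSpace.2 h4

end Pool.Agent.N276.MB
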