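import Pool.Agent.N276.MB.AS
import Pool.Agent.N276.MB.TopB

/-!
# The assembly, almost sure form
-/

set_option autoImplicit false

open MeasureTheory Set Filter Topology
open scoped ENNReal Classical

namespace Pool.Agent.N276.MB

/-- the disproof of clause (2), almost sure form -/
def StmFinalB : Prop := ∃ (V Ω : Type) (_ : Countable V) (_ : MeasurableSpace Ω) (P : Measure Ω)
  (_ : IsProbabilityMeasure P) (X : RandomMap V Ω P),
  Reversible P X.M (fun _ => ∅) X.r ∧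
  (∀ᵐ ω ∂P, (X.M ω).OneEnded ∧ ∀ x ∈ (X.M ω).D, ∀ y ∈ (X.M ω).D, (X.M ω).green x y ≠ ⊤) ∧
  ¬ InvariantlyAmenable X ∧
  ∀ᵐ ω ∂P, ¬ IsPreconnected ((X.M ω).martinBoundary (X.r ω)) ∧
    ¬ Nonempty ((X.M ω).martinBoundary (X.r ω) ≃ₜ Circle)

open AS GreenAll in
/-- a corner with the event makes the Martin boundary disconnected -/
theorem disconnected (hAV : StmArcValid) (hV : StmArcVertex) (hT : StmTree) (hG : StmGreen)
    (hC : StmCross) (hL : StmCrossList) (hP : StmPath) (hPl : StmPlane) (hRR : StmReroot)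
    (hAI : StmArcIso) (hGI : StmGreenIso) (hTop : StmTopB) {n D : ℕ → ℕ} (hD : Growth n D)
    {ω : List ℕ → ℕ} (hg : (tree D ω).Good) {c : List ℕ × ℕ} (hc : c ∈ (tree D ω).D)
    (hev : Evc D n ω c) :
    ¬ IsPreconnected ((tree D ω).arc.martinBoundary root) ∧
      ¬ Nonempty ((tree D ω).arc.martinBoundary root ≃ₜ Circle) := by
  have h3 := hD.three
  obtain ⟨ω', e, -, hiso, he⟩ := hRR D ω h3 c hc
  obtain ⟨t1, t2, t3, t4, -⟩ := hT D ω' h3
  have hg' : (tree D ω').Good := good_of_iso hiso hg t1 t2 t3 t4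
  have hev' : Ev D n ω' := by
    rw [ev_iff, evc_iso hT n h3 hiso (AS.rt_mem h3 ω'), he]
    exact hev
  obtain ⟨j1, j2⟩ := jump hAV hV hT hG hC hL hP n D ω' hD hg' hev'
  have hI := hAI _ _ _ _ hg' hg hiso
  have hv := hAV _ _ hg
  have hv' := hAV _ _ hg'
  set M := (tree D ω).arc with hM
  set M' := (tree D ω').arc with hM'
  set E : (List ℕ × ℕ) × ℕ × Bool → (List ℕ × ℕ) × ℕ × Bool := fun p => (e p.1, p.2) with hE
  have hgreen : ∀ x ∈ M'.D, ∀ y ∈ M'.D, M.green (E x) (E y) = M'.green x y :=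
    hGI _ _ _ _ _ _ hv' hv hI
  have hr' : root ∈ M'.D := root_mem h3 ω'
  have hx' : M'.a root ∈ M'.D := hv'.a_mem _ hr'
  have hsub : E '' (M'.D ∩ side) ⊆ M.D := by
    rintro _ ⟨p, ⟨hp, -⟩, rfl⟩
    exact hI.bij.mapsTo hp
  have hiff : ∀ y' ∈ M'.D, E y' ∈ E '' (M'.D ∩ side) ↔ y' ∈ side := by
    intro y' hy'
    constructor
    · rintro ⟨p, ⟨hp, hps⟩, hpy⟩
      rwa [← hI.bij.injOn hp hy' hpy]
    · exact fun h => ⟨y', ⟨hy', h⟩, rfl⟩
  have hfin : ∀ x ∈ M.D, ∀ y ∈ M.D, M.green x y ≠ ⊤ := by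
    intro x hx y hy
    refine ne_top_of_le_ne_top ?_ (hG D ω h3 hg x hx y hy)
    exact ENNReal.mul_ne_top (by norm_num)
      (ENNReal.add_ne_top.2 ⟨ENNReal.mul_ne_top (by norm_num) (by simp), by norm_num⟩)
  refine hTop _ M (hPl D ω h3 hg).1 root (root_mem h3 ω) (E root) (hI.bij.mapsTo hr')
    (E (M'.a root)) (hI.bij.mapsTo hx') hfin (E '' (M'.D ∩ side)) ?_ ?_ ?_ ?_
  · rw [inter_eq_self_of_subset_right hsub]
    exact (side_infinite h3 ω').image (hI.bij.injOn.mono inter_subset_left)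
  · refine Infinite.mono ?_ ((compl_infinite h3 ω').image (hI.bij.injOn.mono sdiff_subset))
    rintro _ ⟨p, ⟨hp, hps⟩, rfl⟩
    exact ⟨hI.bij.mapsTo hp, fun h => hps ((hiff p hp).1 h)⟩
  · intro y hy hyB
    obtain ⟨y', hy', rfl⟩ := hI.bij.surjOn hy
    have := j1 y' hy' ((hiff y' hy').1 hyB)
    show 100 * M.green (E root) (E y') ≤ M.green (E (M'.a root)) (E y')
    rw [hgreen _ hr' _ hy', hgreen _ hx' _ hy']
    exact this
  · intro y hy hyB
    obtain ⟨y', hy', rfl⟩ := hI.bij.surjOn hy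
    have := j2 y' hy' (fun h => hyB ((hiff y' hy').2 h))
    show 100 * M.green (E (M'.a root)) (E y') ≤ M.green (E root) (E y')
    rw [hgreen _ hr' _ hy', hgreen _ hx' _ hy']
    exact this

theorem finalB (hAV : StmArcValid) (hV : StmArcVertex) (hT : StmTree) (hG : StmGreen)
    (hC : StmCross) (hL : StmCrossList) (hP : StmPath) (hPr : StmProb) (hGA : StmGoodAE)
    (hE : StmEvent) (hM : StmMeas) (hR : StmReversible) (hPl : StmPlane) (hO : StmOneEnded)
    (hN : StmNonAmenable) (hI : StmIso0) (hTop : StmTopB) (hRR : StmReroot) (hAI : StmArcIso)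
    (hGI : StmGreenIso) (hPs : StmPres) (hRI : StmRotIso) : StmFinalB := by
  obtain ⟨n, hn⟩ := hE
  obtain ⟨D, hD⟩ := growth n
  have h3 := hD.three
  have h5 : ∀ k, 5 ≤ D k := fun k => by
    refine le_trans ?_ (hD.pos k)
    calc 5 ≤ 2 ^ 10 := by norm_num
      _ ≤ 2 ^ (k + 10) := Nat.pow_le_pow_right (by norm_num) (by omega)
  have : IsProbabilityMeasure law := hPr.2.2
  have hfin : ∀ ω, (tree D ω).Good → ∀ x ∈ (tree D ω).arc.D, ∀ y ∈ (tree D ω).arc.D,
      (tree D ω).arc.green x y ≠ ⊤ := by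
    intro ω hω x hx y hy
    refine ne_top_of_le_ne_top ?_ (hG D ω h3 hω x hx y hy)
    exact ENNReal.mul_ne_top (by norm_num)
      (ENNReal.add_ne_top.2 ⟨ENNReal.mul_ne_top (by norm_num) (by simp), by norm_num⟩)
  have hgood : ∀ᵐ ω ∂law, (tree D ω).Good := law_ac.ae_le (hGA D h3)
  refine ⟨(List ℕ × ℕ) × ℕ × Bool, List ℕ → ℕ, inferInstance, inferInstance, law, hPr.2.2,
    theMap D h3 hGA hM hPl, hR D h3, ?_, ?_, ?_⟩
  · exact hgood.mono fun ω hω => ⟨hO D ω h3 hω, hfin ω hω⟩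
  · refine hN _ _ law (theMap D h3 hGA hM hPl) (D 0) ?_ ?_
    · exact hgood.mono fun ω hω => hI D ω hD.four (fun k => hD.1 (Nat.zero_le k)) hω
    · refine lt_of_lt_of_le (?_ : 0 < law ({ω | ω [] = 0} \ {ω | ¬ (tree D ω).Good})) (measure_mono ?_)
      · rw [measure_sdiff_null (ae_iff.1 hgood)]
        refine pos_iff_ne_zero.2 fun h => ?_
        exact (mu_zero_pos hPr).ne' (mu_ac h)
      · rintro ω ⟨h0, h1⟩
        have h0' : ω [] = 0 := h0
        have hg : (tree D ω).Good := by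
          by_contra h; exact h1 h
        show (tree D ω).arc.deg root = D 0
        rw [(hV _ _ hg root (root_mem h3 ω)).1, (hT D ω h3).2.2.2.2.1 _ (root_mem h3 ω).1]
        show (2 * ω [] + 1) * D (ω []) = D 0
        rw [h0']; simp
  · have hae : ∀ᵐ ω ∂law, ∃ c ∈ (tree D ω).D, Evc D n ω c :=
      law_ac.ae_le (almost_sure hT hPs hRI hM D n h5 (hn D h3))
    filter_upwards [hgood, hae] with ω hg hω
    obtain ⟨c, hc, hev⟩ := hω
    exact disconnected hAV hV hT hG hC hL hP hPl hRR hAI hGI hTop hD hg hc hev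

end Pool.Agent.N276.MB
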