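import Pool.Agent.N276.MB.Stm

/-!
# The bound for Green's function at all vertices (MB/17)
-/

set_option autoImplicit false

open MeasureTheory Set Filter Topology
open scoped ENNReal Classical

namespace Pool.Agent.N276.MB

namespace GreenAll

/-! ### Green's function depends only on the vertices -/

section general

variable {V : Type} {M : CMap V}

theorem per_mem (hM : M.Valid) {d : V} (hd : d ∈ M.D) : d ∈ Function.periodicPts M.s := by
  obtain ⟨n, hn, h⟩ := hM.per d hd
  exact ⟨n, hn, h⟩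

theorem sameV_refl (d : V) : M.SameV d d := ⟨0, rfl⟩

theorem sameV_trans {d e f : V} (h : M.SameV d e) (h' : M.SameV e f) : M.SameV d f := by
  obtain ⟨n, rfl⟩ := h
  obtain ⟨m, rfl⟩ := h'
  exact ⟨m + n, by rw [Function.iterate_add_apply]⟩

theorem sameV_symm (hM : M.Valid) {d e : V} (hd : d ∈ M.D) (h : M.SameV d e) : M.SameV e d := by
  obtain ⟨n, rfl⟩ := h
  obtain ⟨p, hp, hper⟩ := hM.per d hd
  have h1 : ∀ k, M.s^[p * k] d = d := by
    intro k
    induction k with
    | zero => rfl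
    | succ k ih => rw [Nat.mul_succ, Function.iterate_add_apply, hper, ih]
  have h2 : n ≤ p * n := Nat.le_mul_of_pos_left n hp
  refine ⟨p * n - n, ?_⟩
  rw [← Function.iterate_add_apply, Nat.sub_add_cancel h2, h1]

theorem avg_s (hM : M.Valid) {d : V} (hd : d ∈ M.D) (h : V → ℝ≥0∞) : M.avg h (M.s d) = M.avg h d := by
  unfold CMap.avg CMap.deg
  rw [Function.minimalPeriod_apply (per_mem hM hd)]
  congr 1
  have h1 : M.s^[Function.minimalPeriod M.s d] d = d := Function.iterate_minimalPeriod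
  have h2 : ∀ i, M.s^[i] (M.s d) = M.s^[i + 1] d := fun i => by rw [Function.iterate_succ_apply]
  simp_rw [h2]
  obtain ⟨k, hk⟩ : ∃ k, Function.minimalPeriod M.s d = k + 1 :=
    ⟨Function.minimalPeriod M.s d - 1,
      (Nat.sub_add_cancel (Function.minimalPeriod_pos_of_mem_periodicPts (per_mem hM hd))).symm⟩
  rw [hk] at h1 ⊢
  rw [Finset.sum_range_succ (fun i => h (M.s^[i + 1] d)), h1,
    Finset.sum_range_succ' (fun i => h (M.s^[i] d))]
  rfl

theorem iter_mem (hM : M.Valid) {d : V} (hd : d ∈ M.D) (n : ℕ) : M.s^[n] d ∈ M.D := by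
  induction n with
  | zero => exact hd
  | succ n ih => rw [Function.iterate_succ_apply']; exact hM.s_mem _ ih

theorem avg_sameV (hM : M.Valid) {d e : V} (hd : d ∈ M.D) (hde : M.SameV d e) (h : V → ℝ≥0∞) :
    M.avg h e = M.avg h d := by
  obtain ⟨n, rfl⟩ := hde
  induction n with
  | zero => rfl
  | succ n ih => rw [Function.iterate_succ_apply', avg_s hM (iter_mem hM hd n), ih]

theorem green_left (hM : M.Valid) {x x' : V} (hx : x ∈ M.D) (h : M.SameV x x') (y : V) :
    M.green x' y = M.green x y := by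
  unfold CMap.green
  refine tsum_congr fun n => ?_
  cases n with
  | zero =>
    simp only [Function.iterate_zero, id]
    have : M.SameV y x' ↔ M.SameV y x :=
      ⟨fun h' => sameV_trans h' (sameV_symm hM hx h), fun h' => sameV_trans h' h⟩
    simp only [this]
  | succ n =>
    rw [Function.iterate_succ_apply']
    exact avg_sameV hM hx h _

theorem green_right (hM : M.Valid) (x : V) {y y' : V} (hy : y ∈ M.D) (h : M.SameV y y') :
    M.green x y' = M.green x y := by
  unfold CMap.green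
  have : (fun d => if M.SameV y' d then (1 : ℝ≥0∞) else 0) = fun d => if M.SameV y d then 1 else 0 := by
    funext d
    have : M.SameV y' d ↔ M.SameV y d :=
      ⟨fun h' => sameV_trans h h', fun h' => sameV_trans (sameV_symm hM hy h) h'⟩
    simp only [this]
  rw [this]

end general

/-! ### the darts of a corner -/

section corner

variable {X : Type} {L : LMap X}

theorem same_true (c : X) (m : ℕ) (hm : m ≤ L.l c) : L.arc.SameV (c, 0, true) (c, m, true) := by
  induction m with
  | zero => exact sameV_refl _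
  | succ m ih =>
    refine sameV_trans (ih (by omega)) ⟨1, ?_⟩
    simp only [Function.iterate_one, LMap.arc, if_true]
    rw [if_pos (by omega)]

theorem same_false (c : X) (j : ℕ) (hj : j < L.l c) :
    L.arc.SameV (c, 0, true) (c, L.l c - j, false) := by
  induction j with
  | zero =>
    refine sameV_trans (same_true c (L.l c) le_rfl) ⟨1, ?_⟩
    simp only [Function.iterate_one, LMap.arc, if_true]
    rw [if_neg (by omega), if_neg (by omega)]
    rfl
  | succ j ih =>
    refine sameV_trans (ih (by omega)) ⟨1, ?_⟩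
    simp only [Function.iterate_one, LMap.arc]
    rw [if_neg (by simp), if_neg (by omega)]
    rfl

theorem same_corner {p : X × ℕ × Bool} (hp : p ∈ L.arc.D) : L.arc.SameV (p.1, 0, true) p := by
  obtain ⟨c, m, b⟩ := p
  obtain ⟨h1, h2, h3⟩ := hp
  simp only at h1 h2 h3
  cases b with
  | true => exact same_true c m h2
  | false =>
    have hm : m ≠ 0 := fun h => by simpa using h3 h
    have := same_false (L := L) c (L.l c - m) (by omega)
    rwa [Nat.sub_sub_self h2] at this

end corner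

/-! ### isomorphic labelled maps -/

section iso

variable {X : Type} {L L' : LMap X} {e : X → X}

theorem good_of_iso (h : LIso L' L e) (hL : L.Good) (hV : L'.Valid) (h1 : ∀ c ∈ L'.D, L'.si c ∈ L'.D)
    (h2 : ∀ c ∈ L'.D, L'.si (L'.s c) = c) (h3 : ∀ c ∈ L'.D, L'.s (L'.si c) = c) : L'.Good := by
  have hmem : ∀ c ∈ L'.D, e c ∈ L.D := fun c hc => h.bij.mapsTo hc
  have hsi : ∀ c ∈ L'.D, e (L'.si c) = L.si (e c) := by
    intro c hc
    have h4 := h.s_comm _ (h1 c hc)
    rw [h3 c hc] at h4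
    rw [h4, hL.si_s _ (hmem _ (h1 c hc))]
  have ht : ∀ c ∈ L'.D, L'.tau c ∈ L'.D ∧ e (L'.tau c) = L.tau (e c) := by
    intro c hc
    refine ⟨h1 _ (hV.a_mem c hc), ?_⟩
    unfold LMap.tau
    rw [hsi _ (hV.a_mem c hc), h.a_comm c hc]
  have ht' : ∀ c ∈ L'.D, L'.tau' c ∈ L'.D ∧ e (L'.tau' c) = L.tau' (e c) := by
    intro c hc
    refine ⟨hV.a_mem _ (hV.s_mem c hc), ?_⟩
    unfold LMap.tau'
    rw [h.a_comm _ (hV.s_mem c hc), h.s_comm c hc]
  have htn : ∀ (n : ℕ), ∀ c ∈ L'.D, L'.tau^[n] c ∈ L'.D ∧ e (L'.tau^[n] c) = L.tau^[n] (e c) := by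
    intro n
    induction n with
    | zero => exact fun c hc => ⟨hc, rfl⟩
    | succ n ih =>
      intro c hc
      rw [Function.iterate_succ_apply', Function.iterate_succ_apply']
      obtain ⟨h5, h6⟩ := ih c hc
      exact ⟨(ht _ h5).1, by rw [(ht _ h5).2, h6]⟩
  have htn' : ∀ (n : ℕ), ∀ c ∈ L'.D, L'.tau'^[n] c ∈ L'.D ∧ e (L'.tau'^[n] c) = L.tau'^[n] (e c) := by
    intro n
    induction n with
    | zero => exact fun c hc => ⟨hc, rfl⟩
    | succ n ih =>
      intro c hc
      rw [Function.iterate_succ_apply', Function.iterate_succ_apply']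
      obtain ⟨h5, h6⟩ := ih c hc
      exact ⟨(ht' _ h5).1, by rw [(ht' _ h5).2, h6]⟩
  refine ⟨hV, h1, h2, h3, fun c hc => ?_, fun c hc m => ?_, fun c hc m => ?_⟩
  · rw [← h.l_comm _ (hV.s_mem c hc), h.s_comm c hc, hL.l_s _ (hmem c hc), h.l_comm c hc]
  · obtain ⟨n, hn, hm⟩ := hL.fwd _ (hmem c hc) m
    refine ⟨n, hn, ?_⟩
    rwa [← (htn n c hc).2, h.l_comm _ (htn n c hc).1] at hm
  · obtain ⟨n, hn, hm⟩ := hL.bwd _ (hmem c hc) m
    refine ⟨n, hn, ?_⟩
    rwa [← (htn' n c hc).2, h.l_comm _ (htn' n c hc).1] at hm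

end iso

end GreenAll

open GreenAll

theorem green_all : StmArcValid → StmTree → StmArcIso → StmReroot → StmGreenIso → StmMax →
    StmGreenRoot → StmGreen := by
  intro hAV hT hAI hRR hGI hMax hGR D ω hD hG x hx y hy
  have hV := hAV _ _ hG
  refine (hMax _ _ hV x hx y hy).trans ?_
  have hc : y.1 ∈ (tree D ω).D := hy.1
  have hy0 : ((y.1, 0, true) : (List ℕ × ℕ) × ℕ × Bool) ∈ (tree D ω).arc.D :=
    ⟨hc, Nat.zero_le _, fun _ => rfl⟩
  have hs := same_corner hy
  rw [green_left hV hy0 hs, green_right hV _ hy0 hs]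
  obtain ⟨ω', e, -, hiso, he⟩ := hRR D ω hD _ hc
  obtain ⟨t1, t2, t3, t4, -⟩ := hT D ω' hD
  have hG' : (tree D ω').Good := good_of_iso hiso hG t1 t2 t3 t4
  have hAI' := hAI _ _ _ _ hG' hG hiso
  have hrt : rt ∈ (tree D ω').D := ⟨trivial, lt_of_lt_of_le (show rt.2 < 3 by simp [rt]) (hD _)⟩
  have hroot : root ∈ (tree D ω').arc.D := ⟨hrt, Nat.zero_le _, fun _ => rfl⟩
  have h1 := hGI _ _ _ _ _ _ (hAV _ _ hG') hV hAI' root hroot root hroot
  have h2 : ((fun p : (List ℕ × ℕ) × ℕ × Bool => (e p.1, p.2)) root) = (y.1, 0, true) := by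
    simp only [root, he]
  simp only [h2] at h1
  rw [h1]
  refine (hGR D ω' hD hG').trans ?_
  have h3 : ω' [] = ω y.1.1 := by
    have := hiso.l_comm rt hrt
    rw [he] at this
    exact this.symm
  rw [h3]

end Pool.Agent.N276.MB
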