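import Pool.Agent.N276.MB.Stm

/-!
# Basic properties of Green's function
-/

set_option autoImplicit false

open MeasureTheory Set Filter Topology
open scoped ENNReal Classical

namespace Pool.Agent.N276.MB

namespace GreenBasic

variable {V : Type} {M : CMap V}

theorem iter_mem (hM : M.Valid) {d : V} (hd : d ∈ M.D) (n : ℕ) : M.s^[n] d ∈ M.D := by
  induction n with
  | zero => exact hd
  | succ n ih =>
    rw [Function.iterate_succ_apply']
    exact hM.s_mem _ ih

theorem per_mem (hM : M.Valid) {d : V} (hd : d ∈ M.D) : d ∈ Function.periodicPts M.s := by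
  obtain ⟨n, hn, h⟩ := hM.per d hd
  exact ⟨n, hn, h⟩

theorem deg_pos (hM : M.Valid) {d : V} (hd : d ∈ M.D) : 0 < M.deg d :=
  Function.minimalPeriod_pos_of_mem_periodicPts (per_mem hM hd)

theorem iter_deg (d : V) : M.s^[M.deg d] d = d :=
  Function.iterate_minimalPeriod

theorem sameV_refl (d : V) : M.SameV d d := ⟨0, rfl⟩

theorem sameV_mem (hM : M.Valid) {d d' : V} (hd : d ∈ M.D) (h : M.SameV d d') : d' ∈ M.D := by
  obtain ⟨n, rfl⟩ := h
  exact iter_mem hM hd n

theorem sameV_deg (hM : M.Valid) {d d' : V} (hd : d ∈ M.D) (h : M.SameV d d') :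
    M.deg d' = M.deg d := by
  obtain ⟨n, rfl⟩ := h
  exact Function.minimalPeriod_apply_iterate (per_mem hM hd) n

theorem sameV_lt (hM : M.Valid) {d d' : V} (hd : d ∈ M.D) (h : M.SameV d d') :
    ∃ i < M.deg d, M.s^[i] d = d' := by
  obtain ⟨n, rfl⟩ := h
  exact ⟨n % M.deg d, Nat.mod_lt _ (deg_pos hM hd), Function.iterate_mod_minimalPeriod_eq⟩

theorem sameV_trans {d d' d'' : V} (h : M.SameV d d') (h' : M.SameV d' d'') : M.SameV d d'' := by
  obtain ⟨n, rfl⟩ := h
  obtain ⟨m, rfl⟩ := h'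
  exact ⟨m + n, by rw [Function.iterate_add_apply]⟩

theorem sameV_symm (hM : M.Valid) {d d' : V} (hd : d ∈ M.D) (h : M.SameV d d') :
    M.SameV d' d := by
  obtain ⟨i, hi, rfl⟩ := sameV_lt hM hd h
  refine ⟨M.deg d - i, ?_⟩
  rw [← Function.iterate_add_apply, Nat.sub_add_cancel hi.le]
  exact iter_deg d

/-! ### averages -/

theorem sum_shift (h : V → ℝ≥0∞) {d : V} {p : ℕ} (hp : 0 < p) (hd : M.s^[p] d = d) :
    ∑ i ∈ Finset.range p, h (M.s^[i] (M.s d)) = ∑ i ∈ Finset.range p, h (M.s^[i] d) := by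
  obtain ⟨q, rfl⟩ := Nat.exists_eq_succ_of_ne_zero hp.ne'
  rw [Finset.sum_range_succ, Finset.sum_range_succ' (fun i => h (M.s^[i] d))]
  congr 1
  rw [← Function.iterate_succ_apply, hd]
  rfl

theorem avg_s (hM : M.Valid) (h : V → ℝ≥0∞) {d : V} (hd : d ∈ M.D) :
    M.avg h (M.s d) = M.avg h d := by
  have h1 : M.deg (M.s d) = M.deg d := sameV_deg hM hd ⟨1, rfl⟩
  unfold CMap.avg
  rw [h1, sum_shift h (deg_pos hM hd) (iter_deg d)]

theorem avg_sameV (hM : M.Valid) (h : V → ℝ≥0∞) {d d' : V} (hd : d ∈ M.D) (hdd : M.SameV d d') :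
    M.avg h d' = M.avg h d := by
  obtain ⟨n, rfl⟩ := hdd
  induction n with
  | zero => rfl
  | succ n ih =>
    rw [Function.iterate_succ_apply', avg_s hM h (iter_mem hM hd n), ih]

theorem avg_const (hM : M.Valid) (c : ℝ≥0∞) {d : V} (hd : d ∈ M.D) :
    M.avg (fun _ => c) d = c := by
  unfold CMap.avg
  rw [Finset.sum_const, Finset.card_range, nsmul_eq_mul]
  have h1 : (M.deg d : ℝ≥0∞) ≠ 0 := by
    exact_mod_cast (deg_pos hM hd).ne'
  rw [mul_div_assoc, mul_comm]
  exact ENNReal.div_mul_cancel h1 (ENNReal.natCast_ne_top _)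

theorem avg_mono (hM : M.Valid) {h h' : V → ℝ≥0∞} (hh : ∀ x ∈ M.D, h x ≤ h' x) {d : V}
    (hd : d ∈ M.D) : M.avg h d ≤ M.avg h' d := by
  unfold CMap.avg
  gcongr with i _
  exact hh _ (iter_mem hM hd i)

theorem avg_congr (hM : M.Valid) {h h' : V → ℝ≥0∞} (hh : ∀ x ∈ M.D, h x = h' x) {d : V}
    (hd : d ∈ M.D) : M.avg h d = M.avg h' d :=
  le_antisymm (avg_mono hM (fun x hx => (hh x hx).le) hd)
    (avg_mono hM (fun x hx => (hh x hx).ge) hd)

theorem P_sameV (hM : M.Valid) (h : V → ℝ≥0∞) {d d' : V} (hd : d ∈ M.D) (hdd : M.SameV d d') :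
    M.P h d' = M.P h d := avg_sameV hM _ hd hdd

theorem P_mono (hM : M.Valid) {h h' : V → ℝ≥0∞} (hh : ∀ x ∈ M.D, h x ≤ h' x) {d : V}
    (hd : d ∈ M.D) : M.P h d ≤ M.P h' d :=
  avg_mono hM (fun x hx => hh _ (hM.a_mem x hx)) hd

theorem P_tsum {ι : Type*} (f : ι → V → ℝ≥0∞) (d : V) :
    M.P (fun x => ∑' i, f i x) d = ∑' i, M.P (f i) d := by
  unfold CMap.P CMap.avg
  simp_rw [div_eq_mul_inv]
  rw [ENNReal.tsum_mul_right, Summable.tsum_finsetSum fun _ _ => ENNReal.summable]

theorem P_sum {ι : Type*} (s : Finset ι) (f : ι → V → ℝ≥0∞) (d : V) :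
    M.P (fun x => ∑ i ∈ s, f i x) d = ∑ i ∈ s, M.P (f i) d := by
  unfold CMap.P CMap.avg
  simp_rw [div_eq_mul_inv]
  rw [← Finset.sum_mul, Finset.sum_comm]

theorem P_mul (f : V → ℝ≥0∞) (c : ℝ≥0∞) (d : V) :
    M.P (fun x => f x * c) d = M.P f d * c := by
  unfold CMap.P CMap.avg
  rw [← Finset.sum_mul, ENNReal.mul_div_right_comm]

/-! ### the terms of Green's function -/

/-- the indicator of the vertex of `y` -/
noncomputable def ind (M : CMap V) (y : V) : V → ℝ≥0∞ := fun d => if M.SameV y d then 1 else 0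

theorem green_def (x y : V) : M.green x y = ∑' n : ℕ, M.P^[n] (ind M y) x := rfl

theorem term_sameV (hM : M.Valid) {y : V} {d d' : V} (hd : d ∈ M.D)
    (hdd : M.SameV d d') (n : ℕ) : M.P^[n] (ind M y) d' = M.P^[n] (ind M y) d := by
  cases n with
  | zero =>
    simp only [Function.iterate_zero, id_eq, ind]
    have h : M.SameV y d' ↔ M.SameV y d := by
      constructor
      · intro h
        exact sameV_trans h (sameV_symm hM hd hdd)
      · intro h
        exact sameV_trans h hdd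
    simp [h]
  | succ n =>
    rw [Function.iterate_succ_apply']
    exact P_sameV hM _ hd hdd

/-- the first terms of Green's function -/
noncomputable def gs (M : CMap V) (y : V) (N : ℕ) (x : V) : ℝ≥0∞ :=
  ∑ n ∈ Finset.range N, M.P^[n] (ind M y) x

theorem gs_succ (y : V) (N : ℕ) (x : V) : gs M y (N + 1) x = ind M y x + M.P (gs M y N) x := by
  unfold gs
  rw [Finset.sum_range_succ']
  rw [show (fun x => ∑ n ∈ Finset.range N, M.P^[n] (ind M y) x) =
    (fun x => ∑ n ∈ Finset.range N, (fun n => M.P^[n] (ind M y)) n x) from rfl]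
  rw [P_sum, add_comm]
  simp only [Function.iterate_zero, id_eq]
  congr 1
  refine Finset.sum_congr rfl fun n _ => ?_
  rw [Function.iterate_succ_apply']

theorem gs_mono (y : V) (N : ℕ) (x : V) : gs M y N x ≤ gs M y (N + 1) x := by
  unfold gs
  rw [Finset.sum_range_succ]
  exact le_self_add

theorem gs_le (hM : M.Valid) {y : V} (hy : y ∈ M.D) (N : ℕ) :
    ∀ x ∈ M.D, gs M y N x ≤ gs M y N y := by
  induction N with
  | zero =>
    intro x _
    simp [gs]
  | succ N ih =>
    intro x hx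
    by_cases h : M.SameV y x
    · refine le_of_eq ?_
      unfold gs
      exact Finset.sum_congr rfl fun n _ => term_sameV hM hy h n
    · rw [gs_succ, show ind M y x = 0 by simp [ind, h], zero_add]
      calc M.P (gs M y N) x ≤ M.P (fun _ => gs M y N y) x := P_mono hM ih hx
        _ = gs M y N y := avg_const hM _ hx
        _ ≤ gs M y (N + 1) y := gs_mono y N y

/-! ### isomorphisms -/

theorem iso_iter {M' : CMap V} {W W' : Set V} {e : V → V} (hM : M.Valid) (he : IsIso M W M' W' e)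
    {d : V} (hd : d ∈ M.D) (n : ℕ) : M'.s^[n] (e d) = e (M.s^[n] d) := by
  induction n with
  | zero => rfl
  | succ n ih =>
    rw [Function.iterate_succ_apply', Function.iterate_succ_apply', ih,
      he.s_comm _ (iter_mem hM hd n)]

theorem iso_sameV {M' : CMap V} {W W' : Set V} {e : V → V} (hM : M.Valid) (he : IsIso M W M' W' e)
    {y d : V} (hy : y ∈ M.D) (hd : d ∈ M.D) : M'.SameV (e y) (e d) ↔ M.SameV y d := by
  constructor
  · rintro ⟨n, hn⟩
    rw [iso_iter hM he hy] at hn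
    exact ⟨n, he.bij.injOn (iter_mem hM hy n) hd hn⟩
  · rintro ⟨n, hn⟩
    exact ⟨n, by rw [iso_iter hM he hy, hn]⟩

theorem iso_deg {M' : CMap V} {W W' : Set V} {e : V → V} (hM : M.Valid) (he : IsIso M W M' W' e)
    {d : V} (hd : d ∈ M.D) : M'.deg (e d) = M.deg d := by
  unfold CMap.deg
  rw [Function.minimalPeriod_eq_minimalPeriod_iff]
  intro n
  unfold Function.IsPeriodicPt Function.IsFixedPt
  rw [iso_iter hM he hd]
  constructor
  · intro h
    exact he.bij.injOn (iter_mem hM hd n) hd h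
  · intro h
    rw [h]

theorem iso_P {M' : CMap V} {W W' : Set V} {e : V → V} (hM : M.Valid) (he : IsIso M W M' W' e)
    {h h' : V → ℝ≥0∞} (hh : ∀ d ∈ M.D, h' (e d) = h d) {d : V} (hd : d ∈ M.D) :
    M'.P h' (e d) = M.P h d := by
  unfold CMap.P CMap.avg
  rw [iso_deg hM he hd]
  congr 1
  refine Finset.sum_congr rfl fun i _ => ?_
  have h1 := iter_mem hM hd i
  change h' (M'.a (M'.s^[i] (e d))) = h (M.a (M.s^[i] d))
  rw [iso_iter hM he hd, ← he.a_comm _ h1, hh _ (hM.a_mem _ h1)]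

theorem iso_term {M' : CMap V} {W W' : Set V} {e : V → V} (hM : M.Valid) (he : IsIso M W M' W' e)
    {y : V} (hy : y ∈ M.D) (n : ℕ) : ∀ d ∈ M.D,
    M'.P^[n] (ind M' (e y)) (e d) = M.P^[n] (ind M y) d := by
  induction n with
  | zero =>
    intro d hd
    simp only [Function.iterate_zero, id_eq, ind]
    rw [iso_sameV hM he hy hd]
  | succ n ih =>
    intro d hd
    rw [Function.iterate_succ_apply', Function.iterate_succ_apply']
    exact iso_P hM he ih hd

/-! ### last passage -/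

theorem mem_iter (hM : M.Valid) {A : Set V} (hA : ∀ d ∈ M.D, d ∈ A ↔ M.s d ∈ A) {d : V}
    (hd : d ∈ M.D) (n : ℕ) : M.s^[n] d ∈ A ↔ d ∈ A := by
  induction n with
  | zero => rfl
  | succ n ih =>
    rw [Function.iterate_succ_apply', ← hA _ (iter_mem hM hd n), ih]

/-- one term of the last passage decomposition -/
noncomputable def lpt (M : CMap V) (A : Set V) (y x : V) (k m : ℕ) : ℝ≥0∞ :=
  ∑' d : {d | d ∈ M.D ∧ d ∈ A ∧ M.a d ∉ A},
    M.P^[k] (ind M d) x / M.deg d * M.P^[m] (ind M y) (M.a d)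

theorem lp_succ (A : Set V) (y x : V) (k m : ℕ) :
    lpt M A y x (k + 1) m = M.P (fun x => lpt M A y x k m) x := by
  unfold lpt
  rw [P_tsum]
  refine tsum_congr fun d => ?_
  rw [Function.iterate_succ_apply']
  simp_rw [div_eq_mul_inv]
  rw [P_mul, P_mul]

theorem lp_zero (hM : M.Valid) {A : Set V} (hA : ∀ d ∈ M.D, d ∈ A ↔ M.s d ∈ A) (y : V) {x : V}
    (hx : x ∈ M.D) (hxA : x ∈ A) (m : ℕ) :
    M.avg (fun d => if M.a d ∈ A then 0 else M.P^[m] (ind M y) (M.a d)) x ≤ lpt M A y x 0 m := by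
  set g : V → ℝ≥0∞ := fun d => if M.a d ∈ A then 0 else M.P^[m] (ind M y) (M.a d) with hg
  set I : Finset ℕ := (Finset.range (M.deg x)).filter fun i => M.a (M.s^[i] x) ∉ A with hI
  have h1 : M.avg g x = ∑ i ∈ I, g (M.s^[i] x) / M.deg x := by
    unfold CMap.avg
    rw [hI, Finset.sum_filter]
    simp_rw [div_eq_mul_inv]
    rw [Finset.sum_mul]
    refine Finset.sum_congr rfl fun i _ => ?_
    by_cases h : M.a (M.s^[i] x) ∈ A
    · rw [if_neg (not_not.2 h)]
      simp [hg, h]
    · rw [if_pos h]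
  have hmem : ∀ i : ℕ, i ∈ I → M.s^[i] x ∈ {d | d ∈ M.D ∧ d ∈ A ∧ M.a d ∉ A} := by
    intro i hi
    rw [hI, Finset.mem_filter] at hi
    exact ⟨iter_mem hM hx i, (mem_iter hM hA hx i).2 hxA, hi.2⟩
  rw [h1, ← Finset.sum_attach]
  set φ : I → {d | d ∈ M.D ∧ d ∈ A ∧ M.a d ∉ A} := fun i => ⟨M.s^[(i : ℕ)] x, hmem i i.2⟩ with hφ
  have hinj : Function.Injective φ := by
    intro i j hij
    have h2 : M.s^[(i : ℕ)] x = M.s^[(j : ℕ)] x := congrArg Subtype.val hij
    apply Subtype.ext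
    refine Function.iterate_injOn_Iio_minimalPeriod (f := M.s) (x := x) ?_ ?_ h2
    · exact Finset.mem_range.1 (Finset.mem_filter.1 i.2).1
    · exact Finset.mem_range.1 (Finset.mem_filter.1 j.2).1
  unfold lpt
  calc ∑ i ∈ I.attach, g (M.s^[(i : ℕ)] x) / M.deg x
      = ∑ d ∈ I.attach.map ⟨φ, hinj⟩, (fun d : {d | d ∈ M.D ∧ d ∈ A ∧ M.a d ∉ A} =>
        M.P^[0] (ind M d) x / M.deg d * M.P^[m] (ind M y) (M.a d)) d := by
        rw [Finset.sum_map]
        refine Finset.sum_congr rfl fun i _ => ?_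
        have hi := hmem i i.2
        have hsv : M.SameV x (M.s^[(i : ℕ)] x) := ⟨i, rfl⟩
        simp only [Function.Embedding.coeFn_mk, hφ, Function.iterate_zero, id_eq, hg, ind]
        rw [if_neg hi.2.2, if_pos (sameV_symm hM hx hsv), sameV_deg hM hx hsv]
        rw [div_eq_mul_inv, div_eq_mul_inv, one_mul, mul_comm]
    _ ≤ _ := ENNReal.sum_le_tsum _

theorem last (hM : M.Valid) {A : Set V} (hA : ∀ d ∈ M.D, d ∈ A ↔ M.s d ∈ A) {y : V} (hy : y ∈ M.D)
    (hyA : y ∉ A) (n : ℕ) : ∀ x ∈ M.D, x ∈ A →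
    M.P^[n] (ind M y) x ≤ ∑ k ∈ Finset.range n, lpt M A y x k (n - 1 - k) := by
  induction n with
  | zero =>
    intro x hx hxA
    simp only [Function.iterate_zero, id_eq, Finset.range_zero, Finset.sum_empty, ind]
    rw [if_neg]
    rintro ⟨n, hn⟩
    apply hyA
    rw [← mem_iter hM hA hy n, hn]
    exact hxA
  | succ n ih =>
    intro x hx hxA
    rw [Function.iterate_succ_apply', Finset.sum_range_succ']
    have h1 : ∀ d ∈ M.D, M.P^[n] (ind M y) (M.a d) ≤
        (if M.a d ∈ A then 0 else M.P^[n] (ind M y) (M.a d)) +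
          ∑ k ∈ Finset.range n, lpt M A y (M.a d) k (n - 1 - k) := by
      intro d hd
      by_cases h : M.a d ∈ A
      · rw [if_pos h, zero_add]
        exact ih _ (hM.a_mem d hd) h
      · rw [if_neg h]
        exact le_self_add
    have h2 : M.P (M.P^[n] (ind M y)) x ≤
        M.avg (fun d => if M.a d ∈ A then 0 else M.P^[n] (ind M y) (M.a d)) x +
          M.P (fun x => ∑ k ∈ Finset.range n, lpt M A y x k (n - 1 - k)) x := by
      refine (avg_mono hM h1 hx).trans (le_of_eq ?_)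
      unfold CMap.P CMap.avg
      rw [Finset.sum_add_distrib, ENNReal.add_div]
    refine h2.trans ?_
    rw [add_comm, P_sum]
    refine add_le_add (le_of_eq ?_) ?_
    · refine Finset.sum_congr rfl fun k _ => ?_
      rw [lp_succ]
      congr 1
      funext x
      congr 1
      omega
    · have := lp_zero hM hA y hx hxA n
      simpa using this

end GreenBasic

open GreenBasic

theorem green_iso : StmGreenIso := by
  intro V M M' W W' e hM _ he x hx y hy
  rw [green_def, green_def]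
  exact tsum_congr fun n => iso_term hM he hy n x hx

theorem green_step : StmStep := by
  intro V M hM x hx y hy d hxd
  obtain ⟨i, hi, rfl⟩ := sameV_lt hM hx hxd
  have hd0 : (M.deg x : ℝ≥0∞) ≠ 0 := by
    exact_mod_cast (deg_pos hM hx).ne'
  rw [green_def, green_def]
  calc ∑' n : ℕ, M.P^[n] (ind M y) (M.a (M.s^[i] x))
      ≤ ∑' n : ℕ, M.deg x * M.P^[n + 1] (ind M y) x := by
        refine ENNReal.tsum_le_tsum fun n => ?_
        rw [Function.iterate_succ_apply']
        unfold CMap.P CMap.avg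
        rw [ENNReal.mul_div_cancel hd0 (ENNReal.natCast_ne_top _)]
        exact Finset.single_le_sum (f := fun i => M.P^[n] (ind M y) (M.a (M.s^[i] x)))
          (fun _ _ => zero_le) (Finset.mem_range.2 hi)
    _ = M.deg x * ∑' n : ℕ, M.P^[n + 1] (ind M y) x := ENNReal.tsum_mul_left
    _ ≤ M.deg x * ∑' n : ℕ, M.P^[n] (ind M y) x := by
        refine mul_le_mul' le_rfl ?_
        rw [tsum_eq_zero_add' (f := fun n => M.P^[n] (ind M y) x) ENNReal.summable]
        exact le_add_self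

theorem green_max : StmMax := by
  intro V M hM x hx y hy
  rw [green_def, green_def, ENNReal.tsum_eq_iSup_nat, ENNReal.tsum_eq_iSup_nat]
  exact iSup_mono fun N => gs_le hM hy N x hx

theorem cross : StmCross := by
  intro V M hM A hA x hx hxA y hy hyA
  calc M.green x y = ∑' n : ℕ, M.P^[n] (ind M y) x := green_def x y
    _ ≤ ∑' n : ℕ, ∑ k ∈ Finset.range n, lpt M A y x k (n - 1 - k) :=
        ENNReal.tsum_le_tsum fun n => last hM hA hy hyA n x hx hxA
    _ = ∑' n : ℕ, ∑ k ∈ Finset.range (n + 1), lpt M A y x k (n - k) := by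
        rw [tsum_eq_zero_add' (f := fun n => ∑ k ∈ Finset.range n, lpt M A y x k (n - 1 - k))
          ENNReal.summable]
        simp
    _ = ∑' n : ℕ, ∑ p ∈ Finset.HasAntidiagonal.antidiagonal n, lpt M A y x p.1 p.2 := by
        refine tsum_congr fun n => ?_
        rw [Finset.Nat.sum_antidiagonal_eq_sum_range_succ]
    _ = ∑' p : ℕ × ℕ, lpt M A y x p.1 p.2 := by
        rw [← (Finset.HasAntidiagonal.sigmaAntidiagonalEquivProd (A := ℕ)).tsum_eq, ENNReal.tsum_sigma']
        refine tsum_congr fun n => ?_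
        rw [← Finset.tsum_subtype]
        rfl
    _ = ∑' k : ℕ, ∑' m : ℕ, lpt M A y x k m := ENNReal.tsum_prod
    _ = ∑' d : {d | d ∈ M.D ∧ d ∈ A ∧ M.a d ∉ A},
          ∑' k : ℕ, ∑' m : ℕ, M.P^[k] (ind M d) x / M.deg d * M.P^[m] (ind M y) (M.a d) := by
        unfold lpt
        simp_rw [ENNReal.tsum_comm (α := ℕ) (β := {d | d ∈ M.D ∧ d ∈ A ∧ M.a d ∉ A})]
    _ = ∑' d : {d | d ∈ M.D ∧ d ∈ A ∧ M.a d ∉ A},
          M.green x d / M.deg d * M.green (M.a d) y := by
        refine tsum_congr fun d => ?_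
        simp_rw [ENNReal.tsum_mul_left, ENNReal.tsum_mul_right, green_def, div_eq_mul_inv,
          ENNReal.tsum_mul_right]

end Pool.Agent.N276.MB
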