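import Pool.Agent.N276.MB.Stm

/-!
# The energy bound for Green's function at the root (helper73)
-/

set_option autoImplicit false

open MeasureTheory Set Filter Topology
open scoped ENNReal Classical

namespace Pool.Agent.N276.MB

namespace GreenRoot

variable {V : Type} {M : CMap V}

lemma iter_mem (hM : M.Valid) {d : V} (hd : d ∈ M.D) (i : ℕ) : M.s^[i] d ∈ M.D := by
  induction i with
  | zero => exact hd
  | succ i ih =>
    rw [Function.iterate_succ_apply']
    exact hM.s_mem _ ih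

lemma mem_per (hM : M.Valid) {d : V} (hd : d ∈ M.D) : d ∈ Function.periodicPts M.s := by
  obtain ⟨n, hn, h⟩ := hM.per d hd
  exact ⟨n, hn, h⟩

lemma deg_pos (hM : M.Valid) {d : V} (hd : d ∈ M.D) : 0 < M.deg d :=
  Function.minimalPeriod_pos_of_mem_periodicPts (mem_per hM hd)

lemma deg_s (hM : M.Valid) {d : V} (hd : d ∈ M.D) : M.deg (M.s d) = M.deg d :=
  Function.minimalPeriod_apply (mem_per hM hd)

lemma iter_deg (d : V) : M.s^[M.deg d] d = d := Function.iterate_minimalPeriod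

lemma iter_mod (d : V) (n : ℕ) : M.s^[n % M.deg d] d = M.s^[n] d :=
  Function.iterate_mod_minimalPeriod_eq

lemma sameV_lt {d x : V} (hM : M.Valid) (hd : d ∈ M.D) (h : M.SameV d x) :
    ∃ i < M.deg d, M.s^[i] d = x := by
  obtain ⟨n, rfl⟩ := h
  exact ⟨n % M.deg d, Nat.mod_lt _ (deg_pos hM hd), iter_mod d n⟩

lemma sameV_refl (d : V) : M.SameV d d := ⟨0, rfl⟩

lemma sameV_symm {d x : V} (hM : M.Valid) (hd : d ∈ M.D) (h : M.SameV d x) : M.SameV x d := by
  obtain ⟨i, hi, rfl⟩ := sameV_lt hM hd h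
  refine ⟨M.deg d - i, ?_⟩
  rw [← Function.iterate_add_apply, Nat.sub_add_cancel hi.le]
  exact iter_deg d

lemma sameV_trans {d x y : V} (h : M.SameV d x) (h' : M.SameV x y) : M.SameV d y := by
  obtain ⟨n, rfl⟩ := h
  obtain ⟨m, rfl⟩ := h'
  exact ⟨m + n, Function.iterate_add_apply _ _ _ _⟩

lemma sameV_mem (hM : M.Valid) {d x : V} (hd : d ∈ M.D) (h : M.SameV d x) : x ∈ M.D := by
  obtain ⟨n, rfl⟩ := h
  exact iter_mem hM hd n

lemma orb_finite (hM : M.Valid) {d : V} (hd : d ∈ M.D) : {x | M.SameV d x}.Finite := by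
  refine ((Finset.range (M.deg d)).image fun i => M.s^[i] d).finite_toSet.subset ?_
  intro x hx
  obtain ⟨i, hi, h⟩ := sameV_lt hM hd hx
  rw [Finset.mem_coe, Finset.mem_image]
  exact ⟨i, Finset.mem_range.2 hi, h⟩

lemma avg_s (hM : M.Valid) (h : V → ℝ≥0∞) {d : V} (hd : d ∈ M.D) :
    M.avg h (M.s d) = M.avg h d := by
  unfold CMap.avg
  rw [deg_s hM hd]
  congr 1
  have hp := deg_pos hM hd
  have hi := iter_deg (M := M) d
  generalize M.deg d = n at hp hi
  obtain ⟨m, rfl⟩ : ∃ m, n = m + 1 := ⟨n - 1, by omega⟩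
  simp only [← Function.iterate_succ_apply]
  rw [Finset.sum_range_succ, Finset.sum_range_succ' _ m]
  congr 1
  rw [Nat.succ_eq_add_one, hi]
  rfl

/-- the distribution of the walk -/
noncomputable def u (M : CMap V) (o : V) (n : ℕ) : V → ℝ≥0∞ :=
  M.P^[n] (fun d => if M.SameV o d then 1 else 0)

lemma u_zero (o : V) : u M o 0 = fun d => if M.SameV o d then 1 else 0 := rfl

lemma u_succ (o : V) (n : ℕ) (d : V) : u M o (n + 1) d = M.avg (fun x => u M o n (M.a x)) d := by
  unfold u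
  rw [Function.iterate_succ_apply']
  rfl

lemma u_le (o : V) (n : ℕ) : ∀ d, u M o n d ≤ 1 := by
  induction n with
  | zero =>
    intro d
    rw [u_zero]
    beta_reduce
    split_ifs
    · exact le_rfl
    · exact zero_le_one
  | succ n ih =>
    intro d
    rw [u_succ]
    unfold CMap.avg
    refine ENNReal.div_le_of_le_mul ?_
    rw [one_mul]
    calc _ ≤ ∑ _i ∈ Finset.range (M.deg d), (1 : ℝ≥0∞) := Finset.sum_le_sum fun i _ => ih _
      _ = _ := by simp

lemma u_s (hM : M.Valid) {o : V} (_ho : o ∈ M.D) (n : ℕ) {d : V} (hd : d ∈ M.D) :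
    u M o n (M.s d) = u M o n d := by
  cases n with
  | zero =>
    rw [u_zero]
    beta_reduce
    have : M.SameV o (M.s d) ↔ M.SameV o d := by
      constructor
      · intro h
        exact sameV_trans h (sameV_symm hM hd ⟨1, rfl⟩)
      · intro h
        exact sameV_trans h ⟨1, rfl⟩
    simp only [this]
  | succ n =>
    rw [u_succ, u_succ, avg_s hM _ hd]

lemma u_fin (hM : M.Valid) {o : V} (ho : o ∈ M.D) (n : ℕ) :
    {d | d ∈ M.D ∧ u M o n d ≠ 0}.Finite := by
  induction n with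
  | zero =>
    refine (orb_finite hM ho).subset ?_
    rintro d ⟨hd, h⟩
    rw [u_zero] at h
    by_contra hcon
    exact h (if_neg hcon)
  | succ n ih =>
    refine ((ih.image M.a).biUnion (t := fun x => {y | x ∈ M.D ∧ M.SameV x y}) ?_).subset ?_
    · intro x _
      by_cases hx : x ∈ M.D
      · exact (orb_finite hM hx).subset fun y hy => hy.2
      · refine Set.finite_empty.subset ?_
        rintro y ⟨h, _⟩
        exact absurd h hx
    · rintro d ⟨hd, h⟩
      rw [u_succ] at h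
      have h1 : ∃ i ∈ Finset.range (M.deg d), u M o n (M.a (M.s^[i] d)) ≠ 0 := by
        by_contra hcon
        push Not at hcon
        apply h
        unfold CMap.avg
        rw [Finset.sum_eq_zero hcon, ENNReal.zero_div]
      obtain ⟨i, hi, h2⟩ := h1
      have h3 := iter_mem hM hd i
      rw [Set.mem_iUnion₂]
      refine ⟨M.s^[i] d, ⟨M.a (M.s^[i] d), ⟨hM.a_mem _ h3, h2⟩, hM.a_a _ h3⟩, h3, ?_⟩
      exact sameV_symm hM hd ⟨i, rfl⟩

/-- the same, real valued -/
noncomputable def v (M : CMap V) (o : V) (n : ℕ) (d : V) : ℝ := (u M o n d).toReal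

/-- real valued mean over a vertex -/
noncomputable def av (M : CMap V) (h : V → ℝ) (d : V) : ℝ :=
  (∑ i ∈ Finset.range (M.deg d), h (M.s^[i] d)) / M.deg d

lemma v_nonneg (o : V) (n : ℕ) (d : V) : 0 ≤ v M o n d := ENNReal.toReal_nonneg

lemma v_succ (o : V) (n : ℕ) (d : V) : v M o (n + 1) d = av M (fun x => v M o n (M.a x)) d := by
  unfold v av
  rw [u_succ]
  unfold CMap.avg
  rw [ENNReal.toReal_div, ENNReal.toReal_natCast, ENNReal.toReal_sum]
  intro i _
  exact ((u_le o n _).trans_lt ENNReal.one_lt_top).ne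

/-- the truncated Green function -/
noncomputable def f (M : CMap V) (o : V) (N : ℕ) (d : V) : ℝ := ∑ n ∈ Finset.range N, v M o n d

lemma f_nonneg (o : V) (N : ℕ) (d : V) : 0 ≤ f M o N d := Finset.sum_nonneg fun n _ => v_nonneg o n d

lemma f_s (hM : M.Valid) {o : V} (ho : o ∈ M.D) (N : ℕ) {d : V} (hd : d ∈ M.D) :
    f M o N (M.s d) = f M o N d := by
  unfold f v
  exact Finset.sum_congr rfl fun n _ => by rw [u_s hM ho n hd]

lemma f_sameV (hM : M.Valid) {o : V} (ho : o ∈ M.D) (N : ℕ) {d x : V} (hd : d ∈ M.D)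
    (h : M.SameV d x) : f M o N x = f M o N d := by
  obtain ⟨n, rfl⟩ := h
  induction n with
  | zero => rfl
  | succ n ih => rw [Function.iterate_succ_apply', f_s hM ho N (iter_mem hM hd n), ih]

lemma f_fin (hM : M.Valid) {o : V} (ho : o ∈ M.D) (N : ℕ) :
    {d | d ∈ M.D ∧ f M o N d ≠ 0}.Finite := by
  refine (Set.Finite.biUnion (Finset.range N).finite_toSet
    (t := fun n => {d | d ∈ M.D ∧ u M o n d ≠ 0}) fun n _ => u_fin hM ho n).subset ?_
  rintro d ⟨hd, h⟩
  obtain ⟨n, hn, h1⟩ := Finset.exists_ne_zero_of_sum_ne_zero h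
  rw [Set.mem_iUnion₂]
  refine ⟨n, hn, hd, ?_⟩
  intro h2
  apply h1
  unfold v
  rw [h2, ENNReal.toReal_zero]

lemma f_sub (o : V) (N : ℕ) (d : V) :
    f M o N d - av M (fun x => f M o N (M.a x)) d ≤ v M o 0 d := by
  have h1 : av M (fun x => f M o N (M.a x)) d = ∑ n ∈ Finset.range N, v M o (n + 1) d := by
    unfold f
    simp only [v_succ]
    unfold av
    rw [Finset.sum_comm, Finset.sum_div]
  have h2 : f M o N d + v M o N d = ∑ n ∈ Finset.range N, v M o (n + 1) d + v M o 0 d := by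
    unfold f
    rw [← Finset.sum_range_succ, Finset.sum_range_succ']
  have h3 := v_nonneg (M := M) o N d
  rw [h1]
  linarith

lemma orb_eq (hM : M.Valid) {S : Finset V} (hs : ∀ d ∈ S, M.s d ∈ S) {d : V} (hd : d ∈ M.D)
    (hdS : d ∈ S) : (S.filter fun x => M.SameV d x) =
      (Finset.range (M.deg d)).image fun i => M.s^[i] d := by
  ext x
  rw [Finset.mem_filter, Finset.mem_image]
  constructor
  · rintro ⟨_, h⟩
    obtain ⟨i, hi, h⟩ := sameV_lt hM hd h
    exact ⟨i, Finset.mem_range.2 hi, h⟩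
  · rintro ⟨i, _, rfl⟩
    refine ⟨?_, ⟨i, rfl⟩⟩
    have key : ∀ j, M.s^[j] d ∈ S := by
      intro j
      induction j with
      | zero => exact hdS
      | succ j ih => rw [Function.iterate_succ_apply']; exact hs _ ih
    exact key i

lemma orb_inj (d : V) : Set.InjOn (fun i => M.s^[i] d) (Finset.range (M.deg d) : Set ℕ) := by
  intro i hi j hj hij
  rw [Finset.mem_coe, Finset.mem_range] at hi hj
  exact (Function.iterate_eq_iterate_iff_of_lt_minimalPeriod hi hj).1 hij

/-- the mean over a vertex is selfadjoint -/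
lemma av_sum (hM : M.Valid) {S : Finset V} (hS : ∀ d ∈ S, d ∈ M.D) (hs : ∀ d ∈ S, M.s d ∈ S)
    (φ h : V → ℝ) (hφ : ∀ d ∈ S, ∀ x, M.SameV d x → φ x = φ d) :
    ∑ d ∈ S, φ d * av M h d = ∑ d ∈ S, φ d * h d := by
  have hdeg : ∀ d ∈ S, ∀ x, M.SameV d x → M.deg x = M.deg d := by
    rintro d hd x ⟨n, rfl⟩
    induction n with
    | zero => rfl
    | succ n ih => rw [Function.iterate_succ_apply', deg_s hM (iter_mem hM (hS d hd) n), ih]
  have h1 : ∀ d ∈ S, av M h d = ∑ x ∈ S, if M.SameV d x then h x / M.deg d else 0 := by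
    intro d hd
    rw [← Finset.sum_filter, orb_eq hM hs (hS d hd) hd, Finset.sum_image (orb_inj d)]
    unfold av
    rw [Finset.sum_div]
  have h2 : ∀ x ∈ S, ∑ d ∈ S, (if M.SameV d x then φ d * (h x / M.deg d) else 0) = φ x * h x := by
    intro x hx
    have h3 : ∀ d ∈ S, (if M.SameV d x then φ d * (h x / M.deg d) else 0) =
        if M.SameV x d then φ x * (h x / M.deg x) else 0 := by
      intro d hd
      by_cases h4 : M.SameV d x
      · rw [if_pos h4, if_pos (sameV_symm hM (hS d hd) h4), hφ d hd x h4, hdeg d hd x h4]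
      · rw [if_neg h4, if_neg]
        exact fun h5 => h4 (sameV_symm hM (hS x hx) h5)
    rw [Finset.sum_congr rfl h3, ← Finset.sum_filter, Finset.sum_const,
      orb_eq hM hs (hS x hx) hx, Finset.card_image_of_injOn (orb_inj x), Finset.card_range,
      nsmul_eq_mul]
    have h4 : (M.deg x : ℝ) ≠ 0 := by exact_mod_cast (deg_pos hM (hS x hx)).ne'
    field_simp
  calc ∑ d ∈ S, φ d * av M h d
      = ∑ d ∈ S, ∑ x ∈ S, (if M.SameV d x then φ d * (h x / M.deg d) else 0) := by
        refine Finset.sum_congr rfl fun d hd => ?_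
        rw [h1 d hd, Finset.mul_sum]
        refine Finset.sum_congr rfl fun x _ => ?_
        rw [mul_ite, mul_zero]
    _ = ∑ x ∈ S, ∑ d ∈ S, (if M.SameV d x then φ d * (h x / M.deg d) else 0) :=
        Finset.sum_comm
    _ = _ := Finset.sum_congr rfl h2

/-- the Dirichlet form of the truncated Green function -/
lemma energy (hM : M.Valid) {o : V} (ho : o ∈ M.D) (N : ℕ) (F : Finset V)
    (hF : ∀ d ∈ F, d ∈ M.D) (hFa : ∀ d ∈ F, M.a d ∈ F)
    (hsupp : ∀ d ∈ M.D, f M o N d ≠ 0 → d ∈ F) :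
    ∑ d ∈ F, (f M o N d - f M o N (M.a d)) ^ 2 ≤ 2 * M.deg o * f M o N o := by
  set g := f M o N with hg
  obtain ⟨S, hSdef⟩ : ∃ S : Finset V, ∀ d, d ∈ S ↔ d ∈ M.D ∧ (g d ≠ 0 ∨ M.SameV o d) := by
    refine ⟨((f_fin hM ho N).union (orb_finite hM ho)).toFinset, fun d => ?_⟩
    rw [Set.Finite.mem_toFinset, Set.mem_union]
    constructor
    · rintro (⟨h1, h2⟩ | h)
      · exact ⟨h1, Or.inl h2⟩
      · exact ⟨sameV_mem hM ho h, Or.inr h⟩
    · rintro ⟨h1, h2 | h2⟩
      · exact Or.inl ⟨h1, h2⟩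
      · exact Or.inr h2
  have hSD : ∀ d ∈ S, d ∈ M.D := fun d hd => ((hSdef d).1 hd).1
  have hSs : ∀ d ∈ S, M.s d ∈ S := by
    intro d hd
    obtain ⟨h1, h2⟩ := (hSdef d).1 hd
    refine (hSdef _).2 ⟨hM.s_mem d h1, ?_⟩
    rcases h2 with h2 | h2
    · left
      rwa [hg, f_s hM ho N h1]
    · exact Or.inr (sameV_trans h2 ⟨1, rfl⟩)
  have hconst : ∀ d ∈ S, ∀ x, M.SameV d x → g x = g d := fun d hd x hx =>
    f_sameV hM ho N (hSD d hd) hx
  -- reflection
  have hrefl : ∀ ψ : V → ℝ, ∑ d ∈ F, ψ (M.a d) = ∑ d ∈ F, ψ d := by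
    intro ψ
    refine Finset.sum_nbij' (fun d => M.a d) (fun d => M.a d) hFa hFa
      (fun d hd => hM.a_a d (hF d hd)) (fun d hd => hM.a_a d (hF d hd)) fun d _ => rfl
  have e1 : ∑ d ∈ F, (g d - g (M.a d)) ^ 2 = 2 * ∑ d ∈ F, g d * (g d - g (M.a d)) := by
    have h1 := hrefl fun d => g d ^ 2
    have h2 : ∑ d ∈ F, (g d - g (M.a d)) ^ 2 = ∑ d ∈ F, g d ^ 2 + ∑ d ∈ F, g (M.a d) ^ 2 -
        2 * ∑ d ∈ F, g d * g (M.a d) := by
      rw [Finset.mul_sum, ← Finset.sum_add_distrib, ← Finset.sum_sub_distrib]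
      exact Finset.sum_congr rfl fun d _ => by ring
    have h3 : ∑ d ∈ F, g d * (g d - g (M.a d)) = ∑ d ∈ F, g d ^ 2 - ∑ d ∈ F, g d * g (M.a d) := by
      rw [← Finset.sum_sub_distrib]
      exact Finset.sum_congr rfl fun d _ => by ring
    rw [h2, h3, h1]
    ring
  have e2 : ∑ d ∈ F, g d * (g d - g (M.a d)) = ∑ d ∈ S, g d * (g d - g (M.a d)) := by
    have h1 : ∑ d ∈ F, g d * (g d - g (M.a d)) = ∑ d ∈ F ∪ S, g d * (g d - g (M.a d)) := by
      refine Finset.sum_subset Finset.subset_union_left fun d hd hdF => ?_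
      have h2 : g d = 0 := by
        by_contra h3
        rcases Finset.mem_union.1 hd with h4 | h4
        · exact hdF h4
        · exact hdF (hsupp d (hSD d h4) h3)
      rw [h2, zero_mul]
    have h2 : ∑ d ∈ S, g d * (g d - g (M.a d)) = ∑ d ∈ F ∪ S, g d * (g d - g (M.a d)) := by
      refine Finset.sum_subset Finset.subset_union_right fun d hd hdS => ?_
      have h2 : g d = 0 := by
        by_contra h3
        rcases Finset.mem_union.1 hd with h4 | h4
        · exact hdS ((hSdef d).2 ⟨hF d h4, Or.inl h3⟩)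
        · exact hdS h4
      rw [h2, zero_mul]
    rw [h1, h2]
  have e3 : ∑ d ∈ S, g d * (g d - g (M.a d)) =
      ∑ d ∈ S, g d * (g d - av M (fun x => g (M.a x)) d) := by
    have h1 := av_sum hM hSD hSs g (fun x => g (M.a x)) hconst
    have h2 : ∑ d ∈ S, g d * (g d - g (M.a d)) = ∑ d ∈ S, g d * g d - ∑ d ∈ S, g d * g (M.a d) := by
      rw [← Finset.sum_sub_distrib]
      exact Finset.sum_congr rfl fun d _ => by ring
    rw [h2, ← h1, ← Finset.sum_sub_distrib]
    exact Finset.sum_congr rfl fun d _ => by ring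
  have e4 : ∑ d ∈ S, g d * (g d - av M (fun x => g (M.a x)) d) ≤ ∑ d ∈ S, g d * v M o 0 d := by
    refine Finset.sum_le_sum fun d _ => ?_
    exact mul_le_mul_of_nonneg_left (f_sub o N d) (f_nonneg o N d)
  have e5 : ∑ d ∈ S, g d * v M o 0 d = M.deg o * g o := by
    have h1 : ∀ d ∈ S, g d * v M o 0 d = if M.SameV o d then g o else 0 := by
      intro d _
      unfold v
      rw [u_zero]
      beta_reduce
      by_cases h : M.SameV o d
      · rw [if_pos h, if_pos h, ENNReal.toReal_one, mul_one]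
        exact f_sameV hM ho N ho h
      · rw [if_neg h, if_neg h, ENNReal.toReal_zero, mul_zero]
    have hoS : o ∈ S := (hSdef o).2 ⟨ho, Or.inr (sameV_refl o)⟩
    rw [Finset.sum_congr rfl h1, ← Finset.sum_filter, Finset.sum_const, orb_eq hM hSs ho hoS,
      Finset.card_image_of_injOn (orb_inj o), Finset.card_range, nsmul_eq_mul]
  rw [e1, e2, e3]
  linarith

/-! the flow -/

section flow

variable (D : ℕ → ℕ) (ω : List ℕ → ℕ)

/-- the children of a word -/
noncomputable def ch (w : List ℕ) : Finset (List ℕ) :=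
  ((Finset.range (D (ω w))).filter fun i => w ≠ [] → 1 ≤ i).image fun i => i :: w

/-- the words of length `n` -/
noncomputable def lev : ℕ → Finset (List ℕ)
  | 0 => {[]}
  | n + 1 => (lev n).biUnion (ch D ω)

/-- the flow -/
noncomputable def th : List ℕ → ℝ
  | [] => 1
  | _ :: w => th w / (ch D ω w).card

variable {D ω}

lemma mem_ch {w x : List ℕ} : x ∈ ch D ω w ↔ ∃ i, i < D (ω w) ∧ (w ≠ [] → 1 ≤ i) ∧ x = i :: w := by
  unfold ch
  simp only [Finset.mem_image, Finset.mem_filter, Finset.mem_range]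
  constructor
  · rintro ⟨i, ⟨h1, h2⟩, h3⟩
    exact ⟨i, h1, h2, h3.symm⟩
  · rintro ⟨i, h1, h2, h3⟩
    exact ⟨i, ⟨h1, h2⟩, h3.symm⟩

lemma lev_spec (n : ℕ) : ∀ w ∈ lev D ω n, Vd D ω w ∧ w.length = n := by
  induction n with
  | zero =>
    intro w hw
    rw [lev, Finset.mem_singleton] at hw
    subst hw
    exact ⟨trivial, rfl⟩
  | succ n ih =>
    intro w hw
    rw [lev, Finset.mem_biUnion] at hw
    obtain ⟨w', hw', h⟩ := hw
    obtain ⟨i, h1, h2, rfl⟩ := mem_ch.1 h
    obtain ⟨h3, h4⟩ := ih w' hw'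
    exact ⟨⟨h3, h1, h2⟩, by rw [List.length_cons, h4]⟩

lemma ch_disj {w w' : List ℕ} (h : w ≠ w') : Disjoint (ch D ω w) (ch D ω w') := by
  rw [Finset.disjoint_left]
  intro x hx hx'
  obtain ⟨i, _, _, rfl⟩ := mem_ch.1 hx
  obtain ⟨j, _, _, h1⟩ := mem_ch.1 hx'
  exact h (List.cons.inj h1).2

lemma sum_lev (n : ℕ) (F : List ℕ → ℝ) :
    ∑ w ∈ lev D ω (n + 1), F w = ∑ w ∈ lev D ω n, ∑ x ∈ ch D ω w, F x := by
  rw [lev, Finset.sum_biUnion]
  intro w _ w' _ h
  exact ch_disj h

lemma card_ch_nil : (ch D ω []).card = D (ω []) := by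
  unfold ch
  rw [Finset.card_image_of_injective _ (fun i j h => (List.cons.inj h).1)]
  rw [Finset.filter_true_of_mem, Finset.card_range]
  intro i _ h
  exact absurd rfl h

lemma card_ch {w : List ℕ} (hw : w ≠ []) : (ch D ω w).card = D (ω w) - 1 := by
  unfold ch
  rw [Finset.card_image_of_injective _ (fun i j h => (List.cons.inj h).1)]
  have h1 : ((Finset.range (D (ω w))).filter fun i => w ≠ [] → 1 ≤ i) =
      Finset.Ico 1 (D (ω w)) := by
    ext i
    rw [Finset.mem_filter, Finset.mem_range, Finset.mem_Ico]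
    constructor
    · rintro ⟨h1, h2⟩
      exact ⟨h2 hw, h1⟩
    · rintro ⟨h1, h2⟩
      exact ⟨h2, fun _ => h1⟩
  rw [h1, Nat.card_Ico]

lemma card_ch_ge (hD : ∀ k, 3 ≤ D k) (w : List ℕ) : 2 ≤ (ch D ω w).card := by
  by_cases hw : w = []
  · subst hw
    rw [card_ch_nil]
    have := hD (ω [])
    omega
  · rw [card_ch hw]
    have := hD (ω w)
    omega

lemma th_ch {w x : List ℕ} (hx : x ∈ ch D ω w) : th D ω x = th D ω w / (ch D ω w).card := by
  obtain ⟨i, _, _, rfl⟩ := mem_ch.1 hx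
  rfl

/-- conservation -/
lemma th_cons (hD : ∀ k, 3 ≤ D k) (n : ℕ) (F : List ℕ → ℝ) :
    ∑ w ∈ lev D ω (n + 1), th D ω w * F w.tail = ∑ w ∈ lev D ω n, th D ω w * F w := by
  rw [sum_lev]
  refine Finset.sum_congr rfl fun w _ => ?_
  have h2 : ((ch D ω w).card : ℝ) ≠ 0 := by
    have := card_ch_ge (ω := ω) hD w
    have h3 : (ch D ω w).card ≠ 0 := by omega
    exact_mod_cast h3
  have h1 : ∀ x ∈ ch D ω w, th D ω x * F x.tail = th D ω w / (ch D ω w).card * F w := by
    intro x hx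
    rw [th_ch hx]
    obtain ⟨i, _, _, rfl⟩ := mem_ch.1 hx
    rfl
  rw [Finset.sum_congr rfl h1, Finset.sum_const, nsmul_eq_mul]
  field_simp

lemma th_sq (hD : ∀ k, 3 ≤ D k) (n : ℕ) :
    ∑ w ∈ lev D ω (n + 1), th D ω w ^ 2 ≤ (1 / D (ω [])) * (1 / 2) ^ n := by
  have hD0 : (0 : ℝ) < D (ω []) := by
    have := hD (ω [])
    have h : 0 < D (ω []) := by omega
    exact_mod_cast h
  induction n with
  | zero =>
    rw [sum_lev, lev, Finset.sum_singleton]
    have h1 : ∀ x ∈ ch D ω [], th D ω x ^ 2 = (1 / (D (ω []) : ℝ)) ^ 2 := by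
      intro x hx
      rw [th_ch hx, card_ch_nil]
      rfl
    rw [Finset.sum_congr rfl h1, Finset.sum_const, nsmul_eq_mul, card_ch_nil]
    rw [pow_zero, mul_one]
    refine le_of_eq ?_
    field_simp
  | succ n ih =>
    rw [sum_lev]
    have h1 : ∀ w ∈ lev D ω (n + 1), ∑ x ∈ ch D ω w, th D ω x ^ 2 ≤ 1 / 2 * th D ω w ^ 2 := by
      intro w _
      have h2 : ∀ x ∈ ch D ω w, th D ω x ^ 2 = (th D ω w / (ch D ω w).card) ^ 2 := by
        intro x hx
        rw [th_ch hx]
      have h3 : (2 : ℝ) ≤ (ch D ω w).card := by exact_mod_cast card_ch_ge (ω := ω) hD w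
      rw [Finset.sum_congr rfl h2, Finset.sum_const, nsmul_eq_mul]
      have h4 : ((ch D ω w).card : ℝ) * (th D ω w / (ch D ω w).card) ^ 2 =
          th D ω w ^ 2 / (ch D ω w).card := by
        field_simp
      rw [h4, div_le_iff₀ (by linarith)]
      nlinarith [sq_nonneg (th D ω w)]
    calc _ ≤ ∑ w ∈ lev D ω (n + 1), 1 / 2 * th D ω w ^ 2 := Finset.sum_le_sum h1
      _ = 1 / 2 * ∑ w ∈ lev D ω (n + 1), th D ω w ^ 2 := by rw [Finset.mul_sum]
      _ ≤ 1 / 2 * ((1 / D (ω [])) * (1 / 2) ^ n) := by gcongr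
      _ = _ := by rw [pow_succ]; ring

/-- the words of length between `1` and `m` -/
noncomputable def wd (D : ℕ → ℕ) (ω : List ℕ → ℕ) (m : ℕ) : Finset (List ℕ) :=
  (Finset.range m).biUnion fun n => lev D ω (n + 1)

lemma wd_spec {m : ℕ} {w : List ℕ} (h : w ∈ wd D ω m) : Vd D ω w ∧ w ≠ [] := by
  unfold wd at h
  rw [Finset.mem_biUnion] at h
  obtain ⟨n, _, h⟩ := h
  obtain ⟨h1, h2⟩ := lev_spec _ _ h
  refine ⟨h1, ?_⟩
  rintro rfl
  simp at h2

lemma sum_wd (m : ℕ) (F : List ℕ → ℝ) :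
    ∑ w ∈ wd D ω m, F w = ∑ n ∈ Finset.range m, ∑ w ∈ lev D ω (n + 1), F w := by
  unfold wd
  rw [Finset.sum_biUnion]
  intro n _ n' _ h
  show Disjoint _ _
  rw [Finset.disjoint_left]
  intro x hx hx'
  have h1 := (lev_spec _ _ hx).2
  have h2 := (lev_spec _ _ hx').2
  omega

lemma flow_sq (hD : ∀ k, 3 ≤ D k) (m : ℕ) : ∑ w ∈ wd D ω m, th D ω w ^ 2 ≤ 2 / D (ω []) := by
  rw [sum_wd]
  have hD0 : (0 : ℝ) < D (ω []) := by
    have := hD (ω [])
    have h : 0 < D (ω []) := by omega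
    exact_mod_cast h
  calc _ ≤ ∑ n ∈ Finset.range m, (1 / (D (ω []) : ℝ)) * (1 / 2) ^ n :=
        Finset.sum_le_sum fun n _ => th_sq hD n
    _ = (1 / (D (ω []) : ℝ)) * ∑ n ∈ Finset.range m, (1 / 2 : ℝ) ^ n := by rw [Finset.mul_sum]
    _ ≤ (1 / (D (ω []) : ℝ)) * 2 := by
        gcongr
        exact sum_geometric_two_le m
    _ = _ := by ring

/-- the value at the root as the sum of the gradient against the flow -/
lemma flow_eq (hD : ∀ k, 3 ≤ D k) (F : List ℕ → ℝ) (m : ℕ) (h : ∀ w ∈ lev D ω m, F w = 0) :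
    F [] = ∑ w ∈ wd D ω m, th D ω w * (F w.tail - F w) := by
  rw [sum_wd]
  have h1 : ∀ n, ∑ w ∈ lev D ω (n + 1), th D ω w * (F w.tail - F w) =
      ∑ w ∈ lev D ω n, th D ω w * F w - ∑ w ∈ lev D ω (n + 1), th D ω w * F w := by
    intro n
    rw [← th_cons hD n F, ← Finset.sum_sub_distrib]
    exact Finset.sum_congr rfl fun w _ => by ring
  simp only [h1]
  rw [Finset.sum_range_sub']
  have h2 : ∑ w ∈ lev D ω m, th D ω w * F w = 0 :=
    Finset.sum_eq_zero fun w hw => by rw [h w hw, mul_zero]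
  rw [h2, sub_zero]
  show F [] = ∑ w ∈ ({[]} : Finset (List ℕ)), th D ω w * F w
  rw [Finset.sum_singleton]
  show F [] = 1 * F []
  rw [one_mul]

end flow

end GreenRoot

open GreenRoot in
/-- the bound by the energy of a flow in the tree, at the root -/
theorem green_root (hV : StmArcValid) (hA : StmArcVertex) (hT : StmTree) : StmGreenRoot := by
  intro D ω hD hG
  set M := (tree D ω).arc with hMdef
  have hM : M.Valid := hV _ _ hG
  obtain ⟨-, -, -, -, hTdeg, hTV, -⟩ := hT D ω hD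
  -- the darts of the tree
  have hmem : ∀ w i, Vd D ω w → i < D (ω w) → ((w, i), 0, true) ∈ M.D := by
    intro w i h1 h2
    exact ⟨⟨h1, h2⟩, Nat.zero_le _, fun _ => rfl⟩
  have hD0 : ∀ w, 0 < D (ω w) := fun w => by have := hD (ω w); omega
  have hroot : root ∈ M.D := hmem [] 0 trivial (hD0 [])
  have hdeg : M.deg root = (2 * ω [] + 1) * D (ω []) := by
    rw [(hA _ _ hG root hroot).1]
    have h1 := hTdeg rt ⟨trivial, hD0 []⟩
    show (2 * ω [] + 1) * (tree D ω).deg rt = _
    rw [h1]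
    rfl
  have hsame : ∀ w i, Vd D ω w → i < D (ω w) → M.SameV ((w, 0), 0, true) ((w, i), 0, true) := by
    intro w i h1 h2
    refine ((hA _ _ hG _ (hmem w 0 h1 (hD0 w))).2.1 _).2 ⟨hmem w i h1 h2, ?_⟩
    exact (hTV (w, 0) ⟨h1, hD0 w⟩ (w, i)).2 ⟨rfl, h2⟩
  -- it suffices to bound the truncated Green function
  have key : ∀ N, f M root N root ≤ 2 * (2 * (ω [] : ℝ) + 1) := by
    intro N
    set g := f M root N with hg
    set G : List ℕ → ℝ := fun w => g ((w, 0), 0, true) with hGdef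
    have hGi : ∀ w i, Vd D ω w → i < D (ω w) → g ((w, i), 0, true) = G w := by
      intro w i h1 h2
      exact f_sameV hM hroot N (hmem w 0 h1 (hD0 w)) (hsame w i h1 h2)
    -- the level where the function vanishes
    obtain ⟨m, hm⟩ : ∃ m, ∀ w ∈ lev D ω m, G w = 0 := by
      have hfin := f_fin hM hroot N
      obtain ⟨m, hm⟩ := (hfin.image fun d => d.1.1.length).bddAbove
      refine ⟨m + 1, fun w hw => ?_⟩
      obtain ⟨h1, h2⟩ := lev_spec _ _ hw
      by_contra h3
      have h4 := hm ⟨((w, 0), 0, true), ⟨hmem w 0 h1 (hD0 w), h3⟩, rfl⟩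
      simp only at h4
      omega
    have hflow := flow_eq hD G m hm
    -- the set of darts
    have hfin := f_fin hM hroot N
    set T : Finset ((List ℕ × ℕ) × ℕ × Bool) := (wd D ω m).image fun w => ((w, 0), 0, true)
      with hTdef
    have hTD : ∀ d ∈ T, d ∈ M.D := by
      intro d hd
      rw [hTdef, Finset.mem_image] at hd
      obtain ⟨w, hw, rfl⟩ := hd
      exact hmem w 0 (wd_spec hw).1 (hD0 w)
    set F : Finset ((List ℕ × ℕ) × ℕ × Bool) :=
      (hfin.toFinset ∪ T) ∪ (hfin.toFinset ∪ T).image M.a with hFdef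
    have hF1 : ∀ d ∈ hfin.toFinset ∪ T, d ∈ M.D := by
      intro d hd
      rcases Finset.mem_union.1 hd with h | h
      · exact ((Set.Finite.mem_toFinset _).1 h).1
      · exact hTD d h
    have hF : ∀ d ∈ F, d ∈ M.D := by
      intro d hd
      rcases Finset.mem_union.1 hd with h | h
      · exact hF1 d h
      · obtain ⟨x, hx, rfl⟩ := Finset.mem_image.1 h
        exact hM.a_mem x (hF1 x hx)
    have hFa : ∀ d ∈ F, M.a d ∈ F := by
      intro d hd
      rcases Finset.mem_union.1 hd with h | h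
      · exact Finset.mem_union_right _ (Finset.mem_image_of_mem _ h)
      · obtain ⟨x, hx, rfl⟩ := Finset.mem_image.1 h
        rw [hM.a_a x (hF1 x hx)]
        exact Finset.mem_union_left _ hx
    have hE := energy hM hroot N F hF hFa (fun d hd h => Finset.mem_union_left _
      (Finset.mem_union_left _ ((Set.Finite.mem_toFinset _).2 ⟨hd, h⟩)))
    -- the gradient on the edges of the tree
    have hgrad : ∀ w ∈ wd D ω m, (G w.tail - G w) ^ 2 =
        (g ((w, 0), 0, true) - g (M.a ((w, 0), 0, true))) ^ 2 := by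
      intro w hw
      obtain ⟨h1, h2⟩ := wd_spec hw
      obtain ⟨j, w', rfl⟩ := List.exists_cons_of_ne_nil h2
      have h3 : M.a ((j :: w', 0), 0, true) = ((w', j), 0, true) := rfl
      rw [h3, hGi w' j h1.1 h1.2.1]
      show (G w' - G (j :: w')) ^ 2 = (G (j :: w') - G w') ^ 2
      ring
    have hTsum : ∑ d ∈ T, (g d - g (M.a d)) ^ 2 = ∑ w ∈ wd D ω m, (G w.tail - G w) ^ 2 := by
      rw [hTdef, Finset.sum_image]
      · exact (Finset.sum_congr rfl hgrad).symm
      · intro w _ w' _ h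
        simpa using h
    have hTsum' : ∑ d ∈ T.image M.a, (g d - g (M.a d)) ^ 2 = ∑ d ∈ T, (g d - g (M.a d)) ^ 2 := by
      rw [Finset.sum_image]
      · refine Finset.sum_congr rfl fun d hd => ?_
        rw [hM.a_a d (hTD d hd)]
        ring
      · intro d hd d' hd' h
        have := congrArg M.a h
        rwa [hM.a_a d (hTD d hd), hM.a_a d' (hTD d' hd')] at this
    have hdisj : Disjoint T (T.image M.a) := by
      rw [Finset.disjoint_left]
      intro d hd hd'
      rw [hTdef, Finset.mem_image] at hd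
      obtain ⟨w, hw, rfl⟩ := hd
      obtain ⟨x, hx, hxe⟩ := Finset.mem_image.1 hd'
      rw [hTdef, Finset.mem_image] at hx
      obtain ⟨w2, hw2, rfl⟩ := hx
      obtain ⟨h1, h2⟩ := wd_spec hw2
      obtain ⟨j, w', rfl⟩ := List.exists_cons_of_ne_nil h2
      have h3 : M.a ((j :: w', 0), 0, true) = ((w', j), 0, true) := rfl
      rw [h3] at hxe
      simp only [Prod.mk.injEq, and_true] at hxe
      obtain ⟨rfl, rfl⟩ := hxe
      have h4 := h1.2.2 (wd_spec hw).2
      omega
    have hsub : T ∪ T.image M.a ⊆ F := by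
      refine Finset.union_subset ?_ ?_
      · exact Finset.subset_union_right.trans Finset.subset_union_left
      · exact (Finset.image_subset_image Finset.subset_union_right).trans Finset.subset_union_right
    have hgle : 2 * ∑ w ∈ wd D ω m, (G w.tail - G w) ^ 2 ≤
        2 * M.deg root * g root := by
      refine le_trans ?_ hE
      have h1 : ∑ d ∈ T ∪ T.image M.a, (g d - g (M.a d)) ^ 2 ≤ ∑ d ∈ F, (g d - g (M.a d)) ^ 2 :=
        Finset.sum_le_sum_of_subset_of_nonneg hsub fun d _ _ => sq_nonneg _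
      rw [Finset.sum_union hdisj, hTsum', hTsum] at h1
      linarith
    -- Cauchy-Schwarz
    have hCS := Finset.sum_mul_sq_le_sq_mul_sq (wd D ω m) (th D ω) fun w => G w.tail - G w
    rw [← hflow] at hCS
    have hg0 : 0 ≤ g root := f_nonneg _ _ _
    have hGr : G [] = g root := rfl
    have hDr : (0 : ℝ) < D (ω []) := by exact_mod_cast hD0 []
    have hsq : 0 ≤ ∑ w ∈ wd D ω m, (G w.tail - G w) ^ 2 := Finset.sum_nonneg fun w _ => sq_nonneg _
    have h5 : G [] ^ 2 ≤ (2 / D (ω [])) * (M.deg root * g root) := by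
      refine hCS.trans ?_
      refine mul_le_mul (flow_sq hD m) (by linarith) hsq (by positivity)
    rw [hdeg, hGr] at h5
    push_cast at h5
    have h6 : (2 / (D (ω []) : ℝ)) * ((2 * (ω [] : ℝ) + 1) * D (ω []) * g root) =
        2 * (2 * (ω [] : ℝ) + 1) * g root := by
      field_simp
    rw [h6] at h5
    by_contra hcon
    push Not at hcon
    have h7 : 0 < g root := lt_of_le_of_lt (by positivity) hcon
    nlinarith
  -- conclusion
  unfold CMap.green
  rw [ENNReal.tsum_eq_iSup_nat]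
  refine iSup_le fun N => ?_
  have h1 : ∑ n ∈ Finset.range N, M.P^[n] (fun d => if M.SameV root d then 1 else 0) root =
      ENNReal.ofReal (f M root N root) := by
    unfold f v
    rw [ENNReal.ofReal_sum_of_nonneg fun n _ => ENNReal.toReal_nonneg]
    refine Finset.sum_congr rfl fun n _ => ?_
    rw [ENNReal.ofReal_toReal ((u_le root n _).trans_lt ENNReal.one_lt_top).ne]
    rfl
  rw [h1]
  refine (ENNReal.ofReal_le_ofReal (key N)).trans (le_of_eq ?_)
  rw [ENNReal.ofReal_mul (by norm_num), ENNReal.ofReal_add (by positivity) (by norm_num),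
    ENNReal.ofReal_mul (by norm_num), ENNReal.ofReal_natCast, ENNReal.ofReal_one,
    ENNReal.ofReal_ofNat]

end Pool.Agent.N276.MB
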