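import Pool.Agent.N276.MB.Stm

set_option autoImplicit false

open MeasureTheory Set Filter Topology
open scoped ENNReal Classical

namespace Pool.Agent.N276.MB

/-- the recursion for the degrees and the products -/
def grAux (n : ℕ → ℕ) : ℕ → ℕ × ℕ
  | 0 => (2 ^ 10, 1)
  | m + 1 => (2 ^ (m + 11) * ((grAux n m).2 * ((2 * m + 1) * (grAux n m).1) ^ n m) + (grAux n m).1,
      (grAux n m).2 * ((2 * m + 1) * (grAux n m).1) ^ n m)

theorem grAux_snd (n : ℕ → ℕ) (m : ℕ) :
    (grAux n m).2 = ∏ i ∈ Finset.range m, ((2 * i + 1) * (grAux n i).1) ^ n i := by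
  induction m with
  | zero => simp [grAux]
  | succ m ih => rw [Finset.prod_range_succ, ← ih]; rfl

theorem growth : StmGrowth := by
  intro n
  refine ⟨fun m => (grAux n m).1, monotone_nat_of_le_succ fun m => ?_, fun m => ?_⟩
  · simp only [grAux]; omega
  · show 2 ^ (m + 10) * ∏ i ∈ Finset.range m, ((2 * i + 1) * (grAux n i).1) ^ n i ≤ (grAux n m).1
    rw [← grAux_snd]
    cases m with
    | zero => simp [grAux]
    | succ m => simp only [grAux]; exact Nat.le_add_right _ _

theorem Growth.pos {n D : ℕ → ℕ} (h : Growth n D) (k : ℕ) : 2 ^ (k + 10) ≤ D k := by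
  induction k using Nat.strong_induction_on with
  | _ k ih =>
    refine le_trans ?_ (h.2 k)
    refine Nat.le_mul_of_pos_right _ ?_
    refine Finset.prod_pos fun i hi => ?_
    have h1 := ih i (Finset.mem_range.1 hi)
    have h2 : 0 < 2 ^ (i + 10) := by positivity
    have h3 : 0 < D i := lt_of_lt_of_le h2 h1
    positivity

theorem Growth.four {n D : ℕ → ℕ} (h : Growth n D) (k : ℕ) : 4 ≤ D k := by
  refine le_trans ?_ (h.pos k)
  calc 4 ≤ 2 ^ 10 := by norm_num
    _ ≤ 2 ^ (k + 10) := Nat.pow_le_pow_right (by norm_num) (by omega)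

theorem Growth.three {n D : ℕ → ℕ} (h : Growth n D) (k : ℕ) : 3 ≤ D k :=
  le_trans (by norm_num) (h.four k)

end Pool.Agent.N276.MB
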