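import Pool.Agent.N276.MB.Stm

/-!
# The isoperimetric inequality
-/

set_option autoImplicit false

open MeasureTheory Set Filter Topology
open scoped ENNReal Classical

namespace Pool.Agent.N276.MB.Iso0

/-- the inner darts -/
theorem inner_card (KK : Finset (List ℕ)) (S : Finset (Σ _ : List ℕ, ℕ))
    (hS : ∀ x ∈ S, x.1 ∈ KK) :
    (S.filter fun x => (opp (x.1, x.2)).1 ∈ KK).card ≤ 2 * KK.card := by
  have h1 : (S.filter fun x => (opp (x.1, x.2)).1 ∈ KK) ⊆
      (KK.image fun w => (⟨w, 0⟩ : Σ _ : List ℕ, ℕ)) ∪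
        (KK.image fun w => (⟨w.tail, w.headI⟩ : Σ _ : List ℕ, ℕ)) := by
    rintro ⟨w, i⟩ hx
    obtain ⟨hx1, hx2⟩ := Finset.mem_filter.1 hx
    have hw : w ∈ KK := hS _ hx1
    rw [Finset.mem_union, Finset.mem_image, Finset.mem_image]
    rcases w with _ | ⟨j, w⟩
    · right
      exact ⟨[i], hx2, rfl⟩
    · rcases i with _ | i
      · left
        exact ⟨j :: w, hw, rfl⟩
      · right
        exact ⟨(i + 1) :: j :: w, hx2, rfl⟩
  calc _ ≤ _ := Finset.card_le_card h1
    _ ≤ (KK.image fun w => (⟨w, 0⟩ : Σ _ : List ℕ, ℕ)).card +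
        (KK.image fun w => (⟨w.tail, w.headI⟩ : Σ _ : List ℕ, ℕ)).card := Finset.card_union_le _ _
    _ ≤ KK.card + KK.card := add_le_add Finset.card_image_le Finset.card_image_le
    _ = 2 * KK.card := by ring

end Pool.Agent.N276.MB.Iso0

namespace Pool.Agent.N276.MB

/-- **The isoperimetric inequality.** -/
theorem iso0 : StmArcValid → StmArcVertex → StmTree → StmIso0 := by
  intro _ hV hT D ω h4 h0 hG K hK hKD hKs
  obtain ⟨-, -, -, -, tdeg, tsame, -⟩ := hT D ω fun k => le_trans (by norm_num) (h4 k)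
  have hKn : ∀ p ∈ K, ∀ n : ℕ, (tree D ω).arc.s^[n] p ∈ K := by
    intro p hp n
    induction n with
    | zero => exact hp
    | succ n ih =>
      rw [Function.iterate_succ_apply']
      exact hKs _ ih
  have hmem : ∀ p ∈ K, ∀ q ∈ (tree D ω).arc.D, q.1.1 = p.1.1 → q ∈ K := by
    intro p hp q hq he
    have hpD : p.1 ∈ (tree D ω).D := (hKD hp).1
    have hq2 : q.1.2 < D (ω q.1.1) := hq.1.2
    rw [he] at hq2
    have h2 : (tree D ω).arc.SameV p q :=
      ((hV _ (tree D ω) hG p (hKD hp)).2.1 q).2 ⟨hq, (tsame p.1 hpD q.1).2 ⟨he, hq2⟩⟩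
    obtain ⟨n, rfl⟩ := h2
    exact hKn p hp n
  let KK : Finset (List ℕ) := hK.toFinset.image fun p => p.1.1
  have hKK : ∀ w, w ∈ KK ↔ ∃ p ∈ K, p.1.1 = w := by
    intro w
    simp only [KK, Finset.mem_image, Set.Finite.mem_toFinset]
  have hVd : ∀ w ∈ KK, Vd D ω w := by
    intro w hw
    obtain ⟨p, hp, rfl⟩ := (hKK w).1 hw
    exact (hKD hp).1.1
  let S : Finset (Σ _ : List ℕ, ℕ) := KK.sigma fun w => Finset.range (D (ω w))
  have hScard : S.card = ∑ w ∈ KK, D (ω w) := by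
    simp only [S, Finset.card_sigma, Finset.card_range]
  have hSK : ∀ x ∈ S, ((x.1, x.2), 0, true) ∈ K := by
    rintro ⟨w, i⟩ hx
    obtain ⟨hx1, hx2⟩ := Finset.mem_sigma.1 hx
    obtain ⟨p, hp, hpw⟩ := (hKK w).1 hx1
    refine hmem p hp _ ⟨⟨hVd w hx1, Finset.mem_range.1 hx2⟩, Nat.zero_le _, fun _ => rfl⟩ hpw.symm
  -- the darts of small degree
  have h1 : {d ∈ K | (tree D ω).arc.deg d = D 0}.ncard ≤ S.card := by
    have hsub : {d ∈ K | (tree D ω).arc.deg d = D 0} ⊆
        ((S.image fun x => (((x.1, x.2), 0, true) : (List ℕ × ℕ) × ℕ × Bool) :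
          Finset ((List ℕ × ℕ) × ℕ × Bool)) : Set ((List ℕ × ℕ) × ℕ × Bool)) := by
      rintro ⟨⟨w, i⟩, m, b⟩ ⟨hp, hdeg⟩
      have hpD := hKD hp
      have h2 := (hV _ (tree D ω) hG _ hpD).1
      have h3 : (tree D ω).deg (w, i) = D (ω w) := tdeg (w, i) hpD.1
      rw [hdeg] at h2
      have h5 : D 0 = (2 * ω w + 1) * D (ω w) := by
        rw [h2]
        congr 1
      have h6 : ω w = 0 := by
        by_contra hne
        have h7 : 1 ≤ ω w := Nat.one_le_iff_ne_zero.2 hne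
        have h8 := h0 (ω w)
        have h9 := h4 0
        nlinarith
      have h10 : m ≤ ω w := hpD.2.1
      have h11 : m = 0 := by omega
      subst h11
      have h12 : b = true := hpD.2.2 rfl
      subst h12
      rw [Finset.mem_coe, Finset.mem_image]
      refine ⟨⟨w, i⟩, Finset.mem_sigma.2 ⟨(hKK w).2 ⟨_, hp, rfl⟩, Finset.mem_range.2 hpD.1.2⟩, rfl⟩
    refine (Set.ncard_le_ncard hsub (Finset.finite_toSet _)).trans ?_
    rw [Set.ncard_coe_finset]
    exact Finset.card_image_le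
  -- the boundary
  have h2 : (S.filter fun x => ¬ (opp (x.1, x.2)).1 ∈ KK).card ≤
      {d ∈ K | (tree D ω).arc.a d ∉ K}.ncard := by
    have hinj : Function.Injective fun x : (Σ _ : List ℕ, ℕ) =>
        (((x.1, x.2), 0, true) : (List ℕ × ℕ) × ℕ × Bool) := by
      rintro ⟨w, i⟩ ⟨w', i'⟩ h
      simp only [Prod.mk.injEq, and_true] at h
      obtain ⟨rfl, rfl⟩ := h
      rfl
    rw [← Finset.card_image_of_injective _ hinj, ← Set.ncard_coe_finset]
    refine Set.ncard_le_ncard ?_ (hK.subset fun d hd => hd.1)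
    intro d hd
    rw [Finset.mem_coe, Finset.mem_image] at hd
    obtain ⟨⟨w, i⟩, hx, rfl⟩ := hd
    obtain ⟨hx1, hx2⟩ := Finset.mem_filter.1 hx
    refine ⟨hSK _ hx1, fun hcon => hx2 ?_⟩
    have h3 : (tree D ω).arc.a ((w, i), 0, true) = (opp (w, i), 0, true) := by
      simp only [LMap.arc, if_true]
      rfl
    rw [h3] at hcon
    exact (hKK _).2 ⟨_, hcon, rfl⟩
  have h3 := Iso0.inner_card KK S fun x hx => (Finset.mem_sigma.1 hx).1
  have h5 : (S.filter fun x => (opp (x.1, x.2)).1 ∈ KK).card +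
      (S.filter fun x => ¬ (opp (x.1, x.2)).1 ∈ KK).card = S.card :=
    Finset.card_filter_add_card_filter_not _
  have h6 : KK.card * 4 ≤ S.card := by
    rw [hScard, ← smul_eq_mul]
    exact Finset.card_nsmul_le_sum _ _ _ fun w _ => h4 _
  omega

end Pool.Agent.N276.MB
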