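import Pool.Agent.N276.MB.Growth

set_option autoImplicit false

open MeasureTheory Set Filter Topology
open scoped ENNReal Classical

namespace Pool.Agent.N276.MB

namespace CMap

variable {V : Type} {M : CMap V}

theorem Valid.per' (hM : M.Valid) {d : V} (hd : d ∈ M.D) : d ∈ Function.periodicPts M.s := by
  obtain ⟨n, hn, h⟩ := hM.per d hd
  exact ⟨n, hn, h⟩

theorem Valid.deg_s' (hM : M.Valid) {d : V} (hd : d ∈ M.D) : M.deg (M.s d) = M.deg d :=
  Function.minimalPeriod_apply (hM.per' hd)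

theorem Valid.avg_s' (hM : M.Valid) {d : V} (hd : d ∈ M.D) (h : V → ℝ≥0∞) :
    M.avg h (M.s d) = M.avg h d := by
  unfold CMap.avg
  rw [hM.deg_s' hd]
  congr 1
  have hp : 0 < M.deg d := Function.minimalPeriod_pos_of_mem_periodicPts (hM.per' hd)
  obtain ⟨p, hp'⟩ : ∃ p, M.deg d = p + 1 := ⟨M.deg d - 1, by omega⟩
  have h0 : M.s^[p + 1] d = d := by
    rw [← hp']; exact Function.iterate_minimalPeriod
  rw [hp', Finset.sum_range_succ, Finset.sum_range_succ']
  congr 1
  simp only [Function.iterate_zero, id_eq]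
  rw [← Function.iterate_succ_apply, h0]

theorem Valid.green_s' (hM : M.Valid) {d : V} (hd : d ∈ M.D) (y : V) :
    M.green (M.s d) y = M.green d y := by
  unfold CMap.green
  refine tsum_congr fun n => ?_
  cases n with
  | zero =>
    simp only [Function.iterate_zero, id_eq]
    have : M.SameV y (M.s d) ↔ M.SameV y d := by
      constructor
      · rintro ⟨n, hn⟩
        obtain ⟨p, hp, hpd⟩ := hM.per d hd
        refine ⟨p - 1 + n, ?_⟩
        rw [Function.iterate_add_apply, hn, ← Function.iterate_succ_apply]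
        rwa [show (p - 1).succ = p by omega]
      · rintro ⟨n, hn⟩
        exact ⟨n + 1, by rw [Function.iterate_succ_apply', hn]⟩
    simp only [this]
  | succ n =>
    rw [Function.iterate_succ_apply', CMap.P]
    exact hM.avg_s' hd _

theorem Valid.iter_mem' (hM : M.Valid) {d : V} (hd : d ∈ M.D) (n : ℕ) : M.s^[n] d ∈ M.D := by
  induction n with
  | zero => exact hd
  | succ n ih => rw [Function.iterate_succ_apply']; exact hM.s_mem _ ih

theorem Valid.green_sameV' (hM : M.Valid) {d d' : V} (hd : d ∈ M.D) (h : M.SameV d d') (y : V) :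
    M.green d' y = M.green d y := by
  obtain ⟨n, rfl⟩ := h
  induction n with
  | zero => rfl
  | succ n ih => rw [Function.iterate_succ_apply', hM.green_s' (hM.iter_mem' hd n), ih]

end CMap

/-- the sum over the edges between the two sides -/
theorem jump_sum {V : Type} (S : Set V) (F : V → ℝ≥0∞) (G : ℝ≥0∞) (φ : ℕ × Bool → V)
    (h : ∀ d ∈ S, ∃ i : ℕ × Bool, d = φ i ∧ F d ≤ 2 * (2⁻¹ ^ (i.1 + 10) * G)) :
    100 * ∑' d : S, F d ≤ G := by
  choose! i hi using h
  have hinj : Function.Injective fun d : S => i d := by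
    intro d d' hdd
    have h1 := (hi d d.2).1
    have h2 := (hi d' d'.2).1
    apply Subtype.ext
    rw [h1, h2]
    exact congrArg φ hdd
  have h1 : ∑' d : S, F d ≤ ∑' j : ℕ × Bool, 2 * ((2 : ℝ≥0∞)⁻¹ ^ (j.1 + 10) * G) :=
    calc ∑' d : S, F d ≤ ∑' d : S, 2 * ((2 : ℝ≥0∞)⁻¹ ^ ((i d).1 + 10) * G) :=
          ENNReal.tsum_le_tsum fun d => (hi d d.2).2
      _ ≤ _ := ENNReal.tsum_comp_le_tsum_of_injective hinj
          (fun j : ℕ × Bool => 2 * ((2 : ℝ≥0∞)⁻¹ ^ (j.1 + 10) * G))
  have h2 : ∑' j : ℕ × Bool, 2 * ((2 : ℝ≥0∞)⁻¹ ^ (j.1 + 10) * G) =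
      8 * 2⁻¹ ^ 10 * G := by
    rw [ENNReal.tsum_prod (f := fun m (_ : Bool) => 2 * ((2 : ℝ≥0∞)⁻¹ ^ (m + 10) * G))]
    simp only [tsum_fintype, Finset.sum_const, Finset.card_univ, Fintype.card_bool]
    have : ∀ m : ℕ, (2 : ℕ) • (2 * ((2 : ℝ≥0∞)⁻¹ ^ (m + 10) * G)) =
        4 * (2⁻¹ ^ 10 * G) * 2⁻¹ ^ m := by
      intro m
      rw [pow_add]; simp only [nsmul_eq_mul]; push_cast; ring
    rw [tsum_congr this, ENNReal.tsum_mul_left, ENNReal.tsum_geometric]
    have : (1 - (2 : ℝ≥0∞)⁻¹)⁻¹ = 2 := by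
      rw [ENNReal.one_sub_inv_two, inv_inv]
    rw [this]; ring
  calc 100 * ∑' d : S, F d ≤ 100 * (8 * 2⁻¹ ^ 10 * G) := by gcongr; exact h1.trans h2.le
    _ = (800 * (2⁻¹ ^ 10)) * G := by ring
    _ ≤ 1 * G := by
        gcongr
        rw [← ENNReal.inv_pow, ← div_eq_mul_inv]
        refine ENNReal.div_le_of_le_mul ?_
        norm_num
    _ = G := one_mul G

/-- the bound for one edge between the two sides -/
theorem jump_one {k l m Q : ℕ} {D : ℕ → ℕ} {g e t G : ℝ≥0∞} (hD : Monotone D) (hml : m ≤ l)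
    (hQ : 2 ^ (m + 10) * Q ≤ D m) (hk : k = (2 * l + 1) * D l)
    (hg : g ≤ 2 * (2 * (l : ℝ≥0∞) + 1)) (he : e ≤ Q * G) (ht : t = g / k * e) :
    t ≤ 2 * (2⁻¹ ^ (m + 10) * G) := by
  have h1 : g / k ≤ 2 / (D l : ℝ≥0∞) := by
    calc g / k ≤ (2 * (2 * (l : ℝ≥0∞) + 1)) / k := by gcongr
      _ = ((2 * (l : ℝ≥0∞) + 1) * 2) / ((2 * (l : ℝ≥0∞) + 1) * D l) := by
          rw [hk]; push_cast; rw [mul_comm 2 (2 * (l : ℝ≥0∞) + 1)]
      _ = 2 / (D l : ℝ≥0∞) := by
          refine ENNReal.mul_div_mul_left _ _ ?_ ?_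
          · positivity
          · exact ENNReal.add_ne_top.2 ⟨ENNReal.mul_ne_top (by norm_num) (by simp), by norm_num⟩
  have h2 : (Q : ℝ≥0∞) / D l ≤ 2⁻¹ ^ (m + 10) := by
    refine ENNReal.div_le_of_le_mul ?_
    rw [← ENNReal.inv_pow, mul_comm, ← div_eq_mul_inv]
    rw [ENNReal.le_div_iff_mul_le (Or.inl (by positivity)) (Or.inl (by finiteness))]
    have : 2 ^ (m + 10) * Q ≤ D l := hQ.trans (hD hml)
    rw [mul_comm]
    exact_mod_cast this
  calc t ≤ 2 / (D l : ℝ≥0∞) * (Q * G) := by rw [ht]; gcongr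
    _ = 2 * (((Q : ℝ≥0∞) / D l) * G) := by simp only [div_eq_mul_inv]; ring
    _ ≤ 2 * (2⁻¹ ^ (m + 10) * G) := by gcongr

/-- the position in the word is not changed by the rotation -/
theorem arc_s_word (D : ℕ → ℕ) (ω : List ℕ → ℕ) (p : (List ℕ × ℕ) × ℕ × Bool) :
    ((tree D ω).arc.s p).1.1 = p.1.1 := by
  unfold LMap.arc
  simp only
  split_ifs <;> rfl

theorem jump (hAV : StmArcValid) (hV : StmArcVertex) (hT : StmTree) (hG : StmGreen)
    (hC : StmCross) (hL : StmCrossList) (hP : StmPath) : StmJump := by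
  intro n D ω hgr hgood hev
  have h3 : ∀ k, 3 ≤ D k := hgr.three
  set M := (tree D ω).arc with hM
  have hval : M.Valid := hAV _ _ hgood
  obtain ⟨-, hlab, hcr1, hcr2⟩ := hL D ω h3 hgood
  obtain ⟨-, -, -, -, hdeg, -, -⟩ := hT D ω h3
  -- the common estimate
  have key : ∀ x ∈ M.D, ∀ y ∈ M.D, ∀ d ∈ M.D, ∀ m : ℕ, m ≤ ω d.1.1 → ∀ G : ℝ≥0∞,
      M.green (M.a d) y ≤ (∏ i ∈ Finset.range m, ((2 * i + 1) * D i) ^ n i : ℕ) * G →
      M.green x d / M.deg d * M.green (M.a d) y ≤ 2 * (2⁻¹ ^ (m + 10) * G) := by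
    intro x hx y hy d hd m hm G hq
    have hd1 : d.1 ∈ (tree D ω).D := hd.1
    refine jump_one (k := M.deg d) (l := ω d.1.1) hgr.1 hm (hgr.2 m) ?_
      (hG D ω h3 hgood x hx d hd) hq rfl
    rw [(hV _ _ hgood d hd).1, hdeg _ hd1]; rfl
  -- Green's function at the arcs
  have hend : ∀ (a : Fin 4) (m : ℕ) (b : Bool), (fst D ω a m, m, b) ∈ M.D → ∀ y ∈ M.D,
      M.green (fst D ω a m, m, b) y ≤
      (∏ i ∈ Finset.range m, ((2 * i + 1) * D i) ^ n i : ℕ) *
        M.green (if a = 0 ∨ a = 2 then root else M.a root) y := by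
    intro a m b hmem y hy
    have h0 : (fst D ω a m, 0, true) ∈ M.D := ⟨hmem.1, Nat.zero_le _, fun _ => rfl⟩
    have hs : M.SameV (fst D ω a m, 0, true) (fst D ω a m, m, b) := by
      rw [(hV _ _ hgood _ h0).2.1]
      exact ⟨hmem, 0, rfl⟩
    rw [hval.green_sameV' h0 hs]
    exact hP D n ω h3 hgood hev a m y hy
  have hroot : root ∈ M.D := by
    refine ⟨⟨trivial, ?_⟩, Nat.zero_le _, fun _ => rfl⟩
    exact lt_of_lt_of_le (by norm_num [root, rt]) (h3 _)
  have hroot' : M.a root ∈ M.D := hval.a_mem _ hroot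
  have hside_root : root ∉ side := by
    rintro ⟨w, hw⟩
    simp [root, rt] at hw
  have hside_root' : M.a root ∈ side := ⟨[], rfl⟩
  have hside_s : ∀ d, d ∈ side ↔ M.s d ∈ side := by
    intro d
    show (∃ w, d.1.1 = w ++ [0]) ↔ ∃ w, (M.s d).1.1 = w ++ [0]
    rw [hM, arc_s_word]
  have hprod0 : ∀ G : ℝ≥0∞, G ≤
      (∏ i ∈ Finset.range 0, ((2 * i + 1) * D i) ^ n i : ℕ) * G := by
    intro G; simp
  constructor
  · intro y hy hys
    refine le_trans (mul_le_mul_right (hC _ M hval sideᶜ (fun d _ => ?_) root hroot hside_root y hy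
      (by simpa using hys)) _) (jump_sum {d | d ∈ M.D ∧ d ∈ sideᶜ ∧ M.a d ∉ sideᶜ}
        (fun d => M.green root d / M.deg d * M.green (M.a d) y) (M.green (M.a root) y)
        (fun i => if i.1 = 0 then root else if i.2 = true then (fst D ω 0 i.1, i.1, true) else
          (fst D ω 2 i.1, i.1, false)) ?_)
    · simp only [mem_compl_iff]; exact not_congr (hside_s d)
    · rintro d ⟨hd, hdA, hda⟩
      have hda' : M.a d ∈ side := by simpa using hda
      rcases hcr1 d hd hdA hda' with rfl | ⟨m, hm, ⟨h1, h2⟩ | ⟨h1, h2⟩⟩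
      · refine ⟨(0, true), rfl, key root hroot y hy root hroot 0 (Nat.zero_le _) _ (hprod0 _)⟩
      · refine ⟨(m, true), ?_, ?_⟩
        · simp only [if_true]; rw [if_neg (by omega)]; exact h1
        · refine key root hroot y hy d hd m ?_ _ ?_
          · rw [h1]; exact hlab 0 m
          · have h4 := hval.a_mem _ hd
            rw [← hM] at h2
            rw [h2] at h4 ⊢
            have h5 := hend 1 m false h4 y hy
            simpa using h5
      · refine ⟨(m, false), ?_, ?_⟩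
        · simp only [Bool.false_eq_true, if_false]; rw [if_neg (by omega)]; exact h1
        · refine key root hroot y hy d hd m ?_ _ ?_
          · rw [h1]; exact hlab 2 m
          · have h4 := hval.a_mem _ hd
            rw [← hM] at h2
            rw [h2] at h4 ⊢
            have h5 := hend 3 m true h4 y hy
            simpa using h5
  · intro y hy hys
    refine le_trans (mul_le_mul_right (hC _ M hval side (fun d _ => hside_s d) (M.a root) hroot'
      hside_root' y hy hys) _) (jump_sum {d | d ∈ M.D ∧ d ∈ side ∧ M.a d ∉ side}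
        (fun d => M.green (M.a root) d / M.deg d * M.green (M.a d) y) (M.green root y)
        (fun i => if i.1 = 0 then M.a root else if i.2 = true then (fst D ω 1 i.1, i.1, false) else
          (fst D ω 3 i.1, i.1, true)) ?_)
    · rintro d ⟨hd, hdA, hda⟩
      rcases hcr2 d hd hdA hda with rfl | ⟨m, hm, ⟨h1, h2⟩ | ⟨h1, h2⟩⟩
      · refine ⟨(0, true), rfl, ?_⟩
        refine key _ hroot' y hy _ hroot' 0 (Nat.zero_le _) _ ?_
        rw [hval.a_a _ hroot]
        exact hprod0 _
      · refine ⟨(m, true), ?_, ?_⟩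
        · simp only [if_true]; rw [if_neg (by omega)]; exact h1
        · refine key _ hroot' y hy d hd m ?_ _ ?_
          · rw [h1]; exact hlab 1 m
          · have h4 := hval.a_mem _ hd
            rw [← hM] at h2
            rw [h2] at h4 ⊢
            have h5 := hend 0 m true h4 y hy
            simpa using h5
      · refine ⟨(m, false), ?_, ?_⟩
        · simp only [Bool.false_eq_true, if_false]; rw [if_neg (by omega)]; exact h1
        · refine key _ hroot' y hy d hd m ?_ _ ?_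
          · rw [h1]; exact hlab 3 m
          · have h4 := hval.a_mem _ hd
            rw [← hM] at h2
            rw [h2] at h4 ⊢
            have h5 := hend 2 m false h4 y hy
            simpa using h5

end Pool.Agent.N276.MB
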