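import Pool.Agent.N276.MB.Stm

/-!
# Measurability of the random map
-/

set_option autoImplicit false

open MeasureTheory Set Filter Topology
open scoped ENNReal Classical

namespace Pool.Agent.N276.MB

namespace Meas

/-- substitution of a random element of a countable set in a measurable condition -/
theorem bind {Ω β : Type} [MeasurableSpace Ω] [Countable β] {F : Ω → β}
    (hF : ∀ b, MeasurableSet {ω | F ω = b}) {p : β → Ω → Prop}
    (hp : ∀ b, MeasurableSet {ω | p b ω}) : MeasurableSet {ω | p (F ω) ω} := by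
  have h : {ω | p (F ω) ω} = ⋃ b, ({ω | F ω = b} ∩ {ω | p b ω}) := by
    ext ω
    simp only [mem_ofPred_eq, mem_iUnion, mem_inter_iff]
    constructor
    · intro h
      exact ⟨F ω, rfl, h⟩
    · rintro ⟨b, rfl, h⟩
      exact h
  rw [h]
  exact MeasurableSet.iUnion fun b => (hF b).inter (hp b)

/-- a condition on one label -/
theorem lab (w : List ℕ) (q : ℕ → Prop) : MeasurableSet {ω : List ℕ → ℕ | q (ω w)} :=
  bind (F := fun ω : List ℕ → ℕ => ω w) (p := fun b _ => q b)
    (fun b => by
      have h := measurable_pi_apply (X := fun _ : List ℕ => ℕ) w (measurableSet_singleton b)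
      exact h) fun _ => MeasurableSet.const _

/-- the infimum of a random set of natural numbers -/
theorem inf {Ω : Type} [MeasurableSpace Ω] {S : Ω → Set ℕ}
    (hS : ∀ n, MeasurableSet {ω | n ∈ S ω}) (n : ℕ) : MeasurableSet {ω | sInf (S ω) = n} := by
  have h : {ω | sInf (S ω) = n} = {ω | (n ∈ S ω ∧ ∀ k, k < n → k ∉ S ω) ∨
      (n = 0 ∧ ∀ k, k ∉ S ω)} := by
    ext ω
    simp only [mem_ofPred_eq]
    constructor
    · intro h
      rcases (S ω).eq_empty_or_nonempty with he | hne
      · right
        rw [he, Nat.sInf_empty] at h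
        refine ⟨h.symm, fun k hk => ?_⟩
        rw [he] at hk
        exact hk
      · left
        subst h
        exact ⟨Nat.sInf_mem hne, fun k hk => Nat.notMem_of_lt_sInf hk⟩
    · rintro (⟨h1, h2⟩ | ⟨h1, h2⟩)
      · apply le_antisymm (Nat.sInf_le h1)
        by_contra hlt
        exact h2 _ (not_le.1 hlt) (Nat.sInf_mem ⟨n, h1⟩)
      · have he : S ω = ∅ := eq_empty_iff_forall_notMem.2 h2
        rw [he, Nat.sInf_empty, h1]
  rw [h]
  refine MeasurableSet.union ?_ ?_
  · refine (hS n).inter ?_
    have h1 : MeasurableSet {ω | ∀ k, k < n → k ∉ S ω} := by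
      simp only [ofPred_forall]
      exact MeasurableSet.iInter fun k => MeasurableSet.iInter fun _ => (hS k).compl
    exact h1
  · refine (MeasurableSet.const _).inter ?_
    have h1 : MeasurableSet {ω | ∀ k, k ∉ S ω} := by
      simp only [ofPred_forall]
      exact MeasurableSet.iInter fun k => (hS k).compl
    exact h1

variable (D : ℕ → ℕ)

theorem tau1 (c c' : List ℕ × ℕ) : MeasurableSet {ω | (tree D ω).tau c = c'} :=
  lab (opp c).1 fun k => ((opp c).1, ((opp c).2 + (D k - 1)) % D k) = c'

theorem tau1' (c c' : List ℕ × ℕ) : MeasurableSet {ω | (tree D ω).tau' c = c'} :=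
  lab c.1 fun k => opp (c.1, (c.2 + 1) % D k) = c'

theorem tauN (c : List ℕ × ℕ) (j : ℕ) : ∀ c', MeasurableSet {ω | (tree D ω).tau^[j] c = c'} := by
  induction j with
  | zero => intro c'; exact MeasurableSet.const (c = c')
  | succ j ih =>
    intro c'
    simp only [Function.iterate_succ_apply']
    exact bind (p := fun b ω => (tree D ω).tau b = c') ih fun b => tau1 D b c'

theorem tauN' (c : List ℕ × ℕ) (j : ℕ) : ∀ c', MeasurableSet {ω | (tree D ω).tau'^[j] c = c'} := by
  induction j with
  | zero => intro c'; exact MeasurableSet.const (c = c')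
  | succ j ih =>
    intro c'
    simp only [Function.iterate_succ_apply']
    exact bind (p := fun b ω => (tree D ω).tau' b = c') ih fun b => tau1' D b c'

theorem si1 (c c' : List ℕ × ℕ) : MeasurableSet {ω | (tree D ω).si c = c'} :=
  lab c.1 fun k => (c.1, (c.2 + (D k - 1)) % D k) = c'

theorem nxM (m : ℕ) (c : List ℕ × ℕ) (n : ℕ) : MeasurableSet {ω | (tree D ω).nx m c = n} := by
  refine inf (S := fun ω => {n | 1 ≤ n ∧ m ≤ (tree D ω).l ((tree D ω).tau^[n] c)}) ?_ n
  intro k
  exact (MeasurableSet.const _).inter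
    (bind (p := fun b ω => m ≤ (tree D ω).l b) (tauN D c k) fun b => lab b.1 fun k => m ≤ k)

theorem pvM (m : ℕ) (c : List ℕ × ℕ) (n : ℕ) : MeasurableSet {ω | (tree D ω).pv m c = n} := by
  refine inf (S := fun ω => {n | 1 ≤ n ∧ m ≤ (tree D ω).l ((tree D ω).tau'^[n] c)}) ?_ n
  intro k
  exact (MeasurableSet.const _).inter
    (bind (p := fun b ω => m ≤ (tree D ω).l b) (tauN' D c k) fun b => lab b.1 fun k => m ≤ k)

theorem vd (w : List ℕ) : MeasurableSet {ω | Vd D ω w} := by
  induction w with
  | nil => exact MeasurableSet.const _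
  | cons i w ih =>
    exact ih.inter ((lab w fun k => i < D k).inter (MeasurableSet.const _))

theorem darts (p : (List ℕ × ℕ) × ℕ × Bool) : MeasurableSet {ω | p ∈ (tree D ω).arc.D} := by
  have h1 : MeasurableSet {ω : List ℕ → ℕ | p.1 ∈ (tree D ω).D} :=
    (vd D p.1.1).inter (lab p.1.1 fun k => p.1.2 < D k)
  exact h1.inter ((lab p.1.1 fun k => p.2.1 ≤ k).inter (MeasurableSet.const _))

theorem arcS (p q : (List ℕ × ℕ) × ℕ × Bool) : MeasurableSet {ω | (tree D ω).arc.s p = q} :=
  lab p.1.1 fun k => (if p.2.2 = true then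
      (if p.2.1 < k then (p.1, p.2.1 + 1, true)
        else if p.2.1 = 0 then ((p.1.1, (p.1.2 + 1) % D k), 0, true) else (p.1, p.2.1, false))
    else (if p.2.1 ≤ 1 then ((p.1.1, (p.1.2 + 1) % D k), 0, true) else (p.1, p.2.1 - 1, false))) = q

theorem arcA (p q : (List ℕ × ℕ) × ℕ × Bool) : MeasurableSet {ω | (tree D ω).arc.a p = q} := by
  have h : ∀ ω, (tree D ω).arc.a p = if p.2.1 = 0 then (opp p.1, 0, true)
      else if p.2.2 = true then ((tree D ω).tau^[(tree D ω).nx p.2.1 p.1] p.1, p.2.1, false)
      else ((tree D ω).tau'^[(tree D ω).pv p.2.1 p.1] p.1, p.2.1, true) := fun ω => rfl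
  simp only [h]
  by_cases h0 : p.2.1 = 0
  · simp only [h0, if_true]
    exact MeasurableSet.const _
  · simp only [if_neg h0]
    by_cases h1 : p.2.2 = true
    · simp only [h1, if_true]
      refine bind (F := fun ω => (tree D ω).nx p.2.1 p.1)
        (p := fun n ω => ((tree D ω).tau^[n] p.1, p.2.1, false) = q) (nxM D _ _) fun n => ?_
      exact bind (F := fun ω => (tree D ω).tau^[n] p.1) (p := fun b _ => (b, p.2.1, false) = q)
        (tauN D _ _) fun b => MeasurableSet.const _
    · simp only [if_neg h1]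
      refine bind (F := fun ω => (tree D ω).pv p.2.1 p.1)
        (p := fun n ω => ((tree D ω).tau'^[n] p.1, p.2.1, true) = q) (pvM D _ _) fun n => ?_
      exact bind (F := fun ω => (tree D ω).tau'^[n] p.1) (p := fun b _ => (b, p.2.1, true) = q)
        (tauN' D _ _) fun b => MeasurableSet.const _

theorem halfM (a : Fin 4) (j : ℕ) (c : List ℕ × ℕ) : MeasurableSet {ω | half D ω a j = c} := by
  fin_cases a
  · exact tauN' D rt j c
  · exact tauN D rt (j + 1) c
  · exact bind (F := fun ω => (tree D ω).si rt) (p := fun b ω => (tree D ω).tau^[j] b = c)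
      (si1 D rt) fun b => tauN D b j c
  · exact bind (F := fun ω => (tree D ω).si rt) (p := fun b ω => (tree D ω).tau'^[j + 1] b = c)
      (si1 D rt) fun b => tauN' D b (j + 1) c

theorem ev (n : ℕ → ℕ) : MeasurableSet {ω | Ev D n ω} := by
  unfold Ev
  simp only [ofPred_forall]
  refine MeasurableSet.iInter fun a => MeasurableSet.iInter fun i => ?_
  have h : {ω : List ℕ → ℕ | ∃ j < n i, i + 1 ≤ ω (half D ω a j).1} =
      ⋃ j, {ω : List ℕ → ℕ | j < n i ∧ i + 1 ≤ ω (half D ω a j).1} := by
    ext ω
    simp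
  rw [h]
  refine MeasurableSet.iUnion fun j => (MeasurableSet.const _).inter ?_
  exact bind (F := fun ω => half D ω a j) (p := fun b ω => i + 1 ≤ ω b.1) (halfM D a j) fun b =>
    lab b.1 fun k => i + 1 ≤ k

end Meas

/-- the map is a random map: measurability -/
theorem meas : StmMeas := fun D _ => ⟨Meas.darts D, Meas.arcS D, Meas.arcA D, Meas.ev D⟩

end Pool.Agent.N276.MB
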