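import Pool.Agent.N276.MB.Stm

/-!
# Nonamenability from the isoperimetric inequality (helper99, task MB/13)
-/

set_option autoImplicit false

open MeasureTheory Set Filter Topology
open scoped ENNReal Classical

namespace Pool.Agent.N276.MB

namespace NonAm

/-! ### measurability -/

section meas
variable {Ω : Type} [MeasurableSpace Ω]

theorem meas_comp {ι β : Type} [Countable ι] [MeasurableSpace β] {F : Ω → ι → β}
    (hF : ∀ i, Measurable fun ω => F ω i) {g : Ω → ι} (hg : ∀ i, MeasurableSet {ω | g ω = i}) :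
    Measurable fun ω => F ω (g ω) := by
  intro B hB
  have h : (fun ω => F ω (g ω)) ⁻¹' B = ⋃ i, {ω | g ω = i} ∩ (fun ω => F ω i) ⁻¹' B := by
    ext ω
    simp only [mem_preimage, mem_iUnion, mem_inter_iff, mem_setOf_eq]
    constructor
    · intro h
      exact ⟨g ω, rfl, h⟩
    · rintro ⟨i, rfl, h⟩
      exact h
  rw [h]
  exact MeasurableSet.iUnion fun i => (hg i).inter (hF i hB)

theorem vm_comp {ι κ : Type} [Countable ι] {F : Ω → ι → κ}
    (hF : ∀ v v', MeasurableSet {ω | F ω v = v'}) {g : Ω → ι}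
    (hg : ∀ i, MeasurableSet {ω | g ω = i}) (v' : κ) : MeasurableSet {ω | F ω (g ω) = v'} := by
  have h : {ω | F ω (g ω) = v'} = ⋃ i, {ω | g ω = i} ∩ {ω | F ω i = v'} := by
    ext ω
    simp only [mem_iUnion, mem_inter_iff, mem_setOf_eq]
    constructor
    · intro h
      exact ⟨g ω, rfl, h⟩
    · rintro ⟨i, rfl, h⟩
      exact h
  rw [h]
  exact MeasurableSet.iUnion fun i => (hg i).inter (hF i v')

theorem set_comp {ι : Type} [Countable ι] {W : Ω → Set ι}
    (hW : ∀ v, MeasurableSet {ω | v ∈ W ω}) {g : Ω → ι}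
    (hg : ∀ i, MeasurableSet {ω | g ω = i}) : MeasurableSet {ω | g ω ∈ W ω} := by
  have h : {ω | g ω ∈ W ω} = ⋃ i, {ω | g ω = i} ∩ {ω | i ∈ W ω} := by
    ext ω
    simp only [mem_iUnion, mem_inter_iff, mem_setOf_eq]
    constructor
    · intro h
      exact ⟨g ω, rfl, h⟩
    · rintro ⟨i, rfl, h⟩
      exact h
  rw [h]
  exact MeasurableSet.iUnion fun i => (hg i).inter (hW i)

variable {V : Type} [Countable V] {M : Ω → CMap V}

theorem iter_meas (hs : ∀ d d', MeasurableSet {ω | (M ω).s d = d'}) (d : V) (n : ℕ) :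
    ∀ v, MeasurableSet {ω | (M ω).s^[n] d = v} := by
  induction n with
  | zero =>
    intro v
    exact MeasurableSet.const (d = v)
  | succ n ih =>
    intro v
    simp only [Function.iterate_succ_apply']
    exact vm_comp (F := fun ω v => (M ω).s v) hs ih v

theorem minper_iff {α : Type} (f : α → α) (x : α) (n : ℕ) (hn : 0 < n) :
    Function.minimalPeriod f x = n ↔ f^[n] x = x ∧ ∀ j, 0 < j → j < n → f^[j] x ≠ x := by
  constructor
  · rintro rfl
    refine ⟨Function.isPeriodicPt_minimalPeriod f x, fun j hj hj' h => ?_⟩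
    have := Function.IsPeriodicPt.minimalPeriod_le hj (show Function.IsPeriodicPt f j x from h)
    omega
  · rintro ⟨h1, h2⟩
    have h3 := Function.IsPeriodicPt.minimalPeriod_le hn (show Function.IsPeriodicPt f n x from h1)
    rcases Nat.lt_or_ge (Function.minimalPeriod f x) n with h4 | h4
    · exfalso
      have h5 : 0 < Function.minimalPeriod f x :=
        Function.IsPeriodicPt.minimalPeriod_pos hn (show Function.IsPeriodicPt f n x from h1)
      exact h2 _ h5 h4 (Function.isPeriodicPt_minimalPeriod f x)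
    · omega

theorem deg_meas (hs : ∀ d d', MeasurableSet {ω | (M ω).s d = d'}) (d : V) :
    ∀ n, MeasurableSet {ω | (M ω).deg d = n} := by
  have h1 : ∀ n, 0 < n → MeasurableSet {ω | (M ω).deg d = n} := by
    intro n hn
    have h2 : {ω | (M ω).deg d = n} = {ω | (M ω).s^[n] d = d} ∩
        ⋂ j : ℕ, ⋂ (_ : 0 < j), ⋂ (_ : j < n), {ω | (M ω).s^[j] d = d}ᶜ := by
      ext ω
      simp only [mem_inter_iff, mem_setOf_eq, mem_iInter, mem_compl_iff]
      exact minper_iff _ _ _ hn
    rw [h2]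
    refine (iter_meas hs d n d).inter (MeasurableSet.iInter fun j => MeasurableSet.iInter fun _ =>
      MeasurableSet.iInter fun _ => (iter_meas hs d j d).compl)
  intro n
  rcases Nat.eq_zero_or_pos n with rfl | hn
  · have h2 : {ω | (M ω).deg d = 0} = (⋃ j : ℕ, {ω | (M ω).deg d = j + 1})ᶜ := by
      ext ω
      simp only [mem_setOf_eq, mem_compl_iff, mem_iUnion, not_exists]
      constructor
      · intro h j; omega
      · intro h
        by_contra h0
        exact h ((M ω).deg d - 1) (by omega)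
    rw [h2]
    exact (MeasurableSet.iUnion fun j => h1 (j + 1) (Nat.succ_pos j)).compl
  · exact h1 n hn

theorem avg_meas (hs : ∀ d d', MeasurableSet {ω | (M ω).s d = d'}) {F : Ω → V → ℝ≥0∞}
    (hF : ∀ v, Measurable fun ω => F ω v) (d : V) : Measurable fun ω => (M ω).avg (F ω) d := by
  unfold CMap.avg
  refine meas_comp (F := fun ω n => (∑ i ∈ Finset.range n, F ω ((M ω).s^[i] d)) / (n : ℝ≥0∞))
    (fun n => ?_) (deg_meas hs d)
  refine Measurable.div_const ?_ _
  exact Finset.measurable_sum _ fun i _ => meas_comp hF (iter_meas hs d i)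

theorem Q_meas (hs : ∀ d d', MeasurableSet {ω | (M ω).s d = d'})
    (ha : ∀ d d', MeasurableSet {ω | (M ω).a d = d'}) {W : Ω → Set V}
    (hW : ∀ d, MeasurableSet {ω | d ∈ W ω}) {F : Ω → V → ℝ≥0∞}
    (hF : ∀ v, Measurable fun ω => F ω v) (d : V) :
    Measurable fun ω => (M ω).Q (W ω) (F ω) d := by
  unfold CMap.Q
  refine avg_meas hs (F := fun ω d' => if d' ∈ W ω then F ω ((M ω).a d') else F ω d')
    (fun v => ?_) d
  exact Measurable.ite (hW v) (meas_comp hF (ha v)) (hF v)

end meas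

/-! ### the iterated operator -/

section op
variable {V : Type}

/-- the indicator of the vertices of degree `N` -/
noncomputable def h0 (N : ℕ) (M : CMap V) (x : V) : ℝ≥0∞ := if M.deg x = N then 1 else 0

/-- the iterates -/
noncomputable def H (N k : ℕ) (M : CMap V) (W : Set V) : V → ℝ≥0∞ := (M.Q W)^[k] (h0 N M)

theorem H_succ (N k : ℕ) (M : CMap V) (W : Set V) : H N (k + 1) M W = M.Q W (H N k M W) := by
  unfold H
  rw [Function.iterate_succ_apply']

theorem avg_le {M : CMap V} {h : V → ℝ≥0∞} (hh : ∀ x, h x ≤ 1) (d : V) : M.avg h d ≤ 1 := by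
  unfold CMap.avg
  apply ENNReal.div_le_of_le_mul
  rw [one_mul]
  calc ∑ i ∈ Finset.range (M.deg d), h (M.s^[i] d) ≤ ∑ _i ∈ Finset.range (M.deg d), (1 : ℝ≥0∞) :=
        Finset.sum_le_sum fun i _ => hh _
    _ = M.deg d := by simp

theorem H_le (N k : ℕ) (M : CMap V) (W : Set V) (x : V) : H N k M W x ≤ 1 := by
  induction k generalizing x with
  | zero =>
    change h0 N M x ≤ 1
    unfold h0
    split_ifs
    · exact le_rfl
    · exact bot_le
  | succ k ih =>
    rw [H_succ]
    unfold CMap.Q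
    apply avg_le
    intro y
    split_ifs
    · exact ih _
    · exact ih _

theorem iter_mem {M : CMap V} (hM : M.Valid) {d : V} (hd : d ∈ M.D) (n : ℕ) :
    M.s^[n] d ∈ M.D := by
  induction n with
  | zero => exact hd
  | succ n ih =>
    rw [Function.iterate_succ_apply']
    exact hM.s_mem _ ih

theorem deg_pos {M : CMap V} (hM : M.Valid) {d : V} (hd : d ∈ M.D) : 0 < M.deg d := by
  obtain ⟨n, hn, h⟩ := hM.per d hd
  exact Function.IsPeriodicPt.minimalPeriod_pos hn (show Function.IsPeriodicPt M.s n d from h)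

theorem deg_s {M : CMap V} (hM : M.Valid) {d : V} (hd : d ∈ M.D) : M.deg (M.s d) = M.deg d := by
  obtain ⟨n, hn, h⟩ := hM.per d hd
  exact Function.minimalPeriod_apply ⟨n, hn, h⟩

theorem avg_s {M : CMap V} (hM : M.Valid) {d : V} (hd : d ∈ M.D) (g : V → ℝ≥0∞) :
    M.avg g (M.s d) = M.avg g d := by
  unfold CMap.avg
  rw [deg_s hM hd]
  congr 1
  have h1 : ∀ i, M.s^[i] (M.s d) = M.s^[i + 1] d := fun i => by
    rw [Function.iterate_succ_apply]
  simp only [h1]
  have h2 := Finset.sum_range_succ' (fun i => g (M.s^[i] d)) (M.deg d)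
  have h3 := Finset.sum_range_succ (fun i => g (M.s^[i] d)) (M.deg d)
  have h4 : M.s^[M.deg d] d = d := Function.isPeriodicPt_minimalPeriod M.s d
  rw [h4] at h3
  rw [h3] at h2
  simp only [Function.iterate_zero, id] at h2
  -- both sums plus the last term
  have h5 : M.deg d = (M.deg d - 1) + 1 := by have := deg_pos hM hd; omega
  rw [h5, Finset.sum_range_succ, Finset.sum_range_succ' (fun i => g (M.s^[i] d)), ← h5, h4]
  rfl

theorem H_s {M : CMap V} (hM : M.Valid) (N k : ℕ) (W : Set V) {x : V} (hx : x ∈ M.D) :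
    H N k M W (M.s x) = H N k M W x := by
  cases k with
  | zero =>
    change h0 N M (M.s x) = h0 N M x
    unfold h0
    rw [deg_s hM hx]
  | succ k =>
    rw [H_succ]
    exact avg_s hM hx _

theorem H_iter {M : CMap V} (hM : M.Valid) (N k : ℕ) (W : Set V) {x : V} (hx : x ∈ M.D) (i : ℕ) :
    H N k M W (M.s^[i] x) = H N k M W x := by
  induction i with
  | zero => rfl
  | succ i ih =>
    rw [Function.iterate_succ_apply', H_s hM N k W (iter_mem hM hx i), ih]

theorem avg_const {M : CMap V} (hM : M.Valid) {x : V} (hx : x ∈ M.D) {g : V → ℝ≥0∞} {c : ℝ≥0∞}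
    (hg : ∀ i, g (M.s^[i] x) = c) : M.avg g x = c := by
  unfold CMap.avg
  simp only [hg, Finset.sum_const, Finset.card_range, nsmul_eq_mul]
  rw [mul_comm]
  have h1 : (M.deg x : ℝ≥0∞) ≠ 0 := by
    have := deg_pos hM hx
    exact_mod_cast this.ne'
  exact ENNReal.mul_div_cancel_right h1 (ENNReal.natCast_ne_top _)

theorem avg_congr {M : CMap V} {x : V} {g g' : V → ℝ≥0∞}
    (hg : ∀ i, g (M.s^[i] x) = g' (M.s^[i] x)) : M.avg g x = M.avg g' x := by
  unfold CMap.avg
  simp only [hg]

theorem avg_add (M : CMap V) (x : V) (g g' : V → ℝ≥0∞) :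
    M.avg (fun d => g d + g' d) x = M.avg g x + M.avg g' x := by
  unfold CMap.avg
  rw [Finset.sum_add_distrib, ENNReal.div_add_div_same]

/-! ### invariance -/

variable {M M' : CMap V} {W W' : Set V} {e : V → V}

theorem iso_iter (hM : M.Valid) (he : IsIso M W M' W' e) {d : V} (hd : d ∈ M.D) (n : ℕ) :
    M'.s^[n] (e d) = e (M.s^[n] d) := by
  induction n with
  | zero => rfl
  | succ n ih =>
    rw [Function.iterate_succ_apply', Function.iterate_succ_apply', ih,
      he.s_comm _ (iter_mem hM hd n)]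

theorem iso_deg (hM : M.Valid) (he : IsIso M W M' W' e) {d : V} (hd : d ∈ M.D) :
    M'.deg (e d) = M.deg d := by
  unfold CMap.deg
  rw [Function.minimalPeriod_eq_minimalPeriod_iff]
  intro n
  unfold Function.IsPeriodicPt Function.IsFixedPt
  rw [iso_iter hM he hd]
  constructor
  · intro h
    exact he.bij.injOn (iter_mem hM hd n) hd h
  · intro h
    rw [h]

theorem iso_H (hM : M.Valid) (he : IsIso M W M' W' e) (N k : ℕ) {d : V} (hd : d ∈ M.D) :
    H N k M' W' (e d) = H N k M W d := by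
  induction k generalizing d with
  | zero =>
    change h0 N M' (e d) = h0 N M d
    unfold h0
    rw [iso_deg hM he hd]
  | succ k ih =>
    rw [H_succ, H_succ]
    unfold CMap.Q CMap.avg
    rw [iso_deg hM he hd]
    congr 1
    refine Finset.sum_congr rfl fun i _ => ?_
    have hi := iter_mem hM hd i
    rw [iso_iter hM he hd]
    have h1 : e (M.s^[i] d) ∈ W' ↔ M.s^[i] d ∈ W := (he.mark _ hi).symm
    simp only
    by_cases h2 : M.s^[i] d ∈ W
    · rw [if_pos (h1.2 h2), if_pos h2, ← he.a_comm _ hi, ih (hM.a_mem _ hi)]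
    · rw [if_neg (fun h => h2 (h1.1 h)), if_neg h2, ih hi]

theorem inv_f (N k : ℕ) :
    Invariant (V := V) (fun M W d => if d ∈ W then H N k M W d else 0) := by
  intro M M' W W' e d hM _ he hd
  have h1 : e d ∈ W' ↔ d ∈ W := (he.mark _ hd).symm
  simp only
  by_cases h2 : d ∈ W
  · rw [if_pos (h1.2 h2), if_pos h2, iso_H hM he N k hd]
  · rw [if_neg (fun h => h2 (h1.1 h)), if_neg h2]

/-! ### clusters -/

theorem cluster_sub (hM : M.Valid) {d : V} (hd : d ∈ M.D) : M.cluster W d ⊆ M.D := by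
  intro x hx
  induction hx with
  | refl => exact hd
  | tail _ h ih =>
    rcases h with rfl | ⟨_, rfl⟩
    · exact hM.s_mem _ ih
    · exact hM.a_mem _ ih

theorem cluster_s {d x : V} (hx : x ∈ M.cluster W d) : M.s x ∈ M.cluster W d :=
  Relation.ReflTransGen.tail hx (Or.inl rfl)

theorem ratio_ge (hM : M.Valid) {d : V} (hd : d ∈ M.D) (hf : (M.cluster W d).Finite) {N : ℕ}
    (hI : Iso0 M N) : (∑' x : M.cluster W d, h0 N M x) / (M.cluster W d).encard ≤
      2 * M.ratio W d := by
  have h1 := hI (M.cluster W d) hf (cluster_sub hM hd) (fun x hx => cluster_s hx)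
  have h2 : ∑' x : M.cluster W d, h0 N M x =
      (({x ∈ M.cluster W d | M.deg x = N}.ncard : ℕ) : ℝ≥0∞) := by
    have : Fintype (M.cluster W d) := hf.fintype
    rw [tsum_fintype]
    unfold h0
    rw [Finset.sum_boole, Set.ncard_eq_toFinset_card' ]
    congr 1
    refine Finset.card_bij (fun x _ => (x : V)) (fun x hx => ?_) (fun x _ y _ h => Subtype.ext h)
      (fun y hy => ?_)
    · rw [Finset.mem_filter] at hx
      rw [Set.mem_toFinset]
      exact ⟨x.2, hx.2⟩
    · rw [Set.mem_toFinset] at hy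
      exact ⟨⟨y, hy.1⟩, by rw [Finset.mem_filter]; exact ⟨Finset.mem_univ _, hy.2⟩, rfl⟩
  have h3 : ({d' ∈ M.cluster W d | M.a d' ∉ M.cluster W d}.encard : ℝ≥0∞) =
      (({d' ∈ M.cluster W d | M.a d' ∉ M.cluster W d}.ncard : ℕ) : ℝ≥0∞) := by
    rw [← (hf.subset (fun x hx => hx.1)).cast_ncard_eq]
    rfl
  unfold CMap.ratio
  rw [h2, h3, ← mul_div_assoc]
  apply ENNReal.div_le_div_right
  exact_mod_cast h1

end op

end NonAm

open NonAm in
/-- nonamenability from the isoperimetric inequality -/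
theorem nonamenable : StmErgodic → StmNonAmenable := by
  intro hE V Ω _ _ P _ X N hIso hpos hA
  set p : ℝ≥0∞ := P {ω | (X.M ω).deg (X.r ω) = N} with hp
  obtain ⟨Ω', mΩ', P', π, W, hπ, hW, hsym, hrev, hfin, hlt⟩ := hA (p / 2)
    (ENNReal.div_pos hpos.ne' (by norm_num))
  have hP' : IsProbabilityMeasure P' := ⟨by
    have h := hπ.measure_preimage (MeasurableSet.univ.nullMeasurableSet)
    simpa using h⟩
  have ms : ∀ d d', MeasurableSet {ω | (X.M (π ω)).s d = d'} :=
    fun d d' => hπ.measurable (X.meas_s d d')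
  have ma : ∀ d d', MeasurableSet {ω | (X.M (π ω)).a d = d'} :=
    fun d d' => hπ.measurable (X.meas_a d d')
  have mr : ∀ d, MeasurableSet {ω | X.r (π ω) = d} := fun d => hπ.measurable (X.meas_r d)
  have mH : ∀ k d, Measurable fun ω => H N k (X.M (π ω)) (W ω) d := by
    intro k
    induction k with
    | zero =>
      intro d
      change Measurable fun ω => h0 N (X.M (π ω)) d
      unfold h0
      exact Measurable.ite (deg_meas ms d N) measurable_const measurable_const
    | succ k ih =>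
      intro d
      simp only [H_succ]
      exact Q_meas ms ma hW ih d
  have mHr : ∀ k, Measurable fun ω => H N k (X.M (π ω)) (W ω) (X.r (π ω)) :=
    fun k => meas_comp (mH k) mr
  have mdeg : MeasurableSet {ω | (X.M ω).deg (X.r ω) = N} :=
    vm_comp (F := fun ω v => (X.M ω).deg v) (fun v n => deg_meas X.meas_s v n) X.meas_r N
  have hae : ∀ᵐ ω ∂P', (X.M (π ω)).PlaneMap ∧ X.r (π ω) ∈ (X.M (π ω)).D :=
    hπ.quasiMeasurePreserving.ae X.plane
  have hIso' : ∀ᵐ ω ∂P', Iso0 (X.M (π ω)) N := hπ.quasiMeasurePreserving.ae hIso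
  -- step 1
  have step1 : ∀ k, ∫⁻ ω, H N (k + 1) (X.M (π ω)) (W ω) (X.r (π ω)) ∂P' =
      ∫⁻ ω, H N k (X.M (π ω)) (W ω) (X.r (π ω)) ∂P' := by
    intro k
    set f : CMap V → Set V → V → ℝ≥0∞ := fun M W d => if d ∈ W then H N k M W d else 0 with hf
    have mf : ∀ d, Measurable fun ω => f (X.M (π ω)) (W ω) d :=
      fun d => Measurable.ite (hW d) (mH k d) measurable_const
    have h1 := hrev f (inv_f N k) mf
    set g : Ω' → V → ℝ≥0∞ := fun ω d => if d ∈ W ω then 0 else H N k (X.M (π ω)) (W ω) d with hg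
    have mg : ∀ d, Measurable fun ω => g ω d :=
      fun d => Measurable.ite (hW d) measurable_const (mH k d)
    have m1 : Measurable fun ω => (X.M (π ω)).avg (g ω) (X.r (π ω)) :=
      meas_comp (fun d => avg_meas ms mg d) mr
    have e1 : ∫⁻ ω, H N (k + 1) (X.M (π ω)) (W ω) (X.r (π ω)) ∂P' =
        ∫⁻ ω, (X.M (π ω)).avg (g ω) (X.r (π ω)) +
          (X.M (π ω)).avg (fun d => f (X.M (π ω)) (W ω) ((X.M (π ω)).a d)) (X.r (π ω)) ∂P' := by
      apply lintegral_congr_ae
      filter_upwards [hae, hsym] with ω h1 h2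
      rw [H_succ, ← avg_add]
      unfold CMap.Q
      apply avg_congr
      intro i
      have hi := iter_mem h1.1.valid h1.2 i
      have hs := h2 _ hi
      simp only [hf, hg]
      by_cases h3 : (X.M (π ω)).s^[i] (X.r (π ω)) ∈ W ω
      · rw [if_pos h3, if_pos h3, if_pos (hs.1 h3), zero_add]
      · rw [if_neg h3, if_neg h3, if_neg (fun h => h3 (hs.2 h)), add_zero]
    have e2 : ∫⁻ ω, H N k (X.M (π ω)) (W ω) (X.r (π ω)) ∂P' =
        ∫⁻ ω, (X.M (π ω)).avg (g ω) (X.r (π ω)) +
          (X.M (π ω)).avg (fun d => f (X.M (π ω)) (W ω) d) (X.r (π ω)) ∂P' := by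
      apply lintegral_congr_ae
      filter_upwards [hae] with ω h1
      rw [← avg_add]
      symm
      apply avg_const h1.1.valid h1.2
      intro i
      simp only [hf, hg]
      rw [← H_iter h1.1.valid N k (W ω) h1.2 i]
      split_ifs <;> simp
    rw [e1, e2, lintegral_add_left m1, lintegral_add_left m1, h1]
  -- step 2
  have step2 : ∀ k, ∫⁻ ω, H N k (X.M (π ω)) (W ω) (X.r (π ω)) ∂P' = p := by
    intro k
    induction k with
    | zero =>
      have e : ∀ ω, H N 0 (X.M (π ω)) (W ω) (X.r (π ω)) =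
          (π ⁻¹' {ω | (X.M ω).deg (X.r ω) = N}).indicator (fun _ => (1 : ℝ≥0∞)) ω := by
        intro ω
        change h0 N _ _ = _
        unfold h0
        rw [indicator_apply]
        exact if_congr Iff.rfl rfl rfl
      simp only [e]
      rw [lintegral_indicator_const (hπ.measurable mdeg), one_mul,
        hπ.measure_preimage mdeg.nullMeasurableSet]
    | succ k ih => rw [step1, ih]
  set F : ℕ → Ω' → ℝ≥0∞ := fun n ω =>
    (∑ k ∈ Finset.range n, H N k (X.M (π ω)) (W ω) (X.r (π ω))) / n with hF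
  set T : Ω' → ℝ≥0∞ := fun ω =>
    (∑' x : (X.M (π ω)).cluster (W ω) (X.r (π ω)), h0 N (X.M (π ω)) x) /
      ((X.M (π ω)).cluster (W ω) (X.r (π ω))).encard with hT
  have msum : ∀ n, Measurable fun ω =>
      ∑ k ∈ Finset.range n, H N k (X.M (π ω)) (W ω) (X.r (π ω)) :=
    fun n => Finset.measurable_sum _ fun k _ => mHr k
  have hlim : Tendsto (fun n => ∫⁻ ω, F n ω ∂P') atTop (𝓝 (∫⁻ ω, T ω ∂P')) := by
    apply tendsto_lintegral_of_dominated_convergence (fun _ => (1 : ℝ≥0∞))
    · intro n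
      exact (msum n).div_const _
    · intro n
      filter_upwards with ω
      apply ENNReal.div_le_of_le_mul
      rw [one_mul]
      calc _ ≤ ∑ _k ∈ Finset.range n, (1 : ℝ≥0∞) := Finset.sum_le_sum fun i _ => H_le _ _ _ _ _
        _ = n := by simp
    · simp
    · filter_upwards [hae, hsym, hfin] with ω h1 h2 h3
      exact hE V (X.M (π ω)) (W ω) (X.r (π ω)) (h0 N (X.M (π ω))) 1 h1.1.valid h2 h1.2
        (h3 _ h1.2) ENNReal.one_ne_top (fun x => H_le N 0 _ (W ω) x)
        (fun x hx => by unfold h0; rw [deg_s h1.1.valid hx])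
  have hint : ∀ n, 1 ≤ n → ∫⁻ ω, F n ω ∂P' = p := by
    intro n hn
    simp only [hF, div_eq_mul_inv]
    rw [lintegral_mul_const _ (msum n), lintegral_finset_sum _ (fun k _ => mHr k)]
    simp only [step2, Finset.sum_const, Finset.card_range, nsmul_eq_mul]
    rw [mul_comm (n : ℝ≥0∞) p, mul_assoc, ENNReal.mul_inv_cancel, mul_one]
    · exact_mod_cast (by omega : n ≠ 0)
    · exact ENNReal.natCast_ne_top _
  have hTp : ∫⁻ ω, T ω ∂P' = p := by
    refine tendsto_nhds_unique hlim ?_
    refine tendsto_const_nhds.congr' ?_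
    filter_upwards [eventually_ge_atTop 1] with n hn
    exact (hint n hn).symm
  -- step 3
  have hle : p ≤ 2 * ∫⁻ ω, (X.M (π ω)).ratio (W ω) (X.r (π ω)) ∂P' := by
    rw [← hTp, ← lintegral_const_mul' _ _ (by norm_num)]
    apply lintegral_mono_ae
    filter_upwards [hae, hfin, hIso'] with ω h1 h3 h4
    exact ratio_ge h1.1.valid h1.2 (h3 _ h1.2) h4
  have h5 := (ENNReal.lt_div_iff_mul_lt (Or.inl (by norm_num)) (Or.inl (by norm_num))).1 hlt
  rw [mul_comm] at h5
  exact absurd hle (not_le.2 h5)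

end Pool.Agent.N276.MB
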