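import Pool.Agent.N276.MB.Stm

/-!
# The map with arcs in a labelled tree is one-ended
-/

set_option autoImplicit false

open MeasureTheory Set Filter Topology
open scoped ENNReal Classical

namespace Pool.Agent.N276.MB

namespace OneEnd

section general

variable {V : Type} {M : CMap V}

lemma conn_mono {S S' : Set V} (h : S ⊆ S') {x y : V} (hc : M.Conn S' x y) : M.Conn S x y := by
  unfold CMap.Conn at hc ⊢
  induction hc with
  | refl => exact Relation.ReflTransGen.refl
  | tail _ hstep ih => exact ih.tail ⟨hstep.1, fun hb => hstep.2 (h hb)⟩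

lemma conn_mem (hM : M.Valid) {S : Set V} {x y : V} (hx : x ∈ M.D) (hc : M.Conn S x y) :
    y ∈ M.D := by
  unfold CMap.Conn at hc
  induction hc with
  | refl => exact hx
  | tail _ hstep ih =>
    rcases hstep.1 with h | h
    · rw [h]; exact hM.s_mem _ ih
    · rw [h]; exact hM.a_mem _ ih

lemma conn_out {S : Set V} {x y : V} (hx : x ∉ S) (hc : M.Conn S x y) : y ∉ S := by
  unfold CMap.Conn at hc
  induction hc with
  | refl => exact hx
  | tail _ hstep _ => exact hstep.2

lemma rot_out (hM : M.Valid) {S : Set V} (hS : ∀ d ∈ S, M.s d ∈ S) {x : V} (hx : x ∈ M.D)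
    (hxS : x ∉ S) (n : ℕ) : M.s^[n] x ∉ S := by
  intro hn
  obtain ⟨p, hp, hpx⟩ := hM.per x hx
  have h1 : ∀ k, M.s^[k] (M.s^[n] x) ∈ S := by
    intro k
    induction k with
    | zero => exact hn
    | succ k ih => rw [Function.iterate_succ_apply']; exact hS _ ih
  have h2 : M.s^[p * n] x = x := by
    have : Function.IsPeriodicPt M.s p x := hpx
    exact this.mul_const n
  have h3 : n ≤ p * n := Nat.le_mul_of_pos_left n hp
  have h4 : M.s^[p * n - n] (M.s^[n] x) = x := by
    rw [← Function.iterate_add_apply, Nat.sub_add_cancel h3, h2]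
  exact hxS (h4 ▸ h1 _)

lemma conn_rot (hM : M.Valid) {S : Set V} (hS : ∀ d ∈ S, M.s d ∈ S) {x : V} (hx : x ∈ M.D)
    (hxS : x ∉ S) (n : ℕ) : M.Conn S x (M.s^[n] x) := by
  induction n with
  | zero => exact Relation.ReflTransGen.refl
  | succ n ih =>
    refine Relation.ReflTransGen.tail ih ⟨Or.inl ?_, rot_out hM hS hx hxS _⟩
    rw [Function.iterate_succ_apply']

lemma conn_symm (hM : M.Valid) {S : Set V} (hS : ∀ d ∈ S, M.s d ∈ S) {x y : V} (hx : x ∈ M.D)
    (hxS : x ∉ S) (hc : M.Conn S x y) : M.Conn S y x := by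
  unfold CMap.Conn at hc
  induction hc with
  | refl => exact Relation.ReflTransGen.refl
  | @tail b c hb hstep ih =>
    have hbD : b ∈ M.D := conn_mem hM hx hb
    have hbS : b ∉ S := conn_out hxS hb
    refine Relation.ReflTransGen.trans ?_ ih
    rcases hstep.1 with h | h
    · subst h
      obtain ⟨p, hp, hpx⟩ := hM.per b hbD
      have h1 := conn_rot hM hS (hM.s_mem b hbD) hstep.2 (p - 1)
      have h2 : M.s^[p - 1] (M.s b) = b := by
        rw [← Function.iterate_succ_apply, Nat.succ_eq_add_one, Nat.sub_add_cancel hp, hpx]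
      rw [h2] at h1
      exact h1
    · subst h
      exact Relation.ReflTransGen.single ⟨Or.inr (hM.a_a b hbD).symm, hbS⟩

end general

section arcs

variable {X : Type} {L : LMap X}

lemma up (c : X) : ∀ m, m ≤ L.l c → L.arc.s^[m] (c, 0, true) = (c, m, true) := by
  intro m
  induction m with
  | zero => intro _; rfl
  | succ m ih =>
    intro hm
    rw [Function.iterate_succ_apply', ih (by omega)]
    simp only [LMap.arc, if_true]
    rw [if_pos (by omega)]

lemma down (c : X) (hk : 1 ≤ L.l c) :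
    ∀ j, j < L.l c → L.arc.s^[L.l c + 1 + j] (c, 0, true) = (c, L.l c - j, false) := by
  intro j
  induction j with
  | zero =>
    intro _
    rw [Nat.add_zero, Function.iterate_succ_apply', up c _ le_rfl]
    simp only [LMap.arc, if_true, lt_self_iff_false, if_false, Nat.sub_zero]
    rw [if_neg (by omega)]
  | succ j ih =>
    intro hj
    rw [← Nat.add_assoc, Function.iterate_succ_apply', ih (by omega)]
    simp only [LMap.arc, Bool.false_eq_true, if_false]
    rw [if_neg (by omega)]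
    congr 2

lemma next (c : X) : ∃ n, L.arc.s^[n] (c, 0, true) = (L.s c, 0, true) := by
  rcases Nat.eq_zero_or_pos (L.l c) with h | h
  · refine ⟨1, ?_⟩
    simp only [Function.iterate_one, LMap.arc, if_true, h, lt_self_iff_false, if_false]
  · refine ⟨L.l c + 1 + (L.l c - 1) + 1, ?_⟩
    rw [Function.iterate_succ_apply', down c h _ (by omega)]
    simp only [LMap.arc, Bool.false_eq_true, if_false]
    rw [if_pos (by omega)]

lemma slot (c : X) (m : ℕ) (b : Bool) (h : (c, m, b) ∈ L.arc.D) :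
    ∃ n, L.arc.s^[n] (c, 0, true) = (c, m, b) := by
  have h1 : m ≤ L.l c := h.2.1
  have h2 : m = 0 → b = true := h.2.2
  cases b with
  | true => exact ⟨m, up c m h1⟩
  | false =>
    have hm : 1 ≤ m := by
      rcases Nat.eq_zero_or_pos m with h | h
      · exact absurd (h2 h) (by simp)
      · exact h
    refine ⟨L.l c + 1 + (L.l c - m), ?_⟩
    rw [down c (by omega) _ (by omega)]
    congr 2
    omega

lemma tau_tau' (hG : L.Good) {x : X} (hx : x ∈ L.D) : L.tau (L.tau' x) = x := by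
  unfold LMap.tau LMap.tau'
  rw [hG.valid.a_a _ (hG.valid.s_mem _ hx), hG.si_s _ hx]

lemma tau'_mem (hG : L.Good) {x : X} (hx : x ∈ L.D) (n : ℕ) : L.tau'^[n] x ∈ L.D := by
  induction n with
  | zero => exact hx
  | succ n ih =>
    rw [Function.iterate_succ_apply']
    exact hG.valid.a_mem _ (hG.valid.s_mem _ ih)

lemma tau_tau'_iter (hG : L.Good) {x : X} (hx : x ∈ L.D) (b : ℕ) :
    ∀ k, k ≤ b → L.tau^[k] (L.tau'^[b] x) = L.tau'^[b - k] x := by
  intro k
  induction k with
  | zero => intro _; rfl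
  | succ k ih =>
    intro hk
    rw [Function.iterate_succ_apply', ih (by omega)]
    have h : b - k = (b - (k + 1)) + 1 := by omega
    rw [h, Function.iterate_succ_apply', tau_tau' hG (tau'_mem hG hx _)]

lemma nx_spec (hG : L.Good) {c : X} (hc : c ∈ L.D) (m : ℕ) :
    1 ≤ L.nx m c ∧ m ≤ L.l (L.tau^[L.nx m c] c) :=
  Nat.sInf_mem (s := {n | 1 ≤ n ∧ m ≤ L.l (L.tau^[n] c)}) (hG.fwd c hc m)

lemma pv_spec (hG : L.Good) {c : X} (hc : c ∈ L.D) (m : ℕ) :
    1 ≤ L.pv m c ∧ m ≤ L.l (L.tau'^[L.pv m c] c) :=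
  Nat.sInf_mem (s := {n | 1 ≤ n ∧ m ≤ L.l (L.tau'^[n] c)}) (hG.bwd c hc m)

lemma nx_min {c : X} {m n : ℕ} (h1 : 1 ≤ n) (h2 : n < L.nx m c) : L.l (L.tau^[n] c) < m := by
  by_contra h
  exact Nat.notMem_of_lt_sInf (s := {n | 1 ≤ n ∧ m ≤ L.l (L.tau^[n] c)}) h2
    ⟨h1, by omega⟩

lemma pv_min {c : X} {m n : ℕ} (h1 : 1 ≤ n) (h2 : n < L.pv m c) : L.l (L.tau'^[n] c) < m := by
  by_contra h
  exact Nat.notMem_of_lt_sInf (s := {n | 1 ≤ n ∧ m ≤ L.l (L.tau'^[n] c)}) h2
    ⟨h1, by omega⟩

/-- over a corner with label less than `m` there is an arc of type `m` -/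
lemma link_gen (hG : L.Good) {c : X} (hc : c ∈ L.D) {m : ℕ} (hm : 1 ≤ m) (hcm : L.l c < m) :
    L.arc.a (L.tau'^[L.pv m c] c, m, true) = (L.tau^[L.nx m c] c, m, false) := by
  have key : L.nx m (L.tau'^[L.pv m c] c) = L.nx m c + L.pv m c := by
    have hb := pv_spec hG hc m
    have ha := nx_spec hG hc m
    apply le_antisymm
    · apply Nat.sInf_le
      refine ⟨by omega, ?_⟩
      rw [Function.iterate_add_apply, tau_tau'_iter hG hc _ _ le_rfl, Nat.sub_self]
      exact ha.2
    · by_contra hlt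
      have hsp := nx_spec hG (tau'_mem hG hc (L.pv m c)) m
      set n := L.nx m (L.tau'^[L.pv m c] c) with hn
      rcases le_or_gt n (L.pv m c) with h | h
      · rw [tau_tau'_iter hG hc _ _ h] at hsp
        rcases Nat.eq_zero_or_pos (L.pv m c - n) with h0 | h0
        · rw [h0] at hsp
          have : m ≤ L.l c := hsp.2
          omega
        · have := pv_min (L := L) (c := c) (m := m) h0 (by omega)
          omega
      · have h1 : n = (n - L.pv m c) + L.pv m c := by omega
        rw [h1, Function.iterate_add_apply, tau_tau'_iter hG hc _ _ le_rfl, Nat.sub_self] at hsp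
        have h2 := nx_min (L := L) (c := c) (m := m) (n := n - L.pv m c) (by omega) (by omega)
        have h3 : m ≤ L.l (L.tau^[n - L.pv m c] c) := hsp.2
        omega
  simp only [LMap.arc, if_true]
  rw [if_neg (by omega), key, Function.iterate_add_apply, tau_tau'_iter hG hc _ _ le_rfl,
    Nat.sub_self]
  rfl

end arcs

section tree

variable {D : ℕ → ℕ} {ω : List ℕ → ℕ}

lemma vd_suffix {u w : List ℕ} (h : u <:+ w) (hw : Vd D ω w) : Vd D ω u := by
  obtain ⟨t, rfl⟩ := h
  induction t with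
  | nil => exact hw
  | cons i t ih => exact ih hw.1

lemma child_of {u w : List ℕ} (h : u <:+ w) (hne : u ≠ w) : ∃ i, (i :: u) <:+ w := by
  obtain ⟨t, rfl⟩ := h
  rcases List.eq_nil_or_concat t with h | ⟨t', i, h⟩
  · subst h; exact absurd rfl hne
  · subst h
    exact ⟨i, t', by simp⟩

/-- the dart of the tree at the beginning of `w` -/
abbrev base (w : List ℕ) : (List ℕ × ℕ) × ℕ × Bool := ((w, 0), 0, true)

lemma base_mem (hD : ∀ k, 3 ≤ D k) {w : List ℕ} (hw : Vd D ω w) :
    base w ∈ (tree D ω).arc.D := by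
  refine ⟨⟨hw, ?_⟩, Nat.zero_le _, fun _ => rfl⟩
  have := hD (ω w)
  show 0 < D (ω w)
  omega

/-- the darts at the vertices of level at most `N` -/
def SN (D : ℕ → ℕ) (ω : List ℕ → ℕ) (N : ℕ) : Set ((List ℕ × ℕ) × ℕ × Bool) :=
  {p | p ∈ (tree D ω).arc.D ∧ p.1.1.length ≤ N}

lemma arc_s_word (p : (List ℕ × ℕ) × ℕ × Bool) : ((tree D ω).arc.s p).1.1 = p.1.1 := by
  obtain ⟨⟨w, i⟩, m, b⟩ := p
  simp only [LMap.arc, tree]
  split_ifs <;> rfl

lemma SN_s (hv : (tree D ω).arc.Valid) (N : ℕ) :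
    ∀ d ∈ SN D ω N, (tree D ω).arc.s d ∈ SN D ω N := by
  intro d hd
  refine ⟨hv.s_mem d hd.1, ?_⟩
  rw [arc_s_word]; exact hd.2

lemma not_SN {N : ℕ} {p : (List ℕ × ℕ) × ℕ × Bool} (h : N < p.1.1.length) : p ∉ SN D ω N :=
  fun hp => absurd hp.2 (by omega)

/-- all darts at a vertex are connected with the first one -/
lemma conn_vertex (hv : (tree D ω).arc.Valid) {N : ℕ} {w : List ℕ}
    (hw : Vd D ω w) (hN : N < w.length) {p : (List ℕ × ℕ) × ℕ × Bool}
    (hp : p ∈ (tree D ω).arc.D) (hpw : p.1.1 = w) :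
    (tree D ω).arc.Conn (SN D ω N) (base w) p := by
  obtain ⟨⟨w', i⟩, m, b⟩ := p
  simp only at hpw
  subst hpw
  have h0 : (tree D ω).arc.Conn (SN D ω N) (base w') ((w', i), 0, true) := by
    have hi : i < D (ω w') := hp.1.2
    clear hp
    induction i with
    | zero => exact Relation.ReflTransGen.refl
    | succ i ih =>
      have h1 := ih (by omega)
      refine Relation.ReflTransGen.trans h1 ?_
      obtain ⟨n, hn⟩ := next (L := tree D ω) (w', i)
      have h2 : (tree D ω).s (w', i) = (w', i + 1) := by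
        simp only [tree]
        rw [Nat.mod_eq_of_lt hi]
      rw [h2] at hn
      have h3 := conn_rot hv (SN_s hv N)
        (show (((w', i), 0, true) : (List ℕ × ℕ) × ℕ × Bool) ∈ (tree D ω).arc.D from
          ⟨⟨hw, show i < D (ω w') by omega⟩, Nat.zero_le _, fun _ => rfl⟩)
        (not_SN (by simpa using hN)) n
      rw [hn] at h3
      exact h3
  refine Relation.ReflTransGen.trans h0 ?_
  obtain ⟨n, hn⟩ := slot (L := tree D ω) (w', i) m b hp
  have h3 := conn_rot hv (SN_s hv N)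
    (show (((w', i), 0, true) : (List ℕ × ℕ) × ℕ × Bool) ∈ (tree D ω).arc.D from
      ⟨hp.1, Nat.zero_le _, fun _ => rfl⟩)
    (not_SN (by simpa using hN)) n
  rw [hn] at h3
  exact h3

lemma symm' (hv : (tree D ω).arc.Valid) {N : ℕ} {p q : (List ℕ × ℕ) × ℕ × Bool}
    (hp : p ∈ (tree D ω).arc.D) (hpN : N < p.1.1.length)
    (h : (tree D ω).arc.Conn (SN D ω N) p q) : (tree D ω).arc.Conn (SN D ω N) q p :=
  conn_symm hv (SN_s hv N) hp (not_SN hpN) h

/-- the first darts of a vertex and of its parent are connected -/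
lemma conn_parent (hD : ∀ k, 3 ≤ D k) (hv : (tree D ω).arc.Valid) {N : ℕ} {w : List ℕ} {i : ℕ}
    (hw : Vd D ω (i :: w)) (hN : N < w.length) :
    (tree D ω).arc.Conn (SN D ω N) (base (i :: w)) (base w) := by
  have hmem : (((w, i), 0, true) : (List ℕ × ℕ) × ℕ × Bool) ∈ (tree D ω).arc.D :=
    ⟨⟨hw.1, hw.2.1⟩, Nat.zero_le _, fun _ => rfl⟩
  have h1 : (tree D ω).arc.Conn (SN D ω N) (base (i :: w)) ((w, i), 0, true) := by
    refine Relation.ReflTransGen.single ⟨Or.inr ?_, not_SN hN⟩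
    rfl
  refine Relation.ReflTransGen.trans h1 ?_
  exact symm' hv (base_mem hD hw.1) hN (conn_vertex hv hw.1 hN hmem rfl)

lemma conn_anc (hD : ∀ k, 3 ≤ D k) (hv : (tree D ω).arc.Valid) {N : ℕ} {u : List ℕ}
    (hN : N < u.length) (t : List ℕ) (hw : Vd D ω (t ++ u)) :
    (tree D ω).arc.Conn (SN D ω N) (base (t ++ u)) (base u) := by
  induction t with
  | nil => exact Relation.ReflTransGen.refl
  | cons i t ih =>
    have h : N < (t ++ u).length := by rw [List.length_append]; omega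
    exact Relation.ReflTransGen.trans (conn_parent hD hv hw h) (ih hw.1)

/-! ### the face at a corner -/

lemma tau_iter (hD : ∀ k, 3 ≤ D k) {u : List ℕ} {i : ℕ} (hi : u ≠ [] → 1 ≤ i)
    (hu : Vd D ω (i :: u)) (j : ℕ) :
    ∃ w, (i :: u) <:+ w ∧ Vd D ω w ∧ (tree D ω).tau^[j + 1] (u, i) = (w, D (ω w) - 1) := by
  induction j with
  | zero =>
    refine ⟨i :: u, List.suffix_rfl, hu, ?_⟩
    have h1 : opp (u, i) = (i :: u, 0) := by
      cases u with
      | nil => rfl
      | cons k u =>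
        obtain ⟨i', rfl⟩ : ∃ i', i = i' + 1 := ⟨i - 1, by have := hi (by simp); omega⟩
        rfl
    show (tree D ω).si (opp (u, i)) = _
    rw [h1]
    simp only [tree]
    have := hD (ω (i :: u))
    rw [Nat.mod_eq_of_lt (by omega)]
    simp
  | succ j ih =>
    obtain ⟨w, hw, hwv, h⟩ := ih
    have h3 := hD (ω w)
    have hval : Vd D ω ((D (ω w) - 1) :: w) := ⟨hwv, by omega, fun _ => by omega⟩
    refine ⟨(D (ω w) - 1) :: w, hw.trans (List.suffix_cons _ _), hval, ?_⟩
    rw [Function.iterate_succ_apply', h]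
    have h1 : opp (w, D (ω w) - 1) = ((D (ω w) - 1) :: w, 0) := by
      obtain ⟨k, hk⟩ : ∃ k, D (ω w) - 1 = k + 1 := ⟨D (ω w) - 2, by omega⟩
      rw [hk]
      cases w with
      | nil => rfl
      | cons a w => rfl
    show (tree D ω).si (opp (w, D (ω w) - 1)) = _
    rw [h1]
    simp only [tree]
    have := hD (ω ((D (ω w) - 1) :: w))
    rw [Nat.mod_eq_of_lt (by omega)]
    simp

lemma tau'_iter (hD : ∀ k, 3 ≤ D k) {u : List ℕ} {i : ℕ} (hu : Vd D ω ((i + 1) :: u)) (j : ℕ) :
    ∃ w, ((i + 1) :: u) <:+ w ∧ Vd D ω w ∧ (tree D ω).tau'^[j + 1] (u, i) = (w, 0) := by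
  induction j with
  | zero =>
    refine ⟨(i + 1) :: u, List.suffix_rfl, hu, ?_⟩
    show opp ((tree D ω).s (u, i)) = _
    have h1 : (tree D ω).s (u, i) = (u, i + 1) := by
      simp only [tree]
      rw [Nat.mod_eq_of_lt hu.2.1]
    rw [h1]
    cases u with
    | nil => rfl
    | cons k u => rfl
  | succ j ih =>
    obtain ⟨w, hw, hwv, h⟩ := ih
    have h3 := hD (ω w)
    have hval : Vd D ω (1 :: w) := ⟨hwv, by omega, fun _ => le_rfl⟩
    refine ⟨1 :: w, hw.trans (List.suffix_cons _ _), hval, ?_⟩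
    rw [Function.iterate_succ_apply', h]
    have h1 : (tree D ω).s (w, 0) = (w, 1) := by
      simp only [tree]
      rw [Nat.mod_eq_of_lt (by omega)]
    show opp ((tree D ω).s (w, 0)) = _
    rw [h1]
    cases w with
    | nil => rfl
    | cons a w => rfl

/-- consecutive children are connected -/
lemma link (hD : ∀ k, 3 ≤ D k) (hG : (tree D ω).Good) (hv : (tree D ω).arc.Valid) {N m : ℕ}
    (hm : 1 ≤ m) (hmN : ∀ w, Vd D ω w → w.length ≤ N → ω w < m) {u : List ℕ} {i : ℕ}
    (hu : u.length ≤ N) (hi : u ≠ [] → 1 ≤ i) (h1 : Vd D ω (i :: u))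
    (h2 : Vd D ω ((i + 1) :: u)) :
    ∃ w w', (i :: u) <:+ w ∧ ((i + 1) :: u) <:+ w' ∧ Vd D ω w ∧ Vd D ω w' ∧ N < w.length ∧
      N < w'.length ∧ (tree D ω).arc.Conn (SN D ω N) (base w) (base w') := by
  have hc : (u, i) ∈ (tree D ω).D := ⟨h1.1, h1.2.1⟩
  have hcm : (tree D ω).l (u, i) < m := hmN u h1.1 hu
  have hlink := link_gen hG hc hm hcm
  have ha := nx_spec hG hc m
  have hb := pv_spec hG hc m
  set a := (tree D ω).nx m (u, i)
  set b := (tree D ω).pv m (u, i)
  obtain ⟨w, hw, hwv, hwe⟩ := tau_iter hD hi h1 (a - 1)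
  obtain ⟨w', hw', hwv', hwe'⟩ := tau'_iter hD h2 (b - 1)
  rw [Nat.sub_add_cancel ha.1] at hwe
  rw [Nat.sub_add_cancel hb.1] at hwe'
  rw [hwe] at ha hlink
  rw [hwe'] at hb hlink
  have hla : m ≤ ω w := ha.2
  have hlb : m ≤ ω w' := hb.2
  have hwN : N < w.length := by
    by_contra h
    have := hmN w hwv (by omega)
    omega
  have hwN' : N < w'.length := by
    by_contra h
    have := hmN w' hwv' (by omega)
    omega
  refine ⟨w, w', hw, hw', hwv, hwv', hwN, hwN', ?_⟩
  have hD1 := hD (ω w)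
  have hD2 := hD (ω w')
  have hp : (((w', 0), m, true) : (List ℕ × ℕ) × ℕ × Bool) ∈ (tree D ω).arc.D :=
    ⟨⟨hwv', show 0 < D (ω w') by omega⟩, hlb, fun _ => rfl⟩
  have hq : (((w, D (ω w) - 1), m, false) : (List ℕ × ℕ) × ℕ × Bool) ∈ (tree D ω).arc.D :=
    ⟨⟨hwv, show D (ω w) - 1 < D (ω w) by omega⟩, hla, fun h => by
      exact absurd (show m = 0 from h) (by omega)⟩
  have c1 := conn_vertex hv hwv' hwN' hp rfl
  have c2 := conn_vertex hv hwv hwN hq rfl
  refine symm' hv (base_mem hD hwv') hwN' ?_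
  refine Relation.ReflTransGen.trans c1 ?_
  refine Relation.ReflTransGen.trans (Relation.ReflTransGen.single
    ⟨Or.inr hlink.symm, not_SN hwN⟩) ?_
  exact symm' hv (base_mem hD hwv) hwN c2

lemma vd_pred {u : List ℕ} {i j : ℕ} (hi : Vd D ω (i :: u)) (hij : i ≤ j)
    (hj : Vd D ω ((j + 1) :: u)) : Vd D ω (j :: u) :=
  ⟨hj.1, lt_trans (Nat.lt_succ_self j) hj.2.1, fun h => le_trans (hi.2.2 h) hij⟩

/-- the part of the tree over `u` outside the ball is connected -/
lemma main (hD : ∀ k, 3 ≤ D k) (hG : (tree D ω).Good) (hv : (tree D ω).arc.Valid) {N m : ℕ}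
    (hm : 1 ≤ m) (hmN : ∀ w, Vd D ω w → w.length ≤ N → ω w < m) (k : ℕ) :
    ∀ u : List ℕ, u.length + k = N + 1 → ∀ w₁ w₂ : List ℕ, u <:+ w₁ → u <:+ w₂ →
      Vd D ω w₁ → Vd D ω w₂ → N < w₁.length → N < w₂.length →
      (tree D ω).arc.Conn (SN D ω N) (base w₁) (base w₂) := by
  induction k with
  | zero =>
    intro u hu w₁ w₂ h1 h2 hv1 hv2 hN1 hN2
    obtain ⟨t₁, rfl⟩ := h1
    obtain ⟨t₂, rfl⟩ := h2
    have c1 := conn_anc hD hv (N := N) (by omega) t₁ hv1
    have c2 := conn_anc hD hv (N := N) (by omega) t₂ hv2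
    exact Relation.ReflTransGen.trans c1 (symm' hv (base_mem hD hv2) hN2 c2)
  | succ k ih =>
    intro u hu
    -- children
    have hle : ∀ i j, i ≤ j → Vd D ω (i :: u) → ∀ w₁ w₂ : List ℕ, (i :: u) <:+ w₁ →
        (j :: u) <:+ w₂ → Vd D ω w₁ → Vd D ω w₂ → N < w₁.length → N < w₂.length →
        (tree D ω).arc.Conn (SN D ω N) (base w₁) (base w₂) := by
      intro i j hij hvi
      induction j, hij using Nat.le_induction with
      | base =>
        exact ih (i :: u) (by simp only [List.length_cons]; omega)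
      | succ j hij ihj =>
        intro w₁ w₂ h1 h2 hv1 hv2 hN1 hN2
        have hvj1 : Vd D ω ((j + 1) :: u) := vd_suffix h2 hv2
        have hvj : Vd D ω (j :: u) := vd_pred hvi hij hvj1
        obtain ⟨w, w', hw, hw', hwv, hwv', hwN, hwN', hc⟩ :=
          link hD hG hv hm hmN (by omega) (fun h => hvj.2.2 h) hvj hvj1
        have c1 := ihj w₁ w h1 hw hv1 hwv hN1 hwN
        have c2 := ih ((j + 1) :: u) (by simp only [List.length_cons]; omega) w' w₂ hw' h2 hwv'
          hv2 hwN' hN2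
        exact Relation.ReflTransGen.trans c1 (Relation.ReflTransGen.trans hc c2)
    intro w₁ w₂ h1 h2 hv1 hv2 hN1 hN2
    obtain ⟨i, hi⟩ := child_of h1 (by rintro rfl; omega)
    obtain ⟨j, hj⟩ := child_of h2 (by rintro rfl; omega)
    rcases le_total i j with hij | hij
    · exact hle i j hij (vd_suffix hi hv1) w₁ w₂ hi hj hv1 hv2 hN1 hN2
    · exact symm' hv (base_mem hD hv2) hN2
        (hle j i hij (vd_suffix hj hv2) w₂ w₁ hj hi hv2 hv1 hN2 hN1)

lemma words_finite (N : ℕ) : {w : List ℕ | Vd D ω w ∧ w.length ≤ N}.Finite := by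
  induction N with
  | zero =>
    refine (Set.finite_singleton ([] : List ℕ)).subset ?_
    rintro w ⟨_, hw⟩
    exact List.length_eq_zero_iff.mp (by omega)
  | succ N ih =>
    refine ((Set.finite_singleton ([] : List ℕ)).union
      (ih.biUnion (fun w _ => (Set.finite_Iio (D (ω w))).image (fun i => i :: w)))).subset ?_
    rintro w ⟨hw, hl⟩
    cases w with
    | nil => exact Or.inl rfl
    | cons i w =>
      right
      simp only [Set.mem_iUnion]
      exact ⟨w, ⟨hw.1, by simp only [List.length_cons] at hl; omega⟩, i, hw.2.1, rfl⟩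

lemma SN_finite (N : ℕ) : (SN D ω N).Finite := by
  refine ((words_finite (D := D) (ω := ω) N).biUnion (fun w _ =>
    ((Set.finite_Iio (D (ω w))).prod ((Set.finite_Iic (ω w)).prod
      (Set.finite_univ : (Set.univ : Set Bool).Finite))).image
      (fun q : ℕ × ℕ × Bool => (((w, q.1), q.2) : (List ℕ × ℕ) × ℕ × Bool)))).subset ?_
  rintro ⟨⟨w, i⟩, m, b⟩ ⟨hp, hl⟩
  simp only [Set.mem_iUnion]
  exact ⟨w, ⟨hp.1.1, hl⟩, (i, m, b), ⟨hp.1.2, hp.2.1, Set.mem_univ _⟩, rfl⟩

lemma vd_ones (hD : ∀ k, 3 ≤ D k) (n : ℕ) : Vd D ω (List.replicate n 1) := by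
  induction n with
  | zero => exact trivial
  | succ n ih =>
    rw [List.replicate_succ]
    refine ⟨ih, ?_, fun _ => le_rfl⟩
    have := hD (ω (List.replicate n 1))
    omega

/-- all darts outside the ball are connected -/
lemma all_conn (hD : ∀ k, 3 ≤ D k) (hG : (tree D ω).Good) (hv : (tree D ω).arc.Valid) (N : ℕ)
    {p q : (List ℕ × ℕ) × ℕ × Bool} (hp : p ∈ (tree D ω).arc.D) (hq : q ∈ (tree D ω).arc.D)
    (hpN : N < p.1.1.length) (hqN : N < q.1.1.length) :
    (tree D ω).arc.Conn (SN D ω N) p q := by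
  obtain ⟨B, hB⟩ := ((words_finite (D := D) (ω := ω) N).image ω).bddAbove
  have hmN : ∀ w, Vd D ω w → w.length ≤ N → ω w < B + 1 := fun w hw hl =>
    Nat.lt_succ_of_le (hB ⟨w, ⟨hw, hl⟩, rfl⟩)
  have hm := main hD hG hv (by omega) hmN (N + 1) [] (by simp) p.1.1 q.1.1 List.nil_suffix
    List.nil_suffix hp.1.1 hq.1.1 hpN hqN
  have c1 := symm' hv (base_mem hD hp.1.1) hpN (conn_vertex hv hp.1.1 hpN hp rfl)
  have c2 := conn_vertex hv hq.1.1 hqN hq rfl
  exact Relation.ReflTransGen.trans c1 (Relation.ReflTransGen.trans hm c2)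

end tree

end OneEnd

open OneEnd in
theorem arc_oneended : StmArcValid → StmTree → StmOneEnded := by
  intro hAV _ D ω hD hG S hSf hSD hSs
  have hv : (tree D ω).arc.Valid := hAV _ _ hG
  obtain ⟨N, hN⟩ := (hSf.image (fun p => p.1.1.length)).bddAbove
  have hSN : S ⊆ SN D ω N := fun p hp => ⟨hSD hp, hN ⟨p, hp, rfl⟩⟩
  have hb : ∀ n, N < n → N < (base (List.replicate n 1)).1.1.length := by
    intro n hn
    simpa using hn
  have hall : ∀ p q, p ∈ (tree D ω).arc.D → q ∈ (tree D ω).arc.D → N < p.1.1.length →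
      N < q.1.1.length → (tree D ω).arc.Conn S p q := fun p q hp hq h1 h2 =>
    conn_mono hSN (all_conn hD hG hv N hp hq h1 h2)
  have hdS : base (List.replicate (N + 1) 1) ∉ S := fun h =>
    not_SN (hb (N + 1) (by omega)) (hSN h)
  refine ⟨base (List.replicate (N + 1) 1), base_mem hD (vd_ones hD _), hdS, ?_, ?_⟩
  · refine Set.infinite_of_injective_forall_mem
      (f := fun n : ℕ => base (List.replicate (N + 1 + n) 1)) ?_ ?_
    · intro a b hab
      have h1 : List.replicate (N + 1 + a) 1 = List.replicate (N + 1 + b) 1 :=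
        congrArg (fun p => p.1.1) hab
      have h2 := congrArg List.length h1
      simp only [List.length_replicate] at h2
      omega
    · intro n
      exact hall _ _ (base_mem hD (vd_ones hD _)) (base_mem hD (vd_ones hD _))
        (hb _ (by omega)) (hb _ (by omega))
  · intro d' hd' hd'S hinf
    obtain ⟨d'', hc, hn⟩ := hinf.exists_notMem_finite (SN_finite (D := D) (ω := ω) N)
    have hd'' : d'' ∈ (tree D ω).arc.D := conn_mem hv hd' hc
    have hl : N < d''.1.1.length := by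
      by_contra h
      exact hn ⟨hd'', by omega⟩
    exact Relation.ReflTransGen.trans
      (hall _ _ (base_mem hD (vd_ones hD _)) hd'' (hb _ (by omega)) hl)
      (conn_symm hv hSs hd' hd'S hc)

end Pool.Agent.N276.MB
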