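import Pool.Agent.N276.MB.Stm

/-!
# The way along a half-line
-/

set_option autoImplicit false

open MeasureTheory Set Filter Topology
open scoped ENNReal Classical

namespace Pool.Agent.N276.MB

namespace Path

/-! ### Green's function depends only on the initial vertex -/

lemma shift_sum {V : Type} (s : V → V) (x : V) (p : ℕ) (hp : 0 < p) (hx : s^[p] x = x)
    (g : V → ℝ≥0∞) :
    ∑ i ∈ Finset.range p, g (s^[i] (s x)) = ∑ i ∈ Finset.range p, g (s^[i] x) := by
  obtain ⟨q, rfl⟩ : ∃ q, p = q + 1 := ⟨p - 1, by omega⟩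
  rw [Finset.sum_range_succ, Finset.sum_range_succ']
  congr 1
  rw [← Function.iterate_succ_apply, hx]
  rfl

lemma per_point {V : Type} (M : CMap V) (hM : M.Valid) (x : V) (hx : x ∈ M.D) :
    x ∈ Function.periodicPts M.s := by
  obtain ⟨n, hn, h⟩ := hM.per x hx
  exact ⟨n, hn, h⟩

lemma deg_s {V : Type} (M : CMap V) (hM : M.Valid) (x : V) (hx : x ∈ M.D) :
    M.deg (M.s x) = M.deg x :=
  Function.minimalPeriod_apply (per_point M hM x hx)

lemma avg_s {V : Type} (M : CMap V) (hM : M.Valid) (x : V) (hx : x ∈ M.D) (g : V → ℝ≥0∞) :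
    M.avg g (M.s x) = M.avg g x := by
  unfold CMap.avg
  rw [deg_s M hM x hx]
  congr 1
  apply shift_sum
  · exact Function.minimalPeriod_pos_of_mem_periodicPts (per_point M hM x hx)
  · exact Function.iterate_minimalPeriod

lemma sameV_s {V : Type} (M : CMap V) (hM : M.Valid) (x : V) (hx : x ∈ M.D) (y : V) :
    M.SameV y (M.s x) ↔ M.SameV y x := by
  constructor
  · rintro ⟨n, hn⟩
    obtain ⟨p, hp, hpx⟩ := hM.per x hx
    refine ⟨(p - 1) + n, ?_⟩
    rw [Function.iterate_add_apply, hn, ← Function.iterate_succ_apply]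
    have : (p - 1).succ = p := by omega
    rw [this, hpx]
  · rintro ⟨n, hn⟩
    refine ⟨n + 1, ?_⟩
    rw [Function.iterate_succ_apply', hn]

lemma green_s {V : Type} (M : CMap V) (hM : M.Valid) (x : V) (hx : x ∈ M.D) (y : V) :
    M.green (M.s x) y = M.green x y := by
  unfold CMap.green
  congr 1
  funext n
  cases n with
  | zero =>
    simp only [Function.iterate_zero, id]
    simp only [sameV_s M hM x hx y]
  | succ n =>
    rw [Function.iterate_succ_apply']
    unfold CMap.P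
    exact avg_s M hM x hx _

lemma green_same {V : Type} (M : CMap V) (hM : M.Valid) (x : V) (hx : x ∈ M.D) (x' y : V)
    (h : M.SameV x x') : M.green x' y = M.green x y := by
  obtain ⟨n, rfl⟩ := h
  suffices H : M.s^[n] x ∈ M.D ∧ M.green (M.s^[n] x) y = M.green x y from H.2
  induction n with
  | zero => exact ⟨hx, rfl⟩
  | succ n ih =>
    rw [Function.iterate_succ_apply']
    exact ⟨hM.s_mem _ ih.1, (green_s M hM _ ih.1 y).trans ih.2⟩

section

variable (D : ℕ → ℕ) (ω : List ℕ → ℕ)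

lemma sameV_arc (hAV : StmArcVertex) (hT : StmTree) (hD : ∀ k, 3 ≤ D k) (hG : (tree D ω).Good)
    (p q : (List ℕ × ℕ) × ℕ × Bool) (hp : p ∈ (tree D ω).arc.D) (hq : q ∈ (tree D ω).arc.D)
    (h : p.1.1 = q.1.1) : (tree D ω).arc.SameV p q := by
  have h1 := (hAV _ (tree D ω) hG p hp).2.1 q
  rw [h1]
  refine ⟨hq, ?_⟩
  have hpD : p.1 ∈ (tree D ω).D := hp.1
  have hqD : q.1 ∈ (tree D ω).D := hq.1
  rw [(hT D ω hD).2.2.2.2.2.1 p.1 hpD]
  refine ⟨h.symm, ?_⟩
  rw [h]
  exact hqD.2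

lemma green_word (hV : StmArcValid) (hAV : StmArcVertex) (hT : StmTree) (hD : ∀ k, 3 ≤ D k)
    (hG : (tree D ω).Good)
    (p q : (List ℕ × ℕ) × ℕ × Bool) (hp : p ∈ (tree D ω).arc.D) (hq : q ∈ (tree D ω).arc.D)
    (h : p.1.1 = q.1.1) (y : (List ℕ × ℕ) × ℕ × Bool) :
    (tree D ω).arc.green q y = (tree D ω).arc.green p y :=
  green_same _ (hV _ _ hG) p hp q y (sameV_arc D ω hAV hT hD hG p q hp hq h)

lemma mem_base (c : List ℕ × ℕ) (hc : c ∈ (tree D ω).D) :
    (c, 0, true) ∈ (tree D ω).arc.D := ⟨hc, Nat.zero_le _, fun _ => rfl⟩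

/-- one step of the walk, in terms of the words -/
lemma step (hV : StmArcValid) (hAV : StmArcVertex) (hT : StmTree) (hS : StmStep)
    (hD : ∀ k, 3 ≤ D k) (hG : (tree D ω).Good)
    (c c' : List ℕ × ℕ) (hc : c ∈ (tree D ω).D) (hc' : c' ∈ (tree D ω).D)
    (d : (List ℕ × ℕ) × ℕ × Bool) (hd : d ∈ (tree D ω).arc.D) (h1 : c.1 = d.1.1)
    (h2 : ((tree D ω).arc.a d).1.1 = c'.1) (y : (List ℕ × ℕ) × ℕ × Bool)
    (hy : y ∈ (tree D ω).arc.D) :
    (tree D ω).arc.green (c', 0, true) y ≤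
      (((2 * ω c.1 + 1) * D (ω c.1) : ℕ) : ℝ≥0∞) * (tree D ω).arc.green (c, 0, true) y := by
  have hval := hV _ _ hG
  have hcm := mem_base D ω c hc
  have hcm' := mem_base D ω c' hc'
  have h3 := sameV_arc D ω hAV hT hD hG (c, 0, true) d hcm hd h1
  have h4 := hS _ _ hval (c, 0, true) hcm y hy d h3
  have h5 := green_word D ω hV hAV hT hD hG ((tree D ω).arc.a d) (c', 0, true)
    (hval.a_mem d hd) hcm' h2 y
  rw [h5]
  refine h4.trans ?_
  apply le_of_eq
  congr 1
  have h6 := (hAV _ (tree D ω) hG (c, 0, true) hcm).1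
  rw [h6]
  have h7 := (hT D ω hD).2.2.2.2.1 c hc
  simp only
  rw [h7]
  rfl

lemma tau_mem (hG : (tree D ω).Good) (c : List ℕ × ℕ) (hc : c ∈ (tree D ω).D) :
    (tree D ω).tau c ∈ (tree D ω).D := hG.si_mem _ (hG.valid.a_mem _ hc)

lemma tau'_mem (hG : (tree D ω).Good) (c : List ℕ × ℕ) (hc : c ∈ (tree D ω).D) :
    (tree D ω).tau' c ∈ (tree D ω).D := hG.valid.a_mem _ (hG.valid.s_mem _ hc)

lemma iter_mem (f : List ℕ × ℕ → List ℕ × ℕ) (hf : ∀ c ∈ (tree D ω).D, f c ∈ (tree D ω).D)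
    (c : List ℕ × ℕ) (hc : c ∈ (tree D ω).D) (n : ℕ) : f^[n] c ∈ (tree D ω).D := by
  induction n with
  | zero => exact hc
  | succ n ih => rw [Function.iterate_succ_apply']; exact hf _ ih

/-- the property of a direction `f` along a face used in the proof -/
def Dir (f : List ℕ × ℕ → List ℕ × ℕ) : Prop :=
  (∀ c ∈ (tree D ω).D, f c ∈ (tree D ω).D) ∧
  ∀ c ∈ (tree D ω).D, ∀ y ∈ (tree D ω).arc.D,
    (tree D ω).arc.green (f^[sInf {n | 1 ≤ n ∧ ω c.1 ≤ ω (f^[n] c).1}] c, 0, true) y ≤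
      (((2 * ω c.1 + 1) * D (ω c.1) : ℕ) : ℝ≥0∞) * (tree D ω).arc.green (c, 0, true) y

lemma sInf_one (P : ℕ → Prop) (hP : ∀ n, P n) : sInf {n | 1 ≤ n ∧ P n} = 1 := by
  have : {n | 1 ≤ n ∧ P n} = Set.Ici 1 := by
    ext n
    simp [hP n]
  rw [this]
  exact csInf_Ici

lemma dir_tau (hV : StmArcValid) (hAV : StmArcVertex) (hT : StmTree) (hS : StmStep)
    (hD : ∀ k, 3 ≤ D k) (hG : (tree D ω).Good) : Dir D ω (tree D ω).tau := by
  refine ⟨tau_mem D ω hG, ?_⟩
  intro c hc y hy
  have hm := iter_mem D ω (tree D ω).tau (tau_mem D ω hG) c hc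
  by_cases h0 : ω c.1 = 0
  · have h1 : sInf {n | 1 ≤ n ∧ ω c.1 ≤ ω ((tree D ω).tau^[n] c).1} = 1 :=
      sInf_one _ (fun n => by rw [h0]; exact Nat.zero_le _)
    rw [h1]
    refine step D ω hV hAV hT hS hD hG c _ hc (hm 1) (c, 0, true) (mem_base D ω c hc) rfl ?_ y hy
    rfl
  · refine step D ω hV hAV hT hS hD hG c _ hc (hm _) (c, ω c.1, true) ?_ rfl ?_ y hy
    · exact ⟨hc, le_refl _, fun _ => rfl⟩
    · have : (tree D ω).arc.a (c, ω c.1, true) =
          ((tree D ω).tau^[(tree D ω).nx (ω c.1) c] c, ω c.1, false) := by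
        simp only [LMap.arc]
        rw [if_neg h0]
        simp
      rw [this]
      rfl

lemma dir_tau' (hV : StmArcValid) (hAV : StmArcVertex) (hT : StmTree) (hS : StmStep)
    (hD : ∀ k, 3 ≤ D k) (hG : (tree D ω).Good) : Dir D ω (tree D ω).tau' := by
  refine ⟨tau'_mem D ω hG, ?_⟩
  intro c hc y hy
  have hm := iter_mem D ω (tree D ω).tau' (tau'_mem D ω hG) c hc
  by_cases h0 : ω c.1 = 0
  · have h1 : sInf {n | 1 ≤ n ∧ ω c.1 ≤ ω ((tree D ω).tau'^[n] c).1} = 1 :=
      sInf_one _ (fun n => by rw [h0]; exact Nat.zero_le _)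
    rw [h1]
    refine step D ω hV hAV hT hS hD hG c _ hc (hm 1) ((tree D ω).s c, 0, true)
      (mem_base D ω _ (hG.valid.s_mem _ hc)) rfl ?_ y hy
    rfl
  · refine step D ω hV hAV hT hS hD hG c _ hc (hm _) (c, ω c.1, false) ?_ rfl ?_ y hy
    · exact ⟨hc, le_refl _, fun h => absurd h h0⟩
    · have : (tree D ω).arc.a (c, ω c.1, false) =
          ((tree D ω).tau'^[(tree D ω).pv (ω c.1) c] c, ω c.1, true) := by
        simp only [LMap.arc]
        rw [if_neg h0]
        simp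
      rw [this]
      rfl

/-- the way along a half-line with direction `f` -/
lemma climb (f : List ℕ × ℕ → List ℕ × ℕ) (hf : Dir D ω f) (hD : ∀ k, 3 ≤ D k)
    (x : List ℕ × ℕ) (hx : x ∈ (tree D ω).D) (m j1 : ℕ)
    (hj1 : m + 1 ≤ ω (f^[j1] x).1) (hmin : ∀ j < j1, ω (f^[j] x).1 < m + 1)
    (y : (List ℕ × ℕ) × ℕ × Bool) (hy : y ∈ (tree D ω).arc.D) :
    ∀ k j : ℕ, j1 - j = k → j ≤ j1 → m ≤ ω (f^[j] x).1 →
      (tree D ω).arc.green (f^[j1] x, 0, true) y ≤
        ((((2 * m + 1) * D m) ^ k : ℕ) : ℝ≥0∞) * (tree D ω).arc.green (f^[j] x, 0, true) y := by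
  have hK : 1 ≤ (2 * m + 1) * D m := by
    have := hD m
    nlinarith
  intro k
  induction k using Nat.strong_induction_on with
  | _ k ih =>
    intro j hk hj hm
    by_cases hjj : j = j1
    · subst hjj
      have : k = 0 := by omega
      subst this
      simp
    · have hlt : j < j1 := by omega
      have heq : ω (f^[j] x).1 = m := by
        have := hmin j hlt
        omega
      have hcm := iter_mem D ω f hf.1 x hx j
      have hst := hf.2 (f^[j] x) hcm y hy
      set S : Set ℕ := {n | 1 ≤ n ∧ ω (f^[j] x).1 ≤ ω (f^[n] (f^[j] x)).1} with hSdef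
      have hin : j1 - j ∈ S := by
        refine ⟨by omega, ?_⟩
        rw [← Function.iterate_add_apply, show j1 - j + j = j1 by omega, heq]
        omega
      have hmem : sInf S ∈ S := Nat.sInf_mem ⟨_, hin⟩
      have hle : sInf S ≤ j1 - j := Nat.sInf_le hin
      set N := sInf S with hN
      obtain ⟨hN1, hN2⟩ := hmem
      rw [← Function.iterate_add_apply, heq] at hN2
      have hrec := ih (j1 - (N + j)) (by omega) (N + j) rfl (by omega) hN2
      rw [← Function.iterate_add_apply, heq] at hst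
      refine hrec.trans ?_
      refine (mul_le_mul_right hst _).trans ?_
      rw [← mul_assoc, ← Nat.cast_mul]
      refine mul_le_mul_left ?_ _
      apply Nat.cast_le.mpr
      rw [← pow_succ]
      exact Nat.pow_le_pow_right hK (by omega)

/-- a half-line is an orbit of a direction -/
lemma half_dir (hV : StmArcValid) (hAV : StmArcVertex) (hT : StmTree) (hS : StmStep)
    (hD : ∀ k, 3 ≤ D k) (hG : (tree D ω).Good) (a : Fin 4) :
    ∃ f, Dir D ω f ∧ half D ω a 0 ∈ (tree D ω).D ∧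
      ∀ j, half D ω a j = f^[j] (half D ω a 0) := by
  have hrt : rt ∈ (tree D ω).D := by
    refine ⟨trivial, ?_⟩
    have := hD (ω [])
    show 0 < D (ω [])
    omega
  have h1 := dir_tau D ω hV hAV hT hS hD hG
  have h2 := dir_tau' D ω hV hAV hT hS hD hG
  fin_cases a
  · exact ⟨_, h2, hrt, fun j => rfl⟩
  · exact ⟨_, h1, tau_mem D ω hG _ hrt, fun j => Function.iterate_succ_apply _ _ _⟩
  · exact ⟨_, h1, hG.si_mem _ hrt, fun j => rfl⟩
  · exact ⟨_, h2, tau'_mem D ω hG _ (hG.si_mem _ hrt), fun j => Function.iterate_succ_apply _ _ _⟩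

end

end Path

open Pool.Agent.N276.MB.Path in
theorem path : StmArcValid → StmArcVertex → StmTree → StmStep → StmPath := by
  intro hV hAV hT hS D n ω hD hG hE a m y hy
  obtain ⟨f, hf, h0, hhalf⟩ := half_dir D ω hV hAV hT hS hD hG a
  have hval := hV _ _ hG
  have hrt : rt ∈ (tree D ω).D := by
    refine ⟨trivial, ?_⟩
    have := hD (ω [])
    show 0 < D (ω [])
    omega
  have hroot : root ∈ (tree D ω).arc.D := mem_base D ω rt hrt
  induction m with
  | zero =>
    have hz : fst D ω a 0 = half D ω a 0 := by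
      unfold fst
      have : {j | 0 ≤ ω (half D ω a j).1} = Set.univ := by
        ext j; simp
      rw [this]
      congr 1
      exact Nat.sInf_eq_zero.mpr (Or.inl (Set.mem_univ 0))
    rw [hz]
    simp only [Finset.range_zero, Finset.prod_empty, Nat.cast_one, one_mul]
    apply le_of_eq
    by_cases ha : a = 0 ∨ a = 2
    · rw [if_pos ha]
      refine green_word D ω hV hAV hT hD hG root _ hroot (mem_base D ω _ h0) ?_ y
      rcases ha with rfl | rfl
      · rfl
      · rfl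
    · rw [if_neg ha]
      refine green_word D ω hV hAV hT hD hG ((tree D ω).arc.a root) _ (hval.a_mem _ hroot)
        (mem_base D ω _ h0) ?_ y
      fin_cases a
      · simp at ha
      · rfl
      · simp at ha
      · show ([0] : List ℕ) = ((tree D ω).tau' ((tree D ω).si rt)).1
        unfold LMap.tau'
        rw [hG.s_si _ hrt]
        rfl
  | succ m ih =>
    set S0 : Set ℕ := {j | m ≤ ω (half D ω a j).1} with hS0
    set S1 : Set ℕ := {j | m + 1 ≤ ω (half D ω a j).1} with hS1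
    obtain ⟨j, hj, hje⟩ := hE a m
    have hj1 : j ∈ S1 := hje
    have hmem1 : sInf S1 ∈ S1 := Nat.sInf_mem ⟨_, hj1⟩
    have hle1 : sInf S1 ≤ j := Nat.sInf_le hj1
    have hmem01 : sInf S1 ∈ S0 := le_trans (Nat.le_succ m) hmem1
    have hle01 : sInf S0 ≤ sInf S1 := Nat.sInf_le hmem01
    have hmem0 : sInf S0 ∈ S0 := Nat.sInf_mem ⟨_, hmem01⟩
    have hmin : ∀ i < sInf S1, ω (f^[i] (half D ω a 0)).1 < m + 1 := by
      intro i hi
      rw [← hhalf i]
      by_contra hcon
      have : i ∈ S1 := by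
        show m + 1 ≤ ω (half D ω a i).1
        omega
      exact absurd (Nat.sInf_le this) (by omega)
    have e1 : m + 1 ≤ ω (f^[sInf S1] (half D ω a 0)).1 := by
      rw [← hhalf]; exact hmem1
    have e0 : m ≤ ω (f^[sInf S0] (half D ω a 0)).1 := by
      rw [← hhalf]; exact hmem0
    have hcl := climb D ω f hf hD (half D ω a 0) h0 m (sInf S1) e1 hmin y hy
      (sInf S1 - sInf S0) (sInf S0) rfl hle01 e0
    rw [← hhalf, ← hhalf] at hcl
    have f1 : fst D ω a (m + 1) = half D ω a (sInf S1) := rfl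
    have f0 : fst D ω a m = half D ω a (sInf S0) := rfl
    rw [f1]
    rw [f0] at ih
    refine hcl.trans ?_
    refine (mul_le_mul_right ih _).trans ?_
    rw [← mul_assoc, ← Nat.cast_mul]
    refine mul_le_mul_left ?_ _
    apply Nat.cast_le.mpr
    rw [Finset.prod_range_succ, mul_comm]
    refine Nat.mul_le_mul_left _ ?_
    refine Nat.pow_le_pow_right ?_ (by omega)
    have := hD m
    nlinarith

end Pool.Agent.N276.MB
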