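import Pool.Agent.N276.MB.Stm

/-!
# The map with arcs is a plane map
-/

set_option autoImplicit false

namespace Pool.Agent.N276.MB

namespace Plane

open Relation

lemma conn_s {V : Type} (M : CMap V) (x : V) : M.Conn ∅ x (M.s x) :=
  ReflTransGen.single ⟨Or.inl rfl, Set.notMem_empty _⟩

lemma conn_a {V : Type} (M : CMap V) (x : V) : M.Conn ∅ x (M.a x) :=
  ReflTransGen.single ⟨Or.inr rfl, Set.notMem_empty _⟩

lemma conn_trans {V : Type} {M : CMap V} {x y z : V} (h : M.Conn ∅ x y) (h' : M.Conn ∅ y z) :
    M.Conn ∅ x z := ReflTransGen.trans h h'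

lemma conn_iter {V : Type} (M : CMap V) (x : V) (n : ℕ) : M.Conn ∅ x (M.s^[n] x) := by
  induction n with
  | zero => exact ReflTransGen.refl
  | succ n ih =>
    rw [Function.iterate_succ_apply']
    exact conn_trans ih (conn_s M _)

/-- symmetry -/
lemma conn_symm {V : Type} {M : CMap V} (hM : M.Valid) {x y : V} (hx : x ∈ M.D)
    (h : M.Conn ∅ x y) : y ∈ M.D ∧ M.Conn ∅ y x := by
  induction h with
  | refl => exact ⟨hx, ReflTransGen.refl⟩
  | @tail y z _ hz ih =>
    obtain ⟨hy, hyx⟩ := ih
    rcases hz.1 with rfl | rfl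
    · refine ⟨hM.s_mem _ hy, conn_trans ?_ hyx⟩
      obtain ⟨n, hn, he⟩ := hM.per _ hy
      have h1 := conn_iter M (M.s y) (n - 1)
      have h2 : M.s^[n - 1] (M.s y) = y := by
        rw [← Function.iterate_succ_apply, Nat.succ_eq_add_one, Nat.sub_add_cancel hn, he]
      rwa [h2] at h1
    · refine ⟨hM.a_mem _ hy, conn_trans ?_ hyx⟩
      have h1 := conn_a M (M.a y)
      rwa [hM.a_a _ hy] at h1

section slots

variable {X : Type} (L : LMap X)

lemma slot_true (x : X) (m : ℕ) (hm : m ≤ L.l x) : L.arc.Conn ∅ (x, 0, true) (x, m, true) := by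
  induction m with
  | zero => exact ReflTransGen.refl
  | succ m ih =>
    refine conn_trans (ih (by omega)) ?_
    have h1 := conn_s L.arc (x, m, true)
    have h2 : L.arc.s (x, m, true) = (x, m + 1, true) := by
      change (if (true : Bool) = true then (if m < L.l x then (x, m + 1, true)
        else if m = 0 then (L.s x, 0, true) else (x, m, false))
        else (if m ≤ 1 then (L.s x, 0, true) else (x, m - 1, false))) = _
      rw [if_pos rfl, if_pos (by omega)]
    rwa [h2] at h1

lemma slot_false (x : X) (i : ℕ) : ∀ m, 1 ≤ m → m + i = L.l x →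
    L.arc.Conn ∅ (x, 0, true) (x, m, false) := by
  induction i with
  | zero =>
    intro m hm hmi
    refine conn_trans (slot_true L x m (by omega)) ?_
    have h1 := conn_s L.arc (x, m, true)
    have h2 : L.arc.s (x, m, true) = (x, m, false) := by
      change (if (true : Bool) = true then (if m < L.l x then (x, m + 1, true)
        else if m = 0 then (L.s x, 0, true) else (x, m, false))
        else (if m ≤ 1 then (L.s x, 0, true) else (x, m - 1, false))) = _
      rw [if_pos rfl, if_neg (by omega), if_neg (by omega)]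
    rwa [h2] at h1
  | succ i ih =>
    intro m hm hmi
    refine conn_trans (ih (m + 1) (by omega) (by omega)) ?_
    have h1 := conn_s L.arc (x, m + 1, false)
    have h2 : L.arc.s (x, m + 1, false) = (x, m, false) := by
      change (if (false : Bool) = true then (if m + 1 < L.l x then (x, m + 1 + 1, true)
        else if m + 1 = 0 then (L.s x, 0, true) else (x, m + 1, false))
        else (if m + 1 ≤ 1 then (L.s x, 0, true) else (x, m + 1 - 1, false))) = _
      rw [if_neg (by simp), if_neg (by omega)]
      rfl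
    rwa [h2] at h1

lemma slot_next (x : X) : L.arc.Conn ∅ (x, 0, true) (L.s x, 0, true) := by
  rcases Nat.eq_zero_or_pos (L.l x) with h0 | h0
  · have h1 := conn_s L.arc (x, 0, true)
    have h2 : L.arc.s (x, 0, true) = (L.s x, 0, true) := by
      change (if (true : Bool) = true then (if 0 < L.l x then (x, 0 + 1, true)
        else if 0 = 0 then (L.s x, 0, true) else (x, 0, false))
        else (if 0 ≤ 1 then (L.s x, 0, true) else (x, 0 - 1, false))) = _
      rw [if_pos rfl, if_neg (by omega), if_pos rfl]
    rwa [h2] at h1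
  · refine conn_trans (slot_false L x (L.l x - 1) 1 le_rfl (by omega)) ?_
    have h1 := conn_s L.arc (x, 1, false)
    have h2 : L.arc.s (x, 1, false) = (L.s x, 0, true) := by
      change (if (false : Bool) = true then (if 1 < L.l x then (x, 1 + 1, true)
        else if 1 = 0 then (L.s x, 0, true) else (x, 1, false))
        else (if 1 ≤ 1 then (L.s x, 0, true) else (x, 1 - 1, false))) = _
      rw [if_neg (by simp), if_pos le_rfl]
    rwa [h2] at h1

lemma conn_lift {x y : X} (h : L.toCMap.Conn ∅ x y) :
    L.arc.Conn ∅ (x, 0, true) (y, 0, true) := by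
  induction h with
  | refl => exact ReflTransGen.refl
  | @tail y z _ hz ih =>
    refine conn_trans ih ?_
    rcases hz.1 with rfl | rfl
    · exact slot_next L y
    · have h1 := conn_a L.arc (y, 0, true)
      have h2 : L.arc.a (y, 0, true) = (L.a y, 0, true) := by
        change (if (0 : ℕ) = 0 then (L.a y, 0, true) else if (true : Bool) = true then
          (L.tau^[L.nx 0 y] y, 0, false) else (L.tau'^[L.pv 0 y] y, 0, true)) = _
        rw [if_pos rfl]
      rwa [h2] at h1

end slots

lemma rt_mem (D : ℕ → ℕ) (ω : List ℕ → ℕ) (hD : ∀ k, 3 ≤ D k) : rt ∈ (tree D ω).D := by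
  refine ⟨trivial, ?_⟩
  have := hD (ω [])
  change 0 < D (ω [])
  omega

lemma vd_replicate (D : ℕ → ℕ) (ω : List ℕ → ℕ) (hD : ∀ k, 3 ≤ D k) (n : ℕ) :
    Vd D ω (List.replicate n 1) := by
  induction n with
  | zero => exact trivial
  | succ n ih =>
    rw [List.replicate_succ]
    refine ⟨ih, ?_, fun _ => le_rfl⟩
    have := hD (ω (List.replicate n 1))
    omega

end Plane

open Plane in
/-- **MB/6** -/
theorem arc_plane : StmArcValid → StmArcSimply → StmTree → StmPlane := by
  intro hV hS hT D ω hD hG
  obtain ⟨t1, -, -, -, -, -, t7⟩ := hT D ω hD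
  have hval : (tree D ω).arc.Valid := hV _ _ hG
  have hroot : root ∈ (tree D ω).arc.D :=
    ⟨rt_mem D ω hD, Nat.zero_le _, fun _ => rfl⟩
  have hall : ∀ d ∈ (tree D ω).arc.D, (tree D ω).arc.Conn ∅ root d := by
    rintro ⟨c, m, b⟩ ⟨h1, h2, h3⟩
    have h4 : (tree D ω).arc.Conn ∅ root (c, 0, true) := conn_lift (tree D ω) (t7 c h1)
    refine conn_trans h4 ?_
    cases b with
    | true => exact slot_true (tree D ω) c m h2
    | false =>
      have hm : m ≠ 0 := fun h => absurd (h3 h) (by simp)
      have h2' : m ≤ (tree D ω).l c := h2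
      exact slot_false (tree D ω) c ((tree D ω).l c - m) m (by omega) (by omega)
  refine ⟨⟨hval, ?_, ?_, hS D ω hD hG⟩, hroot⟩
  · refine Set.infinite_of_injective_forall_mem
      (f := fun n : ℕ => ((List.replicate n 1, 0), 0, true)) ?_ ?_
    · intro m n h
      have h1 := congrArg (fun p : (List ℕ × ℕ) × ℕ × Bool => p.1.1.length) h
      simpa using h1
    · intro n
      refine ⟨⟨vd_replicate D ω hD n, ?_⟩, Nat.zero_le _, fun _ => rfl⟩
      have := hD (ω (List.replicate n 1))
      change 0 < D (ω (List.replicate n 1))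
      omega
  · intro d hd d' hd'
    exact conn_trans (conn_symm hval hroot (hall d hd)).2 (hall d' hd')

end Pool.Agent.N276.MB
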