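import Pool.Agent.N276.MB.Stm

/-!
# Moving the root: rotation and reversal of the root dart
-/

set_option autoImplicit false

open MeasureTheory Set Filter Topology
open scoped ENNReal Classical

namespace Pool.Agent.N276.MB

namespace Reroot

variable {D : ℕ → ℕ} {ω : List ℕ → ℕ}

/-! ### isomorphisms -/

theorem liso_id {X : Type} (L : LMap X) : LIso L L id :=
  ⟨Set.bijOn_id _, fun _ _ => rfl, fun _ _ => rfl, fun _ _ => rfl⟩

theorem liso_comp {X : Type} {L L' L'' : LMap X} {e f : X → X} (h : LIso L L' e)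
    (h' : LIso L' L'' f) : LIso L L'' (f ∘ e) := by
  refine ⟨h'.bij.comp h.bij, fun c hc => ?_, fun c hc => ?_, fun c hc => ?_⟩
  · show f (e (L.s c)) = L''.s (f (e c))
    rw [h.s_comm c hc, h'.s_comm _ (h.bij.mapsTo hc)]
  · show f (e (L.a c)) = L''.a (f (e c))
    rw [h.a_comm c hc, h'.a_comm _ (h.bij.mapsTo hc)]
  · show L''.l (f (e c)) = L.l c
    rw [h'.l_comm _ (h.bij.mapsTo hc), h.l_comm c hc]

theorem opp_succ (w : List ℕ) (i : ℕ) : opp (w, i + 1) = ((i + 1) :: w, 0) := by
  cases w with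
  | nil => rfl
  | cons j w => rfl

/-! ### rotation -/

/-- the inverse of `rotW` -/
def unW (n : ℕ) : List ℕ → List ℕ
  | [] => []
  | [i] => [if i < n then (i + (n - 1)) % n else i]
  | i :: j :: w => i :: unW n (j :: w)

theorem mod1 {n i : ℕ} (hi : i < n) : ((i + (n - 1)) % n + 1) % n = i := by
  rw [Nat.mod_add_mod]
  have h : i + (n - 1) + 1 = i + n := by omega
  rw [h, Nat.add_mod_right, Nat.mod_eq_of_lt hi]

theorem mod2 {n i : ℕ} (hi : i < n) : ((i + 1) % n + (n - 1)) % n = i := by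
  rw [Nat.mod_add_mod]
  have h : i + 1 + (n - 1) = i + n := by omega
  rw [h, Nat.add_mod_right, Nat.mod_eq_of_lt hi]

theorem rotW_unW (n : ℕ) : ∀ w : List ℕ, rotW n (unW n w) = w
  | [] => rfl
  | [i] => by
    show rotW n [if i < n then (i + (n - 1)) % n else i] = [i]
    by_cases h : i < n
    · rw [if_pos h]
      show [if (i + (n - 1)) % n < n then ((i + (n - 1)) % n + 1) % n else (i + (n - 1)) % n] = [i]
      rw [if_pos (Nat.mod_lt _ (by omega)), mod1 h]
    · rw [if_neg h]
      show [if i < n then (i + 1) % n else i] = [i]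
      rw [if_neg h]
  | i :: j :: w => by
    have ih := rotW_unW n (j :: w)
    show rotW n (i :: unW n (j :: w)) = i :: j :: w
    cases h : unW n (j :: w) with
    | nil =>
      rw [h] at ih
      exact absurd ih (by simp [rotW])
    | cons x y =>
      show i :: rotW n (x :: y) = i :: j :: w
      rw [← h, ih]

theorem unW_rotW (n : ℕ) : ∀ w : List ℕ, unW n (rotW n w) = w
  | [] => rfl
  | [i] => by
    show unW n [if i < n then (i + 1) % n else i] = [i]
    by_cases h : i < n
    · rw [if_pos h]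
      show [if (i + 1) % n < n then ((i + 1) % n + (n - 1)) % n else (i + 1) % n] = [i]
      rw [if_pos (Nat.mod_lt _ (by omega)), mod2 h]
    · rw [if_neg h]
      show [if i < n then (i + (n - 1)) % n else i] = [i]
      rw [if_neg h]
  | i :: j :: w => by
    have ih := unW_rotW n (j :: w)
    show unW n (i :: rotW n (j :: w)) = i :: j :: w
    cases h : rotW n (j :: w) with
    | nil =>
      rw [h] at ih
      exact absurd ih (by simp [unW])
    | cons x y =>
      show i :: unW n (x :: y) = i :: j :: w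
      rw [← h, ih]

theorem rotW_ne (n j : ℕ) (w : List ℕ) : rotW n (j :: w) ≠ [] := by
  intro h
  have h2 := unW_rotW n (j :: w)
  rw [h] at h2
  exact absurd h2 (by simp [unW])

theorem rotW_cons (n i : ℕ) {w : List ℕ} (hw : w ≠ []) : rotW n (i :: w) = i :: rotW n w := by
  cases w with
  | nil => exact absurd rfl hw
  | cons j w => rfl

theorem vd_rot : ∀ w : List ℕ,
    Vd D (rot D ω) w ↔ Vd D ω (rotW (D (ω [])) w) := by
  intro w
  induction w with
  | nil => exact Iff.rfl
  | cons i w ih =>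
    by_cases hw : w = []
    · subst hw
      show (True ∧ i < D (ω []) ∧ (([] : List ℕ) ≠ [] → 1 ≤ i)) ↔
        (True ∧ (if i < D (ω []) then (i + 1) % D (ω []) else i) < D (ω []) ∧
          (([] : List ℕ) ≠ [] → 1 ≤ (if i < D (ω []) then (i + 1) % D (ω []) else i)))
      by_cases h : i < D (ω [])
      · rw [if_pos h]
        exact ⟨fun _ => ⟨trivial, Nat.mod_lt _ (by omega), fun h => absurd rfl h⟩,
          fun _ => ⟨trivial, h, fun h => absurd rfl h⟩⟩
      · rw [if_neg h]
    · rw [rotW_cons _ _ hw]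
      have h1 : rotW (D (ω [])) w ≠ [] := by
        cases w with
        | nil => exact absurd rfl hw
        | cons j w => exact rotW_ne _ _ _
      show (Vd D (rot D ω) w ∧ i < D (ω (rotW (D (ω [])) w)) ∧ (w ≠ [] → 1 ≤ i)) ↔
        (Vd D ω (rotW (D (ω [])) w) ∧ i < D (ω (rotW (D (ω [])) w)) ∧
          (rotW (D (ω [])) w ≠ [] → 1 ≤ i))
      exact ⟨fun h => ⟨ih.1 h.1, h.2.1, fun _ => h.2.2 hw⟩,
        fun h => ⟨ih.2 h.1, h.2.1, fun _ => h.2.2 h1⟩⟩

theorem rotD_nil (n i : ℕ) : rotD n ([], i) = ([], (i + 1) % n) := by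
  show (rotW n [], if ([] : List ℕ) = [] then (i + 1) % n else i) = ([], (i + 1) % n)
  rw [if_pos rfl]
  rfl

theorem rotD_ne (n i : ℕ) {w : List ℕ} (hw : w ≠ []) : rotD n (w, i) = (rotW n w, i) := by
  show (rotW n w, if w = [] then (i + 1) % n else i) = (rotW n w, i)
  rw [if_neg hw]

theorem rot_nil : rot D ω [] = ω [] := rfl

theorem rot_liso (hD : ∀ k, 3 ≤ D k) :
    LIso (tree D (rot D ω)) (tree D ω) (rotD (D (ω []))) := by
  have hn : 0 < D (ω []) := by have := hD (ω []); omega
  refine ⟨⟨?_, ?_, ?_⟩, ?_, ?_, ?_⟩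
  · rintro ⟨w, i⟩ ⟨h1, h2⟩
    have h1' : Vd D (rot D ω) w := h1
    have h2' : i < D (ω (rotW (D (ω [])) w)) := h2
    by_cases hw : w = []
    · subst hw
      rw [rotD_nil]
      exact ⟨trivial, Nat.mod_lt _ hn⟩
    · rw [rotD_ne _ _ hw]
      exact ⟨(vd_rot w).1 h1', h2'⟩
  · rintro ⟨w, i⟩ ⟨h1, h2⟩ ⟨w', i'⟩ ⟨h1', h2'⟩ he
    have h3 : i < D (ω (rotW (D (ω [])) w)) := h2
    have h3' : i' < D (ω (rotW (D (ω [])) w')) := h2'
    have e1 : rotW (D (ω [])) w = rotW (D (ω [])) w' := congrArg Prod.fst he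
    have e2 : w = w' := by
      have := congrArg (unW (D (ω []))) e1
      rwa [unW_rotW, unW_rotW] at this
    subst e2
    by_cases hw : w = []
    · subst hw
      rw [rotD_nil, rotD_nil] at he
      have e3 : (i + 1) % D (ω []) = (i' + 1) % D (ω []) := congrArg Prod.snd he
      have h4 : i < D (ω []) := h3
      have h4' : i' < D (ω []) := h3'
      have e4 : i = i' := by rw [← mod2 h4, e3, mod2 h4']
      rw [e4]
    · rw [rotD_ne _ _ hw, rotD_ne _ _ hw] at he
      have e3 : i = i' := congrArg Prod.snd he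
      rw [e3]
  · rintro ⟨w, i⟩ ⟨h1, h2⟩
    have h1' : Vd D ω w := h1
    have h2' : i < D (ω w) := h2
    by_cases hw : w = []
    · subst hw
      refine ⟨([], (i + (D (ω []) - 1)) % D (ω [])), ⟨trivial, Nat.mod_lt _ hn⟩, ?_⟩
      rw [rotD_nil, mod1 h2']
    · have hu : unW (D (ω [])) w ≠ [] := by
        intro h
        have h3 := rotW_unW (D (ω [])) w
        rw [h] at h3
        exact hw h3.symm
      refine ⟨(unW (D (ω [])) w, i), ⟨?_, ?_⟩, ?_⟩
      · exact (vd_rot _).2 (by rw [rotW_unW]; exact h1')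
      · show i < D (ω (rotW (D (ω [])) (unW (D (ω [])) w)))
        rw [rotW_unW]
        exact h2'
      · rw [rotD_ne _ _ hu, rotW_unW]
  · rintro ⟨w, i⟩ ⟨h1, h2⟩
    by_cases hw : w = []
    · subst hw
      show rotD (D (ω [])) ([], (i + 1) % D (ω [])) = (tree D ω).s (rotD (D (ω [])) ([], i))
      rw [rotD_nil, rotD_nil]
      rfl
    · show rotD (D (ω [])) (w, (i + 1) % D (ω (rotW (D (ω [])) w))) =
        (tree D ω).s (rotD (D (ω [])) (w, i))
      rw [rotD_ne _ _ hw, rotD_ne _ _ hw]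
      rfl
  · rintro ⟨w, i⟩ ⟨h1, h2⟩
    have h1' : Vd D (rot D ω) w := h1
    have h2' : i < D (ω (rotW (D (ω [])) w)) := h2
    show rotD (D (ω [])) (opp (w, i)) = opp (rotD (D (ω [])) (w, i))
    cases w with
    | nil =>
      have h3 : i < D (ω []) := h2'
      rw [rotD_nil]
      show rotD (D (ω [])) ([i], 0) = ([(i + 1) % D (ω [])], 0)
      rw [rotD_ne _ _ (List.cons_ne_nil _ _)]
      show ([if i < D (ω []) then (i + 1) % D (ω []) else i], 0) = ([(i + 1) % D (ω [])], 0)
      rw [if_pos h3]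
    | cons j w =>
      rw [rotD_ne _ _ (List.cons_ne_nil _ _)]
      cases i with
      | succ i =>
        rw [opp_succ, opp_succ, rotD_ne _ _ (List.cons_ne_nil _ _)]
        rfl
      | zero =>
        show rotD (D (ω [])) (w, j) = opp (rotW (D (ω [])) (j :: w), 0)
        by_cases hw : w = []
        · subst hw
          have h3 : j < D (ω []) := h1'.2.1
          rw [rotD_nil]
          show _ = opp ([if j < D (ω []) then (j + 1) % D (ω []) else j], 0)
          rw [if_pos h3]
          rfl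
        · rw [rotD_ne _ _ hw, rotW_cons _ _ hw]
          rfl
  · rintro c _
    rfl

/-! ### reversal -/

theorem flipW_cons {i : ℕ} {w : List ℕ} (h1 : ¬ (i = 0 ∧ w = [])) (h2 : ¬ (i = 0 ∧ w = [0])) :
    flipW (i :: w) = i :: flipW w := by
  cases i with
  | succ i => rw [flipW] <;> simp
  | zero =>
    cases w with
    | nil => exact absurd ⟨rfl, rfl⟩ h1
    | cons j w =>
      cases j with
      | succ j => rw [flipW] <;> simp
      | zero =>
        cases w with
        | nil => exact absurd ⟨rfl, rfl⟩ h2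
        | cons k w => rw [flipW] <;> simp

theorem flipW_flipW (w : List ℕ) : flipW (flipW w) = w := by
  induction w with
  | nil => rfl
  | cons i w ih =>
    by_cases h1 : i = 0 ∧ w = []
    · obtain ⟨rfl, rfl⟩ := h1
      rfl
    · by_cases h2 : i = 0 ∧ w = [0]
      · obtain ⟨rfl, rfl⟩ := h2
        rfl
      · rw [flipW_cons h1 h2, flipW_cons, ih]
        · rintro ⟨e1, e2⟩
          rw [e2] at ih
          exact h2 ⟨e1, ih.symm⟩
        · rintro ⟨e1, e2⟩
          rw [e2] at ih
          exact h1 ⟨e1, ih.symm⟩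

theorem vd_flip (hD : ∀ k, 3 ≤ D k) (w : List ℕ) : Vd D (flip ω) w ↔ Vd D ω (flipW w) := by
  have hpos : ∀ k, 0 < D k := fun k => by have := hD k; omega
  induction w with
  | nil => exact ⟨fun _ => ⟨trivial, hpos _, fun h => absurd rfl h⟩, fun _ => trivial⟩
  | cons i w ih =>
    by_cases h1 : i = 0 ∧ w = []
    · obtain ⟨rfl, rfl⟩ := h1
      exact ⟨fun _ => trivial, fun _ => ⟨trivial, hpos _, fun h => absurd rfl h⟩⟩
    · by_cases h2 : i = 0 ∧ w = [0]
      · obtain ⟨rfl, rfl⟩ := h2
        constructor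
        · rintro ⟨-, -, h⟩
          exact absurd (h (List.cons_ne_nil _ _)) (by decide)
        · rintro ⟨-, -, h⟩
          exact absurd (h (List.cons_ne_nil _ _)) (by decide)
      · rw [flipW_cons h1 h2]
        show (Vd D (flip ω) w ∧ i < D (ω (flipW w)) ∧ (w ≠ [] → 1 ≤ i)) ↔
          (Vd D ω (flipW w) ∧ i < D (ω (flipW w)) ∧ (flipW w ≠ [] → 1 ≤ i))
        constructor
        · rintro ⟨a, b, c⟩
          refine ⟨ih.1 a, b, fun h => ?_⟩
          by_cases hw : w = []
          · have : i ≠ 0 := fun h0 => h1 ⟨h0, hw⟩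
            omega
          · exact c hw
        · rintro ⟨a, b, c⟩
          refine ⟨ih.2 a, b, fun h => ?_⟩
          by_cases hw : flipW w = []
          · have hw' : w = [0] := by
              rw [← flipW_flipW w, hw]
              rfl
            have : i ≠ 0 := fun h0 => h2 ⟨h0, hw'⟩
            omega
          · exact c hw

theorem flip_liso (hD : ∀ k, 3 ≤ D k) : LIso (tree D (flip ω)) (tree D ω) flipD := by
  refine ⟨⟨?_, ?_, ?_⟩, ?_, ?_, ?_⟩
  · rintro ⟨w, i⟩ ⟨h1, h2⟩
    exact ⟨(vd_flip hD w).1 h1, h2⟩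
  · rintro ⟨w, i⟩ _ ⟨w', i'⟩ _ he
    have e1 : flipW w = flipW w' := congrArg Prod.fst he
    have e2 : i = i' := congrArg Prod.snd he
    have e3 : w = w' := by rw [← flipW_flipW w, e1, flipW_flipW]
    rw [e2, e3]
  · rintro ⟨w, i⟩ ⟨h1, h2⟩
    have h1' : Vd D ω w := h1
    have h2' : i < D (ω w) := h2
    refine ⟨(flipW w, i), ⟨(vd_flip hD _).2 (by rw [flipW_flipW]; exact h1'), ?_⟩, ?_⟩
    · show i < D (ω (flipW (flipW w)))
      rw [flipW_flipW]
      exact h2'
    · show (flipW (flipW w), i) = (w, i)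
      rw [flipW_flipW]
  · rintro ⟨w, i⟩ _
    rfl
  · rintro ⟨w, i⟩ ⟨h1, h2⟩
    have h1' : Vd D (flip ω) w := h1
    show flipD (opp (w, i)) = opp (flipW w, i)
    cases i with
    | succ i =>
      rw [opp_succ, opp_succ]
      show (flipW ((i + 1) :: w), 0) = ((i + 1) :: flipW w, 0)
      rw [flipW_cons (fun h => absurd h.1 (Nat.succ_ne_zero i))
        (fun h => absurd h.1 (Nat.succ_ne_zero i))]
    | zero =>
      cases w with
      | nil => rfl
      | cons j w =>
        show (flipW w, j) = opp (flipW (j :: w), 0)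
        by_cases e1 : j = 0 ∧ w = []
        · obtain ⟨rfl, rfl⟩ := e1
          rfl
        · by_cases e2 : j = 0 ∧ w = [0]
          · obtain ⟨rfl, rfl⟩ := e2
            exact absurd (h1'.2.2 (List.cons_ne_nil _ _)) (by decide)
          · rw [flipW_cons e1 e2]
            rfl
  · rintro c _
    rfl

theorem rt_mem (hD : ∀ k, 3 ≤ D k) : rt ∈ (tree D ω).D := by
  have h : 0 < D (ω []) := by have := hD (ω []); omega
  exact ⟨trivial, h⟩

end Reroot

/-- **Rotation of the root dart.** -/
theorem rot_iso : StmRotIso := fun _ _ hD => ⟨Reroot.rot_liso hD, rfl⟩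

/-- **Reversal of the root dart.** -/
theorem flip_iso : StmFlipIso := fun _ _ hD => ⟨Reroot.flip_liso hD, rfl⟩

/-- **Every corner can be made the root corner.** -/
theorem reroot : StmTree → StmReroot := by
  intro hT D ω hD c hc
  have hconn := (hT D ω hD).2.2.2.2.2.2 c hc
  have key : ∀ x, (tree D ω).Conn ∅ rt x →
      ∃ ω' e, Reach D ω ω' ∧ LIso (tree D ω') (tree D ω) e ∧ e rt = x := by
    intro x hx
    induction hx with
    | refl => exact ⟨ω, id, Relation.ReflTransGen.refl, Reroot.liso_id _, rfl⟩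
    | tail _ hbc ih =>
      obtain ⟨ω', e, h1, h2, h3⟩ := ih
      rcases hbc.1 with h | h
      · obtain ⟨r1, r2⟩ := rot_iso D ω' hD
        refine ⟨rot D ω', e ∘ rotD (D (ω' [])), h1.tail (Or.inl rfl),
          Reroot.liso_comp r1 h2, ?_⟩
        show e (rotD (D (ω' [])) rt) = _
        rw [r2, h2.s_comm _ (Reroot.rt_mem hD), h3, h]
      · obtain ⟨r1, r2⟩ := flip_iso D ω' hD
        refine ⟨flip ω', e ∘ flipD, h1.tail (Or.inr rfl), Reroot.liso_comp r1 h2, ?_⟩
        show e (flipD rt) = _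
        rw [r2, h2.a_comm _ (Reroot.rt_mem hD), h3, h]
  exact key c hconn

end Pool.Agent.N276.MB
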