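import Pool.Agent.N276.MB.ArcIso

/-!
Project MB, part Rev: the random map with arcs is reversible.
-/

set_option autoImplicit false

open MeasureTheory Set Filter Topology
open scoped ENNReal Classical

namespace Pool.Agent.N276.MB

namespace Rev

/-- the hypotheses -/
structure Hy (D : ℕ → ℕ) : Prop where
  hD : ∀ k, 3 ≤ D k
  av : StmArcValid
  avx : StmArcVertex
  ai : StmArcIso
  tr : StmTree
  ri : StmRotIso
  fi : StmFlipIso
  pr : StmPres
  ga : StmGoodAE
  me : StmMeas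

variable {D : ℕ → ℕ}

theorem rt_mem (H : Hy D) (ω : List ℕ → ℕ) : rt ∈ (tree D ω).D := by
  have h := H.hD (ω [])
  refine ⟨trivial, ?_⟩
  show 0 < D (ω [])
  omega

/-- composition of isomorphisms -/
theorem comp {X : Type} {L L' L'' : LMap X} {e e' : X → X} (h : LIso L L' e)
    (h' : LIso L' L'' e') : LIso L L'' (e' ∘ e) where
  bij := h'.bij.comp h.bij
  s_comm c hc := by
    show e' (e (L.s c)) = L''.s (e' (e c))
    rw [h.s_comm c hc, h'.s_comm _ (h.bij.mapsTo hc)]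
  a_comm c hc := by
    show e' (e (L.a c)) = L''.a (e' (e c))
    rw [h.a_comm c hc, h'.a_comm _ (h.bij.mapsTo hc)]
  l_comm c hc := by
    show L''.l (e' (e c)) = L.l c
    rw [h'.l_comm _ (h.bij.mapsTo hc), h.l_comm c hc]

theorem id_iso {X : Type} (L : LMap X) : LIso L L id where
  bij := bijOn_id _
  s_comm _ _ := rfl
  a_comm _ _ := rfl
  l_comm _ _ := rfl

/-- the root corner moved to the previous corner -/
def S (D : ℕ → ℕ) (ω : List ℕ → ℕ) : List ℕ → ℕ := flip (rot D ω)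

theorem rot_iso (H : Hy D) (n : ℕ) (ω : List ℕ → ℕ) :
    ∃ e, LIso (tree D ((rot D)^[n] ω)) (tree D ω) e ∧ e rt = (tree D ω).s^[n] rt := by
  induction n with
  | zero => exact ⟨id, id_iso _, rfl⟩
  | succ n ih =>
    obtain ⟨e, he, he'⟩ := ih
    obtain ⟨h1, h2⟩ := H.ri D ((rot D)^[n] ω) H.hD
    rw [Function.iterate_succ_apply', Function.iterate_succ_apply']
    refine ⟨e ∘ rotD (D (((rot D)^[n] ω) [])), comp h1 he, ?_⟩
    show e (rotD (D (((rot D)^[n] ω) [])) rt) = _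
    rw [h2, he.s_comm _ (rt_mem H _), he']

theorem S_iso (H : Hy D) (n : ℕ) (ω : List ℕ → ℕ) :
    ∃ e, LIso (tree D ((S D)^[n] ω)) (tree D ω) e ∧ e rt = (tree D ω).tau'^[n] rt := by
  induction n with
  | zero => exact ⟨id, id_iso _, rfl⟩
  | succ n ih =>
    obtain ⟨e, he, he'⟩ := ih
    obtain ⟨h1, h2⟩ := H.ri D ((S D)^[n] ω) H.hD
    obtain ⟨h3, h4⟩ := H.fi D (rot D ((S D)^[n] ω)) H.hD
    rw [Function.iterate_succ_apply', Function.iterate_succ_apply']
    refine ⟨e ∘ (rotD (D (((S D)^[n] ω) [])) ∘ flipD), comp (comp h3 h1) he, ?_⟩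
    show e (rotD (D (((S D)^[n] ω) [])) (flipD rt)) = _
    have h5 := rt_mem H ((S D)^[n] ω)
    have h6 : (tree D ((S D)^[n] ω)).Valid := (H.tr D _ H.hD).1
    rw [h4, h1.a_comm _ (rt_mem H _), h2, he.a_comm _ (h6.s_mem _ h5), he.s_comm _ h5, he']
    rfl

theorem rot_root (n : ℕ) (ω : List ℕ → ℕ) : ((rot D)^[n] ω) [] = ω [] := by
  induction n with
  | zero => rfl
  | succ n ih =>
    rw [Function.iterate_succ_apply']
    exact ih

theorem rot_mp (H : Hy D) (n : ℕ) : MeasurePreserving ((rot D)^[n]) mu mu :=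
  (H.pr D H.hD).1.iterate n

theorem S_mp (H : Hy D) (n : ℕ) : MeasurePreserving ((S D)^[n]) mu mu :=
  ((H.pr D H.hD).2.comp (H.pr D H.hD).1).iterate n

theorem rot_good (H : Hy D) : ∀ᵐ ω ∂mu, ∀ n : ℕ, (tree D ((rot D)^[n] ω)).Good :=
  ae_all_iff.2 fun n => (rot_mp H n).quasiMeasurePreserving.ae (H.ga D H.hD)

theorem S_good (H : Hy D) : ∀ᵐ ω ∂mu, ∀ n : ℕ, (tree D ((S D)^[n] ω)).Good :=
  ae_all_iff.2 fun n => (S_mp H n).quasiMeasurePreserving.ae (H.ga D H.hD)

theorem flip_good (H : Hy D) : ∀ᵐ ω ∂mu, (tree D (flip ω)).Good :=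
  (H.pr D H.hD).2.quasiMeasurePreserving.ae (H.ga D H.hD)

/-- invariance under isomorphisms of labelled maps -/
theorem inv_iso (H : Hy D) {f : CMap ((List ℕ × ℕ) × ℕ × Bool) → Set ((List ℕ × ℕ) × ℕ × Bool) →
      (List ℕ × ℕ) × ℕ × Bool → ℝ≥0∞} (hf : Invariant f) {L L' : LMap (List ℕ × ℕ)}
    {e : List ℕ × ℕ → List ℕ × ℕ} (hL : L.Good) (hL' : L'.Good) (h : LIso L L' e)
    {p : (List ℕ × ℕ) × ℕ × Bool} (hp : p ∈ L.arc.D) :
    f L'.arc ∅ (e p.1, p.2) = f L.arc ∅ p :=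
  hf _ _ _ _ (fun p => (e p.1, p.2)) p (H.av _ L hL) (H.av _ L' hL')
    (H.ai _ L L' e hL hL' h) hp

theorem mem_slots {k : ℕ} {q : ℕ × Bool} : q ∈ slots k ↔ q.1 ≤ k ∧ (q.1 = 0 → q.2 = true) := by
  unfold slots
  rw [Finset.mem_filter, Finset.mem_product, Finset.mem_range]
  have : q.2 ∈ ({true, false} : Finset Bool) := by
    cases q.2 <;> simp
  constructor
  · rintro ⟨⟨h1, -⟩, h2⟩
    exact ⟨by omega, h2⟩
  · rintro ⟨h1, h2⟩
    exact ⟨⟨by omega, this⟩, h2⟩

theorem mem_arc (H : Hy D) (ω : List ℕ → ℕ) {q : ℕ × Bool} (hq : q ∈ slots (ω [])) :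
    (rt, q) ∈ (tree D ω).arc.D :=
  ⟨rt_mem H ω, (mem_slots.1 hq).1, (mem_slots.1 hq).2⟩

theorem meas_eval {α : Type} [MeasurableSpace α] (g : ℕ → α) :
    Measurable fun ω : List ℕ → ℕ => g (ω []) :=
  (measurable_of_countable g).comp (measurable_pi_apply [])

theorem meas_slots {F : ℕ × Bool → (List ℕ → ℕ) → ℝ≥0∞} (hF : ∀ q, Measurable (F q)) :
    Measurable fun ω : List ℕ → ℕ => ∑ q ∈ slots (ω []), F q ω := by
  have h1 : (fun ω : List ℕ → ℕ => ∑ q ∈ slots (ω []), F q ω) =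
      fun ω => ∑' q : ℕ × Bool, if q ∈ slots (ω []) then F q ω else 0 := by
    ext ω
    rw [tsum_eq_sum (s := slots (ω []))]
    · exact Finset.sum_congr rfl fun q hq => (if_pos hq).symm
    · intro q hq
      exact if_neg hq
  rw [h1]
  refine Measurable.ennreal_tsum fun q => Measurable.ite ?_ (hF q) measurable_const
  exact measurable_pi_apply (X := fun _ : List ℕ => ℕ) [] (Set.to_countable {k | q ∈ slots k}).measurableSet

/-- the average over the vertex of the root -/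
theorem red (H : Hy D) {f : CMap ((List ℕ × ℕ) × ℕ × Bool) → Set ((List ℕ × ℕ) × ℕ × Bool) →
      (List ℕ × ℕ) × ℕ × Bool → ℝ≥0∞} (hf : Invariant f)
    (hm : ∀ d, Measurable fun ω => f (tree D ω).arc ∅ d) :
    ∫⁻ ω, (tree D ω).arc.avg (fun d => f (tree D ω).arc ∅ d) root ∂law =
      ∫⁻ ω, 3⁻¹ * ∑ q ∈ slots (ω []), f (tree D ω).arc ∅ (rt, q) ∂mu := by
  have hdm : Measurable fun ω : List ℕ → ℕ => (2 * (ω [] : ℝ≥0∞) + 1) / 3 :=
    meas_eval fun k => (2 * (k : ℝ≥0∞) + 1) / 3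
  have hdf : ∀ k : ℕ, (2 * (k : ℝ≥0∞) + 1) / 3 < ∞ := by
    intro k
    refine ENNReal.div_lt_top ?_ (by norm_num)
    exact_mod_cast ENNReal.natCast_ne_top (2 * k + 1)
  unfold law
  rw [lintegral_withDensity_eq_lintegral_mul_non_measurable mu hdm
    (Eventually.of_forall fun ω => hdf (ω []))]
  -- the sum over the vertex
  obtain ⟨G, hG⟩ : ∃ G : (List ℕ → ℕ) → ℝ≥0∞, G = fun ω => 3⁻¹ * ((D (ω []) : ℝ≥0∞)⁻¹ *
    ∑ q ∈ slots (ω []), f (tree D ω).arc ∅ (rt, q)) := ⟨_, rfl⟩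
  have hGm : Measurable G := by
    rw [hG]
    refine Measurable.const_mul (Measurable.mul ?_ (meas_slots fun q => hm (rt, q))) _
    exact meas_eval fun k => (D k : ℝ≥0∞)⁻¹
  have hset : ∀ j : ℕ, MeasurableSet {ω : List ℕ → ℕ | j < D (ω [])} := fun j =>
    measurable_pi_apply (X := fun _ : List ℕ => ℕ) [] (Set.to_countable {k | j < D k}).measurableSet
  have h1 : ∀ᵐ ω ∂mu, ((fun ω : List ℕ → ℕ => (2 * (ω [] : ℝ≥0∞) + 1) / 3) * fun ω =>
      (tree D ω).arc.avg (fun d => f (tree D ω).arc ∅ d) root) ω =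
      ∑' j : ℕ, {ω : List ℕ → ℕ | j < D (ω [])}.indicator G ((rot D)^[j] ω) := by
    filter_upwards [rot_good H] with ω hω
    have hg : (tree D ω).Good := hω 0
    have hroot : root ∈ (tree D ω).arc.D := ⟨rt_mem H ω, Nat.zero_le _, fun _ => rfl⟩
    obtain ⟨hv1, -, hv3⟩ := H.avx _ (tree D ω) hg root hroot
    have hdeg : (tree D ω).deg rt = D (ω []) := (H.tr D ω H.hD).2.2.2.2.1 rt (rt_mem H ω)
    have hl : (tree D ω).l rt = ω [] := rfl
    change _ = (2 * (tree D ω).l rt + 1) * (tree D ω).deg rt at hv1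
    rw [hl, hdeg] at hv1
    have hv3' := hv3 (fun d => f (tree D ω).arc ∅ d)
    change _ = ∑ j ∈ Finset.range ((tree D ω).deg rt), ∑ q ∈ slots ((tree D ω).l rt),
      f (tree D ω).arc ∅ ((tree D ω).s^[j] rt, q) at hv3'
    rw [hl, hdeg] at hv3'
    have hd0 : (D (ω []) : ℝ≥0∞) ≠ 0 := by
      have := H.hD (ω [])
      exact_mod_cast (show D (ω []) ≠ 0 by omega)
    have hd1 : (D (ω []) : ℝ≥0∞) ≠ ∞ := ENNReal.natCast_ne_top _
    have hk0 : (2 * (ω [] : ℝ≥0∞) + 1) ≠ 0 := by simp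
    have hk1 : (2 * (ω [] : ℝ≥0∞) + 1) ≠ ∞ := by
      exact_mod_cast ENNReal.natCast_ne_top (2 * ω [] + 1)
    rw [tsum_eq_sum (s := Finset.range (D (ω [])))]
    · have h2 : ∀ j ∈ Finset.range (D (ω [])),
          {ω : List ℕ → ℕ | j < D (ω [])}.indicator G ((rot D)^[j] ω) =
          3⁻¹ * ((D (ω []) : ℝ≥0∞)⁻¹ *
            ∑ q ∈ slots (ω []), f (tree D ω).arc ∅ ((tree D ω).s^[j] rt, q)) := by
        intro j hj
        rw [Finset.mem_range] at hj
        have h3 : (rot D)^[j] ω ∈ {ω : List ℕ → ℕ | j < D (ω [])} := by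
          show j < D (((rot D)^[j] ω) [])
          rw [rot_root]
          exact hj
        rw [indicator_of_mem h3, hG]
        show 3⁻¹ * ((D (((rot D)^[j] ω) []) : ℝ≥0∞)⁻¹ * _) = _
        rw [rot_root]
        congr 2
        refine Finset.sum_congr rfl fun q hq => ?_
        obtain ⟨e, he, he'⟩ := rot_iso H j ω
        have hq' : (rt, q) ∈ (tree D ((rot D)^[j] ω)).arc.D :=
          mem_arc H _ (by rw [rot_root]; exact hq)
        have h4 := inv_iso H hf (hω j) hg he hq'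
        rw [← h4]
        show f _ ∅ (e rt, q) = _
        rw [he']
      rw [Finset.sum_congr rfl h2, ← Finset.mul_sum, ← Finset.mul_sum, ← hv3']
      show (2 * (ω [] : ℝ≥0∞) + 1) / 3 * ((∑ i ∈ Finset.range ((tree D ω).arc.deg root), _) /
        ((tree D ω).arc.deg root : ℝ≥0∞)) = _
      have h5 : ((tree D ω).arc.deg root : ℝ≥0∞) = (2 * (ω [] : ℝ≥0∞) + 1) * D (ω []) := by
        rw [hv1]
        push_cast
        ring
      rw [h5, div_eq_mul_inv, div_eq_mul_inv, ENNReal.mul_inv (Or.inl hk0) (Or.inl hk1)]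
      generalize (∑ i ∈ Finset.range ((tree D ω).arc.deg root),
        f (tree D ω).arc ∅ ((tree D ω).arc.s^[i] root)) = Z
      calc (2 * (ω [] : ℝ≥0∞) + 1) * 3⁻¹ *
            (Z * ((2 * (ω [] : ℝ≥0∞) + 1)⁻¹ * (D (ω []) : ℝ≥0∞)⁻¹))
          = ((2 * (ω [] : ℝ≥0∞) + 1) * (2 * (ω [] : ℝ≥0∞) + 1)⁻¹) *
            (3⁻¹ * ((D (ω []) : ℝ≥0∞)⁻¹ * Z)) := by ring
        _ = 3⁻¹ * ((D (ω []) : ℝ≥0∞)⁻¹ * Z) := by
            rw [ENNReal.mul_inv_cancel hk0 hk1, one_mul]
    · intro j hj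
      rw [Finset.mem_range, not_lt] at hj
      refine indicator_of_notMem ?_ _
      show ¬ j < D (((rot D)^[j] ω) [])
      rw [rot_root]
      omega
  have h1' : ∀ j : ℕ, Measurable fun ω =>
      {ω : List ℕ → ℕ | j < D (ω [])}.indicator G ((rot D)^[j] ω) := fun j =>
    (hGm.indicator (hset j)).comp (rot_mp H j).measurable
  rw [lintegral_congr_ae h1, lintegral_tsum fun j => (h1' j).aemeasurable]
  have h2 : ∀ j : ℕ, ∫⁻ ω, {ω : List ℕ → ℕ | j < D (ω [])}.indicator G ((rot D)^[j] ω) ∂mu =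
      ∫⁻ ω, {ω : List ℕ → ℕ | j < D (ω [])}.indicator G ω ∂mu := fun j =>
    (rot_mp H j).lintegral_comp (hGm.indicator (hset j))
  simp only [h2]
  rw [← lintegral_tsum fun j => (hGm.indicator (hset j)).aemeasurable]
  refine lintegral_congr fun ω => ?_
  rw [tsum_eq_sum (s := Finset.range (D (ω [])))]
  · have h3 : ∀ j ∈ Finset.range (D (ω [])),
        {ω : List ℕ → ℕ | j < D (ω [])}.indicator G ω = G ω := fun j hj =>
      indicator_of_mem (show ω ∈ {ω : List ℕ → ℕ | j < D (ω [])} from Finset.mem_range.1 hj) _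
    rw [Finset.sum_congr rfl h3, Finset.sum_const, Finset.card_range, nsmul_eq_mul, hG]
    have hd0 : (D (ω []) : ℝ≥0∞) ≠ 0 := by
      have := H.hD (ω [])
      exact_mod_cast (show D (ω []) ≠ 0 by omega)
    have hd1 : (D (ω []) : ℝ≥0∞) ≠ ∞ := ENNReal.natCast_ne_top _
    show (D (ω []) : ℝ≥0∞) * (3⁻¹ * ((D (ω []) : ℝ≥0∞)⁻¹ * _)) = _
    rw [mul_left_comm, ← mul_assoc (D (ω []) : ℝ≥0∞), ENNReal.mul_inv_cancel hd0 hd1, one_mul]
  · intro j hj
    rw [Finset.mem_range, not_lt] at hj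
    refine indicator_of_notMem ?_ _
    show ¬ j < D (ω [])
    omega

/-! ### the two faces at the root corner -/

theorem sInf_eq_iff {P : ℕ → Prop} {n : ℕ} (hn : 1 ≤ n) :
    sInf {k | 1 ≤ k ∧ P k} = n ↔ P n ∧ ∀ i, 1 ≤ i → i < n → ¬ P i := by
  constructor
  · intro h
    have hne : {k | 1 ≤ k ∧ P k}.Nonempty := by
      by_contra hcon
      rw [Set.not_nonempty_iff_eq_empty] at hcon
      rw [hcon, Nat.sInf_empty] at h
      omega
    have h1 := Nat.sInf_mem hne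
    rw [h] at h1
    refine ⟨h1.2, fun i hi hin hP => ?_⟩
    exact Nat.notMem_of_lt_sInf (s := {k | 1 ≤ k ∧ P k}) (by rw [h]; exact hin) ⟨hi, hP⟩
  · rintro ⟨h1, h2⟩
    refine le_antisymm (Nat.sInf_le ⟨hn, h1⟩) ?_
    by_contra hcon
    push Not at hcon
    have h3 := Nat.sInf_mem (s := {k | 1 ≤ k ∧ P k}) ⟨n, hn, h1⟩
    exact h2 _ h3.1 hcon h3.2

theorem nx_iff {X : Type} (L : LMap X) (m n : ℕ) (hn : 1 ≤ n) (c : X) :
    L.nx m c = n ↔ m ≤ L.l (L.tau^[n] c) ∧ ∀ i, 1 ≤ i → i < n → ¬ m ≤ L.l (L.tau^[i] c) :=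
  sInf_eq_iff hn

theorem pv_iff {X : Type} (L : LMap X) (m n : ℕ) (hn : 1 ≤ n) (c : X) :
    L.pv m c = n ↔ m ≤ L.l (L.tau'^[n] c) ∧ ∀ i, 1 ≤ i → i < n → ¬ m ≤ L.l (L.tau'^[i] c) :=
  sInf_eq_iff hn

theorem nx_pos {X : Type} {L : LMap X} (hL : L.Good) (m : ℕ) {c : X} (hc : c ∈ L.D) :
    1 ≤ L.nx m c := (Nat.sInf_mem (hL.fwd c hc m)).1

theorem pv_pos {X : Type} {L : LMap X} (hL : L.Good) (m : ℕ) {c : X} (hc : c ∈ L.D) :
    1 ≤ L.pv m c := (Nat.sInf_mem (hL.bwd c hc m)).1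

theorem tau_tau' {X : Type} {L : LMap X} (hL : L.Good) {c : X} (hc : c ∈ L.D) :
    L.tau (L.tau' c) = c := by
  unfold LMap.tau LMap.tau'
  rw [hL.valid.a_a _ (hL.valid.s_mem c hc), hL.si_s c hc]

theorem tau'_mem_iter {X : Type} {L : LMap X} (hL : L.Good) (n : ℕ) {c : X} (hc : c ∈ L.D) :
    L.tau'^[n] c ∈ L.D := by
  induction n with
  | zero => exact hc
  | succ n ih =>
    rw [Function.iterate_succ_apply']
    exact ArcIso.tau'_mem hL ih

theorem tau_iter {X : Type} {L : LMap X} (hL : L.Good) (i n : ℕ) (hi : i ≤ n) {c : X}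
    (hc : c ∈ L.D) : L.tau^[i] (L.tau'^[n] c) = L.tau'^[n - i] c := by
  induction i with
  | zero => rfl
  | succ i ih =>
    rw [Function.iterate_succ_apply', ih (by omega)]
    have h1 : n - i = (n - (i + 1)) + 1 := by omega
    rw [h1, Function.iterate_succ_apply']
    exact tau_tau' hL (tau'_mem_iter hL _ hc)

/-- the reversal of a walk along a face -/
theorem key (H : Hy D) (m n : ℕ) (hn : 1 ≤ n) {ω : List ℕ → ℕ}
    (hω : ∀ n : ℕ, (tree D ((S D)^[n] ω)).Good) :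
    (m ≤ ω [] ∧ (tree D ω).pv m rt = n) ↔
      (m ≤ ((S D)^[n] ω) [] ∧ (tree D ((S D)^[n] ω)).nx m rt = n) := by
  obtain ⟨e, he, he'⟩ := S_iso H n ω
  have hg : (tree D ω).Good := hω 0
  have hr := rt_mem H ω
  have hr' := rt_mem H ((S D)^[n] ω)
  have h1 : ∀ i ≤ n, (tree D ((S D)^[n] ω)).l ((tree D ((S D)^[n] ω)).tau^[i] rt) =
      (tree D ω).l ((tree D ω).tau'^[n - i] rt) := by
    intro i hi
    obtain ⟨h2, h3⟩ := ArcIso.iter_tau (hω n) hg he i hr'
    rw [← he.l_comm _ h2, h3, he', tau_iter hg i n hi hr]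
  have h2 := h1 0 (Nat.zero_le _)
  rw [Nat.sub_zero] at h2
  have h3 := h1 n le_rfl
  rw [Nat.sub_self] at h3
  change ((S D)^[n] ω) [] = _ at h2
  change _ = ω [] at h3
  rw [nx_iff _ _ _ hn, pv_iff _ _ _ hn, h3, h2]
  constructor
  · rintro ⟨h4, h5, h6⟩
    refine ⟨h5, h4, fun i hi hin => ?_⟩
    rw [h1 i hin.le]
    exact h6 (n - i) (by omega) (by omega)
  · rintro ⟨h4, h5, h6⟩
    refine ⟨h5, h4, fun i hi hin => ?_⟩
    have h7 := h6 (n - i) (by omega) (by omega)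
    rw [h1 (n - i) (by omega)] at h7
    have h8 : n - (n - i) = i := by omega
    rwa [h8] at h7

/-! ### measurability -/

theorem meas_tau (c c' : List ℕ × ℕ) : MeasurableSet {ω | (tree D ω).tau c = c'} := by
  have h1 : {ω | (tree D ω).tau c = c'} =
      (fun ω : List ℕ → ℕ => ω (opp c).1) ⁻¹'
        {k | ((opp c).1, ((opp c).2 + (D k - 1)) % D k) = c'} := rfl
  rw [h1]
  exact measurable_pi_apply (X := fun _ : List ℕ => ℕ) (opp c).1 (Set.to_countable _).measurableSet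

theorem meas_iter (i : ℕ) (c c' : List ℕ × ℕ) :
    MeasurableSet {ω | (tree D ω).tau^[i] c = c'} := by
  induction i generalizing c' with
  | zero =>
    by_cases h : c = c'
    · have : {ω | (tree D ω).tau^[0] c = c'} = univ := by
        ext ω
        simp [h]
      rw [this]
      exact MeasurableSet.univ
    · have : {ω | (tree D ω).tau^[0] c = c'} = ∅ := by
        ext ω
        simp [h]
      rw [this]
      exact MeasurableSet.empty
  | succ i ih =>
    have : {ω | (tree D ω).tau^[i + 1] c = c'} =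
        ⋃ c'' : List ℕ × ℕ, {ω | (tree D ω).tau^[i] c = c''} ∩ {ω | (tree D ω).tau c'' = c'} := by
      ext ω
      simp only [mem_setOf_eq, mem_iUnion, mem_inter_iff, Function.iterate_succ_apply']
      constructor
      · intro h
        exact ⟨_, rfl, h⟩
      · rintro ⟨c'', h1, h2⟩
        rw [h1]
        exact h2
    rw [this]
    exact MeasurableSet.iUnion fun c'' => (ih c'').inter (meas_tau _ _)

theorem meas_lab (i m : ℕ) : MeasurableSet {ω | m ≤ (tree D ω).l ((tree D ω).tau^[i] rt)} := by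
  have : {ω | m ≤ (tree D ω).l ((tree D ω).tau^[i] rt)} =
      ⋃ c : List ℕ × ℕ, {ω | (tree D ω).tau^[i] rt = c} ∩ {ω | m ≤ ω c.1} := by
    ext ω
    simp only [mem_setOf_eq, mem_iUnion, mem_inter_iff]
    constructor
    · intro h
      exact ⟨_, rfl, h⟩
    · rintro ⟨c, h1, h2⟩
      rw [h1]
      exact h2
  rw [this]
  refine MeasurableSet.iUnion fun c => (meas_iter _ _ _).inter ?_
  exact measurable_pi_apply (X := fun _ : List ℕ => ℕ) c.1
    (Set.to_countable {k | m ≤ k}).measurableSet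

theorem meas_nx (m n : ℕ) (hn : 1 ≤ n) : MeasurableSet {ω | (tree D ω).nx m rt = n} := by
  have : {ω | (tree D ω).nx m rt = n} = {ω | m ≤ (tree D ω).l ((tree D ω).tau^[n] rt)} ∩
      ⋂ i : ℕ, ⋂ _ : 1 ≤ i ∧ i < n, {ω | m ≤ (tree D ω).l ((tree D ω).tau^[i] rt)}ᶜ := by
    ext ω
    simp only [mem_setOf_eq, nx_iff _ _ _ hn, mem_inter_iff, mem_iInter, mem_compl_iff]
    exact and_congr_right fun _ =>
      ⟨fun h i hi => h i hi.1 hi.2, fun h i hi hi' => h i ⟨hi, hi'⟩⟩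
  rw [this]
  exact (meas_lab _ _).inter (MeasurableSet.iInter fun i => MeasurableSet.iInter fun _ =>
    (meas_lab _ _).compl)

theorem meas_root (m : ℕ) : MeasurableSet {ω : List ℕ → ℕ | m ≤ ω []} :=
  measurable_pi_apply (X := fun _ : List ℕ => ℕ) [] (Set.to_countable {k | m ≤ k}).measurableSet

/-- mass transport along the faces -/
theorem E1 (H : Hy D) {f : CMap ((List ℕ × ℕ) × ℕ × Bool) → Set ((List ℕ × ℕ) × ℕ × Bool) →
      (List ℕ × ℕ) × ℕ × Bool → ℝ≥0∞} (hf : Invariant f)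
    (hm : ∀ d, Measurable fun ω => f (tree D ω).arc ∅ d) (m : ℕ) (hm1 : 1 ≤ m) :
    ∫⁻ ω, (if m ≤ ω [] then f (tree D ω).arc ∅ ((tree D ω).arc.a (rt, m, false)) else 0) ∂mu =
      ∫⁻ ω, (if m ≤ ω [] then f (tree D ω).arc ∅ (rt, m, true) else 0) ∂mu := by
  obtain ⟨B, hB⟩ : ∃ B : ℕ → Set (List ℕ → ℕ), B = fun n =>
    {ω | m ≤ ω []} ∩ {ω | (tree D ω).nx m rt = n + 1} := ⟨_, rfl⟩
  have hBm : ∀ n, MeasurableSet (B n) := by
    intro n
    rw [hB]
    exact (meas_root m).inter (meas_nx m (n + 1) (by omega))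
  obtain ⟨h, hh⟩ : ∃ h : (List ℕ → ℕ) → ℝ≥0∞,
    h = fun ω => f (tree D ω).arc ∅ (rt, m, true) := ⟨_, rfl⟩
  have hhm : Measurable h := by
    rw [hh]
    exact hm _
  have h1 : ∀ᵐ ω ∂mu,
      (if m ≤ ω [] then f (tree D ω).arc ∅ ((tree D ω).arc.a (rt, m, false)) else 0) =
      ∑' n : ℕ, (B n).indicator h ((S D)^[n + 1] ω) := by
    filter_upwards [S_good H] with ω hω
    have hg : (tree D ω).Good := hω 0
    have hr := rt_mem H ω
    have hB' : ∀ n, (S D)^[n + 1] ω ∈ B n ↔ m ≤ ω [] ∧ (tree D ω).pv m rt = n + 1 := by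
      intro n
      rw [hB]
      exact (key H m (n + 1) (by omega) hω).symm
    split_ifs with hmω
    · have hp := pv_pos hg m hr
      obtain ⟨n0, hn0⟩ : ∃ n0, (tree D ω).pv m rt = n0 + 1 :=
        ⟨(tree D ω).pv m rt - 1, by omega⟩
      rw [tsum_eq_single n0]
      · rw [indicator_of_mem ((hB' n0).2 ⟨hmω, hn0⟩), hh]
        obtain ⟨e, he, he'⟩ := S_iso H (n0 + 1) ω
        have h2 : ((tree D ω).arc.a (rt, m, false)) = (e rt, m, true) := by
          show (if m = 0 then _ else if false = true then _ else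
            ((tree D ω).tau'^[(tree D ω).pv m rt] rt, m, true)) = _
          rw [if_neg (by omega), if_neg (by simp), hn0, he']
        rw [h2]
        have h3 := ((hB' n0).2 ⟨hmω, hn0⟩)
        rw [hB] at h3
        have h4 : ((rt, m, true) : (List ℕ × ℕ) × ℕ × Bool) ∈
            (tree D ((S D)^[n0 + 1] ω)).arc.D :=
          mem_arc H _ (mem_slots.2 ⟨h3.1, fun _ => rfl⟩)
        exact inv_iso H hf (hω (n0 + 1)) hg he h4
      · intro n hn
        refine indicator_of_notMem ?_ _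
        rw [hB']
        rintro ⟨-, h2⟩
        apply hn
        omega
    · symm
      rw [ENNReal.tsum_eq_zero]
      intro n
      refine indicator_of_notMem ?_ _
      rw [hB']
      exact fun h2 => hmω h2.1
  have h2 : ∀ᵐ ω ∂mu, (if m ≤ ω [] then f (tree D ω).arc ∅ (rt, m, true) else 0) =
      ∑' n : ℕ, (B n).indicator h ω := by
    filter_upwards [H.ga D H.hD] with ω hg
    have hr := rt_mem H ω
    split_ifs with hmω
    · have hp := nx_pos hg m hr
      obtain ⟨n0, hn0⟩ : ∃ n0, (tree D ω).nx m rt = n0 + 1 :=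
        ⟨(tree D ω).nx m rt - 1, by omega⟩
      rw [tsum_eq_single n0]
      · rw [indicator_of_mem (by rw [hB]; exact ⟨hmω, hn0⟩), hh]
      · intro n hn
        refine indicator_of_notMem ?_ _
        rw [hB]
        rintro ⟨-, h2⟩
        apply hn
        have h3 : (tree D ω).nx m rt = n + 1 := h2
        omega
    · symm
      rw [ENNReal.tsum_eq_zero]
      intro n
      refine indicator_of_notMem ?_ _
      rw [hB]
      exact fun h2 => hmω h2.1
  have h3 : ∀ n : ℕ, Measurable fun ω => (B n).indicator h ((S D)^[n + 1] ω) := fun n =>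
    (hhm.indicator (hBm n)).comp (S_mp H (n + 1)).measurable
  rw [lintegral_congr_ae h1, lintegral_congr_ae h2, lintegral_tsum fun n => (h3 n).aemeasurable,
    lintegral_tsum fun n => (hhm.indicator (hBm n)).aemeasurable]
  exact tsum_congr fun n => (S_mp H (n + 1)).lintegral_comp (hhm.indicator (hBm n))

/-- the root dart -/
theorem E0 (H : Hy D) {f : CMap ((List ℕ × ℕ) × ℕ × Bool) → Set ((List ℕ × ℕ) × ℕ × Bool) →
      (List ℕ × ℕ) × ℕ × Bool → ℝ≥0∞} (hf : Invariant f)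
    (hm : ∀ d, Measurable fun ω => f (tree D ω).arc ∅ d) :
    ∫⁻ ω, f (tree D ω).arc ∅ ((tree D ω).arc.a (rt, 0, true)) ∂mu =
      ∫⁻ ω, f (tree D ω).arc ∅ (rt, 0, true) ∂mu := by
  have h1 : ∀ᵐ ω ∂mu, f (tree D ω).arc ∅ ((tree D ω).arc.a (rt, 0, true)) =
      (fun ω => f (tree D ω).arc ∅ (rt, 0, true)) (flip ω) := by
    filter_upwards [H.ga D H.hD, flip_good H] with ω hg hg'
    obtain ⟨h2, h3⟩ := H.fi D ω H.hD
    have h4 : ((tree D ω).arc.a (rt, 0, true)) = (flipD rt, 0, true) := by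
      rw [h3]
      rfl
    rw [h4]
    exact inv_iso H hf hg' hg h2 (p := (rt, 0, true))
      (mem_arc H _ (mem_slots.2 ⟨Nat.zero_le _, fun _ => rfl⟩))
  rw [lintegral_congr_ae h1]
  exact (H.pr D H.hD).2.lintegral_comp (hm _)

/-- the function of the reversed dart -/
theorem inv_a {V : Type} {f : CMap V → Set V → V → ℝ≥0∞} (hf : Invariant f) :
    Invariant fun M W d => f M W (M.a d) := by
  intro M M' W W' e d hM hM' he hd
  show f M' W' (M'.a (e d)) = f M W (M.a d)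
  rw [← he.a_comm d hd]
  exact hf M M' W W' e (M.a d) hM hM' he (hM.a_mem d hd)

theorem meas_a (H : Hy D) {f : CMap ((List ℕ × ℕ) × ℕ × Bool) →
      Set ((List ℕ × ℕ) × ℕ × Bool) → (List ℕ × ℕ) × ℕ × Bool → ℝ≥0∞}
    (hm : ∀ d, Measurable fun ω => f (tree D ω).arc ∅ d) (d : (List ℕ × ℕ) × ℕ × Bool) :
    Measurable fun ω => f (tree D ω).arc ∅ ((tree D ω).arc.a d) := by
  have h1 : (fun ω => f (tree D ω).arc ∅ ((tree D ω).arc.a d)) = fun ω =>
      ∑' q : (List ℕ × ℕ) × ℕ × Bool,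
        {ω | (tree D ω).arc.a d = q}.indicator (fun ω => f (tree D ω).arc ∅ q) ω := by
    ext ω
    rw [tsum_eq_single ((tree D ω).arc.a d)]
    · rw [indicator_of_mem (show ω ∈ {ω' | (tree D ω').arc.a d = (tree D ω).arc.a d} from rfl)]
    · intro q hq
      refine indicator_of_notMem ?_ _
      exact fun h2 => hq (Eq.symm h2)
  rw [h1]
  exact Measurable.ennreal_tsum fun q => (hm q).indicator ((H.me D H.hD).2.2.1 d q)

theorem sum_slots (k : ℕ) (g : ℕ × Bool → ℝ≥0∞) : ∑ q ∈ slots k, g q = g (0, true) +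
    ∑' m : ℕ, ((if m + 1 ≤ k then g (m + 1, true) else 0) +
      if m + 1 ≤ k then g (m + 1, false) else 0) := by
  rw [tsum_eq_sum (s := Finset.range k)]
  · unfold slots
    rw [Finset.sum_filter, Finset.sum_product, Finset.sum_range_succ', add_comm]
    congr 1
    · simp
    · refine Finset.sum_congr rfl fun m hm => ?_
      rw [Finset.mem_range] at hm
      have : m + 1 ≤ k := hm
      simp [this]
  · intro m hm
    rw [Finset.mem_range] at hm
    have : ¬ m + 1 ≤ k := hm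
    simp [this]

theorem split_sum (H : Hy D) {f : CMap ((List ℕ × ℕ) × ℕ × Bool) →
      Set ((List ℕ × ℕ) × ℕ × Bool) → (List ℕ × ℕ) × ℕ × Bool → ℝ≥0∞}
    (hm : ∀ d, Measurable fun ω => f (tree D ω).arc ∅ d) :
    ∫⁻ ω, 3⁻¹ * ∑ q ∈ slots (ω []), f (tree D ω).arc ∅ (rt, q) ∂mu =
      3⁻¹ * (∫⁻ ω, f (tree D ω).arc ∅ (rt, 0, true) ∂mu +
        ∑' m : ℕ, (∫⁻ ω, (if m + 1 ≤ ω [] then f (tree D ω).arc ∅ (rt, m + 1, true) else 0) ∂mu +
          ∫⁻ ω, (if m + 1 ≤ ω [] then f (tree D ω).arc ∅ (rt, m + 1, false) else 0) ∂mu)) := by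
  rw [lintegral_const_mul _ (meas_slots fun q => hm (rt, q))]
  congr 1
  have h0 : ∀ (m : ℕ) (b : Bool), Measurable fun ω : List ℕ → ℕ =>
      (if m + 1 ≤ ω [] then f (tree D ω).arc ∅ (rt, m + 1, b) else 0) := fun m b =>
    Measurable.ite (meas_root (m + 1)) (hm _) measurable_const
  have h1 : ∀ ω : List ℕ → ℕ, ∑ q ∈ slots (ω []), f (tree D ω).arc ∅ (rt, q) =
      f (tree D ω).arc ∅ (rt, 0, true) + ∑' m : ℕ,
        ((if m + 1 ≤ ω [] then f (tree D ω).arc ∅ (rt, m + 1, true) else 0) +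
          if m + 1 ≤ ω [] then f (tree D ω).arc ∅ (rt, m + 1, false) else 0) := fun ω =>
    sum_slots (ω []) fun q => f (tree D ω).arc ∅ (rt, q)
  have h00 : ∀ m : ℕ, Measurable fun ω : List ℕ → ℕ =>
      ((if m + 1 ≤ ω [] then f (tree D ω).arc ∅ (rt, m + 1, true) else 0) +
        if m + 1 ≤ ω [] then f (tree D ω).arc ∅ (rt, m + 1, false) else 0) := fun m =>
    (h0 m true).add (h0 m false)
  rw [lintegral_congr h1, lintegral_add_left (hm _),
    lintegral_tsum fun m => (h00 m).aemeasurable]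
  congr 1
  exact tsum_congr fun m => lintegral_add_left (h0 m true) _

end Rev

open Rev in
/-- the random map with arcs is reversible -/
theorem reversible : StmArcValid → StmArcVertex → StmArcIso → StmTree → StmRotIso →
    StmFlipIso → StmPres → StmGoodAE → StmMeas → StmReversible := by
  intro h1 h2 h3 h4 h5 h6 h7 h8 h9 D hD f hf hm
  have H : Hy D := ⟨hD, h1, h2, h3, h4, h5, h6, h7, h8, h9⟩
  have hfa := inv_a hf
  have hma := meas_a H hm
  have e1 := red H hf hm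
  have e2 := red H hfa hma
  have s1 := split_sum H hm
  have s2 := split_sum H (f := fun M W d => f M W (M.a d)) hma
  refine e1.trans (Eq.trans ?_ e2.symm)
  refine s1.trans (Eq.trans ?_ s2.symm)
  rw [← E0 H hf hm]
  congr 2
  refine tsum_congr fun m => ?_
  rw [add_comm]
  congr 1
  · -- the arcs to the previous corners, reversed
    have e3 := E1 H hfa hma (m + 1) (by omega)
    rw [← e3]
    refine lintegral_congr_ae ?_
    filter_upwards [H.ga D H.hD] with ω hg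
    split_ifs with hmω
    · have hv := H.av _ (tree D ω) hg
      have hmem : ((rt, m + 1, false) : (List ℕ × ℕ) × ℕ × Bool) ∈ (tree D ω).arc.D :=
        mem_arc H _ (mem_slots.2 ⟨hmω, fun h => absurd h (by simp)⟩)
      rw [hv.a_a _ hmem]
    · rfl
  · exact (E1 H hf hm (m + 1) (by omega)).symm

end Pool.Agent.N276.MB
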