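import Pool.Agent.N276.MB.Stm

/-!
# The map with arcs is simply connected
-/

set_option autoImplicit false

open MeasureTheory Set Filter Topology
open scoped ENNReal Classical

namespace Pool.Agent.N276.MB.Simply

variable {X : Type} {L : LMap X}

theorem nx_spec (h : L.Good) {z : X} (hz : z ∈ L.D) (m : ℕ) :
    1 ≤ L.nx m z ∧ m ≤ L.l (L.tau^[L.nx m z] z) :=
  Nat.sInf_mem (h.fwd z hz m)

theorem nx_le {z : X} {m n : ℕ} (h1 : 1 ≤ n) (h2 : m ≤ L.l (L.tau^[n] z)) : L.nx m z ≤ n :=
  Nat.sInf_le ⟨h1, h2⟩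

theorem nx_lt {z : X} {m i : ℕ} (h1 : 1 ≤ i) (hi : i < L.nx m z) : L.l (L.tau^[i] z) < m := by
  by_contra hcon
  have := nx_le h1 (not_lt.1 hcon)
  omega

theorem nx_zero (z : X) : L.nx 0 z = 1 := by
  apply le_antisymm (nx_le le_rfl (Nat.zero_le _))
  have h : {n | 1 ≤ n ∧ 0 ≤ L.l (L.tau^[n] z)}.Nonempty := ⟨1, le_rfl, Nat.zero_le _⟩
  exact (Nat.sInf_mem h).1

theorem pv_zero (z : X) : L.pv 0 z = 1 := by
  have h0 : 1 ∈ {n | 1 ≤ n ∧ 0 ≤ L.l (L.tau'^[n] z)} := ⟨le_rfl, Nat.zero_le _⟩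
  exact le_antisymm (Nat.sInf_le h0) (Nat.sInf_mem (⟨1, h0⟩ : Set.Nonempty _)).1

theorem tau_mem (h : L.Good) {z : X} (hz : z ∈ L.D) : L.tau z ∈ L.D :=
  h.si_mem _ (h.valid.a_mem _ hz)

theorem tau_it_mem (h : L.Good) {z : X} (hz : z ∈ L.D) (n : ℕ) : L.tau^[n] z ∈ L.D := by
  induction n with
  | zero => exact hz
  | succ n ih =>
    rw [Function.iterate_succ_apply']
    exact tau_mem h ih

/-- the next corner with label at least `m` -/
noncomputable def N (L : LMap X) (m : ℕ) (z : X) : X := L.tau^[L.nx m z] z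

/-- the previous corner with label at least `m` -/
noncomputable def P (L : LMap X) (m : ℕ) (z : X) : X := L.tau'^[L.pv m z] z

/-- the boundary walk of the faces -/
noncomputable def F (L : LMap X) (x : X × ℕ × Bool) : X × ℕ × Bool := L.arc.a (L.arc.s x)

theorem a_zero (x : X) : L.arc.a (x, 0, true) = (L.a x, 0, true) := by
  show (if (0 : ℕ) = 0 then (L.a x, 0, true) else if true = true then
    (L.tau^[L.nx 0 x] x, 0, false) else (L.tau'^[L.pv 0 x] x, 0, true)) = _
  rw [if_pos rfl]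

theorem a_true {m : ℕ} (hm : 1 ≤ m) (x : X) : L.arc.a (x, m, true) = (N L m x, m, false) := by
  have h : ¬ m = 0 := by omega
  show (if m = 0 then (L.a x, 0, true) else if true = true then
    (L.tau^[L.nx m x] x, m, false) else (L.tau'^[L.pv m x] x, m, true)) = _
  rw [if_neg h, if_pos rfl]
  rfl

theorem a_false {m : ℕ} (hm : 1 ≤ m) (x : X) : L.arc.a (x, m, false) = (P L m x, m, true) := by
  have h : ¬ m = 0 := by omega
  show (if m = 0 then (L.a x, 0, true) else if false = true then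
    (L.tau^[L.nx m x] x, m, false) else (L.tau'^[L.pv m x] x, m, true)) = _
  rw [if_neg h, if_neg (by simp)]
  rfl

theorem s_lt {m : ℕ} {x : X} (hm : m < L.l x) : L.arc.s (x, m, true) = (x, m + 1, true) := by
  show (if true = true then
      (if m < L.l x then (x, m + 1, true)
        else if m = 0 then (L.s x, 0, true) else (x, m, false))
    else (if m ≤ 1 then (L.s x, 0, true) else (x, m - 1, false))) = _
  rw [if_pos rfl, if_pos hm]

theorem s_zero {x : X} (hm : ¬ 0 < L.l x) : L.arc.s (x, 0, true) = (L.s x, 0, true) := by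
  show (if true = true then
      (if 0 < L.l x then (x, 0 + 1, true)
        else if 0 = 0 then (L.s x, 0, true) else (x, 0, false))
    else (if 0 ≤ 1 then (L.s x, 0, true) else (x, 0 - 1, false))) = _
  rw [if_pos rfl, if_neg hm, if_pos rfl]

theorem s_pos {m : ℕ} {x : X} (h1 : 1 ≤ m) (hm : ¬ m < L.l x) :
    L.arc.s (x, m, true) = (x, m, false) := by
  have h : ¬ m = 0 := by omega
  show (if true = true then
      (if m < L.l x then (x, m + 1, true)
        else if m = 0 then (L.s x, 0, true) else (x, m, false))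
    else (if m ≤ 1 then (L.s x, 0, true) else (x, m - 1, false))) = _
  rw [if_pos rfl, if_neg hm, if_neg h]

theorem s_false_one (x : X) : L.arc.s (x, 1, false) = (L.s x, 0, true) := by
  show (if false = true then
      (if 1 < L.l x then (x, 1 + 1, true)
        else if 1 = 0 then (L.s x, 0, true) else (x, 1, false))
    else (if 1 ≤ 1 then (L.s x, 0, true) else (x, 1 - 1, false))) = _
  rw [if_neg (by simp), if_pos le_rfl]

theorem s_false {m : ℕ} (h1 : 1 ≤ m) (x : X) : L.arc.s (x, m + 1, false) = (x, m, false) := by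
  have h : ¬ m + 1 ≤ 1 := by omega
  show (if false = true then
      (if m + 1 < L.l x then (x, m + 1 + 1, true)
        else if m + 1 = 0 then (L.s x, 0, true) else (x, m + 1, false))
    else (if m + 1 ≤ 1 then (L.s x, 0, true) else (x, m + 1 - 1, false))) = _
  rw [if_neg (by simp), if_neg h]
  rfl

theorem P_zero (x : X) : P L 0 x = L.a (L.s x) := by
  unfold P
  rw [pv_zero]
  rfl

theorem N_zero (x : X) : N L 0 x = L.si (L.a x) := by
  unfold N
  rw [nx_zero]
  rfl

theorem F1 (m : ℕ) (y : X) : F L (y, m + 1, false) = (P L m y, m, true) := by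
  unfold F
  rcases Nat.eq_zero_or_pos m with rfl | hm
  · rw [s_false_one, a_zero, P_zero]
  · rw [s_false hm, a_false hm]

theorem F2 {m : ℕ} {z : X} (hm : ¬ m < L.l z) : F L (z, m, true) = (P L m z, m, true) := by
  unfold F
  rcases Nat.eq_zero_or_pos m with rfl | h1
  · rw [s_zero hm, a_zero, P_zero]
  · rw [s_pos h1 hm, a_false h1]

theorem F3 {m : ℕ} {x : X} (hm : m < L.l x) :
    F L (x, m, true) = (N L (m + 1) x, m + 1, false) := by
  unfold F
  rw [s_lt hm, a_true (by omega)]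

theorem PN (h : L.Good) (hv : L.arc.Valid) {m : ℕ} {z : X} (hz : z ∈ L.D) (hm : m ≤ L.l z) :
    P L m (N L m z) = z := by
  rcases Nat.eq_zero_or_pos m with rfl | h1
  · rw [P_zero, N_zero, h.s_si _ (h.valid.a_mem _ hz), h.valid.a_a _ hz]
  · have h2 : (z, m, true) ∈ L.arc.D := ⟨hz, hm, fun _ => rfl⟩
    have h3 := hv.a_a _ h2
    rw [a_true h1, a_false h1] at h3
    exact congrArg Prod.fst h3

theorem NP (hv : L.arc.Valid) {m : ℕ} (h1 : 1 ≤ m) {z : X} (hz : z ∈ L.D)
    (hm : m ≤ L.l z) : N L m (P L m z) = z := by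
  have h2 : (z, m, false) ∈ L.arc.D := ⟨hz, hm, fun h0 => by
    have h3 : m = 0 := h0
    omega⟩
  have h3 := hv.a_a _ h2
  rw [a_false h1, a_true h1] at h3
  exact congrArg Prod.fst h3

theorem P_mem (hv : L.arc.Valid) {m : ℕ} (h1 : 1 ≤ m) {z : X} (hz : z ∈ L.D)
    (hm : m ≤ L.l z) : P L m z ∈ L.D ∧ m ≤ L.l (P L m z) := by
  have h2 : (z, m, false) ∈ L.arc.D := ⟨hz, hm, fun h0 => by
    have h3 : m = 0 := h0
    omega⟩
  have h3 := hv.a_mem _ h2
  rw [a_false h1] at h3
  exact ⟨h3.1, h3.2.1⟩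

section main

variable {Γ : Type} [Group Γ] {c : X × ℕ × Bool → Γ} {g : X → Γ}

/-- all arcs of the type `true` -/
theorem claim (h : L.Good) (hv : L.arc.Valid) (ha : ∀ d ∈ L.arc.D, c (L.arc.a d) = (c d)⁻¹)
    (hf : ∀ d ∈ L.arc.D, ∀ n : ℕ, 0 < n → (fun x => L.arc.a (L.arc.s x))^[n] d = d →
      L.arc.faceProd c d n = 1)
    (hg : ∀ x ∈ L.D, g (L.s x) = g x)
    (h0 : ∀ x ∈ L.D, c (x, 0, true) = (g x)⁻¹ * g (L.a x)) (m : ℕ) :
    ∀ x ∈ L.D, m ≤ L.l x → c (x, m, true) = (g x)⁻¹ * g (N L m x) := by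
  induction m with
  | zero =>
    intro x hx _
    rw [h0 x hx, N_zero]
    have h1 := h.valid.a_mem _ hx
    have h2 := hg _ (h.si_mem _ h1)
    rw [h.s_si _ h1] at h2
    rw [h2]
  | succ m ih =>
    intro x hx hm
    obtain ⟨n, hn⟩ : ∃ n, n = L.nx (m + 1) x := ⟨_, rfl⟩
    obtain ⟨hn1, hn2⟩ := nx_spec h hx (m + 1)
    obtain ⟨y, hy⟩ : ∃ y, y = N L (m + 1) x := ⟨_, rfl⟩
    have hyn : y = L.tau^[n] x := by rw [hy, hn]; rfl
    rw [← hn] at hn1 hn2
    rw [← hyn] at hn2
    have hyD : y ∈ L.D := by rw [hyn]; exact tau_it_mem h hx n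
    obtain ⟨d0, hd0⟩ : ∃ d0 : X × ℕ × Bool, d0 = (y, m + 1, false) := ⟨_, rfl⟩
    have hd0D : d0 ∈ L.arc.D := by
      rw [hd0]
      exact ⟨hyD, hn2, fun h3 => by
        have h4 : m + 1 = 0 := h3
        omega⟩
    -- the walk from the corner `y` back to the corner `x`
    have key : ∀ r : ℕ, ∀ j : ℕ, j < n → n - j ≤ r → m ≤ L.l (L.tau^[j] x) →
        ∃ k : ℕ, (F L)^[k + 1] d0 = (L.tau^[j] x, m, true) ∧
          L.arc.faceProd c d0 (k + 1) = (g (N L m (L.tau^[j] x)))⁻¹ * g y * c d0 := by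
      intro r
      induction r with
      | zero =>
        intro j hj hr _
        omega
      | succ r ihr =>
        intro j hj hr hjm
        have hu : L.tau^[j] x ∈ L.D := tau_it_mem h hx j
        obtain ⟨q1, q2⟩ := nx_spec h hu m
        have hN : N L m (L.tau^[j] x) = L.tau^[L.nx m (L.tau^[j] x) + j] x := by
          rw [Function.iterate_add_apply]
          rfl
        have hPN := PN h hv hu hjm
        have hle : L.nx m (L.tau^[j] x) ≤ n - j := by
          apply nx_le (by omega)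
          rw [← Function.iterate_add_apply, show n - j + j = n by omega, ← hyn]
          omega
        rcases Nat.lt_or_ge (L.nx m (L.tau^[j] x) + j) n with hlt | hge
        · -- an intermediate corner
          have e1 : m ≤ L.l (L.tau^[L.nx m (L.tau^[j] x) + j] x) := by
            rw [Function.iterate_add_apply]
            exact q2
          obtain ⟨k, hk1, hk2⟩ := ihr (L.nx m (L.tau^[j] x) + j) hlt (by omega) e1
          have e2 : L.l (L.tau^[L.nx m (L.tau^[j] x) + j] x) < m + 1 :=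
            nx_lt (by omega) (by rw [← hn]; exact hlt)
          refine ⟨k + 1, ?_, ?_⟩
          · rw [Function.iterate_succ_apply', hk1, F2 (by omega), ← hN, hPN]
          · have e3 : L.arc.faceProd c d0 (k + 1 + 1) =
                c ((F L)^[k + 1] d0) * L.arc.faceProd c d0 (k + 1) := rfl
            rw [e3, hk1, hk2, ih _ (tau_it_mem h hx _) e1, ← hN]
            group
        · -- the last step
          have e1 : L.nx m (L.tau^[j] x) + j = n := by omega
          rw [e1, ← hyn] at hN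
          refine ⟨0, ?_, ?_⟩
          · show F L d0 = _
            rw [hd0, F1, ← hN, hPN]
          · have e3 : L.arc.faceProd c d0 (0 + 1) = c d0 * 1 := rfl
            rw [e3, hN]
            group
    obtain ⟨k, hk1, hk2⟩ := key n 0 (by omega) (by omega) (by
      show m ≤ L.l x
      omega)
    have hk3 : (F L)^[k + 1] d0 = (x, m, true) := hk1
    have hk4 : L.arc.faceProd c d0 (k + 1) = (g (N L m x))⁻¹ * g y * c d0 := hk2
    have hcl : (F L)^[k + 1 + 1] d0 = d0 := by
      rw [Function.iterate_succ_apply', hk3, F3 (by omega), ← hy, hd0]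
    have h1 := hf d0 hd0D (k + 1 + 1) (by omega) hcl
    have h2 : L.arc.faceProd c d0 (k + 1 + 1) =
        c ((F L)^[k + 1] d0) * L.arc.faceProd c d0 (k + 1) := rfl
    rw [h2, hk3, hk4, ih x hx (by omega)] at h1
    have h3 : L.arc.a (x, m + 1, true) = d0 := by
      rw [a_true (by omega), ← hy, hd0]
    have h4 := ha (x, m + 1, true) ⟨hx, hm, fun _ => rfl⟩
    rw [h3] at h4
    rw [h4] at h1
    rw [← hy]
    have h5 : (g x)⁻¹ * g y * (c (x, m + 1, true))⁻¹ = 1 := by
      rw [← h1]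
      group
    exact (mul_inv_eq_one.1 h5).symm

theorem arcs (h : L.Good) (hv : L.arc.Valid) (ha : ∀ d ∈ L.arc.D, c (L.arc.a d) = (c d)⁻¹)
    (hf : ∀ d ∈ L.arc.D, ∀ n : ℕ, 0 < n → (fun x => L.arc.a (L.arc.s x))^[n] d = d →
      L.arc.faceProd c d n = 1)
    (hg : ∀ x ∈ L.D, g (L.s x) = g x)
    (h0 : ∀ x ∈ L.D, c (x, 0, true) = (g x)⁻¹ * g (L.a x)) :
    ∀ d ∈ L.arc.D, c d = (g d.1)⁻¹ * g (L.arc.a d).1 := by
  have hc := claim h hv ha hf hg h0
  rintro ⟨x, m, b⟩ ⟨hx, hm, hb⟩
  have hx' : x ∈ L.D := hx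
  have hm' : m ≤ L.l x := hm
  rcases Nat.eq_zero_or_pos m with rfl | h1
  · have hb' : b = true := hb rfl
    subst hb'
    rw [a_zero]
    exact h0 x hx'
  · cases b with
    | true =>
      rw [a_true h1]
      exact hc m x hx' hm'
    | false =>
      obtain ⟨z1, z2⟩ := P_mem hv h1 hx' hm'
      have h2 := hc m (P L m x) z1 z2
      rw [NP hv h1 hx' hm'] at h2
      have h3 : (x, m, false) ∈ L.arc.D := ⟨hx, hm, hb⟩
      have h4 := ha _ h3
      rw [a_false h1, h2] at h4
      rw [a_false h1]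
      show c (x, m, false) = (g x)⁻¹ * g (P L m x)
      rw [← inv_inv (c (x, m, false)), ← h4]
      group

end main

/-- the potential on the tree -/
def gw {Γ : Type} [Group Γ] (c : (List ℕ × ℕ) × ℕ × Bool → Γ) : List ℕ → Γ
  | [] => 1
  | i :: w => gw c w * c ((w, i), 0, true)

end Pool.Agent.N276.MB.Simply

namespace Pool.Agent.N276.MB

open Simply in
theorem arc_simply : StmArcValid → StmTree → StmArcSimply := by
  intro hval _ D ω hD hgood Γ _ c ha hf
  have hv := hval _ _ hgood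
  have h0 : ∀ x ∈ (tree D ω).D, c (x, 0, true) = (gw c x.1)⁻¹ * gw c ((tree D ω).a x).1 := by
    rintro ⟨w, i⟩ hx
    have hm : (((w, i), 0, true) : (List ℕ × ℕ) × ℕ × Bool) ∈ (tree D ω).arc.D :=
      ⟨hx, Nat.zero_le _, fun _ => rfl⟩
    have h1 := ha _ hm
    rw [a_zero] at h1
    rcases w with _ | ⟨j, w⟩
    · show c (([], i), 0, true) = (1 : Γ)⁻¹ * (1 * c (([], i), 0, true))
      group
    · rcases i with _ | i
      · show c ((j :: w, 0), 0, true) = (gw c w * c ((w, j), 0, true))⁻¹ * gw c w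
        have h2 : c ((w, j), 0, true) = (c ((j :: w, 0), 0, true))⁻¹ := h1
        rw [h2]
        group
      · show c ((j :: w, i + 1), 0, true) =
          (gw c (j :: w))⁻¹ * (gw c (j :: w) * c ((j :: w, i + 1), 0, true))
        group
  have hg : ∀ x ∈ (tree D ω).D, gw c ((tree D ω).s x).1 = gw c x.1 := fun x _ => rfl
  have h2 := arcs (g := fun x => gw c x.1) hgood hv ha hf hg h0
  refine ⟨fun d => gw c d.1.1, ?_, h2⟩
  rintro ⟨x, m, b⟩ _
  show gw c ((tree D ω).arc.s (x, m, b)).1.1 = gw c x.1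
  have h3 : ((tree D ω).arc.s (x, m, b)).1.1 = x.1 := by
    show (if b = true then
        (if m < (tree D ω).l x then (x, m + 1, true)
          else if m = 0 then ((tree D ω).s x, 0, true) else (x, m, false))
      else (if m ≤ 1 then ((tree D ω).s x, 0, true) else (x, m - 1, false))).1.1 = x.1
    split_ifs <;> rfl
  rw [h3]

end Pool.Agent.N276.MB
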