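import Pool.Agent.N276.MB.Cst

/-!
# The statements of the parts of the proof
-/

set_option autoImplicit false

open MeasureTheory Set Filter Topology
open scoped ENNReal Classical

namespace Pool.Agent.N276.MB

/-! ### the map with arcs -/

def StmArcValid : Prop := ∀ (X : Type) (L : LMap X), L.Good → L.arc.Valid

/-- the positions in a corner with label `k` -/
def slots (k : ℕ) : Finset (ℕ × Bool) :=
  (Finset.range (k + 1) ×ˢ {true, false}).filter fun q => q.1 = 0 → q.2 = true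

/-- the vertices of the map with arcs -/
def StmArcVertex : Prop := ∀ (X : Type) (L : LMap X), L.Good → ∀ p ∈ L.arc.D,
  L.arc.deg p = (2 * L.l p.1 + 1) * L.deg p.1 ∧
  (∀ q, L.arc.SameV p q ↔ q ∈ L.arc.D ∧ L.SameV p.1 q.1) ∧
  ∀ h : X × ℕ × Bool → ℝ≥0∞, ∑ i ∈ Finset.range (L.arc.deg p), h (L.arc.s^[i] p) =
    ∑ j ∈ Finset.range (L.deg p.1), ∑ q ∈ slots (L.l p.1), h (L.s^[j] p.1, q)

def StmArcIso : Prop := ∀ (X : Type) (L L' : LMap X) (e : X → X), L.Good → L'.Good → LIso L L' e →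
  IsIso L.arc ∅ L'.arc ∅ fun p => (e p.1, p.2)

def StmArcSimply : Prop := ∀ (D : ℕ → ℕ) (ω : List ℕ → ℕ), (∀ k, 3 ≤ D k) → (tree D ω).Good →
  (tree D ω).arc.SimplyConnected

/-! ### the tree -/

/-- the elementary properties of the tree -/
def StmTree : Prop := ∀ (D : ℕ → ℕ) (ω : List ℕ → ℕ), (∀ k, 3 ≤ D k) →
  (tree D ω).Valid ∧ (∀ c ∈ (tree D ω).D, (tree D ω).si c ∈ (tree D ω).D) ∧
  (∀ c ∈ (tree D ω).D, (tree D ω).si ((tree D ω).s c) = c) ∧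
  (∀ c ∈ (tree D ω).D, (tree D ω).s ((tree D ω).si c) = c) ∧
  (∀ c ∈ (tree D ω).D, (tree D ω).deg c = D (ω c.1)) ∧
  (∀ c ∈ (tree D ω).D, ∀ c', (tree D ω).SameV c c' ↔ c'.1 = c.1 ∧ c'.2 < D (ω c.1)) ∧
  (∀ c ∈ (tree D ω).D, (tree D ω).Conn ∅ rt c)

def StmRotIso : Prop := ∀ (D : ℕ → ℕ) (ω : List ℕ → ℕ), (∀ k, 3 ≤ D k) →
  LIso (tree D (rot D ω)) (tree D ω) (rotD (D (ω []))) ∧
  rotD (D (ω [])) rt = (tree D ω).s rt

def StmFlipIso : Prop := ∀ (D : ℕ → ℕ) (ω : List ℕ → ℕ), (∀ k, 3 ≤ D k) →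
  LIso (tree D (flip ω)) (tree D ω) flipD ∧ flipD rt = (tree D ω).a rt

/-- `ω'` is obtained from `ω` by rotations and reversals of the root dart -/
def Reach (D : ℕ → ℕ) : (List ℕ → ℕ) → (List ℕ → ℕ) → Prop :=
  Relation.ReflTransGen fun ω ω' => ω' = rot D ω ∨ ω' = flip ω

/-- every corner can be made the root corner -/
def StmReroot : Prop := ∀ (D : ℕ → ℕ) (ω : List ℕ → ℕ), (∀ k, 3 ≤ D k) →
  ∀ c ∈ (tree D ω).D, ∃ ω' e, Reach D ω ω' ∧ LIso (tree D ω') (tree D ω) e ∧ e rt = c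

/-! ### probability -/

def StmProb : Prop := IsProbabilityMeasure geo ∧ IsProbabilityMeasure mu ∧
  IsProbabilityMeasure law

def StmPres : Prop := ∀ D : ℕ → ℕ, (∀ k, 3 ≤ D k) →
  MeasurePreserving (rot D) mu mu ∧ MeasurePreserving flip mu mu

/-- the four half-lines which start at the root edge, in the two faces at this edge -/
def half (D : ℕ → ℕ) (ω : List ℕ → ℕ) : Fin 4 → ℕ → List ℕ × ℕ :=
  ![fun j => (tree D ω).tau'^[j] rt, fun j => (tree D ω).tau^[j + 1] rt,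
    fun j => (tree D ω).tau^[j] ((tree D ω).si rt),
    fun j => (tree D ω).tau'^[j + 1] ((tree D ω).si rt)]

/-- the labels on these half-lines are independent and geometric -/
def StmWindow : Prop := ∀ (D : ℕ → ℕ), (∀ k, 3 ≤ D k) → ∀ (a : Fin 4) (m n : ℕ),
  mu {ω | ∀ j < n, ω (half D ω a j).1 < m} = (1 - (2 : ℝ≥0∞)⁻¹ ^ m) ^ n

def StmGoodAE : Prop := ∀ D : ℕ → ℕ, (∀ k, 3 ≤ D k) → ∀ᵐ ω ∂mu, (tree D ω).Good

/-- on each of the four half-lines a label `≥ i + 1` appears among the first `n i` labels -/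
def Ev (D : ℕ → ℕ) (n : ℕ → ℕ) (ω : List ℕ → ℕ) : Prop :=
  ∀ (a : Fin 4) (i : ℕ), ∃ j < n i, i + 1 ≤ ω (half D ω a j).1

def StmEvent : Prop := ∃ n : ℕ → ℕ, ∀ D : ℕ → ℕ, (∀ k, 3 ≤ D k) → 0 < mu {ω | Ev D n ω}

def StmMeas : Prop := ∀ D : ℕ → ℕ, (∀ k, 3 ≤ D k) →
  (∀ p, MeasurableSet {ω | p ∈ (tree D ω).arc.D}) ∧
  (∀ p q, MeasurableSet {ω | (tree D ω).arc.s p = q}) ∧
  (∀ p q, MeasurableSet {ω | (tree D ω).arc.a p = q}) ∧
  ∀ n, MeasurableSet {ω | Ev D n ω}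

def StmReversible : Prop := ∀ D : ℕ → ℕ, (∀ k, 3 ≤ D k) →
  Reversible law (fun ω => (tree D ω).arc) (fun _ => ∅) fun _ => root

/-! ### topology of the map -/

def StmPlane : Prop := ∀ (D : ℕ → ℕ) (ω : List ℕ → ℕ), (∀ k, 3 ≤ D k) → (tree D ω).Good →
  (tree D ω).arc.PlaneMap ∧ root ∈ (tree D ω).arc.D

def StmOneEnded : Prop := ∀ (D : ℕ → ℕ) (ω : List ℕ → ℕ), (∀ k, 3 ≤ D k) → (tree D ω).Good →
  (tree D ω).arc.OneEnded

/-! ### amenability -/

/-- half of the darts at the vertices of degree `N` of `K` is at most the number of the edges which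
leave `K`, for all finite sets `K` of vertices (rotation invariant finite sets of darts) -/
def Iso0 {V : Type} (M : CMap V) (N : ℕ) : Prop :=
  ∀ K : Set V, K.Finite → K ⊆ M.D → (∀ d ∈ K, M.s d ∈ K) →
    {d ∈ K | M.deg d = N}.ncard ≤ 2 * {d ∈ K | M.a d ∉ K}.ncard

/-- one step of the walk on the open edges of the percolation `W` (the walk stays where it is if the
chosen edge is closed) -/
noncomputable def CMap.Q {V : Type} (M : CMap V) (W : Set V) (h : V → ℝ≥0∞) (d : V) : ℝ≥0∞ :=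
  M.avg (fun d' => if d' ∈ W then h (M.a d') else h d') d

/-- on a finite cluster the time averages converge to the mean over the darts of the cluster -/
def StmErgodic : Prop := ∀ (V : Type) (M : CMap V) (W : Set V) (d : V) (h : V → ℝ≥0∞) (C : ℝ≥0∞),
  M.Valid → (∀ x ∈ M.D, x ∈ W ↔ M.a x ∈ W) → d ∈ M.D → (M.cluster W d).Finite → C ≠ ⊤ →
  (∀ x, h x ≤ C) → (∀ x ∈ M.D, h (M.s x) = h x) →
  Tendsto (fun n : ℕ => (∑ k ∈ Finset.range n, (M.Q W)^[k] h d) / n) atTop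
    (𝓝 ((∑' x : M.cluster W d, h x) / (M.cluster W d).encard))

def StmNonAmenable : Prop := ∀ (V Ω : Type) [Countable V] [MeasurableSpace Ω] (P : Measure Ω)
  [IsProbabilityMeasure P] (X : RandomMap V Ω P) (N : ℕ), (∀ᵐ ω ∂P, Iso0 (X.M ω) N) →
  0 < P {ω | (X.M ω).deg (X.r ω) = N} → ¬ InvariantlyAmenable X

def StmIso0 : Prop := ∀ (D : ℕ → ℕ) (ω : List ℕ → ℕ), (∀ k, 4 ≤ D k) → (∀ k, D 0 ≤ D k) →
  (tree D ω).Good → Iso0 (tree D ω).arc (D 0)

/-! ### Green's function -/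

def StmGreenIso : Prop := ∀ (V : Type) (M M' : CMap V) (W W' : Set V) (e : V → V), M.Valid →
  M'.Valid → IsIso M W M' W' e → ∀ x ∈ M.D, ∀ y ∈ M.D, M'.green (e x) (e y) = M.green x y

/-- the bound by the energy of a flow in the tree, at the root -/
def StmGreenRoot : Prop := ∀ (D : ℕ → ℕ) (ω : List ℕ → ℕ), (∀ k, 3 ≤ D k) → (tree D ω).Good →
  (tree D ω).arc.green root root ≤ 2 * (2 * (ω [] : ℝ≥0∞) + 1)

def StmGreen : Prop := ∀ (D : ℕ → ℕ) (ω : List ℕ → ℕ), (∀ k, 3 ≤ D k) → (tree D ω).Good →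
  ∀ x ∈ (tree D ω).arc.D, ∀ y ∈ (tree D ω).arc.D,
    (tree D ω).arc.green x y ≤ 2 * (2 * (ω y.1.1 : ℝ≥0∞) + 1)

/-- the maximum principle -/
def StmMax : Prop := ∀ (V : Type) (M : CMap V), M.Valid → ∀ x ∈ M.D, ∀ y ∈ M.D,
  M.green x y ≤ M.green y y

/-- last passage from `A` to its complement -/
def StmCross : Prop := ∀ (V : Type) (M : CMap V), M.Valid → ∀ A : Set V,
  (∀ d ∈ M.D, d ∈ A ↔ M.s d ∈ A) → ∀ x ∈ M.D, x ∈ A → ∀ y ∈ M.D, y ∉ A →
    M.green x y ≤ ∑' d : {d | d ∈ M.D ∧ d ∈ A ∧ M.a d ∉ A},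
      M.green x d / M.deg d * M.green (M.a d) y

/-- one step of the walk -/
def StmStep : Prop := ∀ (V : Type) (M : CMap V), M.Valid → ∀ x ∈ M.D, ∀ y ∈ M.D,
  ∀ d, M.SameV x d → M.green (M.a d) y ≤ M.deg x * M.green x y

/-- the growth condition for the degrees -/
def Growth (n D : ℕ → ℕ) : Prop := Monotone D ∧
  ∀ m, 2 ^ (m + 10) * ∏ i ∈ Finset.range m, ((2 * i + 1) * D i) ^ n i ≤ D m

def StmGrowth : Prop := ∀ n : ℕ → ℕ, ∃ D, Growth n D

/-- the side of the root edge which does not contain the root -/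
def side : Set ((List ℕ × ℕ) × ℕ × Bool) := {p | ∃ w, p.1.1 = w ++ [0]}

/-- the first corner with label at least `m` on the half-line `a` -/
noncomputable def fst (D : ℕ → ℕ) (ω : List ℕ → ℕ) (a : Fin 4) (m : ℕ) : List ℕ × ℕ :=
  half D ω a (sInf {j | m ≤ ω (half D ω a j).1})

/-- The edges between the two sides of the root edge: the root edge itself and, for each type
`m ≥ 1`, one arc in each of the two faces at the root edge. -/
def StmCrossList : Prop := ∀ (D : ℕ → ℕ) (ω : List ℕ → ℕ), (∀ k, 3 ≤ D k) → (tree D ω).Good →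
  (∀ (a : Fin 4) (m : ℕ), (fst D ω a m, m, decide (a = 0 ∨ a = 3)) ∈ (tree D ω).arc.D ∨ m = 0) ∧
  (∀ (a : Fin 4) (m : ℕ), m ≤ ω (fst D ω a m).1) ∧
  (∀ d ∈ (tree D ω).arc.D, d ∉ side → (tree D ω).arc.a d ∈ side →
    (d = root) ∨ ∃ m, 1 ≤ m ∧
      ((d = (fst D ω 0 m, m, true) ∧ (tree D ω).arc.a d = (fst D ω 1 m, m, false)) ∨
        (d = (fst D ω 2 m, m, false) ∧ (tree D ω).arc.a d = (fst D ω 3 m, m, true)))) ∧
  ∀ d ∈ (tree D ω).arc.D, d ∈ side → (tree D ω).arc.a d ∉ side →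
    (d = (tree D ω).arc.a root) ∨ ∃ m, 1 ≤ m ∧
      ((d = (fst D ω 1 m, m, false) ∧ (tree D ω).arc.a d = (fst D ω 0 m, m, true)) ∨
        (d = (fst D ω 3 m, m, true) ∧ (tree D ω).arc.a d = (fst D ω 2 m, m, false)))

/-- the way from the root edge along the half-line `a` to the first corner with label `≥ m` -/
def StmPath : Prop := ∀ (D n : ℕ → ℕ) (ω : List ℕ → ℕ), (∀ k, 3 ≤ D k) → (tree D ω).Good →
  Ev D n ω → ∀ (a : Fin 4) (m : ℕ), ∀ y ∈ (tree D ω).arc.D,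
    (tree D ω).arc.green (fst D ω a m, 0, true) y ≤
      (∏ i ∈ Finset.range m, ((2 * i + 1) * D i) ^ n i : ℕ) *
        (tree D ω).arc.green (if a = 0 ∨ a = 2 then root else (tree D ω).arc.a root) y

/-- the jump of the Martin kernel across the root edge -/
def StmJump : Prop := ∀ (n D : ℕ → ℕ) (ω : List ℕ → ℕ), Growth n D → (tree D ω).Good →
  Ev D n ω →
  (∀ y ∈ (tree D ω).arc.D, y ∈ side → 100 * (tree D ω).arc.green root y ≤
    (tree D ω).arc.green ((tree D ω).arc.a root) y) ∧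
  (∀ y ∈ (tree D ω).arc.D, y ∉ side → 100 * (tree D ω).arc.green ((tree D ω).arc.a root) y ≤
    (tree D ω).arc.green root y)

/-- a jump of the Martin kernel disconnects the Martin boundary -/
def StmTop : Prop := ∀ (V : Type) [Countable V] (M : CMap V), M.PlaneMap → ∀ r ∈ M.D, ∀ x ∈ M.D,
  (∀ u ∈ M.D, ∀ y ∈ M.D, M.green u y ≠ ⊤) → ∀ B : Set V, (M.D ∩ B).Infinite →
  (M.D \ B).Infinite →
  (∀ y ∈ M.D, y ∈ B → 100 * M.green r y ≤ M.green x y) →
  (∀ y ∈ M.D, y ∉ B → 100 * M.green x y ≤ M.green r y) →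
  ¬ IsPreconnected (M.martinBoundary r) ∧ ¬ Nonempty (M.martinBoundary r ≃ₜ Circle)

/-! ### the final statement -/

/-- the disproof of clause (2) -/
def StmFinal : Prop := ∃ (V Ω : Type) (_ : Countable V) (_ : MeasurableSpace Ω) (P : Measure Ω)
  (_ : IsProbabilityMeasure P) (X : RandomMap V Ω P),
  Reversible P X.M (fun _ => ∅) X.r ∧
  (∀ᵐ ω ∂P, (X.M ω).OneEnded ∧ ∀ x ∈ (X.M ω).D, ∀ y ∈ (X.M ω).D, (X.M ω).green x y ≠ ⊤) ∧
  ¬ InvariantlyAmenable X ∧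
  ∃ E : Set Ω, MeasurableSet E ∧ 0 < P E ∧ ∀ ω ∈ E,
    ¬ IsPreconnected ((X.M ω).martinBoundary (X.r ω)) ∧
    ¬ Nonempty ((X.M ω).martinBoundary (X.r ω) ≃ₜ Circle)

end Pool.Agent.N276.MB
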