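import Pool.Agent.N276.MB.Stm

/-!
# A jump of the Martin kernel disconnects the Martin boundary
-/

set_option autoImplicit false

open MeasureTheory Set Filter Topology
open scoped ENNReal Classical

namespace Pool.Agent.N276.MB

namespace Top

variable {V : Type} {M : CMap V}

theorem iter_mem (hv : M.Valid) {x : V} (hx : x ∈ M.D) (n : ℕ) : M.s^[n] x ∈ M.D := by
  induction n with
  | zero => exact hx
  | succ n ih =>
    rw [Function.iterate_succ_apply']
    exact hv.s_mem _ ih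

theorem sameV_mem (hv : M.Valid) {x y : V} (hx : x ∈ M.D) (h : M.SameV x y) : y ∈ M.D := by
  obtain ⟨n, rfl⟩ := h
  exact iter_mem hv hx n

theorem sameV_refl (x : V) : M.SameV x x := ⟨0, rfl⟩

theorem sameV_s {x y : V} (h : M.SameV x y) : M.SameV x (M.s y) := by
  obtain ⟨n, rfl⟩ := h
  exact ⟨n + 1, Function.iterate_succ_apply' M.s n x⟩

theorem sameV_symm (hv : M.Valid) {x y : V} (hx : x ∈ M.D) (h : M.SameV x y) : M.SameV y x := by
  obtain ⟨n, rfl⟩ := h
  obtain ⟨p, hp, hpx⟩ := hv.per x hx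
  have h1 : ∀ k : ℕ, M.s^[p * k] x = x := by
    intro k
    induction k with
    | zero => rfl
    | succ k ih =>
      rw [Nat.mul_succ, Nat.add_comm, Function.iterate_add_apply, ih, hpx]
  refine ⟨p * n - n, ?_⟩
  rw [← Function.iterate_add_apply]
  have h2 : n ≤ p * n := Nat.le_mul_of_pos_left n hp
  rw [Nat.sub_add_cancel h2]
  exact h1 n

theorem green_self_pos (hv : M.Valid) {x y : V} (hx : x ∈ M.D) (h : M.SameV x y) :
    0 < M.green x y := by
  unfold CMap.green
  refine lt_of_lt_of_le ?_ (ENNReal.le_tsum 0)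
  rw [Function.iterate_zero, id, if_pos (sameV_symm hv hx h)]
  exact one_pos

theorem green_pos (hs : StmStep) (hv : M.Valid) {y : V} (hy : y ∈ M.D) {z : V}
    (hz : M.Conn ∅ z y) : z ∈ M.D → ∀ w ∈ M.D, M.SameV w z → 0 < M.green w y := by
  unfold CMap.Conn at hz
  induction hz using Relation.ReflTransGen.head_induction_on with
  | refl =>
    intro _ w hw hwy
    exact green_self_pos hv hw hwy
  | head h1 h2 ih =>
    rename_i z z'
    intro hz w hw hwz
    obtain ⟨h3 | h3, -⟩ := h1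
    · refine ih (h3 ▸ hv.s_mem _ hz) w hw ?_
      rw [h3]
      exact sameV_s hwz
    · have h4 : z' ∈ M.D := h3 ▸ hv.a_mem _ hz
      have h5 := ih h4 z' h4 (sameV_refl z')
      have h6 := hs V M hv w hw y hy z hwz
      rw [← h3] at h6
      by_contra h7
      have h8 : M.green w y = 0 := nonpos_iff_eq_zero.1 (not_lt.1 h7)
      rw [h8, mul_zero] at h6
      exact absurd (lt_of_lt_of_le h5 h6) (lt_irrefl _)

theorem green_le (hs : StmStep) (hv : M.Valid) {r : V} (hr : r ∈ M.D) {z : V}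
    (hz : M.Conn ∅ r z) : z ∈ M.D ∧ ∃ C : ℝ≥0∞, C ≠ ⊤ ∧ ∀ y ∈ M.D, M.green z y ≤ C * M.green r y := by
  unfold CMap.Conn at hz
  induction hz with
  | refl => exact ⟨hr, 1, ENNReal.one_ne_top, fun y _ => by rw [one_mul]⟩
  | tail h1 h2 ih =>
    rename_i z z'
    obtain ⟨hz, C, hC, h3⟩ := ih
    obtain ⟨h4 | h4, -⟩ := h2
    · have hz' : z' ∈ M.D := h4 ▸ hv.s_mem _ hz
      refine ⟨hz', (M.deg (M.a z') : ℝ≥0∞) * ((M.deg z : ℝ≥0∞) * C), ?_, fun y hy => ?_⟩
      · exact ENNReal.mul_ne_top (ENNReal.natCast_ne_top _)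
          (ENNReal.mul_ne_top (ENNReal.natCast_ne_top _) hC)
      · have h5 : M.green (M.a (M.a z')) y ≤ M.deg (M.a z') * M.green (M.a z') y :=
          hs V M hv _ (hv.a_mem _ hz') y hy _ (sameV_refl _)
        rw [hv.a_a _ hz'] at h5
        have h6 : M.green (M.a z') y ≤ M.deg z * M.green z y :=
          hs V M hv z hz y hy z' (by rw [h4]; exact sameV_s (sameV_refl z))
        calc M.green z' y ≤ M.deg (M.a z') * M.green (M.a z') y := h5
          _ ≤ M.deg (M.a z') * (M.deg z * M.green z y) := by gcongr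
          _ ≤ M.deg (M.a z') * (M.deg z * (C * M.green r y)) := by
            gcongr
            exact h3 y hy
          _ = (M.deg (M.a z') : ℝ≥0∞) * ((M.deg z : ℝ≥0∞) * C) * M.green r y := by ring
    · have hz' : z' ∈ M.D := h4 ▸ hv.a_mem _ hz
      refine ⟨hz', (M.deg z : ℝ≥0∞) * C, ENNReal.mul_ne_top (ENNReal.natCast_ne_top _) hC,
        fun y hy => ?_⟩
      have h6 : M.green (M.a z) y ≤ M.deg z * M.green z y :=
        hs V M hv z hz y hy z (sameV_refl z)
      rw [← h4] at h6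
      calc M.green z' y ≤ M.deg z * M.green z y := h6
        _ ≤ M.deg z * (C * M.green r y) := by
          gcongr
          exact h3 y hy
        _ = (M.deg z : ℝ≥0∞) * C * M.green r y := by ring

/-- Limit points of the Martin kernels. -/
theorem exists_limit {r x : V} {K : Set (V → ℝ)} (hK : IsCompact K)
    (hmem : ∀ y ∈ M.D, M.kernel r y ∈ K) {Y : Set V} (hY : Y ⊆ M.D) (hinf : Y.Infinite)
    {F : Set ℝ} (hF : IsClosed F) (hYF : ∀ y ∈ Y, M.kernel r y x ∈ F) :
    ∃ ξ ∈ M.martinBoundary r, ξ x ∈ F := by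
  have hne : (cofinite ⊓ 𝓟 Y : Filter V).NeBot := by
    rw [neBot_iff, ne_eq, inf_principal_eq_bot, mem_cofinite, compl_compl]
    exact hinf
  have hle : map (M.kernel r) (cofinite ⊓ 𝓟 Y) ≤ 𝓟 K := by
    rw [le_principal_iff, mem_map]
    refine mem_inf_of_right ?_
    intro y hy
    exact hmem y (hY hy)
  obtain ⟨ξ, -, hξ⟩ := hK (f := map (M.kernel r) (cofinite ⊓ 𝓟 Y)) hle
  have key : ∀ S : Set V, S.Finite → ξ ∈ closure {κ | ∃ y ∈ Y, y ∉ S ∧ κ = M.kernel r y} := by
    intro S hS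
    rw [mem_closure_iff_clusterPt]
    refine hξ.mono ?_
    rw [le_principal_iff, mem_map]
    refine mem_of_superset (inter_mem_inf (hS.compl_mem_cofinite) (mem_principal_self Y)) ?_
    rintro y ⟨hy1, hy2⟩
    exact ⟨y, hy2, hy1, rfl⟩
  refine ⟨ξ, fun S hS => ?_, ?_⟩
  · refine closure_mono ?_ (key S hS)
    rintro κ ⟨y, hy, hyS, rfl⟩
    exact ⟨y, hY hy, hyS, rfl⟩
  · have h1 : IsClosed {κ : V → ℝ | κ x ∈ F} := hF.preimage (continuous_apply x)
    refine closure_minimal ?_ h1 (key ∅ finite_empty)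
    rintro κ ⟨y, hy, -, rfl⟩
    exact hYF y hy

end Top

open Pool.Agent.N276.MB.Top in
/-- A jump of the kernel disconnects the Martin boundary. -/
theorem top : StmStep → StmTop := by
  intro hs V _ M hM r hr x hx hfin B hB hB' h1 h2
  have hv := hM.valid
  have hpos : ∀ u ∈ M.D, ∀ y ∈ M.D, 0 < M.green u y := fun u hu y hy =>
    green_pos hs hv hy (hM.connected u hu y hy) hu u hu (sameV_refl u)
  -- the kernels are bounded
  have hbd : ∀ u : V, ∃ C : ℝ, ∀ y ∈ M.D, M.kernel r y u ∈ Icc 0 C := by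
    intro u
    by_cases hu : u ∈ M.D
    · obtain ⟨-, C, hC, h3⟩ := green_le hs hv hr (hM.connected r hr u hu)
      refine ⟨C.toReal, fun y hy => ?_⟩
      unfold CMap.kernel
      rw [if_pos hu]
      refine ⟨ENNReal.toReal_nonneg, ENNReal.toReal_mono hC ?_⟩
      exact ENNReal.div_le_of_le_mul (h3 y hy)
    · refine ⟨0, fun y _ => ?_⟩
      unfold CMap.kernel
      rw [if_neg hu]
      exact ⟨le_rfl, le_rfl⟩
  choose C hC using hbd
  have hK : IsCompact (Set.pi univ fun u => Icc 0 (C u)) := isCompact_univ_pi fun u => isCompact_Icc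
  have hmem : ∀ y ∈ M.D, M.kernel r y ∈ Set.pi univ fun u => Icc 0 (C u) :=
    fun y hy u _ => hC u y hy
  have hdiv : ∀ y ∈ M.D, M.green x y / M.green r y ≠ ⊤ := fun y hy =>
    ENNReal.div_ne_top (hfin x hx y hy) (hpos r hr y hy).ne'
  have hlarge : ∀ y ∈ M.D ∩ B, M.kernel r y x ∈ Ici (100 : ℝ) := by
    rintro y ⟨hy, hyB⟩
    unfold CMap.kernel
    rw [if_pos hx, mem_Ici]
    have h3 : (100 : ℝ≥0∞) ≤ M.green x y / M.green r y := by
      rw [ENNReal.le_div_iff_mul_le (Or.inl (hpos r hr y hy).ne') (Or.inl (hfin r hr y hy))]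
      exact h1 y hy hyB
    have h4 := ENNReal.toReal_mono (hdiv y hy) h3
    simpa using h4
  have hsmall : ∀ y ∈ M.D \ B, M.kernel r y x ∈ Iic (1 / 100 : ℝ) := by
    rintro y ⟨hy, hyB⟩
    unfold CMap.kernel
    rw [if_pos hx, mem_Iic]
    have h3 : 100 * (M.green x y / M.green r y) ≤ 1 := by
      rw [← mul_div_assoc]
      exact ENNReal.div_le_of_le_mul (by rw [one_mul]; exact h2 y hy hyB)
    have h4 := ENNReal.toReal_mono ENNReal.one_ne_top h3
    rw [ENNReal.toReal_mul] at h4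
    simp only [ENNReal.toReal_ofNat, ENNReal.toReal_one] at h4
    linarith
  obtain ⟨ξ₁, hξ₁, hx₁⟩ := exists_limit hK hmem inter_subset_left hB isClosed_Ici hlarge
  obtain ⟨ξ₂, hξ₂, hx₂⟩ := exists_limit hK hmem sdiff_subset hB' isClosed_Iic hsmall
  have hall : ∀ ξ ∈ M.martinBoundary r, ξ x ∈ Ici (100 : ℝ) ∪ Iic (1 / 100 : ℝ) := by
    intro ξ hξ
    have h3 : IsClosed {κ : V → ℝ | κ x ∈ Ici (100 : ℝ) ∪ Iic (1 / 100 : ℝ)} :=
      (isClosed_Ici.union isClosed_Iic).preimage (continuous_apply x)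
    refine closure_minimal ?_ h3 (hξ ∅ finite_empty)
    rintro κ ⟨y, hy, -, rfl⟩
    by_cases hyB : y ∈ B
    · exact Or.inl (hlarge y ⟨hy, hyB⟩)
    · exact Or.inr (hsmall y ⟨hy, hyB⟩)
  have hnot : ¬ IsPreconnected (M.martinBoundary r) := by
    intro hpre
    have h3 : IsPreconnected ((fun ξ : V → ℝ => ξ x) '' M.martinBoundary r) :=
      hpre.image _ (continuous_apply x).continuousOn
    have h4 : (1 : ℝ) ∈ (fun ξ : V → ℝ => ξ x) '' M.martinBoundary r := by
      refine h3.ordConnected.out ⟨ξ₂, hξ₂, rfl⟩ ⟨ξ₁, hξ₁, rfl⟩ ⟨?_, ?_⟩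
      · have h5 : ξ₂ x ≤ 1 / 100 := hx₂
        change ξ₂ x ≤ 1
        linarith
      · have h5 : 100 ≤ ξ₁ x := hx₁
        change 1 ≤ ξ₁ x
        linarith
    obtain ⟨ξ, hξ, h5⟩ := h4
    have h5' : ξ x = 1 := h5
    rcases hall ξ hξ with h6 | h6
    · rw [h5', mem_Ici] at h6
      norm_num at h6
    · rw [h5', mem_Iic] at h6
      norm_num at h6
  refine ⟨hnot, ?_⟩
  rintro ⟨e⟩
  apply hnot
  have h3 : PreconnectedSpace Circle := by
    refine ⟨?_⟩
    have h4 : Set.range Circle.exp = univ := by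
      rw [eq_univ_iff_forall]
      intro z
      exact ⟨Complex.arg z, Circle.exp_arg z⟩
    rw [← h4]
    exact isPreconnected_range Circle.exp.continuous
  have h4 : PreconnectedSpace (M.martinBoundary r) := by
    refine ⟨?_⟩
    rw [← e.symm.surjective.range_eq]
    exact isPreconnected_range e.symm.continuous
  exact isPreconnected_iff_preconnectedSpace.2 h4

end Pool.Agent.N276.MB
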