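import Pool.Agent.N276.MB.Stm

/-!
# Elementary properties of the tree
-/

set_option autoImplicit false

open MeasureTheory Set Filter Topology
open scoped ENNReal Classical

namespace Pool.Agent.N276.MB

namespace TreeBasic

variable {D : ℕ → ℕ} {ω : List ℕ → ℕ}

theorem s_iter (w : List ℕ) (i j : ℕ) (hi : i < D (ω w)) :
    (tree D ω).s^[j] (w, i) = (w, (i + j) % D (ω w)) := by
  induction j with
  | zero => rw [Function.iterate_zero, id, Nat.add_zero, Nat.mod_eq_of_lt hi]
  | succ j ih =>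
    rw [Function.iterate_succ_apply', ih]
    show (w, ((i + j) % D (ω w) + 1) % D (ω w)) = _
    rw [Nat.mod_add_mod, Nat.add_assoc]

theorem opp_opp {c : List ℕ × ℕ} (hc : Vd D ω c.1) : opp (opp c) = c := by
  obtain ⟨w, i⟩ := c
  cases w with
  | nil => rfl
  | cons j w =>
    cases i with
    | succ i => rfl
    | zero =>
      cases w with
      | nil => rfl
      | cons k w =>
        have h1 : 1 ≤ j := hc.2.2 (List.cons_ne_nil k w)
        obtain ⟨j, rfl⟩ : ∃ j', j = j' + 1 := ⟨j - 1, by omega⟩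
        rfl

theorem opp_ne (c : List ℕ × ℕ) : opp c ≠ c := by
  obtain ⟨w, i⟩ := c
  intro h
  have h2 := congrArg (fun c => c.1.length) h
  cases w with
  | nil => simp [opp] at h2
  | cons j w =>
    cases i with
    | succ i => simp [opp] at h2
    | zero => simp [opp] at h2

theorem opp_mem (hD : ∀ k, 3 ≤ D k) {c : List ℕ × ℕ} (hc : c ∈ (tree D ω).D) :
    opp c ∈ (tree D ω).D := by
  obtain ⟨w, i⟩ := c
  obtain ⟨h1, h2⟩ := hc
  have h1' : Vd D ω w := h1
  have h2' : i < D (ω w) := h2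
  have hpos : ∀ k, 0 < D k := fun k => by have := hD k; omega
  cases w with
  | nil => exact ⟨⟨trivial, h2', fun h => absurd rfl h⟩, hpos _⟩
  | cons j w =>
    cases i with
    | succ i => exact ⟨⟨h1', h2', fun _ => Nat.succ_pos i⟩, hpos _⟩
    | zero => exact ⟨h1'.1, h1'.2.1⟩

theorem opp_up {i : ℕ} {w : List ℕ} (h : Vd D ω (i :: w)) : opp (w, i) = (i :: w, 0) := by
  cases w with
  | nil => rfl
  | cons k w =>
    have h1 : 1 ≤ i := h.2.2 (List.cons_ne_nil k w)
    obtain ⟨i, rfl⟩ : ∃ i', i = i' + 1 := ⟨i - 1, by omega⟩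
    rfl

theorem conn_rot (w : List ℕ) (i j : ℕ) (hi : i < D (ω w)) (hj : j < D (ω w)) :
    (tree D ω).Conn ∅ (w, i) (w, j) := by
  have key : ∀ m : ℕ, (tree D ω).Conn ∅ (w, i) ((tree D ω).s^[m] (w, i)) := by
    intro m
    induction m with
    | zero => exact Relation.ReflTransGen.refl
    | succ m ih =>
      rw [Function.iterate_succ_apply']
      exact ih.tail ⟨Or.inl rfl, fun h => h⟩
  have h := key (D (ω w) - i + j)
  rw [s_iter w i _ hi] at h
  have h2 : (i + (D (ω w) - i + j)) % D (ω w) = j := by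
    have : i + (D (ω w) - i + j) = j + D (ω w) := by omega
    rw [this, Nat.add_mod_right, Nat.mod_eq_of_lt hj]
  rwa [h2] at h

theorem conn_rt (hD : ∀ k, 3 ≤ D k) : ∀ (w : List ℕ) (i : ℕ), Vd D ω w → i < D (ω w) →
    (tree D ω).Conn ∅ rt (w, i) := by
  have hpos : ∀ k, 0 < D k := fun k => by have := hD k; omega
  intro w
  induction w with
  | nil =>
    intro i _ hi
    exact conn_rot [] 0 i (hpos _) hi
  | cons j w ih =>
    intro i hw hi
    have h1 := ih j hw.1 hw.2.1
    have h2 : (tree D ω).Conn ∅ rt (j :: w, 0) :=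
      h1.tail ⟨Or.inr (opp_up hw).symm, fun h => h⟩
    exact h2.trans (conn_rot (j :: w) 0 i (hpos _) hi)

end TreeBasic

open TreeBasic in
/-- **The elementary properties of the tree.** -/
theorem tree_basic : StmTree := by
  intro D ω hD
  have hpos : ∀ k, 0 < D k := fun k => by have := hD k; omega
  have hper : ∀ c ∈ (tree D ω).D, (tree D ω).s^[D (ω c.1)] c = c := by
    rintro ⟨w, i⟩ ⟨h1, h2⟩
    have h2' : i < D (ω w) := h2
    show (tree D ω).s^[D (ω w)] (w, i) = (w, i)
    rw [s_iter w i _ h2', Nat.add_mod_right, Nat.mod_eq_of_lt h2']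
  refine ⟨⟨?_, ?_, ?_, ?_, ?_⟩, ?_, ?_, ?_, ?_, ?_, ?_⟩
  · rintro c ⟨h1, h2⟩
    exact ⟨h1, Nat.mod_lt _ (hpos _)⟩
  · exact fun c hc => opp_mem hD hc
  · exact fun c hc => opp_opp hc.1
  · exact fun c _ => opp_ne c
  · exact fun c hc => ⟨D (ω c.1), hpos _, hper c hc⟩
  · rintro c ⟨h1, h2⟩
    exact ⟨h1, Nat.mod_lt _ (hpos _)⟩
  · rintro ⟨w, i⟩ ⟨h1, h2⟩
    have h2' : i < D (ω w) := h2
    have h3 := hpos (ω w)
    show (w, ((i + 1) % D (ω w) + (D (ω w) - 1)) % D (ω w)) = (w, i)
    congr 1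
    rw [Nat.mod_add_mod]
    have : i + 1 + (D (ω w) - 1) = i + D (ω w) := by omega
    rw [this, Nat.add_mod_right, Nat.mod_eq_of_lt h2']
  · rintro ⟨w, i⟩ ⟨h1, h2⟩
    have h2' : i < D (ω w) := h2
    have h3 := hpos (ω w)
    show (w, ((i + (D (ω w) - 1)) % D (ω w) + 1) % D (ω w)) = (w, i)
    congr 1
    rw [Nat.mod_add_mod]
    have : i + (D (ω w) - 1) + 1 = i + D (ω w) := by omega
    rw [this, Nat.add_mod_right, Nat.mod_eq_of_lt h2']
  · rintro c hc
    have hp : Function.IsPeriodicPt (tree D ω).s (D (ω c.1)) c := hper c hc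
    have hd : Function.minimalPeriod (tree D ω).s c ∣ D (ω c.1) := hp.minimalPeriod_dvd
    refine Nat.dvd_antisymm hd ?_
    have h3 : (tree D ω).s^[Function.minimalPeriod (tree D ω).s c] c = c :=
      Function.iterate_minimalPeriod
    obtain ⟨w, i⟩ := c
    have h2' : i < D (ω w) := hc.2
    have h4 := s_iter w i (Function.minimalPeriod (tree D ω).s (w, i)) h2'
    rw [h3] at h4
    have h5 : i = (i + Function.minimalPeriod (tree D ω).s (w, i)) % D (ω w) :=
      congrArg Prod.snd h4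
    have h6 : (i + Function.minimalPeriod (tree D ω).s (w, i)) % D (ω w) = (i + 0) % D (ω w) := by
      rw [← h5, Nat.add_zero, Nat.mod_eq_of_lt h2']
    have h7 : Function.minimalPeriod (tree D ω).s (w, i) ≡ 0 [MOD D (ω w)] :=
      Nat.ModEq.add_left_cancel' i h6
    exact (Nat.modEq_zero_iff_dvd).1 h7
  · rintro ⟨w, i⟩ hc ⟨w', i'⟩
    have h2' : i < D (ω w) := hc.2
    constructor
    · rintro ⟨j, hj⟩
      rw [s_iter w i j h2'] at hj
      have h3 := congrArg Prod.fst hj
      have h4 := congrArg Prod.snd hj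
      refine ⟨h3.symm, ?_⟩
      show i' < D (ω w)
      have h5 : (i + j) % D (ω w) = i' := h4
      rw [← h5]
      exact Nat.mod_lt _ (hpos _)
    · rintro ⟨h3, h4⟩
      have h3' : w' = w := h3
      have h4' : i' < D (ω w) := h4
      subst h3'
      refine ⟨D (ω w') - i + i', ?_⟩
      rw [s_iter w' i _ h2']
      congr 1
      have : i + (D (ω w') - i + i') = i' + D (ω w') := by omega
      rw [this, Nat.add_mod_right, Nat.mod_eq_of_lt h4']
  · rintro ⟨w, i⟩ ⟨h1, h2⟩
    exact conn_rt hD w i h1 h2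

end Pool.Agent.N276.MB
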