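import Pool.Agent.N276.MB.Stm

/-!
# The labels on the four half-lines at the root edge

Stationarity under moving the root corner along the face gives the law of the labels on the
half-lines; therefore the tree is almost surely good, and the event `Ev` has positive probability.
-/

set_option autoImplicit false

open MeasureTheory Set Filter Topology
open scoped ENNReal Classical

namespace Pool.Agent.N276.MB

namespace Window

/-! ### labelled maps and their isomorphisms -/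

section Iso

variable {X : Type}

/-- the properties of a labelled map which are used here -/
structure Nice (L : LMap X) : Prop where
  s_mem : ∀ c ∈ L.D, L.s c ∈ L.D
  a_mem : ∀ c ∈ L.D, L.a c ∈ L.D
  a_a : ∀ c ∈ L.D, L.a (L.a c) = c
  si_mem : ∀ c ∈ L.D, L.si c ∈ L.D
  si_s : ∀ c ∈ L.D, L.si (L.s c) = c
  s_si : ∀ c ∈ L.D, L.s (L.si c) = c

variable {L L' L'' : LMap X} {e e' : X → X}

lemma tau_mem (h : Nice L) {c : X} (hc : c ∈ L.D) : L.tau c ∈ L.D := h.si_mem _ (h.a_mem _ hc)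

lemma tau'_mem (h : Nice L) {c : X} (hc : c ∈ L.D) : L.tau' c ∈ L.D := h.a_mem _ (h.s_mem _ hc)

lemma tau_iter_mem (h : Nice L) {c : X} (hc : c ∈ L.D) (n : ℕ) : L.tau^[n] c ∈ L.D := by
  induction n with
  | zero => exact hc
  | succ n ih => rw [Function.iterate_succ_apply']; exact tau_mem h ih

lemma tau'_iter_mem (h : Nice L) {c : X} (hc : c ∈ L.D) (n : ℕ) : L.tau'^[n] c ∈ L.D := by
  induction n with
  | zero => exact hc
  | succ n ih => rw [Function.iterate_succ_apply']; exact tau'_mem h ih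

lemma tau_tau' (h : Nice L) {c : X} (hc : c ∈ L.D) : L.tau (L.tau' c) = c := by
  unfold LMap.tau LMap.tau'
  rw [h.a_a _ (h.s_mem _ hc), h.si_s _ hc]

lemma iso_mem (h : LIso L L' e) {c : X} (hc : c ∈ L.D) : e c ∈ L'.D := h.bij.mapsTo hc

lemma iso_si (hL : Nice L) (hL' : Nice L') (h : LIso L L' e) {c : X} (hc : c ∈ L.D) :
    e (L.si c) = L'.si (e c) := by
  have h1 : e c = L'.s (e (L.si c)) := by
    rw [← h.s_comm _ (hL.si_mem _ hc), hL.s_si _ hc]
  rw [h1, hL'.si_s _ (iso_mem h (hL.si_mem _ hc))]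

lemma iso_tau (hL : Nice L) (hL' : Nice L') (h : LIso L L' e) {c : X} (hc : c ∈ L.D) :
    e (L.tau c) = L'.tau (e c) := by
  unfold LMap.tau
  rw [iso_si hL hL' h (hL.a_mem _ hc), h.a_comm _ hc]

lemma iso_tau' (hL : Nice L) (h : LIso L L' e) {c : X} (hc : c ∈ L.D) :
    e (L.tau' c) = L'.tau' (e c) := by
  unfold LMap.tau'
  rw [h.a_comm _ (hL.s_mem _ hc), h.s_comm _ hc]

lemma iso_tau_iter (hL : Nice L) (hL' : Nice L') (h : LIso L L' e) {c : X} (hc : c ∈ L.D)
    (n : ℕ) : e (L.tau^[n] c) = L'.tau^[n] (e c) := by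
  induction n with
  | zero => rfl
  | succ n ih =>
    rw [Function.iterate_succ_apply', Function.iterate_succ_apply',
      iso_tau hL hL' h (tau_iter_mem hL hc n), ih]

lemma iso_tau'_iter (hL : Nice L) (h : LIso L L' e) {c : X} (hc : c ∈ L.D)
    (n : ℕ) : e (L.tau'^[n] c) = L'.tau'^[n] (e c) := by
  induction n with
  | zero => rfl
  | succ n ih =>
    rw [Function.iterate_succ_apply', Function.iterate_succ_apply',
      iso_tau' hL h (tau'_iter_mem hL hc n), ih]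

lemma iso_comp (h : LIso L L' e) (h' : LIso L' L'' e') : LIso L L'' (e' ∘ e) where
  bij := h'.bij.comp h.bij
  s_comm c hc := by
    rw [Function.comp_apply, Function.comp_apply, h.s_comm _ hc, h'.s_comm _ (iso_mem h hc)]
  a_comm c hc := by
    rw [Function.comp_apply, Function.comp_apply, h.a_comm _ hc, h'.a_comm _ (iso_mem h hc)]
  l_comm c hc := by
    rw [Function.comp_apply, h'.l_comm _ (iso_mem h hc), h.l_comm _ hc]

end Iso

/-! ### the tree -/

variable {D : ℕ → ℕ}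

lemma tree_nice (hT : StmTree) (hD : ∀ k, 3 ≤ D k) (ω : List ℕ → ℕ) : Nice (tree D ω) := by
  obtain ⟨h1, h2, h3, h4, -⟩ := hT D ω hD
  exact ⟨h1.s_mem, h1.a_mem, h1.a_a, h2, h3, h4⟩

lemma rt_mem (hD : ∀ k, 3 ≤ D k) (ω : List ℕ → ℕ) : rt ∈ (tree D ω).D :=
  ⟨trivial, lt_of_lt_of_le (show (0 : ℕ) < 3 by norm_num) (hD _)⟩

/-- moving the root corner to `tau'` of it -/
def Tm (D : ℕ → ℕ) (ω : List ℕ → ℕ) : List ℕ → ℕ := flip (rot D ω)

/-- labels along the face, forward -/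
noncomputable def labF (D : ℕ → ℕ) (ω : List ℕ → ℕ) (n : ℕ) : ℕ :=
  (tree D ω).l ((tree D ω).tau^[n] rt)

/-- labels along the face, backward -/
noncomputable def labB (D : ℕ → ℕ) (ω : List ℕ → ℕ) (n : ℕ) : ℕ :=
  (tree D ω).l ((tree D ω).tau'^[n] rt)

lemma Tm_iso (hR : StmRotIso) (hF : StmFlipIso) (hD : ∀ k, 3 ≤ D k)
    (ω : List ℕ → ℕ) : ∃ e, LIso (tree D (Tm D ω)) (tree D ω) e ∧ e rt = (tree D ω).tau' rt := by
  obtain ⟨h1, h2⟩ := hR D ω hD
  obtain ⟨h3, h4⟩ := hF D (rot D ω) hD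
  refine ⟨_, iso_comp h3 h1, ?_⟩
  rw [Function.comp_apply, h4, h1.a_comm _ (rt_mem hD _), h2]
  rfl

lemma labB_T (hT : StmTree) (hR : StmRotIso) (hF : StmFlipIso) (hD : ∀ k, 3 ≤ D k)
    (ω : List ℕ → ℕ) (n : ℕ) : labB D (Tm D ω) n = labB D ω (n + 1) := by
  obtain ⟨e, he, he1⟩ := Tm_iso hR hF hD ω
  unfold labB
  rw [Function.iterate_succ_apply, ← he1,
    ← iso_tau'_iter (tree_nice hT hD _) he (rt_mem hD _),
    he.l_comm _ (tau'_iter_mem (tree_nice hT hD _) (rt_mem hD _) n)]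

lemma labF_T (hT : StmTree) (hR : StmRotIso) (hF : StmFlipIso) (hD : ∀ k, 3 ≤ D k)
    (ω : List ℕ → ℕ) (n : ℕ) : labF D (Tm D ω) (n + 1) = labF D ω n := by
  obtain ⟨e, he, he1⟩ := Tm_iso hR hF hD ω
  have h1 : (tree D ω).tau^[n] rt = (tree D ω).tau^[n + 1] (e rt) := by
    rw [Function.iterate_succ_apply, he1, tau_tau' (tree_nice hT hD ω) (rt_mem hD ω)]
  unfold labF
  rw [h1, ← iso_tau_iter (tree_nice hT hD _) (tree_nice hT hD _) he (rt_mem hD _),
    he.l_comm _ (tau_iter_mem (tree_nice hT hD _) (rt_mem hD _) _)]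

lemma labB_iter (hT : StmTree) (hR : StmRotIso) (hF : StmFlipIso) (hD : ∀ k, 3 ≤ D k)
    (ω : List ℕ → ℕ) (k n : ℕ) : labB D ((Tm D)^[k] ω) n = labB D ω (n + k) := by
  induction k generalizing n with
  | zero => rfl
  | succ k ih =>
    rw [Function.iterate_succ_apply', labB_T hT hR hF hD, ih]
    congr 1
    ring

lemma labF_iter (hT : StmTree) (hR : StmRotIso) (hF : StmFlipIso) (hD : ∀ k, 3 ≤ D k)
    (ω : List ℕ → ℕ) (k j : ℕ) (hj : j ≤ k) :
    labF D ((Tm D)^[k] ω) j = labB D ω (k - j) := by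
  induction k generalizing j with
  | zero =>
    obtain rfl : j = 0 := by omega
    rfl
  | succ k ih =>
    rcases j with _ | j
    · have : labF D ((Tm D)^[k + 1] ω) 0 = labB D ((Tm D)^[k + 1] ω) 0 := rfl
      rw [this, labB_iter hT hR hF hD]
      congr 1
      omega
    · rw [Function.iterate_succ_apply', labF_T hT hR hF hD, ih j (by omega)]
      congr 1
      omega

/-- the labels near the corner before the root corner -/
lemma lab_si_tau (hT : StmTree) (hR : StmRotIso) (hD : ∀ k, 3 ≤ D k)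
    (ω : List ℕ → ℕ) (n : ℕ) :
    (tree D (rot D ω)).l ((tree D (rot D ω)).tau^[n] ((tree D (rot D ω)).si rt)) =
      labF D ω n := by
  obtain ⟨h1, h2⟩ := hR D ω hD
  have h3 := (tree_nice hT hD (rot D ω)).si_mem _ (rt_mem hD _)
  rw [← h1.l_comm _ (tau_iter_mem (tree_nice hT hD _) h3 _),
    iso_tau_iter (tree_nice hT hD _) (tree_nice hT hD _) h1 h3,
    iso_si (tree_nice hT hD _) (tree_nice hT hD _) h1 (rt_mem hD _), h2,
    (tree_nice hT hD ω).si_s _ (rt_mem hD _)]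
  rfl

lemma lab_si_tau' (hT : StmTree) (hR : StmRotIso) (hD : ∀ k, 3 ≤ D k)
    (ω : List ℕ → ℕ) (n : ℕ) :
    (tree D (rot D ω)).l ((tree D (rot D ω)).tau'^[n] ((tree D (rot D ω)).si rt)) =
      labB D ω n := by
  obtain ⟨h1, h2⟩ := hR D ω hD
  have h3 := (tree_nice hT hD (rot D ω)).si_mem _ (rt_mem hD _)
  rw [← h1.l_comm _ (tau'_iter_mem (tree_nice hT hD _) h3 _),
    iso_tau'_iter (tree_nice hT hD _) h1 h3,
    iso_si (tree_nice hT hD _) (tree_nice hT hD _) h1 (rt_mem hD _), h2,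
    (tree_nice hT hD ω).si_s _ (rt_mem hD _)]
  rfl

/-! ### measurability -/

/-- measurability of a random corner -/
def DM (f : (List ℕ → ℕ) → List ℕ × ℕ) : Prop := ∀ c, MeasurableSet {ω | f ω = c}

lemma meas_dep (w : List ℕ) (P : ℕ → Prop) : MeasurableSet {ω : List ℕ → ℕ | P (ω w)} := by
  have : {ω : List ℕ → ℕ | P (ω w)} = (fun ω : List ℕ → ℕ => ω w) ⁻¹' {k | P k} := rfl
  rw [this]
  exact (measurable_pi_apply w) (MeasurableSet.of_discrete)

lemma DM_step {f : (List ℕ → ℕ) → List ℕ × ℕ} (hf : DM f)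
    (F : (List ℕ → ℕ) → List ℕ × ℕ → List ℕ × ℕ) (hF : ∀ c, DM fun ω => F ω c) :
    DM fun ω => F ω (f ω) := by
  intro c
  have : {ω | F ω (f ω) = c} = ⋃ c', {ω | f ω = c'} ∩ {ω | F ω c' = c} := by
    ext ω
    simp only [mem_ofPred_eq, mem_iUnion, mem_inter_iff]
    constructor
    · intro h
      exact ⟨f ω, rfl, h⟩
    · rintro ⟨c', rfl, h⟩
      exact h
  rw [this]
  exact MeasurableSet.iUnion fun c' => (hf c').inter (hF c' c)

lemma DM_const (c₀ : List ℕ × ℕ) : DM fun _ => c₀ := fun c => by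
  by_cases h : c₀ = c
  · simp [h]
  · simp [h]

lemma DM_si (D : ℕ → ℕ) (c : List ℕ × ℕ) : DM fun ω => (tree D ω).si c := fun c' => by
  exact meas_dep c.1 fun k => ((c.1, (c.2 + (D k - 1)) % D k) : List ℕ × ℕ) = c'

lemma DM_tau (D : ℕ → ℕ) (c : List ℕ × ℕ) : DM fun ω => (tree D ω).tau c := DM_si D (opp c)

lemma DM_tau' (D : ℕ → ℕ) (c : List ℕ × ℕ) : DM fun ω => (tree D ω).tau' c := fun c' => by
  exact meas_dep c.1 fun k => opp ((c.1, (c.2 + 1) % D k) : List ℕ × ℕ) = c'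

lemma DM_tau_iter (D : ℕ → ℕ) {f : (List ℕ → ℕ) → List ℕ × ℕ} (hf : DM f) (n : ℕ) :
    DM fun ω => (tree D ω).tau^[n] (f ω) := by
  induction n with
  | zero => exact hf
  | succ n ih =>
    simp only [Function.iterate_succ_apply']
    exact DM_step ih _ (DM_tau D)

lemma DM_tau'_iter (D : ℕ → ℕ) {f : (List ℕ → ℕ) → List ℕ × ℕ} (hf : DM f) (n : ℕ) :
    DM fun ω => (tree D ω).tau'^[n] (f ω) := by
  induction n with
  | zero => exact hf
  | succ n ih =>
    simp only [Function.iterate_succ_apply']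
    exact DM_step ih _ (DM_tau' D)

lemma meas_lab {f : (List ℕ → ℕ) → List ℕ × ℕ} (hf : DM f) (m : ℕ) :
    MeasurableSet {ω : List ℕ → ℕ | ω (f ω).1 < m} := by
  have : {ω : List ℕ → ℕ | ω (f ω).1 < m} = ⋃ c, {ω | f ω = c} ∩ {ω | ω c.1 < m} := by
    ext ω
    simp only [mem_ofPred_eq, mem_iUnion, mem_inter_iff]
    constructor
    · intro h
      exact ⟨f ω, rfl, h⟩
    · rintro ⟨c', rfl, h⟩
      exact h
  rw [this]
  exact MeasurableSet.iUnion fun c => (hf c).inter (meas_dep c.1 fun k => k < m)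

lemma meas_all {f : ℕ → (List ℕ → ℕ) → List ℕ × ℕ} (hf : ∀ j, DM (f j)) (m n : ℕ) :
    MeasurableSet {ω : List ℕ → ℕ | ∀ j < n, ω (f j ω).1 < m} := by
  have : {ω : List ℕ → ℕ | ∀ j < n, ω (f j ω).1 < m} =
      ⋂ j, ⋂ _ : j < n, {ω : List ℕ → ℕ | ω (f j ω).1 < m} := by
    ext ω
    simp
  rw [this]
  exact MeasurableSet.iInter fun j => MeasurableSet.iInter fun _ => meas_lab (hf j) m

/-! ### the geometric law -/

lemma sum_pow (m : ℕ) :
    ∑ k ∈ Finset.range m, (2 : ℝ≥0∞)⁻¹ ^ (k + 1) + (2 : ℝ≥0∞)⁻¹ ^ m = 1 := by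
  induction m with
  | zero => simp
  | succ m ih =>
    rw [Finset.sum_range_succ, add_assoc]
    have : (2 : ℝ≥0∞)⁻¹ ^ (m + 1) + (2 : ℝ≥0∞)⁻¹ ^ (m + 1) = (2 : ℝ≥0∞)⁻¹ ^ m := by
      rw [pow_succ, ← mul_add, ENNReal.inv_two_add_inv_two, mul_one]
    rw [this, ih]

lemma geo_apply (S : Set ℕ) :
    geo S = ∑' k : ℕ, (2 : ℝ≥0∞)⁻¹ ^ (k + 1) * S.indicator 1 k := by
  unfold geo
  rw [Measure.sum_apply _ MeasurableSet.of_discrete]
  refine tsum_congr fun k => ?_
  rw [Measure.smul_apply, Measure.dirac_apply, smul_eq_mul]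

lemma geo_univ : geo univ = 1 := by
  rw [geo_apply]
  simp only [indicator_univ, Pi.one_apply, mul_one]
  rw [ENNReal.tsum_geometric_add_one, ENNReal.one_sub_inv_two, inv_inv]
  exact ENNReal.inv_mul_cancel (by norm_num) (by norm_num)

instance : IsProbabilityMeasure geo := ⟨geo_univ⟩

lemma geo_lt (m : ℕ) : geo {k | k < m} = 1 - (2 : ℝ≥0∞)⁻¹ ^ m := by
  have h1 : geo {k | k < m} = ∑ k ∈ Finset.range m, (2 : ℝ≥0∞)⁻¹ ^ (k + 1) := by
    rw [geo_apply, tsum_eq_sum (s := Finset.range m)]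
    · refine Finset.sum_congr rfl fun k hk => ?_
      have : k ∈ {k | k < m} := Finset.mem_range.1 hk
      rw [indicator_of_mem this]
      simp
    · intro k hk
      have : k ∉ {k | k < m} := fun h => hk (Finset.mem_range.2 h)
      rw [indicator_of_notMem this]
      simp
  rw [h1]
  refine ENNReal.eq_sub_of_add_eq ?_ (sum_pow m)
  exact ENNReal.pow_ne_top (by norm_num)

lemma tau'_iter_rt (hD : ∀ k, 3 ≤ D k) (ω : List ℕ → ℕ) (j : ℕ) :
    (tree D ω).tau'^[j] rt = (List.replicate j 1, 0) := by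
  induction j with
  | zero => rfl
  | succ j ih =>
    rw [Function.iterate_succ_apply', ih]
    have h1 : (0 + 1) % D (ω (List.replicate j 1)) = 1 :=
      Nat.mod_eq_of_lt (lt_of_lt_of_le (by norm_num) (hD _))
    have h2 : (tree D ω).tau' (List.replicate j 1, 0) = opp (List.replicate j 1, 1) := by
      show opp (List.replicate j 1, (0 + 1) % D (ω (List.replicate j 1))) = _
      rw [h1]
    rw [h2]
    rcases j with _ | j
    · rfl
    · rfl

lemma mu_E0 (hD : ∀ k, 3 ≤ D k) (m n : ℕ) :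
    mu {ω | ∀ j < n, labB D ω j < m} = (1 - (2 : ℝ≥0∞)⁻¹ ^ m) ^ n := by
  have h1 : {ω | ∀ j < n, labB D ω j < m} =
      Set.pi ((Finset.range n).image fun j => List.replicate j 1 : Finset (List ℕ))
        (fun _ => {k | k < m}) := by
    ext ω
    have h2 : ∀ j, labB D ω j = ω (List.replicate j 1) := fun j => by
      unfold labB
      rw [tau'_iter_rt hD]
      rfl
    simp only [mem_ofPred_eq, Set.mem_pi, Finset.coe_image, Set.mem_image, Finset.coe_range,
      Set.mem_Iio, forall_exists_index, and_imp, forall_apply_eq_imp_iff₂, h2]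
  rw [h1]
  unfold mu
  rw [Measure.infinitePi_pi _ (fun _ _ => MeasurableSet.of_discrete), Finset.prod_const, geo_lt,
    Finset.card_image_of_injective, Finset.card_range]
  intro a b hab
  have := congrArg List.length hab
  simpa using this

/-! ### the law of the labels on the half-lines -/

lemma Tm_pres (hP : StmPres) (hD : ∀ k, 3 ≤ D k) : MeasurePreserving (Tm D) mu mu :=
  (hP D hD).2.comp (hP D hD).1

lemma mu_B1 (hT : StmTree) (hP : StmPres) (hR : StmRotIso) (hF : StmFlipIso) (hD : ∀ k, 3 ≤ D k)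
    (m n : ℕ) : mu {ω | ∀ j < n, labB D ω (j + 1) < m} = (1 - (2 : ℝ≥0∞)⁻¹ ^ m) ^ n := by
  have h1 := (Tm_pres hP hD).measure_preimage
    (meas_all (f := fun j ω => (tree D ω).tau'^[j] rt)
      (fun j => DM_tau'_iter D (DM_const rt) j) m n).nullMeasurableSet
  have h2 : {ω | ∀ j < n, labB D ω j < m} =
    {ω | ∀ j < n, ω ((fun j ω => (tree D ω).tau'^[j] rt) j ω).1 < m} := rfl
  rw [← mu_E0 hD, h2, ← h1]
  congr 1
  ext ω
  simp only [mem_ofPred_eq, Set.mem_preimage]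
  refine forall_congr' fun j => imp_congr_right fun _ => ?_
  rw [← labB_T hT hR hF hD]
  rfl

lemma mu_F1 (hT : StmTree) (hP : StmPres) (hR : StmRotIso) (hF : StmFlipIso) (hD : ∀ k, 3 ≤ D k)
    (m n : ℕ) : mu {ω | ∀ j < n, labF D ω (j + 1) < m} = (1 - (2 : ℝ≥0∞)⁻¹ ^ m) ^ n := by
  have h0 : MeasurePreserving ((Tm D)^[n]) mu mu := (Tm_pres hP hD).iterate n
  rw [← mu_E0 hD]
  have h1 := h0.measure_preimage
    (meas_all (f := fun j ω => (tree D ω).tau^[j + 1] rt)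
      (fun j => DM_tau_iter D (DM_const rt) (j + 1)) m n).nullMeasurableSet
  have h2 : {ω | ∀ j < n, labF D ω (j + 1) < m} =
    {ω | ∀ j < n, ω ((fun j ω => (tree D ω).tau^[j + 1] rt) j ω).1 < m} := rfl
  rw [h2, ← h1]
  congr 1
  ext ω
  simp only [mem_ofPred_eq, Set.mem_preimage]
  have h3 : ∀ j < n, ((Tm D)^[n] ω) ((tree D ((Tm D)^[n] ω)).tau^[j + 1] rt).1 =
      labB D ω (n - (j + 1)) := by
    intro j hj
    rw [← labF_iter hT hR hF hD ω n (j + 1) (by omega)]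
    rfl
  constructor
  · intro h j hj
    have := h (n - (j + 1)) (by omega)
    rw [h3 _ (by omega)] at this
    convert this using 2
    omega
  · intro h j hj
    rw [h3 j hj]
    exact h _ (by omega)

lemma mu_F0 (hT : StmTree) (hP : StmPres) (hR : StmRotIso) (hF : StmFlipIso) (hD : ∀ k, 3 ≤ D k)
    (m n : ℕ) : mu {ω | ∀ j < n, labF D ω j < m} = (1 - (2 : ℝ≥0∞)⁻¹ ^ m) ^ n := by
  have h1 := (Tm_pres hP hD).measure_preimage
    (meas_all (f := fun j ω => (tree D ω).tau^[j + 1] rt)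
      (fun j => DM_tau_iter D (DM_const rt) (j + 1)) m n).nullMeasurableSet
  have h2 : {ω | ∀ j < n, labF D ω (j + 1) < m} =
    {ω | ∀ j < n, ω ((fun j ω => (tree D ω).tau^[j + 1] rt) j ω).1 < m} := rfl
  rw [← mu_F1 hT hP hR hF hD, h2, ← h1]
  congr 1
  ext ω
  simp only [mem_ofPred_eq, Set.mem_preimage]
  refine forall_congr' fun j => imp_congr_right fun _ => ?_
  rw [← labF_T hT hR hF hD]
  rfl

end Window

open Window

theorem window : StmTree → StmPres → StmRotIso → StmFlipIso → StmWindow := by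
  intro hT hP hR hF D hD a m n
  fin_cases a
  · exact mu_E0 hD m n
  · exact mu_F1 hT hP hR hF hD m n
  · have h1 := (hP D hD).1.measure_preimage
      (meas_all (f := fun j ω => (tree D ω).tau^[j] ((tree D ω).si rt))
        (fun j => DM_tau_iter D (DM_si D rt) j) m n).nullMeasurableSet
    refine Eq.trans h1.symm ?_
    rw [← mu_F0 hT hP hR hF hD]
    congr 1
    ext ω
    simp only [mem_ofPred_eq, Set.mem_preimage]
    refine forall_congr' fun j => imp_congr_right fun _ => ?_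
    rw [← lab_si_tau hT hR hD]
    rfl
  · have h1 := (hP D hD).1.measure_preimage
      (meas_all (f := fun j ω => (tree D ω).tau'^[j + 1] ((tree D ω).si rt))
        (fun j => DM_tau'_iter D (DM_si D rt) (j + 1)) m n).nullMeasurableSet
    refine Eq.trans h1.symm ?_
    rw [← mu_B1 hT hP hR hF hD]
    congr 1
    ext ω
    simp only [mem_ofPred_eq, Set.mem_preimage]
    refine forall_congr' fun j => imp_congr_right fun _ => ?_
    rw [← lab_si_tau' hT hR hD]
    rfl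

/-! ### the tree is almost surely good -/

namespace Window

variable {D : ℕ → ℕ}

/-- unbounded labels on both half-lines at the root corner -/
def G0 (D : ℕ → ℕ) (ω : List ℕ → ℕ) : Prop :=
  ∀ m, (∃ n, 1 ≤ n ∧ m ≤ labF D ω n) ∧ ∃ n, 1 ≤ n ∧ m ≤ labB D ω n

lemma null_of {S : Set (List ℕ → ℕ)} (m : ℕ)
    (h : ∀ n : ℕ, mu S ≤ (1 - (2 : ℝ≥0∞)⁻¹ ^ m) ^ n) : mu S = 0 := by
  have h1 : (1 - (2 : ℝ≥0∞)⁻¹ ^ m) < 1 := by
    refine ENNReal.sub_lt_self (by norm_num) (by norm_num) ?_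
    exact pow_ne_zero _ (by norm_num)
  have h2 := ENNReal.tendsto_pow_atTop_nhds_zero_of_lt_one h1
  exact le_antisymm (ge_of_tendsto' h2 h) bot_le

lemma ae_G0 (hT : StmTree) (hP : StmPres) (hR : StmRotIso) (hF : StmFlipIso)
    (hD : ∀ k, 3 ≤ D k) : ∀ᵐ ω ∂mu, G0 D ω := by
  unfold G0
  rw [ae_all_iff]
  intro m
  rw [Filter.eventually_and]
  constructor
  · rw [ae_iff]
    refine null_of m fun n => ?_
    rw [← mu_F1 hT hP hR hF hD]
    refine measure_mono fun ω hω => ?_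
    simp only [mem_ofPred_eq, not_exists, not_and, not_le] at hω
    exact fun j _ => hω (j + 1) (by omega)
  · rw [ae_iff]
    refine null_of m fun n => ?_
    rw [← mu_B1 hT hP hR hF hD]
    refine measure_mono fun ω hω => ?_
    simp only [mem_ofPred_eq, not_exists, not_and, not_le] at hω
    exact fun j _ => hω (j + 1) (by omega)

/-- moving the root along a list of rotations and reversals -/
def mv (D : ℕ → ℕ) : List Bool → (List ℕ → ℕ) → (List ℕ → ℕ)
  | [], ω => ω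
  | b :: l, ω => if b = true then rot D (mv D l ω) else flip (mv D l ω)

lemma mv_pres (hP : StmPres) (hD : ∀ k, 3 ≤ D k) (l : List Bool) :
    MeasurePreserving (mv D l) mu mu := by
  induction l with
  | nil => exact MeasurePreserving.id mu
  | cons b l ih =>
    rcases b with _ | _
    · exact (hP D hD).2.comp ih
    · exact (hP D hD).1.comp ih

lemma reach_mv {ω ω' : List ℕ → ℕ} (h : Reach D ω ω') : ∃ l, ω' = mv D l ω := by
  induction h with
  | refl => exact ⟨[], rfl⟩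
  | tail _ h ih =>
    obtain ⟨l, hl⟩ := ih
    rcases h with h | h
    · exact ⟨true :: l, by rw [h, hl]; rfl⟩
    · exact ⟨false :: l, by rw [h, hl]; rfl⟩

lemma ae_reach (hT : StmTree) (hP : StmPres) (hR : StmRotIso) (hF : StmFlipIso)
    (hD : ∀ k, 3 ≤ D k) : ∀ᵐ ω ∂mu, ∀ ω', Reach D ω ω' → G0 D ω' := by
  have h1 : ∀ᵐ ω ∂mu, ∀ l : List Bool, G0 D (mv D l ω) := by
    rw [ae_all_iff]
    intro l
    exact (mv_pres hP hD l).quasiMeasurePreserving.ae (ae_G0 hT hP hR hF hD)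
  filter_upwards [h1] with ω hω ω' h
  obtain ⟨l, rfl⟩ := reach_mv h
  exact hω l

end Window

theorem good_ae : StmTree → StmPres → StmRotIso → StmFlipIso → StmReroot → StmWindow →
    StmGoodAE := by
  intro hT hP hR hF hre _ D hD
  filter_upwards [ae_reach hT hP hR hF hD] with ω hω
  obtain ⟨h1, h2, h3, h4, -⟩ := hT D ω hD
  refine ⟨h1, h2, h3, h4, fun c _ => rfl, ?_, ?_⟩
  · intro c hc m
    obtain ⟨ω', e, hr, he, rfl⟩ := hre D ω hD c hc
    obtain ⟨n, hn, hm⟩ := (hω ω' hr m).1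
    refine ⟨n, hn, ?_⟩
    rw [← iso_tau_iter (tree_nice hT hD _) (tree_nice hT hD _) he (rt_mem hD _),
      he.l_comm _ (tau_iter_mem (tree_nice hT hD _) (rt_mem hD _) _)]
    exact hm
  · intro c hc m
    obtain ⟨ω', e, hr, he, rfl⟩ := hre D ω hD c hc
    obtain ⟨n, hn, hm⟩ := (hω ω' hr m).2
    refine ⟨n, hn, ?_⟩
    rw [← iso_tau'_iter (tree_nice hT hD _) he (rt_mem hD _),
      he.l_comm _ (tau'_iter_mem (tree_nice hT hD _) (rt_mem hD _) _)]
    exact hm

/-! ### the event -/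

namespace Window

lemma exists_n (i : ℕ) : ∃ n : ℕ,
    4 * (1 - (2 : ℝ≥0∞)⁻¹ ^ (i + 1)) ^ n ≤ (2 : ℝ≥0∞)⁻¹ ^ (i + 2) := by
  have h1 : (1 - (2 : ℝ≥0∞)⁻¹ ^ (i + 1)) < 1 := by
    refine ENNReal.sub_lt_self (by norm_num) (by norm_num) ?_
    exact pow_ne_zero _ (by norm_num)
  have h2 := ENNReal.Tendsto.const_mul (a := 4)
    (ENNReal.tendsto_pow_atTop_nhds_zero_of_lt_one h1) (Or.inr (by norm_num))
  rw [mul_zero] at h2
  have h3 : (0 : ℝ≥0∞) < (2 : ℝ≥0∞)⁻¹ ^ (i + 2) := by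
    have : (2 : ℝ≥0∞)⁻¹ ^ (i + 2) ≠ 0 := pow_ne_zero _ (by norm_num)
    exact pos_iff_ne_zero.2 this
  obtain ⟨n, hn⟩ := (h2.eventually (gt_mem_nhds h3)).exists
  exact ⟨n, hn.le⟩

lemma tsum_le : ∑' i : ℕ, (2 : ℝ≥0∞)⁻¹ ^ (i + 2) = (2 : ℝ≥0∞)⁻¹ := by
  have h1 : ∀ i : ℕ, (2 : ℝ≥0∞)⁻¹ ^ (i + 2) = (2 : ℝ≥0∞)⁻¹ ^ (i + 1) * (2 : ℝ≥0∞)⁻¹ :=
    fun i => by ring
  simp only [h1]
  rw [ENNReal.tsum_mul_right, ENNReal.tsum_geometric_add_one, ENNReal.one_sub_inv_two, inv_inv,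
    ENNReal.inv_mul_cancel (by norm_num) (by norm_num), one_mul]

end Window

theorem event : StmProb → StmWindow → StmEvent := by
  intro hP hW
  have : IsProbabilityMeasure mu := hP.2.1
  choose n hn using exists_n
  refine ⟨n, fun D hD => ?_⟩
  have h1 : {ω | Ev D n ω}ᶜ ⊆ ⋃ i : ℕ, ⋃ a : Fin 4,
      {ω | ∀ j < n i, ω (half D ω a j).1 < i + 1} := by
    intro ω hω
    simp only [mem_compl_iff, mem_ofPred_eq, Ev, not_forall, not_exists, not_and, not_le] at hω
    obtain ⟨a, i, h⟩ := hω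
    simp only [mem_iUnion, mem_ofPred_eq]
    exact ⟨i, a, fun j hj => h j hj⟩
  have h2 : mu {ω | Ev D n ω}ᶜ ≤ (2 : ℝ≥0∞)⁻¹ := by
    calc mu {ω | Ev D n ω}ᶜ ≤ mu (⋃ i : ℕ, ⋃ a : Fin 4,
          {ω | ∀ j < n i, ω (half D ω a j).1 < i + 1}) := measure_mono h1
      _ ≤ ∑' i : ℕ, mu (⋃ a : Fin 4, {ω | ∀ j < n i, ω (half D ω a j).1 < i + 1}) :=
          measure_iUnion_le _
      _ ≤ ∑' i : ℕ, (2 : ℝ≥0∞)⁻¹ ^ (i + 2) := by
          refine ENNReal.tsum_le_tsum fun i => ?_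
          refine (measure_iUnion_fintype_le _ _).trans ?_
          refine le_trans (le_of_eq ?_) (hn i)
          rw [Finset.sum_congr rfl fun a _ => hW D hD a (i + 1) (n i)]
          rw [Finset.sum_const, Finset.card_univ, Fintype.card_fin, nsmul_eq_mul]
          norm_num
      _ = _ := tsum_le
  have h3 : (1 : ℝ≥0∞) ≤ mu {ω | Ev D n ω} + (2 : ℝ≥0∞)⁻¹ := by
    calc (1 : ℝ≥0∞) = mu univ := (measure_univ).symm
      _ ≤ mu ({ω | Ev D n ω} ∪ {ω | Ev D n ω}ᶜ) := measure_mono (by simp)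
      _ ≤ mu {ω | Ev D n ω} + mu {ω | Ev D n ω}ᶜ := measure_union_le _ _
      _ ≤ _ := by gcongr
  rw [pos_iff_ne_zero]
  intro h4
  rw [h4, zero_add] at h3
  have h5 : (2 : ℝ≥0∞)⁻¹ < 1 := ENNReal.inv_lt_one.2 (by norm_num)
  exact absurd h3 (not_le.2 h5)

end Pool.Agent.N276.MB
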